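import Pool.Agent.Lib.MP_eee7b5_an.Sol

set_option autoImplicit false

/-!
The barrier.
-/

namespace Pool.Agent.Lib.MP_eee7b5_an

open MeasureTheory Set Matrix
open scoped ENNReal

variable {d : ℕ}

/-- `q(t,x,v) = |v|²/t - 3 x·v/t² + 3 |x|²/t³`. -/
noncomputable def qB (p : ST d) : ℝ :=
  ‖p.2.2‖ ^ 2 / p.1 - 3 * inner ℝ p.2.1 p.2.2 / p.1 ^ 2 + 3 * ‖p.2.1‖ ^ 2 / p.1 ^ 3

/-- `Γ = t^{-P} exp(-q/lam)`. -/
noncomputable def Gam (lam : ℝ) (P : ℕ) (p : ST d) : ℝ :=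
  (p.1 ^ P)⁻¹ * Real.exp (-(qB p / lam))

theorem qB_lower {p : ST d} (ht : 0 < p.1) :
    (1 / 10) * (‖p.2.2‖ ^ 2 / p.1 + ‖p.2.1‖ ^ 2 / p.1 ^ 3) ≤ qB p := by
  unfold qB
  have hI := real_inner_le_norm p.2.1 p.2.2
  have hX := norm_nonneg p.2.1
  have hV := norm_nonneg p.2.2
  generalize inner ℝ p.2.1 p.2.2 = I at *
  generalize ‖p.2.1‖ = X at *
  generalize ‖p.2.2‖ = V at *
  generalize p.1 = t at *
  have hk : 0 ≤ (9 / 10) * (t * V) ^ 2 - 3 * (t * I) + (29 / 10) * X ^ 2 := by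
    have h1 : t * I ≤ t * (X * V) := mul_le_mul_of_nonneg_left hI ht.le
    nlinarith [sq_nonneg (9 * (t * V) - 15 * X), sq_nonneg X]
  have he : V ^ 2 / t - 3 * I / t ^ 2 + 3 * X ^ 2 / t ^ 3 -
      (1 / 10) * (V ^ 2 / t + X ^ 2 / t ^ 3) =
      ((9 / 10) * (t * V) ^ 2 - 3 * (t * I) + (29 / 10) * X ^ 2) / t ^ 3 := by
    field_simp
    ring
  have := div_nonneg hk (pow_pos ht 3).le
  linarith

theorem qB_upper {p : ST d} (ht : 0 < p.1) :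
    qB p ≤ 5 * (‖p.2.2‖ ^ 2 / p.1 + ‖p.2.1‖ ^ 2 / p.1 ^ 3) := by
  unfold qB
  have hI := neg_le_of_abs_le (abs_real_inner_le_norm p.2.1 p.2.2)
  have hX := norm_nonneg p.2.1
  have hV := norm_nonneg p.2.2
  generalize inner ℝ p.2.1 p.2.2 = I at *
  generalize ‖p.2.1‖ = X at *
  generalize ‖p.2.2‖ = V at *
  generalize p.1 = t at *
  have hk : 0 ≤ 4 * (t * V) ^ 2 + 3 * (t * I) + 2 * X ^ 2 := by
    have h1 : -(t * (X * V)) ≤ t * I := by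
      have := mul_le_mul_of_nonneg_left hI ht.le
      linarith
    nlinarith [sq_nonneg (8 * (t * V) - 3 * X), sq_nonneg X]
  have he : 5 * (V ^ 2 / t + X ^ 2 / t ^ 3) - (V ^ 2 / t - 3 * I / t ^ 2 + 3 * X ^ 2 / t ^ 3) =
      (4 * (t * V) ^ 2 + 3 * (t * I) + 2 * X ^ 2) / t ^ 3 := by
    field_simp
    ring
  have := div_nonneg hk (pow_pos ht 3).le
  linarith

end Pool.Agent.Lib.MP_eee7b5_an
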