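import Pool.Agent.Lib.MP_eee7b5_an.Sol
import Pool.Agent.Lib.MP_eee7b5_an.BarA

set_option autoImplicit false

/-!
The barrier.
-/

namespace Pool.Agent.Lib.MP_eee7b5_an

open MeasureTheory Set Matrix
open scoped ENNReal

variable {d : ℕ}

/-- `q_v`. -/
noncomputable def barB_qv (p : ST d) : E d := (2 / p.1) • p.2.2 - (3 / p.1 ^ 2) • p.2.1

/-- `q_x`. -/
noncomputable def barB_qx (p : ST d) : E d := (6 / p.1 ^ 3) • p.2.1 - (3 / p.1 ^ 2) • p.2.2

/-- `q_t`. -/
noncomputable def barB_qt (p : ST d) : ℝ :=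
  -(‖p.2.2‖ ^ 2 / p.1 ^ 2) + 6 * inner ℝ p.2.1 p.2.2 / p.1 ^ 3 - 9 * ‖p.2.1‖ ^ 2 / p.1 ^ 4

theorem barB_dt {lam : ℝ} (P : ℕ) (p : ST d) (ht : 0 < p.1) :
    HasDerivAt (fun s => Gam lam P (s, p.2.1, p.2.2))
      (Gam lam P p * (-(P : ℝ) / p.1 - barB_qt p / lam)) p.1 := by
  obtain ⟨t, x, v⟩ := p
  simp only at ht ⊢
  have hi : HasDerivAt (fun s : ℝ => s⁻¹) (-(t ^ 2)⁻¹) t := hasDerivAt_inv ht.ne'
  have h1 : HasDerivAt (fun s : ℝ => (s ^ P)⁻¹) (-((P : ℝ) / t) * (t ^ P)⁻¹) t := by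
    have h := hi.fun_pow P
    have e1 : (fun s : ℝ => (s ^ P)⁻¹) = fun s : ℝ => (s⁻¹) ^ P := by
      funext s; rw [inv_pow]
    rw [e1]
    refine h.congr_deriv ?_
    rcases P with _ | k
    · simp
    · rw [Nat.add_sub_cancel]
      push_cast
      have := ht.ne'
      rw [inv_pow]
      field_simp
      ring
  have h2 : HasDerivAt (fun s : ℝ => qB (s, x, v)) (barB_qt (t, x, v)) t := by
    have e2 : (fun s : ℝ => qB (s, x, v)) = fun s : ℝ => ‖v‖ ^ 2 * s⁻¹ -
        (3 * inner ℝ x v) * (s⁻¹) ^ 2 + (3 * ‖x‖ ^ 2) * (s⁻¹) ^ 3 := by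
      funext s
      simp only [qB, div_eq_mul_inv, inv_pow]
    rw [e2]
    have h := ((hi.const_mul (‖v‖ ^ 2)).fun_sub ((hi.fun_pow 2).const_mul (3 * inner ℝ x v))).fun_add
      ((hi.fun_pow 3).const_mul (3 * ‖x‖ ^ 2))
    refine h.congr_deriv ?_
    simp only [barB_qt, show (2 : ℕ) - 1 = 1 from rfl, show (3 : ℕ) - 1 = 2 from rfl]
    push_cast
    have := ht.ne'
    field_simp
    ring
  have h3 := (h2.div_const lam).neg.exp
  have h4 := h1.fun_mul h3
  have e4 : (fun s => Gam lam P (s, x, v)) = fun s : ℝ => (s ^ P)⁻¹ *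
      Real.exp (-(qB (s, x, v) / lam)) := by
    funext s; rfl
  rw [e4]
  refine h4.congr_deriv ?_
  simp only [Gam, Pi.neg_apply]
  ring

theorem barB_nsq (x : E d) :
    HasFDerivAt (fun y : E d => ‖y‖ ^ 2) (2 • (innerSL ℝ x)) x :=
  (hasStrictFDerivAt_norm_sq x).hasFDerivAt

theorem barB_dx {lam : ℝ} (P : ℕ) (p : ST d) (ht : 0 < p.1) :
    HasFDerivAt (fun y => Gam lam P (p.1, y, p.2.2))
      (-(Gam lam P p / lam) • (innerSL ℝ (barB_qx p))) p.2.1 := by
  obtain ⟨t, x, v⟩ := p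
  simp only at ht ⊢
  have hin : HasFDerivAt (fun y : E d => inner ℝ y v) (innerSL ℝ v) x := by
    have h := (innerSL ℝ v).hasFDerivAt (x := x)
    have e : (fun y : E d => (inner ℝ y v : ℝ)) = fun y => innerSL ℝ v y := by
      funext y; rw [innerSL_apply_apply, real_inner_comm]
    rw [e]; exact h
  have h2 : HasFDerivAt (fun y : E d => qB (t, y, v)) (innerSL ℝ (barB_qx (t, x, v))) x := by
    have h := ((hasFDerivAt_const (‖v‖ ^ 2 / t) x).fun_sub ((hin.const_mul 3).mul_const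
      ((t ^ 2)⁻¹))).fun_add (((barB_nsq x).const_mul 3).mul_const ((t ^ 3)⁻¹))
    have e2 : (fun y : E d => qB (t, y, v)) = fun y : E d => ‖v‖ ^ 2 / t -
        3 * inner ℝ y v * (t ^ 2)⁻¹ + 3 * ‖y‖ ^ 2 * (t ^ 3)⁻¹ := by
      funext s
      simp only [qB, div_eq_mul_inv]
    rw [e2]
    refine h.congr_fderiv ?_
    ext w
    simp only [barB_qx, innerSL_apply_apply, inner_sub_left, real_inner_smul_left,
      _root_.zero_sub, ContinuousLinearMap.add_apply, ContinuousLinearMap.neg_apply,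
      ContinuousLinearMap.smul_apply, smul_eq_mul, nsmul_eq_mul]
    push_cast
    ring
  have h3 := ((h2.mul_const (lam⁻¹)).fun_neg).exp
  have h4 := h3.const_mul ((t ^ P)⁻¹)
  have e4 : (fun y => Gam lam P (t, y, v)) = fun y : E d => (t ^ P)⁻¹ *
      Real.exp (-(qB (t, y, v) * lam⁻¹)) := by
    funext s; simp only [Gam, div_eq_mul_inv]
  rw [e4]
  refine h4.congr_fderiv ?_
  ext w
  simp only [Gam, ContinuousLinearMap.smul_apply, ContinuousLinearMap.neg_apply, smul_eq_mul,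
    innerSL_apply_apply, div_eq_mul_inv]
  ring

theorem barB_dv {lam : ℝ} (P : ℕ) (p : ST d) (ht : 0 < p.1) :
    HasFDerivAt (fun w => Gam lam P (p.1, p.2.1, w))
      (-(Gam lam P p / lam) • (innerSL ℝ (barB_qv p))) p.2.2 := by
  obtain ⟨t, x, v⟩ := p
  simp only at ht ⊢
  have hin : HasFDerivAt (fun y : E d => inner ℝ x y) (innerSL ℝ x) v :=
    (innerSL ℝ x).hasFDerivAt (x := v)
  have h2 : HasFDerivAt (fun y : E d => qB (t, x, y)) (innerSL ℝ (barB_qv (t, x, v))) v := by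
    have h := (((barB_nsq v).mul_const (t⁻¹)).fun_sub ((hin.const_mul 3).mul_const
      ((t ^ 2)⁻¹))).fun_add (hasFDerivAt_const (3 * ‖x‖ ^ 2 / t ^ 3) v)
    have e2 : (fun y : E d => qB (t, x, y)) = fun y : E d => ‖y‖ ^ 2 * t⁻¹ -
        3 * inner ℝ x y * (t ^ 2)⁻¹ + 3 * ‖x‖ ^ 2 / t ^ 3 := by
      funext s
      simp only [qB, div_eq_mul_inv]
    rw [e2]
    refine h.congr_fderiv ?_
    ext w
    simp only [barB_qv, innerSL_apply_apply, inner_sub_left, real_inner_smul_left,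
      _root_.add_zero, ContinuousLinearMap.sub_apply,
      ContinuousLinearMap.smul_apply, smul_eq_mul, nsmul_eq_mul]
    push_cast
    ring
  have h3 := ((h2.mul_const (lam⁻¹)).fun_neg).exp
  have h4 := h3.const_mul ((t ^ P)⁻¹)
  have e4 : (fun y => Gam lam P (t, x, y)) = fun y : E d => (t ^ P)⁻¹ *
      Real.exp (-(qB (t, x, y) * lam⁻¹)) := by
    funext s; simp only [Gam, div_eq_mul_inv]
  rw [e4]
  refine h4.congr_fderiv ?_
  ext w
  simp only [Gam, ContinuousLinearMap.smul_apply, ContinuousLinearMap.neg_apply, smul_eq_mul,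
    innerSL_apply_apply, div_eq_mul_inv]
  ring

/-- the real inner product as a bilinear map. -/
noncomputable def barB_in (d : ℕ) : E d →L[ℝ] E d →L[ℝ] ℝ :=
  (LinearMap.mkContinuous₂ (innerₗ (E d)) 1 (fun x y => by
    rw [innerₗ_apply_apply, one_mul]; exact norm_inner_le_norm x y))

theorem barB_in_apply (x y : E d) : barB_in d x y = inner ℝ x y := by
  simp [barB_in]

theorem barB_in_eq (x : E d) : barB_in d x = innerSL ℝ x := by
  ext y; simp [barB_in]

/-- second derivative. -/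
noncomputable def barB_vv (lam : ℝ) (P : ℕ) (p : ST d) : E d →L[ℝ] E d →L[ℝ] ℝ :=
  (Gam lam P p / lam ^ 2) • ((innerSL ℝ (barB_qv p)).smulRight (innerSL ℝ (barB_qv p)))
    - (2 * Gam lam P p / (lam * p.1)) • barB_in d

theorem barB_vv_apply (lam : ℝ) (P : ℕ) (p : ST d) (h k : E d) :
    barB_vv lam P p h k = (Gam lam P p / lam ^ 2) * (inner ℝ (barB_qv p) h * inner ℝ (barB_qv p) k)
      - (2 * Gam lam P p / (lam * p.1)) * inner ℝ h k := by
  simp only [barB_vv, ContinuousLinearMap.sub_apply, ContinuousLinearMap.smul_apply,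
    ContinuousLinearMap.smulRight_apply, smul_eq_mul, innerSL_apply_apply, barB_in_apply]

theorem barB_dvv {lam : ℝ} (P : ℕ) (p : ST d) (ht : 0 < p.1) :
    HasFDerivAt (fun w => (-(Gam lam P (p.1, p.2.1, w) / lam) •
      (innerSL ℝ (barB_qv (p.1, p.2.1, w))) : E d →L[ℝ] ℝ)) (barB_vv lam P p) p.2.2 := by
  have h1 := barB_dv (lam := lam) P p ht
  obtain ⟨t, x, v⟩ := p
  simp only at ht h1 ⊢
  have hq : HasFDerivAt (fun w : E d => barB_qv (t, x, w))
      ((2 / t) • ContinuousLinearMap.id ℝ (E d)) v := by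
    have h := ((hasFDerivAt_id (𝕜 := ℝ) v).fun_const_smul (2 / t)).sub_const ((3 / t ^ 2) • x)
    exact h
  have hq2 : HasFDerivAt (fun w : E d => innerSL ℝ (barB_qv (t, x, w)))
      ((barB_in d).comp ((2 / t) • ContinuousLinearMap.id ℝ (E d))) v := by
    have h := ((barB_in d).hasFDerivAt).comp v hq
    have e : (fun w : E d => innerSL ℝ (barB_qv (t, x, w))) =
        (barB_in d) ∘ (fun w : E d => barB_qv (t, x, w)) := by
      funext w; exact (barB_in_eq _).symm
    rw [e]; exact h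
  have h2 := ((h1.mul_const (lam⁻¹)).fun_neg).fun_smul hq2
  have e : (fun w : E d => (-(Gam lam P (t, x, w) / lam) • (innerSL ℝ (barB_qv (t, x, w))) :
      E d →L[ℝ] ℝ)) = fun w : E d => -(Gam lam P (t, x, w) * lam⁻¹) •
        (innerSL ℝ (barB_qv (t, x, w))) := by
    funext w; rw [div_eq_mul_inv]
  rw [e]
  refine h2.congr_fderiv ?_
  ext h k
  rw [barB_vv_apply]
  simp only [ContinuousLinearMap.add_apply, ContinuousLinearMap.smul_apply,
    ContinuousLinearMap.smulRight_apply, ContinuousLinearMap.neg_apply, smul_eq_mul,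
    innerSL_apply_apply, ContinuousLinearMap.comp_apply, ContinuousLinearMap.id_apply,
    map_smul, barB_in_apply]
  by_cases hl : lam = 0
  · subst hl; simp
  · have := ht.ne'
    field_simp
    ring

/-- `Γ` is a classical strict-type subsolution: its derivatives at `p`, `p.1 > 0`, and the
inequality `Γ_t + v·∇_x Γ ≤ tr (A D_v² Γ)` for every `lam ≤ A ≤ Lam`,
as soon as `2 d Lam / lam ≤ P`. -/
theorem Gam_sub {lam Lam : ℝ} (hlam : 0 < lam) (hLam : lam ≤ Lam) {P : ℕ}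
    (hP : 2 * d * Lam / lam ≤ P) :
    ∃ (Gt : ST d → ℝ) (Gx Gv : ST d → (E d →L[ℝ] ℝ)) (Gvv : ST d → (E d →L[ℝ] E d →L[ℝ] ℝ)),
      ∀ p : ST d, 0 < p.1 →
        HasDerivAt (fun s => Gam lam P (s, p.2.1, p.2.2)) (Gt p) p.1 ∧
        HasFDerivAt (fun y => Gam lam P (p.1, y, p.2.2)) (Gx p) p.2.1 ∧
        HasFDerivAt (fun w => Gam lam P (p.1, p.2.1, w)) (Gv p) p.2.2 ∧
        HasFDerivAt (fun w => Gv (p.1, p.2.1, w)) (Gvv p) p.2.2 ∧
        ∀ a : Matrix (Fin d) (Fin d) ℝ, a.IsSymm →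
          (∀ ξ : Fin d → ℝ, lam * (ξ ⬝ᵥ ξ) ≤ ξ ⬝ᵥ (a *ᵥ ξ) ∧ ξ ⬝ᵥ (a *ᵥ ξ) ≤ Lam * (ξ ⬝ᵥ ξ)) →
          Gt p + Gx p p.2.2 ≤ ∑ i, ∑ j, a i j *
            Gvv p (EuclideanSpace.single i (1 : ℝ)) (EuclideanSpace.single j (1 : ℝ)) := by
  refine ⟨fun p => Gam lam P p * (-(P : ℝ) / p.1 - barB_qt p / lam),
    fun p => -(Gam lam P p / lam) • (innerSL ℝ (barB_qx p)),
    fun p => -(Gam lam P p / lam) • (innerSL ℝ (barB_qv p)), barB_vv lam P, ?_⟩
  intro p ht
  refine ⟨barB_dt P p ht, barB_dx P p ht, barB_dv P p ht, barB_dvv P p ht, ?_⟩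
  intro a _ hell
  -- the trace
  have htr : ∑ i, a i i ≤ d * Lam := by
    calc ∑ i, a i i ≤ ∑ _i : Fin d, Lam := by
          apply Finset.sum_le_sum
          intro i _
          have h := (hell (Pi.single i 1)).2
          simpa using h
      _ = d * Lam := by simp
  -- the quadratic form
  set q : E d := barB_qv p with hq
  have hquad : lam * ‖q‖ ^ 2 ≤ ∑ i, ∑ j, a i j * (q i * q j) := by
    have h := (hell (fun i => q i)).1
    have e1 : ((fun i => q i) ⬝ᵥ (fun i => q i) : ℝ) = ‖q‖ ^ 2 := by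
      rw [EuclideanSpace.norm_sq_eq]
      simp only [dotProduct, Real.norm_eq_abs, sq_abs]
      exact Finset.sum_congr rfl (fun i _ => (sq (q i)).symm)
    have e2 : ((fun i => q i) ⬝ᵥ (a *ᵥ (fun i => q i)) : ℝ) = ∑ i, ∑ j, a i j * (q i * q j) := by
      simp only [dotProduct, mulVec, Finset.mul_sum]
      refine Finset.sum_congr rfl (fun i _ => Finset.sum_congr rfl (fun j _ => ?_))
      ring
    rw [e1, e2] at h
    exact h
  have hsum : ∑ i, ∑ j, a i j * barB_vv lam P p (EuclideanSpace.single i (1 : ℝ))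
      (EuclideanSpace.single j (1 : ℝ)) = (Gam lam P p / lam ^ 2) *
        (∑ i, ∑ j, a i j * (q i * q j)) - (2 * Gam lam P p / (lam * p.1)) * ∑ i, a i i := by
    have e : ∀ i j : Fin d, a i j * barB_vv lam P p (EuclideanSpace.single i (1 : ℝ))
        (EuclideanSpace.single j (1 : ℝ)) = (Gam lam P p / lam ^ 2) * (a i j * (q i * q j)) -
          (2 * Gam lam P p / (lam * p.1)) * (if i = j then a i i else 0) := by
      intro i j
      rw [barB_vv_apply, ← hq]
      have i1 : ∀ k : Fin d, inner ℝ q (EuclideanSpace.single k (1 : ℝ)) = q k := by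
        intro k
        rw [real_inner_comm, EuclideanSpace.inner_single_left]; simp
      rw [i1, i1, EuclideanSpace.inner_single_left]
      by_cases hij : i = j
      · subst hij; simp; ring
      · have : (EuclideanSpace.single j (1 : ℝ) : E d) i = 0 := by
          simp [hij]
        rw [this]; simp [hij]; ring
    simp only [e, Finset.sum_sub_distrib, ← Finset.mul_sum, Finset.sum_ite_eq, Finset.mem_univ,
      if_true]
  have hGpos : 0 < Gam lam P p := by
    unfold Gam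
    have : 0 < p.1 ^ P := pow_pos ht P
    positivity
  -- identity
  have hid : barB_qt p + inner ℝ (barB_qx p) p.2.2 = - ‖q‖ ^ 2 := by
    rw [hq]
    have e1 : ‖barB_qv p‖ ^ 2 = inner ℝ (barB_qv p) (barB_qv p) :=
      (real_inner_self_eq_norm_sq _).symm
    rw [e1]
    simp only [barB_qt, barB_qx, barB_qv, inner_sub_left, inner_sub_right, real_inner_smul_left,
      real_inner_smul_right, ← real_inner_self_eq_norm_sq, real_inner_comm p.2.1 p.2.2]
    have := ht.ne'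
    field_simp
    ring
  simp only [ContinuousLinearMap.smul_apply, innerSL_apply_apply, smul_eq_mul]
  rw [hsum]
  have hL : Gam lam P p * (-(P : ℝ) / p.1 - barB_qt p / lam) +
      -(Gam lam P p / lam) * inner ℝ (barB_qx p) p.2.2 =
      Gam lam P p * (-(P : ℝ) / p.1 + ‖q‖ ^ 2 / lam) := by
    have : barB_qt p = - ‖q‖ ^ 2 - inner ℝ (barB_qx p) p.2.2 := by linarith
    rw [this]
    field_simp
    ring
  rw [hL]
  have hR : Gam lam P p / lam ^ 2 * (∑ i, ∑ j, a i j * (q i * q j)) -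
      2 * Gam lam P p / (lam * p.1) * ∑ i, a i i = Gam lam P p *
        ((∑ i, ∑ j, a i j * (q i * q j)) / lam ^ 2 - 2 * (∑ i, a i i) / (lam * p.1)) := by
    ring
  rw [hR]
  apply mul_le_mul_of_nonneg_left _ hGpos.le
  have k1 : ‖q‖ ^ 2 / lam ≤ (∑ i, ∑ j, a i j * (q i * q j)) / lam ^ 2 := by
    rw [div_le_div_iff₀ hlam (by positivity)]
    nlinarith [hquad, hlam]
  have k2 : 2 * (∑ i, a i i) / (lam * p.1) ≤ (P : ℝ) / p.1 := by
    rw [div_le_div_iff₀ (by positivity) ht]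
    have h3 : 2 * d * Lam ≤ P * lam := by
      rwa [div_le_iff₀ hlam] at hP
    have h4 : 2 * (∑ i, a i i) ≤ P * lam := by linarith
    nlinarith [mul_le_mul_of_nonneg_right h4 ht.le]
  have k3 : -(P : ℝ) / p.1 = -((P : ℝ) / p.1) := by ring
  rw [k3]
  linarith

end Pool.Agent.Lib.MP_eee7b5_an
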