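import Pool.Agent.Lib.MP_eee7b5_an.Sol
import Pool.Agent.Lib.MP_eee7b5_an.BarA
import Pool.Agent.Lib.MP_eee7b5_an.BarB

set_option autoImplicit false

/-!
The barrier.
-/

namespace Pool.Agent.Lib.MP_eee7b5_an

open MeasureTheory Set Matrix
open scoped ENNReal

variable {d : ℕ}

/-- The closed region on which the comparison principle is applied. -/
def RegC (d : ℕ) (T R : ℝ) : Set (ST d) :=
  Icc (0 : ℝ) T ×ˢ Metric.closedBall 0 (R ^ 3) ×ˢ Metric.closedBall 0 R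

/-- necessary second order condition at a local minimum -/
theorem barC_second {h h' : ℝ → ℝ} {c : ℝ} (hmin : IsLocalMin h 0)
    (hd : ∀ᶠ s in nhds (0 : ℝ), HasDerivAt h (h' s) s) (hdd : HasDerivAt h' c 0) : 0 ≤ c := by
  by_contra hc
  push Not at hc
  have h0 : h' 0 = 0 := hmin.hasDerivAt_eq_zero hd.self_of_nhds
  have h1 := hasDerivAt_iff_tendsto_slope.1 hdd
  have h2 : ∀ᶠ s in nhdsWithin (0 : ℝ) {0}ᶜ, slope h' 0 s < 0 := h1.eventually_lt_const hc
  rw [eventually_nhdsWithin_iff] at h2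
  obtain ⟨δ, hδ, h3⟩ := Metric.eventually_nhds_iff.1 (hd.and (h2.and hmin))
  have hs : ∀ s : ℝ, 0 ≤ s → s < δ → dist s 0 < δ := by
    intro s hs0 hs1
    rw [Real.dist_eq, sub_zero, abs_of_nonneg hs0]
    exact hs1
  have h4 : ∃ ξ ∈ Ioo (0 : ℝ) (δ / 2), h' ξ = (h (δ / 2) - h 0) / (δ / 2 - 0) := by
    refine exists_hasDerivAt_eq_slope h h' (by linarith) ?_ ?_
    · intro s hs1
      exact (h3 (hs s hs1.1 (by linarith [hs1.2]))).1.continuousAt.continuousWithinAt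
    · intro s hs1
      exact (h3 (hs s hs1.1.le (by linarith [hs1.2]))).1
  obtain ⟨ξ, hξ, h5⟩ := h4
  have h6 := (h3 (hs ξ hξ.1.le (by linarith [hξ.2]))).2.1 (by
    simp only [mem_compl_iff, mem_singleton_iff]; exact hξ.1.ne')
  have h7 := (h3 (hs (δ / 2) (by linarith) (by linarith))).2.2
  rw [slope_def_field, h0, sub_zero, sub_zero] at h6
  have h8 : h' ξ < 0 := by
    by_contra h9
    push Not at h9
    exact absurd h6 (not_lt.2 (div_nonneg h9 hξ.1.le))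
  rw [h5, sub_zero] at h8
  have h9 : 0 ≤ (h (δ / 2) - h 0) / (δ / 2) := div_nonneg (by linarith) (by linarith)
  linarith

/-- necessary first order condition at a left end point minimum -/
theorem barC_first {h : ℝ → ℝ} {c t : ℝ} (ht : 0 < t) (hmin : ∀ s, 0 ≤ s → s ≤ t → h t ≤ h s)
    (hd : HasDerivAt h c t) : c ≤ 0 := by
  have h1 := hasDerivAt_iff_tendsto_slope.1 hd
  have h2 : Filter.Tendsto (slope h t) (nhdsWithin t (Iio t)) (nhds c) :=
    h1.mono_left (nhdsWithin_mono _ fun x hx => ne_of_lt hx)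
  refine le_of_tendsto h2 ?_
  have h3 : ∀ᶠ s in nhdsWithin t (Iio t), 0 < s :=
    eventually_nhdsWithin_of_eventually_nhds (lt_mem_nhds ht)
  filter_upwards [h3, self_mem_nhdsWithin] with s hs1 hs2
  rw [slope_def_field]
  have h4 := hmin s hs1.le (le_of_lt hs2)
  exact div_nonpos_of_nonneg_of_nonpos (by linarith) (by
    have : s < t := hs2
    linarith)

/-- **Comparison principle** with a smooth subsolution `φ`. -/
theorem comparison {lam Lam T R : ℝ} (hlam : 0 < lam) (hT : 0 < T) (hR : 0 < R)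
    {Ω : Set (ST d)} (hΩ : IsOpen Ω) {g : ST d → ℝ} (hg : IsSol lam Lam Ω g)
    (hreg : RegC d T R ⊆ Ω) (φ φt : ST d → ℝ) (φx φv : ST d → (E d →L[ℝ] ℝ))
    (φvv : ST d → (E d →L[ℝ] E d →L[ℝ] ℝ)) (hφc : ContinuousOn φ (RegC d T R))
    (hφ : ∀ p ∈ RegC d T R, HasDerivAt (fun s => φ (s, p.2.1, p.2.2)) (φt p) p.1 ∧
        HasFDerivAt (fun y => φ (p.1, y, p.2.2)) (φx p) p.2.1 ∧
        HasFDerivAt (fun w => φ (p.1, p.2.1, w)) (φv p) p.2.2 ∧
        HasFDerivAt (fun w => φv (p.1, p.2.1, w)) (φvv p) p.2.2 ∧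
        ∀ a : Matrix (Fin d) (Fin d) ℝ, a.IsSymm →
          (∀ ξ : Fin d → ℝ, lam * (ξ ⬝ᵥ ξ) ≤ ξ ⬝ᵥ (a *ᵥ ξ) ∧ ξ ⬝ᵥ (a *ᵥ ξ) ≤ Lam * (ξ ⬝ᵥ ξ)) →
          φt p + φx p p.2.2 ≤ ∑ i, ∑ j, a i j *
            φvv p (EuclideanSpace.single i (1 : ℝ)) (EuclideanSpace.single j (1 : ℝ)))
    (hb : ∀ p ∈ RegC d T R, p.1 = 0 ∨ ‖p.2.1‖ = R ^ 3 ∨ ‖p.2.2‖ = R → φ p ≤ g p) :
    ∀ p ∈ RegC d T R, φ p ≤ g p := by
  have hgc : ContinuousOn g (RegC d T R) := (hg.continuousOn hΩ).mono hreg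
  obtain ⟨a, ft, Dx, Dv, D2v, ha, -, -, -, h5, h6, h7, h8, h9⟩ := hg
  intro p0 hp0
  by_contra hcon
  push Not at hcon
  set ε : ℝ := (φ p0 - g p0) / (2 * (1 + T)) with hε
  have hε0 : 0 < ε := div_pos (by linarith) (by linarith)
  set W : ST d → ℝ := fun p => g p - φ p + ε * (1 + p.1) with hW
  have hcompact : IsCompact (RegC d T R) :=
    isCompact_Icc.prod ((isCompact_closedBall _ _).prod (isCompact_closedBall _ _))
  have hWc : ContinuousOn W (RegC d T R) := by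
    refine (hgc.sub hφc).add ?_
    fun_prop
  obtain ⟨p, hp, hmin⟩ := hcompact.exists_isMinOn ⟨p0, hp0⟩ hWc
  have hmin' : ∀ q ∈ RegC d T R, W p ≤ W q := fun q hq => hmin hq
  have hWp0 : W p0 < 0 := by
    have h1 : p0.1 ≤ T := hp0.1.2
    have h2 : ε * (1 + p0.1) ≤ ε * (1 + T) := mul_le_mul_of_nonneg_left (by linarith) hε0.le
    have h3 : ε * (1 + T) = (φ p0 - g p0) / 2 := by
      rw [hε]; field_simp
    show g p0 - φ p0 + ε * (1 + p0.1) < 0
    linarith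
  have hWp : W p < 0 := (hmin' p0 hp0).trans_lt hWp0
  have hpt0 : 0 ≤ p.1 := hp.1.1
  have hnb : ¬ (p.1 = 0 ∨ ‖p.2.1‖ = R ^ 3 ∨ ‖p.2.2‖ = R) := by
    intro hcase
    have h1 := hb p hp hcase
    have h2 : 0 ≤ ε * (1 + p.1) := by positivity
    have h3 : g p - φ p + ε * (1 + p.1) < 0 := hWp
    linarith
  push Not at hnb
  obtain ⟨n1, n2, n3⟩ := hnb
  have ht : 0 < p.1 := lt_of_le_of_ne hpt0 (Ne.symm n1)
  have hx : ‖p.2.1‖ < R ^ 3 := lt_of_le_of_ne (by simpa using hp.2.1) n2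
  have hv : ‖p.2.2‖ < R := lt_of_le_of_ne (by simpa using hp.2.2) n3
  obtain ⟨k1, k2, k3, k4, k5⟩ := hφ p hp
  have hpΩ := hreg hp
  obtain ⟨B, hB, hBell⟩ := exists_B hlam.le (a p) (ha p hpΩ).1 (ha p hpΩ).2
  -- time derivative
  have e1 : ft p - φt p + ε ≤ 0 := by
    refine barC_first (h := fun s => W (s, p.2.1, p.2.2)) ht ?_ ?_
    · intro s hs0 hs1
      exact hmin' (s, p.2.1, p.2.2) ⟨⟨hs0, hs1.trans hp.1.2⟩, hp.2⟩
    · have h1 : HasDerivAt (fun s : ℝ => ε * (1 + s)) ε p.1 := by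
        simpa using ((hasDerivAt_id p.1).const_add 1).const_mul ε
      exact ((h5 p hpΩ).sub k1).add h1
  -- x derivative
  have e2 : Dx p - φx p = 0 := by
    have h1 : HasFDerivAt (fun y => W (p.1, y, p.2.2)) (Dx p - φx p) p.2.1 :=
      ((h6 p hpΩ).sub k2).add_const (ε * (1 + p.1))
    refine IsLocalMin.hasFDerivAt_eq_zero (f := fun y => W (p.1, y, p.2.2)) (a := p.2.1) ?_ h1
    have h2 : ∀ᶠ y in nhds p.2.1, ‖y‖ < R ^ 3 :=
      (continuous_norm.continuousAt).eventually (gt_mem_nhds hx)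
    filter_upwards [h2] with y hy
    exact hmin' (p.1, y, p.2.2) ⟨hp.1, by simpa using hy.le, hp.2.2⟩
  -- v derivatives
  have e3 : ∀ e : E d, 0 ≤ (D2v p - φvv p) e e := by
    intro e
    have hline : ∀ s : ℝ, HasDerivAt (fun s : ℝ => p.2.2 + s • e) e s := by
      intro s
      simpa using ((hasDerivAt_id s).smul_const e).const_add p.2.2
    have hcont : Continuous fun s : ℝ => p.2.2 + s • e := by fun_prop
    have h2 : ∀ᶠ s in nhds (0 : ℝ), ‖p.2.2 + s • e‖ < R := by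
      have h3 : Continuous fun s : ℝ => ‖p.2.2 + s • e‖ := by fun_prop
      exact h3.continuousAt.eventually (gt_mem_nhds (by simpa using hv))
    have hmem : ∀ s : ℝ, ‖p.2.2 + s • e‖ < R → (p.1, p.2.1, p.2.2 + s • e) ∈ RegC d T R :=
      fun s hs => ⟨hp.1, hp.2.1, by simpa using hs.le⟩
    refine barC_second (h := fun s : ℝ => W (p.1, p.2.1, p.2.2 + s • e))
      (h' := fun s : ℝ => (Dv (p.1, p.2.1, p.2.2 + s • e) - φv (p.1, p.2.1, p.2.2 + s • e)) e)
      ?_ ?_ ?_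
    · filter_upwards [h2] with s hs
      have := hmin' _ (hmem s hs)
      simpa using this
    · filter_upwards [h2] with s hs
      have hq := hmem s hs
      have g1 := h7 _ (hreg hq)
      have g2 := (hφ _ hq).2.2.1
      have g3 : HasFDerivAt (fun w => W (p.1, p.2.1, w))
          (Dv (p.1, p.2.1, p.2.2 + s • e) - φv (p.1, p.2.1, p.2.2 + s • e)) (p.2.2 + s • e) :=
        (g1.sub g2).add_const (ε * (1 + p.1))
      exact g3.comp_hasDerivAt s (hline s)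
    · have g1 : HasFDerivAt (fun w => Dv (p.1, p.2.1, w) - φv (p.1, p.2.1, w))
          (D2v p - φvv p) p.2.2 := (h8 p hpΩ).sub k4
      have g2 : HasDerivAt (fun s : ℝ => Dv (p.1, p.2.1, p.2.2 + s • e)
          - φv (p.1, p.2.1, p.2.2 + s • e)) ((D2v p - φvv p) e) 0 := by
        have g3 : HasFDerivAt (fun w => Dv (p.1, p.2.1, w) - φv (p.1, p.2.1, w))
          (D2v p - φvv p) (p.2.2 + (0 : ℝ) • e) := by simpa using g1
        exact g3.comp_hasDerivAt (0 : ℝ) (hline 0)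
      exact (ContinuousLinearMap.apply ℝ ℝ e).hasFDerivAt.comp_hasDerivAt (0 : ℝ) g2
  -- trace
  have e4 : 0 ≤ ∑ i, ∑ j, a p i j * (D2v p - φvv p) (EuclideanSpace.single i (1 : ℝ))
      (EuclideanSpace.single j (1 : ℝ)) := by
    rw [← hB, ← solD_cols]
    exact Finset.sum_nonneg fun j _ => e3 _
  have e5 := h9 p hpΩ
  have e6 := k5 (a p) (ha p hpΩ).1 (ha p hpΩ).2
  have e7 : Dx p p.2.2 = φx p p.2.2 := by
    have := congrArg (fun L : E d →L[ℝ] ℝ => L p.2.2) e2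
    simpa [sub_eq_zero] using this
  have e8 : ∑ i, ∑ j, a p i j * (D2v p - φvv p) (EuclideanSpace.single i (1 : ℝ))
      (EuclideanSpace.single j (1 : ℝ)) =
      ∑ i, ∑ j, a p i j * D2v p (EuclideanSpace.single i (1 : ℝ)) (EuclideanSpace.single j (1 : ℝ))
      - ∑ i, ∑ j, a p i j *
        φvv p (EuclideanSpace.single i (1 : ℝ)) (EuclideanSpace.single j (1 : ℝ)) := by
    rw [← Finset.sum_sub_distrib]
    refine Finset.sum_congr rfl fun i _ => ?_
    rw [← Finset.sum_sub_distrib]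
    refine Finset.sum_congr rfl fun j _ => ?_
    show a p i j * (D2v p (EuclideanSpace.single i (1 : ℝ)) (EuclideanSpace.single j (1 : ℝ)) -
      φvv p (EuclideanSpace.single i (1 : ℝ)) (EuclideanSpace.single j (1 : ℝ))) = _
    ring
  rw [e8, ← e5] at e4
  linarith

end Pool.Agent.Lib.MP_eee7b5_an
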