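import Pool.Agent.Lib.MP_eee7b5_an.Sol
import Pool.Agent.Lib.MP_eee7b5_an.BarA
import Pool.Agent.Lib.MP_eee7b5_an.BarB
import Pool.Agent.Lib.MP_eee7b5_an.BarC

set_option autoImplicit false

/-!
The barrier.
-/

namespace Pool.Agent.Lib.MP_eee7b5_an

open MeasureTheory Set Matrix
open scoped ENNReal

variable {d : ℕ}

theorem Gam_le_inv {lam : ℝ} (hlam : 0 < lam) {P : ℕ} {p : ST d} (hp : 0 < p.1) :
    Gam lam P p ≤ (p.1 ^ P)⁻¹ := by
  have h := qB_lower hp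
  have h2 : 0 ≤ qB p := le_trans (by positivity) h
  rw [Gam]
  refine mul_le_of_le_one_right (by positivity) (Real.exp_le_one_iff.2 ?_)
  exact neg_nonpos.2 (div_nonneg h2 hlam.le)

theorem Gam_le_fact {lam A : ℝ} (hlam : 0 < lam) (hA : 0 < A) (P n : ℕ) {p : ST d}
    (hp : 0 < p.1) (h : A * lam * 10 ≤ ‖p.2.2‖ ^ 2 ∨ A * lam * 10 * p.1 ^ 2 ≤ ‖p.2.1‖ ^ 2) :
    Gam lam P p ≤ (p.1 ^ P)⁻¹ * (n.factorial * (p.1 / A) ^ n) := by
  have h1 := qB_lower hp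
  have h2 : A / p.1 ≤ qB p / lam := by
    rw [le_div_iff₀ hlam]
    refine le_trans ?_ h1
    rcases h with h | h
    · have h3 : A * lam * 10 / p.1 ≤ ‖p.2.2‖ ^ 2 / p.1 := div_le_div_of_nonneg_right h hp.le
      have h4 : 0 ≤ ‖p.2.1‖ ^ 2 / p.1 ^ 3 := by positivity
      have h5 : A / p.1 * lam = (1 / 10) * (A * lam * 10 / p.1) := by ring
      rw [h5]
      linarith
    · have h3 : A * lam * 10 * p.1 ^ 2 / p.1 ^ 3 ≤ ‖p.2.1‖ ^ 2 / p.1 ^ 3 :=
        div_le_div_of_nonneg_right h (by positivity)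
      have h4 : 0 ≤ ‖p.2.2‖ ^ 2 / p.1 := by positivity
      have h5 : A / p.1 * lam = (1 / 10) * (A * lam * 10 * p.1 ^ 2 / p.1 ^ 3) := by
        field_simp
      rw [h5]
      linarith
  have h6 : Real.exp (-(qB p / lam)) ≤ n.factorial * (p.1 / A) ^ n := by
    have h7 : Real.exp (-(qB p / lam)) ≤ Real.exp (-(A / p.1)) :=
      Real.exp_le_exp.2 (neg_le_neg h2)
    have h8 := Real.pow_div_factorial_le_exp (x := A / p.1) (by positivity) n
    refine h7.trans ?_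
    rw [Real.exp_neg]
    have h9 : 0 < (A / p.1) ^ n / (n.factorial : ℝ) := by positivity
    refine (inv_anti₀ h9 h8).trans (le_of_eq ?_)
    rw [inv_div, div_pow, div_pow]
    field_simp
  rw [Gam]
  exact mul_le_mul_of_nonneg_left h6 (by positivity)

/-- Choice of the parameters of the barrier `φ = m (Γ(t + δ, x, v) - b)`:
`φ ≤ 1` everywhere on the region, `φ ≤ 0` at time `0` outside the small balls and on the lateral
boundary, `φ ≥ c` on the target. -/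
theorem barrier_params {lam : ℝ} (hlam : 0 < lam) {P : ℕ} (hP : 1 ≤ P) {K T t1 : ℝ}
    (hK : 1 ≤ K) (hT : t1 ≤ T) (ht1 : 0 < t1) :
    ∃ R δ m b c : ℝ, 1 ≤ R ∧ K < R ∧ 0 < δ ∧ 0 < m ∧ 0 < b ∧ 0 < c ∧
      (∀ (x v : E d), m * (Gam lam P (δ, x, v) - b) ≤ 1) ∧
      (∀ (x v : E d), (1 / 2 < ‖x‖ ∨ 1 / 4 < ‖v‖) → m * (Gam lam P (δ, x, v) - b) ≤ 0) ∧
      (∀ t : ℝ, 0 ≤ t → t ≤ T → ∀ (x v : E d), (‖x‖ = R ^ 3 ∨ ‖v‖ = R) →
        m * (Gam lam P (t + δ, x, v) - b) ≤ 0) ∧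
      (∀ t : ℝ, t1 ≤ t → t ≤ T → ∀ (x v : E d), ‖x‖ ≤ K ^ 3 → ‖v‖ ≤ K →
        c ≤ m * (Gam lam P (t + δ, x, v) - b)) := by
  have hT0 : 0 < T := ht1.trans_le hT
  set γ : ℝ := ((T + 1) ^ P)⁻¹ * Real.exp (-(5 * (K ^ 2 / t1 + K ^ 6 / t1 ^ 3) / lam)) with hγ
  have hγ0 : 0 < γ := by positivity
  set b : ℝ := γ / 2 with hb
  have hb0 : 0 < b := by positivity
  set A0 : ℝ := 1 / (160 * lam) with hA0
  have hA00 : 0 < A0 := by positivity
  set δ : ℝ := min 1 (b * A0 ^ (P + 1) / ((P + 1).factorial : ℝ)) with hδ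
  have hδ0 : 0 < δ := lt_min one_pos (by positivity)
  have hδ1 : δ ≤ 1 := min_le_left _ _
  have hδ2 : δ ≤ b * A0 ^ (P + 1) / ((P + 1).factorial : ℝ) := min_le_right _ _
  set M : ℝ := max 1 ((P.factorial : ℝ) / b) with hM
  have hM1 : 1 ≤ M := le_max_left _ _
  have hM2 : (P.factorial : ℝ) / b ≤ M := le_max_right _ _
  have hMP : (P.factorial : ℝ) / M ^ P ≤ b := by
    rw [div_le_iff₀ (by positivity)]
    have h1 : M ≤ M ^ P := le_self_pow₀ hM1 (by omega)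
    calc (P.factorial : ℝ) = b * ((P.factorial : ℝ) / b) := by field_simp
      _ ≤ b * M ^ P := mul_le_mul_of_nonneg_left (hM2.trans h1) hb0.le
  have hM0 : 0 < M := one_pos.trans_le hM1
  set R : ℝ := K + 1 + 10 * lam * M + 10 * lam * M * (T + 1) ^ 2 with hR
  have hp1 : 0 < 10 * lam * M := by positivity
  have hp2 : 0 < 10 * lam * M * (T + 1) ^ 2 := by positivity
  have hR1 : 1 ≤ R := by rw [hR]; linarith
  have hRK : K < R := by rw [hR]; linarith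
  have hR2 : 10 * lam * M ≤ R ^ 2 := by
    have h1 : R ≤ R ^ 2 := le_self_pow₀ hR1 (by norm_num)
    refine le_trans ?_ h1
    rw [hR]; linarith
  have hR6 : 10 * lam * M * (T + 1) ^ 2 ≤ R ^ 6 := by
    have h1 : R ≤ R ^ 6 := le_self_pow₀ hR1 (by norm_num)
    refine le_trans ?_ h1
    rw [hR]; linarith
  have hm0 : 0 < δ ^ P := by positivity
  refine ⟨R, δ, δ ^ P, b, δ ^ P * b, hR1, hRK, hδ0, hm0, hb0, by positivity, ?_, ?_, ?_, ?_⟩
  · intro x v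
    have h1 : Gam lam P (δ, x, v) ≤ (δ ^ P)⁻¹ := Gam_le_inv hlam (p := (δ, x, v)) hδ0
    calc δ ^ P * (Gam lam P (δ, x, v) - b) ≤ δ ^ P * (δ ^ P)⁻¹ :=
          mul_le_mul_of_nonneg_left (by linarith) hm0.le
      _ = 1 := mul_inv_cancel₀ hm0.ne'
  · intro x v hxv
    refine mul_nonpos_of_nonneg_of_nonpos hm0.le ?_
    have hA16 : A0 * lam * 10 = 1 / 16 := by rw [hA0]; field_simp; norm_num
    have h1 : Gam lam P (δ, x, v) ≤ (δ ^ P)⁻¹ * ((P + 1).factorial * (δ / A0) ^ (P + 1)) := by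
      refine Gam_le_fact hlam hA00 P (P + 1) (p := (δ, x, v)) hδ0 ?_
      show A0 * lam * 10 ≤ ‖v‖ ^ 2 ∨ A0 * lam * 10 * δ ^ 2 ≤ ‖x‖ ^ 2
      rw [hA16]
      rcases hxv with h | h
      · right
        have h2 : (1 / 2 : ℝ) ^ 2 ≤ ‖x‖ ^ 2 := by gcongr
        have h3 : δ ^ 2 ≤ 1 := pow_le_one₀ hδ0.le hδ1
        nlinarith
      · left
        have h2 : (1 / 4 : ℝ) ^ 2 ≤ ‖v‖ ^ 2 := by gcongr
        linarith
    have h2 : (δ ^ P)⁻¹ * ((P + 1).factorial * (δ / A0) ^ (P + 1)) ≤ b := by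
      have h3 : (δ ^ P)⁻¹ * (((P + 1).factorial : ℝ) * (δ / A0) ^ (P + 1)) =
          δ * ((P + 1).factorial : ℝ) / A0 ^ (P + 1) := by
        rw [div_pow, pow_succ δ P]
        field_simp
      rw [h3, div_le_iff₀ (by positivity)]
      rw [le_div_iff₀ (by positivity)] at hδ2
      exact hδ2
    linarith
  · intro t ht0 htT x v hxv
    refine mul_nonpos_of_nonneg_of_nonpos hm0.le ?_
    have hτ : 0 < t + δ := by linarith
    have hτ1 : t + δ ≤ T + 1 := by linarith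
    have h1 : Gam lam P (t + δ, x, v) ≤ ((t + δ) ^ P)⁻¹ * (P.factorial * ((t + δ) / M) ^ P) := by
      refine Gam_le_fact hlam hM0 P P (p := (t + δ, x, v)) hτ ?_
      show M * lam * 10 ≤ ‖v‖ ^ 2 ∨ M * lam * 10 * (t + δ) ^ 2 ≤ ‖x‖ ^ 2
      rcases hxv with h | h
      · right
        rw [h]
        calc M * lam * 10 * (t + δ) ^ 2 ≤ M * lam * 10 * (T + 1) ^ 2 := by gcongr
          _ = 10 * lam * M * (T + 1) ^ 2 := by ring
          _ ≤ R ^ 6 := hR6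
          _ = (R ^ 3) ^ 2 := by ring
      · left
        rw [h]
        calc M * lam * 10 = 10 * lam * M := by ring
          _ ≤ R ^ 2 := hR2
    have h2 : ((t + δ) ^ P)⁻¹ * (P.factorial * ((t + δ) / M) ^ P) = (P.factorial : ℝ) / M ^ P := by
      rw [div_pow]
      field_simp
    rw [h2] at h1
    linarith
  · intro t ht htT x v hx hv
    have hτ : 0 < t + δ := by linarith
    have hτ1 : t + δ ≤ T + 1 := by linarith
    have hτt : t1 ≤ t + δ := by linarith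
    have h1 : γ ≤ Gam lam P (t + δ, x, v) := by
      rw [hγ, Gam]
      have h2 := qB_upper (p := (t + δ, x, v)) hτ
      have h3 : qB (t + δ, x, v) ≤ 5 * (K ^ 2 / t1 + K ^ 6 / t1 ^ 3) := by
        refine h2.trans ?_
        have h4 : ‖v‖ ^ 2 / (t + δ) ≤ K ^ 2 / t1 := by gcongr
        have h5 : ‖x‖ ^ 2 / (t + δ) ^ 3 ≤ K ^ 6 / t1 ^ 3 := by
          have h6 : ‖x‖ ^ 2 ≤ K ^ 6 := by
            calc ‖x‖ ^ 2 ≤ (K ^ 3) ^ 2 := by gcongr
              _ = K ^ 6 := by ring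
          gcongr
        show 5 * (‖v‖ ^ 2 / (t + δ) + ‖x‖ ^ 2 / (t + δ) ^ 3) ≤ _
        linarith
      refine mul_le_mul ?_ ?_ (Real.exp_pos _).le (by positivity)
      · exact inv_anti₀ (by positivity) (pow_le_pow_left₀ hτ.le hτ1 P)
      · refine Real.exp_le_exp.2 (neg_le_neg ?_)
        exact div_le_div_of_nonneg_right h3 hlam.le
    refine mul_le_mul_of_nonneg_left ?_ hm0.le
    linarith

end Pool.Agent.Lib.MP_eee7b5_an
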