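import Pool.Agent.Lib.MP_eee7b5_an.Sol
import Pool.Agent.Lib.MP_eee7b5_an.BarA
import Pool.Agent.Lib.MP_eee7b5_an.BarB
import Pool.Agent.Lib.MP_eee7b5_an.BarC
import Pool.Agent.Lib.MP_eee7b5_an.BarD

set_option autoImplicit false

/-!
The barrier.
-/

namespace Pool.Agent.Lib.MP_eee7b5_an

open MeasureTheory Set Matrix
open scoped ENNReal

variable {d : ℕ}

theorem barE_cont (lam : ℝ) (P : ℕ) {δ : ℝ} (hδ : 0 < δ) (T R : ℝ) :
    ContinuousOn (fun p : ST d => Gam lam P (p.1 + δ, p.2.1, p.2.2)) (RegC d T R) := by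
  have h0 : ∀ p ∈ RegC d T R, 0 < p.1 + δ := by
    intro p hp
    have : 0 ≤ p.1 := hp.1.1
    linarith
  have c1 : Continuous (fun p : ST d => p.1 + δ) := by fun_prop
  have c2 : Continuous (fun p : ST d => ‖p.2.2‖ ^ 2) := by fun_prop
  have c3 : Continuous (fun p : ST d => ‖p.2.1‖ ^ 2) := by fun_prop
  have c4 : Continuous (fun p : ST d => (inner ℝ p.2.1 p.2.2 : ℝ)) := by fun_prop
  unfold Gam qB
  refine ContinuousOn.mul (ContinuousOn.inv₀ (c1.pow P).continuousOn ?_)
    (Real.continuous_exp.comp_continuousOn ?_)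
  · intro p hp; exact (pow_pos (h0 p hp) P).ne'
  · refine ContinuousOn.neg (ContinuousOn.div_const ?_ lam)
    refine ContinuousOn.add (ContinuousOn.sub ?_ ?_) ?_
    · exact c2.continuousOn.div c1.continuousOn (fun p hp => (h0 p hp).ne')
    · exact (continuous_const.mul c4).continuousOn.div (c1.pow 2).continuousOn
        (fun p hp => (pow_pos (h0 p hp) 2).ne')
    · exact (continuous_const.mul c3).continuousOn.div (c1.pow 3).continuousOn
        (fun p hp => (pow_pos (h0 p hp) 3).ne')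

/-- **Barrier lemma**: a nonnegative solution which is `≥ 1` on a small ball at time `0` is `≥ c`
on a big set at times `[t1, T']`, for every `T' ≤ T`. -/
theorem barrier {lam Lam : ℝ} (hlam : 0 < lam) (hLam : lam ≤ Lam) {K T t1 : ℝ}
    (hK : 1 ≤ K) (hT : t1 ≤ T) (ht1 : 0 < t1) :
    ∃ R c : ℝ, 1 ≤ R ∧ K < R ∧ 0 < c ∧ ∀ (Ω : Set (ST d)) (g : ST d → ℝ) (T' : ℝ), IsOpen Ω →
      IsSol lam Lam Ω g → t1 ≤ T' → T' ≤ T → RegC d T' R ⊆ Ω → (∀ p ∈ RegC d T' R, 0 ≤ g p) →
      (∀ (x v : E d), ‖x‖ ≤ 1 / 2 → ‖v‖ ≤ 1 / 4 → 1 ≤ g (0, x, v)) →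
      ∀ p : ST d, t1 ≤ p.1 → p.1 ≤ T' → ‖p.2.1‖ ≤ K ^ 3 → ‖p.2.2‖ ≤ K → c ≤ g p := by
  set P : ℕ := ⌈2 * d * Lam / lam⌉₊ + 1 with hPdef
  have hP : 2 * d * Lam / lam ≤ P := by
    have := Nat.le_ceil (2 * d * Lam / lam)
    rw [hPdef]; push_cast; linarith
  have hP1 : 1 ≤ P := by omega
  obtain ⟨Gt, Gx, Gv, Gvv, hG⟩ := Gam_sub (d := d) hlam hLam hP
  obtain ⟨R, δ, m, b, c, hR1, hKR, hδ, hm, hb, hc, h1, h2, h3, h4⟩ :=
    barrier_params (d := d) hlam hP1 hK hT ht1
  refine ⟨R, c, hR1, hKR, hc, ?_⟩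
  intro Ω g T' hΩ hg ht1' hT' hreg hpos hinit
  have hR0 : 0 < R := by linarith
  have hT'0 : 0 < T' := by linarith
  have hcomp := comparison (lam := lam) (Lam := Lam) hlam hT'0 hR0 hΩ hg hreg
    (fun p => m * (Gam lam P (p.1 + δ, p.2.1, p.2.2) - b))
    (fun p => m * Gt (p.1 + δ, p.2.1, p.2.2))
    (fun p => m • Gx (p.1 + δ, p.2.1, p.2.2))
    (fun p => m • Gv (p.1 + δ, p.2.1, p.2.2))
    (fun p => m • Gvv (p.1 + δ, p.2.1, p.2.2))
    (((barE_cont lam P hδ T' R).sub continuousOn_const).const_mul m |> fun h => h)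
    (by
      intro p hp
      have hp1 : 0 < p.1 + δ := by
        have : 0 ≤ p.1 := hp.1.1
        linarith
      obtain ⟨g1, g2, g3, g4, g5⟩ := hG (p.1 + δ, p.2.1, p.2.2) hp1
      refine ⟨?_, ?_, ?_, ?_, ?_⟩
      · have h := (HasDerivAt.comp_add_const p.1 δ g1)
        exact (h.sub_const b).const_mul m
      · exact (g2.sub_const b).const_mul m
      · exact (g3.sub_const b).const_mul m
      · exact g4.const_smul m
      · intro a ha hell
        have h := g5 a ha hell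
        simp only [ContinuousLinearMap.smul_apply, smul_eq_mul]
        have e1 : ∑ i, ∑ j, a i j * (m * Gvv (p.1 + δ, p.2.1, p.2.2)
            (EuclideanSpace.single i (1 : ℝ)) (EuclideanSpace.single j (1 : ℝ))) =
            m * ∑ i, ∑ j, a i j * Gvv (p.1 + δ, p.2.1, p.2.2)
            (EuclideanSpace.single i (1 : ℝ)) (EuclideanSpace.single j (1 : ℝ)) := by
          rw [Finset.mul_sum]
          refine Finset.sum_congr rfl (fun i _ => ?_)
          rw [Finset.mul_sum]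
          refine Finset.sum_congr rfl (fun j _ => ?_)
          ring
        rw [e1, ← mul_add]
        exact mul_le_mul_of_nonneg_left h hm.le)
    (by
      intro p hp hbd
      have hp1 : 0 ≤ p.1 := hp.1.1
      have hp2 : p.1 ≤ T' := hp.1.2
      have hg0 := hpos p hp
      rcases hbd with h | h | h
      · by_cases hs : ‖p.2.1‖ ≤ 1 / 2 ∧ ‖p.2.2‖ ≤ 1 / 4
        · have h5 := h1 p.2.1 p.2.2
          have h6 := hinit p.2.1 p.2.2 hs.1 hs.2
          have e : (0, p.2.1, p.2.2) = p := by rw [← h]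
          rw [e] at h6
          simp only [h, _root_.zero_add]
          linarith
        · have h5 := h2 p.2.1 p.2.2 (by
            by_contra hcon
            push Not at hcon
            exact hs ⟨hcon.1, hcon.2⟩)
          simp only [h, _root_.zero_add]
          linarith
      · have h5 := h3 p.1 hp1 (hp2.trans hT') p.2.1 p.2.2 (Or.inl h)
        exact h5.trans hg0
      · have h5 := h3 p.1 hp1 (hp2.trans hT') p.2.1 p.2.2 (Or.inr h)
        exact h5.trans hg0)
  intro p hpt hpT hx hv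
  have hpR : p ∈ RegC d T' R := by
    refine ⟨⟨by linarith, hpT⟩, ?_, ?_⟩
    · rw [mem_closedBall_zero_iff]
      exact hx.trans (pow_le_pow_left₀ (by linarith) hKR.le 3)
    · rw [mem_closedBall_zero_iff]
      exact hv.trans hKR.le
  have h5 := hcomp p hpR
  have h6 := h4 p.1 hpt (hpT.trans hT') p.2.1 p.2.2 hx hv
  exact h6.trans h5

end Pool.Agent.Lib.MP_eee7b5_an
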