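import Pool.Agent.Lib.MP_eee7b5_an.Sol
import Pool.Agent.Lib.MP_eee7b5_an.BarA
import Pool.Agent.Lib.MP_eee7b5_an.BarB
import Pool.Agent.Lib.MP_eee7b5_an.BarC
import Pool.Agent.Lib.MP_eee7b5_an.BarD
import Pool.Agent.Lib.MP_eee7b5_an.BarE
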