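import Pool.Agent.Lib.MP_eee7b5_an.Taylor

set_option autoImplicit false

/-!
The entropy estimate for the chain.
-/

namespace Pool.Agent.Lib.MP_eee7b5_an

open MeasureTheory Set Matrix
open scoped ENNReal

variable {d : ℕ}

/-- The law of the chain is a finite mixture of Dirac masses. -/
theorem EX_rep (hd : 1 ≤ d) (h : ℝ) (B : ℕ → ZZ d → Matrix (Fin d) (Fin d) ℝ) (k : ℕ) :
    ∃ (ι : Type) (_ : Fintype ι) (w : ι → ℝ) (y : ι → ZZ d),
      (∀ i, 0 ≤ w i) ∧ ∑ i, w i = 1 ∧ ∀ g : ZZ d → ℝ, EX h B k g = ∑ i, w i * g (y i) := by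
  induction k with
  | zero =>
    refine ⟨Unit, inferInstance, fun _ => 1, fun _ => 0, fun _ => zero_le_one, by simp, ?_⟩
    intro g
    simp [EX]
  | succ k ih =>
    obtain ⟨ι, hι, w, y, hw, hw1, hr⟩ := ih
    have hd0 : (0 : ℝ) < d := by exact_mod_cast hd
    refine ⟨ι × Fin d × Bool, inferInstance, fun p => w p.1 * (2 * (d : ℝ))⁻¹,
      fun p => if p.2.2 then
          ((y p.1).1 - h • (y p.1).2,
            (y p.1).2 + Real.sqrt (2 * h * d) • colB (B k (y p.1)) p.2.1)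
        else
          ((y p.1).1 - h • (y p.1).2,
            (y p.1).2 - Real.sqrt (2 * h * d) • colB (B k (y p.1)) p.2.1), ?_, ?_, ?_⟩
    · intro p
      exact mul_nonneg (hw _) (by positivity)
    · rw [Fintype.sum_prod_type]
      have : ∀ i : ι, ∑ q : Fin d × Bool, w i * (2 * (d : ℝ))⁻¹ = w i := by
        intro i
        rw [Finset.sum_const, nsmul_eq_mul, Finset.card_univ, Fintype.card_prod, Fintype.card_fin,
          Fintype.card_bool]
        push_cast
        field_simp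
      simp only [this]
      exact hw1
    · intro g
      rw [EX, hr, Fintype.sum_prod_type]
      refine Finset.sum_congr rfl (fun i _ => ?_)
      rw [stepAvg, Fintype.sum_prod_type, Finset.mul_sum, Finset.mul_sum]
      refine Finset.sum_congr rfl (fun j _ => ?_)
      rw [Fintype.sum_bool]
      simp only [if_true, Bool.false_eq_true, if_false]
      ring

theorem EX_mono (hd : 1 ≤ d) (h : ℝ) (B : ℕ → ZZ d → Matrix (Fin d) (Fin d) ℝ) (k : ℕ)
    {f g : ZZ d → ℝ} (hfg : ∀ y, f y ≤ g y) : EX h B k f ≤ EX h B k g := by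
  obtain ⟨ι, hι, w, y, hw, -, hr⟩ := EX_rep hd h B k
  rw [hr, hr]
  exact Finset.sum_le_sum fun i _ => mul_le_mul_of_nonneg_left (hfg _) (hw i)

theorem EX_const (hd : 1 ≤ d) (h : ℝ) (B : ℕ → ZZ d → Matrix (Fin d) (Fin d) ℝ) (k : ℕ)
    (a : ℝ) : EX h B k (fun _ => a) = a := by
  obtain ⟨ι, hι, w, y, hw, hw1, hr⟩ := EX_rep hd h B k
  rw [hr, ← Finset.sum_mul, hw1, one_mul]

theorem EX_add (hd : 1 ≤ d) (h : ℝ) (B : ℕ → ZZ d → Matrix (Fin d) (Fin d) ℝ) (k : ℕ)
    (f g : ZZ d → ℝ) : EX h B k (fun y => f y + g y) = EX h B k f + EX h B k g := by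
  obtain ⟨ι, hι, w, y, hw, hw1, hr⟩ := EX_rep hd h B k
  rw [hr, hr, hr, ← Finset.sum_add_distrib]
  exact Finset.sum_congr rfl fun i _ => by ring

end Pool.Agent.Lib.MP_eee7b5_an
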