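import Pool.Agent.Lib.MP_eee7b5_an.Taylor
import Pool.Agent.Lib.MP_eee7b5_an.ChainA

set_option autoImplicit false

/-!
The entropy estimate for the chain.
-/

namespace Pool.Agent.Lib.MP_eee7b5_an

open MeasureTheory Set Matrix
open scoped ENNReal

variable {d : ℕ}

/-- Entropy of the smoothed law at step `k`. -/
noncomputable def aK (κ h : ℝ) (B : ℕ → ZZ d → Matrix (Fin d) (Fin d) ℝ) (k : ℕ) (s : ℝ) : ℝ :=
  Phi (fun z => EX h B k (fun y => GG κ s (z - y)))

/-- Sum over the matrix entries of `J` at step `k`. -/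
noncomputable def JK (κ h : ℝ) (B : ℕ → ZZ d → Matrix (Fin d) (Fin d) ℝ) (k : ℕ) (s : ℝ) : ℝ :=
  ∑ a : Fin d, ∑ b : Fin d, ∫ z : ZZ d,
    (EX h B k (fun y => (B k y * (B k y)ᵀ) a b * GG κ s (z - y))) ^ 2 /
      EX h B k (fun y => GG κ s (z - y))

/-- The entries of `B Bᵀ` are bounded by `Lam`. -/
theorem EllB_entry_abs_le {lam Lam : ℝ} (hlam : 0 < lam)
    {B : Matrix (Fin d) (Fin d) ℝ} (hB : EllB lam Lam B) (a b : Fin d) :
    |(B * Bᵀ) a b| ≤ Lam := by
  have hsymm : (B * Bᵀ) b a = (B * Bᵀ) a b := by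
    have h : (B * Bᵀ)ᵀ = B * Bᵀ := by
      rw [Matrix.transpose_mul, Matrix.transpose_transpose]
    exact congrFun (congrFun h a) b
  set A : Matrix (Fin d) (Fin d) ℝ := B * Bᵀ with hA
  have hform : ∀ (c : ℝ) , ((Pi.single a 1 + c • Pi.single b 1 : Fin d → ℝ) ⬝ᵥ
      (A *ᵥ (Pi.single a 1 + c • Pi.single b 1 : Fin d → ℝ))) =
      A a a + 2 * c * A a b + c ^ 2 * A b b := by
    intro c
    rw [Matrix.mulVec_add, Matrix.mulVec_smul, add_dotProduct, dotProduct_add, dotProduct_add,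
      smul_dotProduct, smul_dotProduct, dotProduct_smul, dotProduct_smul]
    simp only [Matrix.mulVec_single_one, single_dotProduct, Matrix.col_apply, smul_eq_mul,
      one_mul, hsymm]
    ring
  have hnn : ∀ ξ : Fin d → ℝ, 0 ≤ ξ ⬝ᵥ ξ := fun ξ =>
    Finset.sum_nonneg fun i _ => mul_self_nonneg (ξ i)
  have hnorm : ∀ (c : ℝ), a ≠ b → ((Pi.single a 1 + c • Pi.single b 1 : Fin d → ℝ) ⬝ᵥ
      (Pi.single a 1 + c • Pi.single b 1 : Fin d → ℝ)) = 1 + c ^ 2 := by
    intro c hab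
    rw [add_dotProduct, dotProduct_add, dotProduct_add,
      smul_dotProduct, smul_dotProduct, dotProduct_smul, dotProduct_smul]
    simp only [single_dotProduct, smul_eq_mul, one_mul, Pi.single_eq_same,
      Pi.single_eq_of_ne hab, Pi.single_eq_of_ne hab.symm]
    ring
  have hd0 : ∀ c : Fin d, 0 ≤ A c c ∧ A c c ≤ Lam := by
    intro c
    have h := hB (Pi.single c 1)
    have e1 : ((Pi.single c 1 : Fin d → ℝ) ⬝ᵥ (Pi.single c 1 : Fin d → ℝ)) = 1 := by
      simp
    have e2 : ((Pi.single c 1 : Fin d → ℝ) ⬝ᵥ (A *ᵥ (Pi.single c 1 : Fin d → ℝ))) = A c c := by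
      simp
    rw [e1, e2] at h
    constructor
    · linarith [h.1]
    · linarith [h.2]
  by_cases hab : a = b
  · subst hab
    rw [abs_of_nonneg (hd0 a).1]
    exact (hd0 a).2
  · have h1 := hB (Pi.single a 1 + (1 : ℝ) • Pi.single b 1)
    have h2 := hB (Pi.single a 1 + (-1 : ℝ) • Pi.single b 1)
    rw [hform 1, hnorm 1 hab] at h1
    rw [hform (-1), hnorm (-1) hab] at h2
    have ha := hd0 a
    have hb := hd0 b
    rw [abs_le]
    constructor <;> nlinarith [h1.1, h1.2, h2.1, h2.2, ha.1, ha.2, hb.1, hb.2]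

theorem JK_props {lam Lam κ : ℝ} (hd : 1 ≤ d) (hlam : 0 < lam) (hLam : lam ≤ Lam) (hκ : 0 < κ)
    {h : ℝ} {B : ℕ → ZZ d → Matrix (Fin d) (Fin d) ℝ} (hB : ∀ k y, EllB lam Lam (B k y))
    (k : ℕ) {s : ℝ} (hs : 0 < s) :
    DifferentiableAt ℝ (JK κ h B k) s ∧ deriv (JK κ h B k) s ≤ 0 ∧ 0 ≤ JK κ h B k s ∧
      JK κ h B k s ≤ (d * Lam) ^ 2 := by
  obtain ⟨ι, hι, w, y, hw, hw1, hr⟩ := EX_rep hd h B k
  set mk : Fin d → Fin d → ι → ℝ := fun a b i => (B k (y i) * (B k (y i))ᵀ) a b with hmk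
  have hα : ∀ a b i, |mk a b i| ≤ Lam := fun a b i => EllB_entry_abs_le hlam (hB k (y i)) a b
  have hJK : JK κ h B k = fun s => ∑ a : Fin d, ∑ b : Fin d, JM κ w (mk a b) y s := by
    funext s'
    unfold JK JM uM
    refine Finset.sum_congr rfl fun a _ => Finset.sum_congr rfl fun b _ => ?_
    congr 1
    funext z
    rw [hr, hr]
    congr 2
    exact Finset.sum_congr rfl fun i _ => by rw [hmk, mul_assoc]
  have hD : ∀ a b, DifferentiableAt ℝ (fun s => JM κ w (mk a b) y s) s ∧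
      (2 / 3) * ∑ c : Fin d, eM κ w (mk a b) y s (dv c) ≤
        -(deriv (fun s => JM κ w (mk a b) y s) s) :=
    fun a b => JM_deriv hκ hs hw hw1 (hα a b) y
  have heM : ∀ a b c, 0 ≤ eM κ w (mk a b) y s (dv c) := by
    intro a b c
    unfold eM
    exact integral_nonneg fun z => mul_nonneg (uM_pos hκ hs hw hw1 y z).le (sq_nonneg _)
  have hneg : ∀ a b, deriv (fun s => JM κ w (mk a b) y s) s ≤ 0 := by
    intro a b
    have h1 := (hD a b).2
    have h2 : 0 ≤ ∑ c : Fin d, eM κ w (mk a b) y s (dv c) :=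
      Finset.sum_nonneg fun c _ => heM a b c
    linarith
  have hHas : HasDerivAt (JK κ h B k)
      (∑ a : Fin d, ∑ b : Fin d, deriv (fun s => JM κ w (mk a b) y s) s) s := by
    rw [hJK]
    have h1 : ∀ a ∈ (Finset.univ : Finset (Fin d)), HasDerivAt
        (fun s => ∑ b : Fin d, JM κ w (mk a b) y s)
        (∑ b : Fin d, deriv (fun s => JM κ w (mk a b) y s) s) s := by
      intro a _
      have h2 : ∀ b ∈ (Finset.univ : Finset (Fin d)), HasDerivAt
          (fun s => JM κ w (mk a b) y s) (deriv (fun s => JM κ w (mk a b) y s) s) s :=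
        fun b _ => (hD a b).1.hasDerivAt
      have h3 := HasDerivAt.fun_sum h2
      exact h3
    have h4 := HasDerivAt.fun_sum h1
    exact h4
  refine ⟨hHas.differentiableAt, ?_, ?_, ?_⟩
  · rw [hHas.deriv]
    exact Finset.sum_nonpos fun a _ => Finset.sum_nonpos fun b _ => hneg a b
  · rw [hJK]
    exact Finset.sum_nonneg fun a _ => Finset.sum_nonneg fun b _ =>
      JM_nonneg hκ hs hw hw1 (mk a b) y
  · rw [hJK]
    have h5 : ∀ a b, JM κ w (mk a b) y s ≤ Lam ^ 2 := fun a b =>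
      JM_le hκ hs hw hw1 (hα a b) y
    calc (∑ a : Fin d, ∑ b : Fin d, JM κ w (mk a b) y s)
        ≤ ∑ _a : Fin d, ∑ _b : Fin d, Lam ^ 2 :=
          Finset.sum_le_sum fun a _ => Finset.sum_le_sum fun b _ => h5 a b
      _ = (d * Lam) ^ 2 := by
          simp only [Finset.sum_const, Finset.card_univ, Fintype.card_fin, nsmul_eq_mul]
          ring

end Pool.Agent.Lib.MP_eee7b5_an
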