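import Pool.Agent.Lib.MP_eee7b5_an.Taylor
import Pool.Agent.Lib.MP_eee7b5_an.ChainA
import Pool.Agent.Lib.MP_eee7b5_an.ChainB

set_option autoImplicit false

/-!
The entropy estimate for the chain.
-/

namespace Pool.Agent.Lib.MP_eee7b5_an

open MeasureTheory Set Matrix
open scoped ENNReal

variable {d : ℕ}

/-- One step, in terms of `aK` and `JK`. -/
theorem aK_succ {lam Lam δ S : ℝ} (hd : 1 ≤ d) (hlam : 0 < lam) (hLam : lam ≤ Lam)
    (hδ : 0 < δ) (hS : δ ≤ S) :
    ∃ h0 C : ℝ, 0 < h0 ∧ 0 < C ∧ ∀ (B : ℕ → ZZ d → Matrix (Fin d) (Fin d) ℝ),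
      (∀ k y, EllB lam Lam (B k y)) → ∀ k s h, δ ≤ s → s ≤ S → 0 < h → h ≤ h0 →
      aK (4 / lam) h B (k + 1) s ≤ aK (4 / lam) h B k (s + lam / 40 * h)
        + h * (3 * d / (2 * lam)) * (-(deriv (JK (4 / lam) h B k) (s + lam / 40 * h)))
        + C * (h * Real.sqrt h) := by
  have hκ : (0 : ℝ) < 4 / lam := by positivity
  have hc : (0 : ℝ) < lam / 40 := by positivity
  obtain ⟨h0, C, hh0, hC, H⟩ := Phi_next_le (d := d) hd hlam hLam hκ hc hδ hS
  refine ⟨h0, C, hh0, hC, fun B hB k s h hs1 hs2 hh1 hh2 => ?_⟩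
  obtain ⟨ι, hι, w, y, hw, hw1, hrep⟩ := EX_rep hd h B k
  have hspos : 0 < s := lt_of_lt_of_le hδ hs1
  have hs' : 0 < s + lam / 40 * h := by positivity
  have hBi : ∀ i, EllB lam Lam ((fun i => B k (y i)) i) := fun i => hB k (y i)
  have h1 := H ι w y (fun i => B k (y i)) hw hw1 hBi s h hs1 hs2 hh1 hh2
  have h2 := DD_le_deriv (d := d) hlam hs' hw hw1 y hBi
  have e1 : aK (4 / lam) h B (k + 1) s = Phi (nextU (4 / lam) h w y (fun i => B k (y i)) s) := by
    unfold aK
    congr 1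
    funext z
    show EX h B k (fun y' => stepAvg h (B k y') (fun y => GG (4 / lam) s (z - y)) y') = _
    rw [hrep]
    rfl
  have e2 : aK (4 / lam) h B k (s + lam / 40 * h) =
      Phi (uM (4 / lam) w y (s + lam / 40 * h)) := by
    unfold aK
    congr 1
    funext z
    rw [hrep]
    rfl
  have e3 : JK (4 / lam) h B k = fun s => ∑ a : Fin d, ∑ b : Fin d,
      JM (4 / lam) w (mk (fun i => B k (y i)) a b) y s := by
    funext s'
    unfold JK JM
    refine Finset.sum_congr rfl fun a _ => Finset.sum_congr rfl fun b _ => ?_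
    congr 1
    funext z
    rw [hrep, hrep]
    have : (∑ i, w i * ((B k (y i) * (B k (y i))ᵀ) a b * GG (4 / lam) s' (z - y i))) =
        uM (4 / lam) (fun i => w i * mk (fun i => B k (y i)) a b i) y s' z := by
      unfold uM mk
      exact Finset.sum_congr rfl fun i _ => by ring
    rw [this]
    rfl
  have hdiff : ∀ a b : Fin d, DifferentiableAt ℝ
      (fun s => JM (4 / lam) w (mk (fun i => B k (y i)) a b) y s) (s + lam / 40 * h) := by
    intro a b
    exact (JM_deriv hκ hs' hw hw1 (fun i => EllB_entry_le hlam.le (hBi i) a b) y).1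
  have e4 : deriv (JK (4 / lam) h B k) (s + lam / 40 * h) =
      ∑ a : Fin d, ∑ b : Fin d,
        deriv (fun s => JM (4 / lam) w (mk (fun i => B k (y i)) a b) y s)
          (s + lam / 40 * h) := by
    rw [e3]
    rw [deriv_fun_sum (fun a _ => DifferentiableAt.fun_sum fun b _ => hdiff a b)]
    refine Finset.sum_congr rfl fun a _ => ?_
    rw [deriv_fun_sum (fun b _ => hdiff a b)]
  have e5 : (∑ a : Fin d, ∑ b : Fin d,
        -(deriv (fun s => JM (4 / lam) w (mk (fun i => B k (y i)) a b) y s)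
          (s + lam / 40 * h))) = -(deriv (JK (4 / lam) h B k) (s + lam / 40 * h)) := by
    rw [e4]
    simp only [Finset.sum_neg_distrib]
  rw [e1, e2]
  rw [e5] at h2
  have h3 := mul_le_mul_of_nonneg_left h2 hh1.le
  have h4 : h * (3 * d / (2 * lam) * -(deriv (JK (4 / lam) h B k) (s + lam / 40 * h))) =
      h * (3 * d / (2 * lam)) * (-(deriv (JK (4 / lam) h B k) (s + lam / 40 * h))) := by ring
  linarith

end Pool.Agent.Lib.MP_eee7b5_an
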