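import Pool.Agent.Lib.MP_eee7b5_an.Taylor
import Pool.Agent.Lib.MP_eee7b5_an.ChainA
import Pool.Agent.Lib.MP_eee7b5_an.ChainB
import Pool.Agent.Lib.MP_eee7b5_an.ChainC

set_option autoImplicit false

/-!
The entropy estimate for the chain.
-/

namespace Pool.Agent.Lib.MP_eee7b5_an

open MeasureTheory Set Matrix
open scoped ENNReal

variable {d : ℕ}

theorem ChainD_phi_nonneg {u : ℝ} (hu : 0 ≤ u) : 0 ≤ phi u := by
  unfold phi
  have h1 : 0 < 1 + u := by linarith
  have h2 : 1 - (1 + u)⁻¹ ≤ Real.log (1 + u) := Real.one_sub_inv_le_log_of_pos h1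
  have h3 : (1 + u) * (1 - (1 + u)⁻¹) ≤ (1 + u) * Real.log (1 + u) :=
    mul_le_mul_of_nonneg_left h2 h1.le
  have h4 : (1 + u) * (1 - (1 + u)⁻¹) = u := by
    rw [mul_sub, mul_inv_cancel₀ h1.ne']
    ring
  linarith

theorem ChainD_phi_le {u M : ℝ} (hu : 0 ≤ u) (huM : u ≤ M) : phi u ≤ Real.log (1 + M) * u := by
  unfold phi
  have h1 : 0 < 1 + u := by linarith
  have h2 : Real.log (1 + u) ≤ u := by
    have := Real.log_le_sub_one_of_pos h1
    linarith
  have h3 : Real.log (1 + u) ≤ Real.log (1 + M) := Real.log_le_log h1 (by linarith)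
  have h4 : u * Real.log (1 + u) ≤ u * Real.log (1 + M) := mul_le_mul_of_nonneg_left h3 hu
  nlinarith

theorem ChainD_log_le {t a : ℝ} (ht : 0 < t) (ha : 0 < a) (ha1 : a ≤ 1) :
    Real.log (1 + t) ≤ t ^ a / a := by
  have h1 : 0 < 1 + t := by linarith
  have h2 : 1 + t ≤ (1 + t ^ a) ^ (1 / a) := by
    have h3 : (1 : ℝ) ≤ 1 / a := by
      rw [le_div_iff₀ ha]
      linarith
    have h4 := Real.add_rpow_le_rpow_add (p := 1 / a) (a := 1) (b := t ^ a) zero_le_one
      (Real.rpow_nonneg ht.le a) h3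
    rw [Real.one_rpow, ← Real.rpow_mul ht.le, mul_one_div_cancel ha.ne', Real.rpow_one] at h4
    exact h4
  have h5 : 0 < 1 + t ^ a := by
    have := Real.rpow_pos_of_pos ht a
    linarith
  calc Real.log (1 + t) ≤ Real.log ((1 + t ^ a) ^ (1 / a)) := Real.log_le_log h1 h2
    _ = 1 / a * Real.log (1 + t ^ a) := Real.log_rpow h5 _
    _ ≤ 1 / a * t ^ a := by
        apply mul_le_mul_of_nonneg_left _ (by positivity)
        have := Real.log_le_sub_one_of_pos h5
        linarith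
    _ = t ^ a / a := by ring

/-- Initial entropy. -/
theorem aK_zero (d : ℕ) (hd : 1 ≤ d) {κ : ℝ} (hκ : 0 < κ) :
    ∃ G : ℝ, 0 < G ∧ ∀ (h : ℝ) (B : ℕ → ZZ d → Matrix (Fin d) (Fin d) ℝ) (s : ℝ), 0 < s →
      aK κ h B 0 s ≤ G / Real.sqrt s := by
  have hpi := Real.pi_pos
  have hd0 : (0 : ℝ) < d := by exact_mod_cast hd
  have hd1 : (1 : ℝ) ≤ d := by exact_mod_cast hd
  set a : ℝ := 1 / (4 * d) with ha
  have hapos : 0 < a := by positivity
  have ha1 : a ≤ 1 := by
    rw [ha, div_le_iff₀ (by positivity)]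
    linarith
  set c0 : ℝ := (2 * Real.pi * κ) ^ (-(1 / 4 : ℝ)) with hc0
  have hc0pos : 0 < c0 := Real.rpow_pos_of_pos (by positivity) _
  refine ⟨c0 / a, by positivity, fun h B s hs => ?_⟩
  set A : ℝ := ((2 * Real.pi * κ * s ^ 2) ^ d)⁻¹ with hA
  have hApos : 0 < A := by positivity
  have h1 : aK κ h B 0 s = ∫ z : ZZ d, phi (GG κ s z) := by
    unfold aK Phi
    refine integral_congr_ae (Filter.Eventually.of_forall fun z => ?_)
    show phi (GG κ s (z - 0)) = _
    rw [sub_zero]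
  have h2 : (∫ z : ZZ d, phi (GG κ s z)) ≤ ∫ z : ZZ d, Real.log (1 + A) * GG κ s z := by
    refine integral_mono_of_nonneg (Filter.Eventually.of_forall fun z => ?_)
      ((integrable_GG hκ hs).const_mul _) (Filter.Eventually.of_forall fun z => ?_)
    · exact ChainD_phi_nonneg (GG_pos hκ hs z).le
    · exact ChainD_phi_le (GG_pos hκ hs z).le (GG_le hκ hs z)
  have h3 : (∫ z : ZZ d, Real.log (1 + A) * GG κ s z) = Real.log (1 + A) := by
    rw [integral_const_mul, integral_GG hκ hs, mul_one]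
  have h4 := ChainD_log_le hApos hapos ha1
  have h5 : A ^ a = c0 / Real.sqrt s := by
    rw [hA, hc0, ha, Real.sqrt_eq_rpow, Real.inv_rpow (by positivity), ← Real.rpow_natCast,
      ← Real.rpow_mul (by positivity)]
    have e1 : (d : ℝ) * (1 / (4 * d)) = 1 / 4 := by
      field_simp
    rw [e1, Real.mul_rpow (by positivity) (by positivity), mul_inv, Real.rpow_neg (by positivity),
      div_eq_mul_inv]
    congr 2
    rw [← Real.rpow_natCast, ← Real.rpow_mul hs.le]
    norm_num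
  rw [h1]
  refine (h2.trans_eq h3).trans (h4.trans_eq ?_)
  rw [h5]
  ring

end Pool.Agent.Lib.MP_eee7b5_an
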