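import Pool.Agent.Lib.MP_eee7b5_an.Taylor
import Pool.Agent.Lib.MP_eee7b5_an.ChainA
import Pool.Agent.Lib.MP_eee7b5_an.ChainB
import Pool.Agent.Lib.MP_eee7b5_an.ChainC
import Pool.Agent.Lib.MP_eee7b5_an.ChainD

set_option autoImplicit false

/-!
The entropy estimate for the chain.
-/

namespace Pool.Agent.Lib.MP_eee7b5_an

open MeasureTheory Set Matrix
open scoped ENNReal

variable {d : ℕ}

/-- the sum of inverse square roots -/
theorem ce_sum_inv_sqrt (n : ℕ) :
    ∑ k ∈ Finset.range n, 1 / Real.sqrt ((k : ℝ) + 1) ≤ 2 * Real.sqrt n := by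
  induction n with
  | zero => simp
  | succ n ih =>
    rw [Finset.sum_range_succ]
    have h1 : 0 < Real.sqrt ((n : ℝ) + 1) := Real.sqrt_pos.mpr (by positivity)
    have h2 : 0 ≤ Real.sqrt (n : ℝ) := Real.sqrt_nonneg _
    have h3 : Real.sqrt ((n : ℝ) + 1) ^ 2 = n + 1 := Real.sq_sqrt (by positivity)
    have h4 : Real.sqrt (n : ℝ) ^ 2 = n := Real.sq_sqrt (by positivity)
    have h5 : 1 / Real.sqrt ((n : ℝ) + 1) ≤
        2 * Real.sqrt ((n : ℝ) + 1) - 2 * Real.sqrt n := by
      rw [div_le_iff₀ h1]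
      nlinarith [sq_nonneg (Real.sqrt ((n : ℝ) + 1) - Real.sqrt n)]
    push_cast
    linarith

/-- telescoping -/
theorem ce_tele (J : ℕ → ℝ → ℝ) (x : ℝ → ℝ) (n : ℕ) :
    ∑ k ∈ Finset.range n, ∑ l ∈ Finset.range k,
      (J l (x ((k : ℝ) - l)) - J l (x ((k : ℝ) - l + 1))) =
    ∑ l ∈ Finset.range n, (J l (x 1) - J l (x ((n : ℝ) - l))) := by
  induction n with
  | zero => simp
  | succ n ih =>
    rw [Finset.sum_range_succ, ih, Finset.sum_range_succ _ n]
    have h1 : J n (x 1) - J n (x (((n + 1 : ℕ) : ℝ) - n)) = 0 := by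
      have : ((n + 1 : ℕ) : ℝ) - n = 1 := by push_cast; ring
      rw [this]; ring
    rw [h1, add_zero, ← Finset.sum_add_distrib]
    apply Finset.sum_congr rfl
    intro l _
    have : ((n + 1 : ℕ) : ℝ) - l = (n : ℝ) - l + 1 := by push_cast; ring
    rw [this]
    ring

/-- Pure real analysis: summation of the recursive inequality (average over the offset
`o ∈ [0, c h]`, then telescoping of `J`). Explicit constant
`C1 = 2 G / √(c θ) + C3 M / c + 2`. -/
theorem real_sum {c C3 M G θ : ℝ} (hc : 0 < c) (hC3 : 0 ≤ C3) (hM : 0 ≤ M) (hG : 0 ≤ G)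
    (hθ : 0 < θ) (hθ1 : θ ≤ 1) :
    ∃ C1 : ℝ, 0 < C1 ∧ ∀ δ, 0 < δ → δ ≤ 1 → ∀ h0 Cδ, 0 < h0 → 0 ≤ Cδ →
      ∃ n0 : ℕ, ∀ n : ℕ, n0 ≤ n → 0 < n → ∀ (a J : ℕ → ℝ → ℝ),
      (θ / n ≤ h0 → ∀ k s, δ ≤ s → s ≤ 3 + c → a (k + 1) s ≤ a k (s + c * (θ / n))
        + (θ / n) * C3 * (-(deriv (J k) (s + c * (θ / n))))
        + Cδ * ((θ / n) * Real.sqrt (θ / n))) →
      (∀ k s, 0 < s → DifferentiableAt ℝ (J k) s ∧ deriv (J k) s ≤ 0 ∧ 0 ≤ J k s ∧ J k s ≤ M) →
      (∀ s, 0 < s → a 0 s ≤ G / Real.sqrt s) →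
      ∃ δ', δ ≤ δ' ∧ δ' ≤ 2 * δ ∧ (1 / (n : ℝ)) * ∑ k ∈ Finset.range n, a k δ' ≤ C1 := by
  refine ⟨2 * G / Real.sqrt (c * θ) + C3 * M / c + 3, by positivity, ?_⟩
  intro δ hδ hδ1 h0 Cδ hh0 hCδ
  obtain ⟨n1, hn1⟩ := exists_nat_ge (θ / h0)
  obtain ⟨n2, hn2⟩ := exists_nat_ge (c * θ / δ)
  obtain ⟨n3, hn3⟩ := exists_nat_ge (G / Real.sqrt δ)
  obtain ⟨n4, hn4⟩ := exists_nat_ge (Cδ ^ 2)
  refine ⟨n1 + n2 + n3 + n4, ?_⟩
  intro n hn hn0 a J hrec hJ ha0
  have hnn : ((n1 : ℝ) + n2 + n3 + n4) ≤ n := by exact_mod_cast hn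
  have hnpos : (0 : ℝ) < n := by exact_mod_cast hn0
  have p1 : (0 : ℝ) ≤ n1 := Nat.cast_nonneg _
  have p2 : (0 : ℝ) ≤ n2 := Nat.cast_nonneg _
  have p3 : (0 : ℝ) ≤ n3 := Nat.cast_nonneg _
  have p4 : (0 : ℝ) ≤ n4 := Nat.cast_nonneg _
  set h : ℝ := θ / n with hh
  have hpos : 0 < h := by positivity
  have hnh : (n : ℝ) * h = θ := by rw [hh]; field_simp
  have hh0' : h ≤ h0 := by
    rw [hh, div_le_iff₀ hnpos]
    have : θ / h0 ≤ n := by linarith
    rw [div_le_iff₀ hh0] at this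
    linarith
  have hch : c * h ≤ δ := by
    have : c * θ / δ ≤ n := by linarith
    rw [div_le_iff₀ hδ] at this
    have h2 : c * h = c * θ / n := by rw [hh]; ring
    rw [h2, div_le_iff₀ hnpos]
    linarith
  have hchpos : 0 < c * h := by positivity
  have hrec' := hrec hh0'
  -- iterate
  have hiter : ∀ k : ℕ, ∀ s, δ ≤ s → s + k * (c * h) ≤ 3 + c →
      a k s ≤ a 0 (s + k * (c * h)) + ∑ l ∈ Finset.range k,
        (h * C3 * (-(deriv (J l) (s + ((k : ℝ) - l) * (c * h)))) + Cδ * (h * Real.sqrt h)) := by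
    intro k
    induction k with
    | zero => intro s _ _; simp
    | succ k ih =>
      intro s hs hs2
      have hk0 : (0 : ℝ) ≤ k := Nat.cast_nonneg _
      push_cast at hs2
      have hkc : 0 ≤ (k : ℝ) * (c * h) := by positivity
      have h1 := hrec' k s hs (by nlinarith)
      have h2 := ih (s + c * h) (by linarith) (by nlinarith)
      have e1 : s + c * h + (k : ℝ) * (c * h) = s + ((k + 1 : ℕ) : ℝ) * (c * h) := by
        push_cast; ring
      have e2 : ∀ l : ℕ, s + c * h + ((k : ℝ) - l) * (c * h) =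
          s + (((k + 1 : ℕ) : ℝ) - l) * (c * h) := by
        intro l; push_cast; ring
      simp only [e1, e2] at h2
      rw [Finset.sum_range_succ]
      have e3 : s + (((k + 1 : ℕ) : ℝ) - k) * (c * h) = s + c * h := by push_cast; ring
      rw [e3]
      linarith
  -- the derivative sum
  set F : ℝ → ℝ := fun o => ∑ k ∈ Finset.range n, ∑ l ∈ Finset.range k,
    (-(deriv (J l) (δ + o + ((k : ℝ) - l) * (c * h)))) with hF
  -- integrals
  have hpt : ∀ (l : ℕ) (x : ℝ), δ ≤ x →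
      IntervalIntegrable (fun o => -(deriv (J l) (x + o))) volume 0 (c * h) ∧
      ∫ o in (0 : ℝ)..(c * h), -(deriv (J l) (x + o)) = J l x - J l (x + c * h) := by
    intro l x hx
    have hd : ∀ o ∈ Set.uIcc 0 (c * h), HasDerivAt (fun o => -(J l (x + o)))
        (-(deriv (J l) (x + o))) o := by
      intro o ho
      rw [Set.uIcc_of_le hchpos.le] at ho
      have h1 := (hJ l (x + o) (by linarith [ho.1])).1.hasDerivAt
      have h2 : HasDerivAt (fun o : ℝ => x + o) 1 o := by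
        simpa using (hasDerivAt_id o).const_add x
      have h3 := h1.comp o h2
      rw [mul_one] at h3
      exact h3.neg
    have hint : IntervalIntegrable (fun o => -(deriv (J l) (x + o))) volume 0 (c * h) := by
      apply intervalIntegral.intervalIntegrable_deriv_of_nonneg
        (g := fun o => -(J l (x + o)))
      · intro o ho
        exact (hd o ho).continuousAt.continuousWithinAt
      · intro o ho
        rw [min_eq_left hchpos.le, max_eq_right hchpos.le] at ho
        exact hd o (by rw [Set.uIcc_of_le hchpos.le]; exact ⟨ho.1.le, ho.2.le⟩)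
      · intro o ho
        rw [min_eq_left hchpos.le, max_eq_right hchpos.le] at ho
        have := (hJ l (x + o) (by linarith [ho.1])).2.1
        linarith
    refine ⟨hint, ?_⟩
    rw [intervalIntegral.integral_eq_sub_of_hasDerivAt hd hint]
    ring
  have hxk : ∀ k l : ℕ, l ∈ Finset.range k → δ ≤ δ + ((k : ℝ) - l) * (c * h) := by
    intro k l hl
    have : (l : ℝ) ≤ k := by exact_mod_cast (Finset.mem_range.mp hl).le
    have : 0 ≤ ((k : ℝ) - l) * (c * h) := by
      apply mul_nonneg <;> linarith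
    linarith
  have hFk : ∀ k l : ℕ, l ∈ Finset.range k →
      IntervalIntegrable (fun o => -(deriv (J l) (δ + o + ((k : ℝ) - l) * (c * h)))) volume
        0 (c * h) ∧
      ∫ o in (0 : ℝ)..(c * h), -(deriv (J l) (δ + o + ((k : ℝ) - l) * (c * h))) =
        J l (δ + ((k : ℝ) - l) * (c * h)) - J l (δ + ((k : ℝ) - l + 1) * (c * h)) := by
    intro k l hl
    have h1 := hpt l (δ + ((k : ℝ) - l) * (c * h)) (hxk k l hl)
    have e1 : ∀ o, δ + ((k : ℝ) - l) * (c * h) + o = δ + o + ((k : ℝ) - l) * (c * h) := by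
      intro o; ring
    have e2 : δ + ((k : ℝ) - l) * (c * h) + c * h = δ + ((k : ℝ) - l + 1) * (c * h) := by ring
    rw [e2] at h1
    simp only [e1] at h1
    exact h1
  have hsi : ∀ (s : Finset ℕ) (f : ℕ → ℝ → ℝ),
      (∀ i ∈ s, IntervalIntegrable (f i) volume 0 (c * h)) →
      IntervalIntegrable (fun o => ∑ i ∈ s, f i o) volume 0 (c * h) := by
    intro s f hf
    have h1 := IntervalIntegrable.sum s hf
    have h2 : (∑ i ∈ s, f i) = fun o => ∑ i ∈ s, f i o := by
      funext o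
      simp [Finset.sum_apply]
    rwa [h2] at h1
  have hFint : IntervalIntegrable F volume 0 (c * h) := by
    rw [hF]
    apply hsi
    intro k _
    apply hsi
    intro l hl
    exact (hFk k l hl).1
  have hFval : ∫ o in (0 : ℝ)..(c * h), F o ≤ n * M := by
    have h1 : ∫ o in (0 : ℝ)..(c * h), F o = ∑ k ∈ Finset.range n, ∑ l ∈ Finset.range k,
        (J l (δ + ((k : ℝ) - l) * (c * h)) - J l (δ + ((k : ℝ) - l + 1) * (c * h))) := by
      rw [hF, intervalIntegral.integral_finsetSum]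
      · apply Finset.sum_congr rfl
        intro k _
        rw [intervalIntegral.integral_finsetSum]
        · apply Finset.sum_congr rfl
          intro l hl
          exact (hFk k l hl).2
        · intro l hl
          exact (hFk k l hl).1
      · intro k _
        apply hsi
        intro l hl
        exact (hFk k l hl).1
    rw [h1, ce_tele J (fun t => δ + t * (c * h)) n]
    have h2 : ∀ l ∈ Finset.range n, J l (δ + 1 * (c * h)) - J l (δ + ((n : ℝ) - l) * (c * h)) ≤
        M := by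
      intro l hl
      have h3 := (hJ l (δ + 1 * (c * h)) (by linarith)).2.2.2
      have h4 := (hJ l (δ + ((n : ℝ) - l) * (c * h)) (by linarith [hxk n l hl])).2.2.1
      linarith
    calc _ ≤ ∑ l ∈ Finset.range n, M := Finset.sum_le_sum h2
      _ = n * M := by simp
  -- choose the offset
  have hex : ∃ o ∈ Set.Icc 0 (c * h), (h * C3 / n) * F o ≤ C3 * M / c + 1 := by
    by_contra hcon
    push Not at hcon
    have h1 : ∫ _o in (0 : ℝ)..(c * h), (C3 * M / c + 1) ≤
        ∫ o in (0 : ℝ)..(c * h), (h * C3 / n) * F o := by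
      apply intervalIntegral.integral_mono_on hchpos.le
      · exact intervalIntegrable_const
      · exact hFint.const_mul _
      · intro o ho
        exact (hcon o ho).le
    rw [intervalIntegral.integral_const, intervalIntegral.integral_const_mul, smul_eq_mul] at h1
    have h2 : (h * C3 / n) * ∫ o in (0 : ℝ)..(c * h), F o ≤ (h * C3 / n) * (n * M) :=
      mul_le_mul_of_nonneg_left hFval (by positivity)
    have h3 : (h * C3 / n) * (n * M) = h * C3 * M := by field_simp
    have h4 : (c * h - 0) * (C3 * M / c + 1) = h * C3 * M + c * h := by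
      field_simp
      ring
    rw [h3] at h2
    rw [h4] at h1
    linarith
  obtain ⟨o, ho, hFo⟩ := hex
  refine ⟨δ + o, by linarith [ho.1], by linarith [ho.2], ?_⟩
  -- bound every term
  have hterm : ∀ k ∈ Finset.range n, a k (δ + o) ≤ a 0 (δ + o + k * (c * h)) +
      h * C3 * ∑ l ∈ Finset.range k, (-(deriv (J l) (δ + o + ((k : ℝ) - l) * (c * h)))) +
      n * (Cδ * (h * Real.sqrt h)) := by
    intro k hk
    have hkn : (k : ℝ) ≤ n := by exact_mod_cast (Finset.mem_range.mp hk).le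
    have hkc : (k : ℝ) * (c * h) ≤ c := by
      have : (k : ℝ) * (c * h) ≤ n * (c * h) := mul_le_mul_of_nonneg_right hkn hchpos.le
      have h5 : (n : ℝ) * (c * h) = c * θ := by rw [← hnh]; ring
      nlinarith
    have h1 := hiter k (δ + o) (by linarith [ho.1]) (by linarith [ho.2])
    rw [Finset.sum_add_distrib, Finset.sum_const, Finset.card_range, nsmul_eq_mul,
      ← Finset.mul_sum] at h1
    have h2 : (k : ℝ) * (Cδ * (h * Real.sqrt h)) ≤ n * (Cδ * (h * Real.sqrt h)) :=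
      mul_le_mul_of_nonneg_right hkn (by positivity)
    linarith
  have hsum := Finset.sum_le_sum hterm
  rw [Finset.sum_add_distrib, Finset.sum_add_distrib, ← Finset.mul_sum, Finset.sum_const,
    Finset.card_range, nsmul_eq_mul] at hsum
  -- first sum
  have hT1 : ∑ k ∈ Finset.range n, a 0 (δ + o + k * (c * h)) ≤
      n * (1 + 2 * G / Real.sqrt (c * θ)) := by
    obtain ⟨m, rfl⟩ : ∃ m, n = m + 1 := ⟨n - 1, by omega⟩
    rw [Finset.sum_range_succ']
    have hk : ∀ k ∈ Finset.range m, a 0 (δ + o + ((k + 1 : ℕ) : ℝ) * (c * h)) ≤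
        (G / Real.sqrt (c * h)) * (1 / Real.sqrt ((k : ℝ) + 1)) := by
      intro k _
      have hkp : 0 < ((k : ℝ) + 1) * (c * h) := by positivity
      have h1 := ha0 (δ + o + ((k + 1 : ℕ) : ℝ) * (c * h)) (by
        push_cast; linarith [ho.1])
      refine h1.trans ?_
      have h2 : (G / Real.sqrt (c * h)) * (1 / Real.sqrt ((k : ℝ) + 1)) =
          G / Real.sqrt (((k : ℝ) + 1) * (c * h)) := by
        rw [Real.sqrt_mul (by positivity : (0 : ℝ) ≤ (k : ℝ) + 1) (c * h)]
        have h8 : 0 < Real.sqrt ((k : ℝ) + 1) := Real.sqrt_pos.mpr (by positivity)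
        have h9 : 0 < Real.sqrt (c * h) := Real.sqrt_pos.mpr hchpos
        field_simp
      rw [h2]
      apply div_le_div_of_nonneg_left hG (Real.sqrt_pos.mpr hkp)
      apply Real.sqrt_le_sqrt
      push_cast
      linarith [ho.1]
    have h0' : a 0 (δ + o + ((0 : ℕ) : ℝ) * (c * h)) ≤ ((m + 1 : ℕ) : ℝ) := by
      have h1 := ha0 (δ + o + ((0 : ℕ) : ℝ) * (c * h)) (by
        push_cast; linarith [ho.1])
      refine h1.trans ?_
      have h2 : G / Real.sqrt (δ + o + ((0 : ℕ) : ℝ) * (c * h)) ≤ G / Real.sqrt δ := by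
        apply div_le_div_of_nonneg_left hG (Real.sqrt_pos.mpr hδ)
        apply Real.sqrt_le_sqrt
        push_cast
        linarith [ho.1]
      linarith
    have h3 := Finset.sum_le_sum hk
    rw [← Finset.mul_sum] at h3
    have h4 := ce_sum_inv_sqrt m
    have h5 : Real.sqrt (m : ℝ) ≤ Real.sqrt ((m + 1 : ℕ) : ℝ) := by
      apply Real.sqrt_le_sqrt; push_cast; linarith
    have h6 : (G / Real.sqrt (c * h)) * ∑ k ∈ Finset.range m, 1 / Real.sqrt ((k : ℝ) + 1) ≤
        (G / Real.sqrt (c * h)) * (2 * Real.sqrt ((m + 1 : ℕ) : ℝ)) :=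
      mul_le_mul_of_nonneg_left (by linarith) (by positivity)
    have h7 : (G / Real.sqrt (c * h)) * (2 * Real.sqrt ((m + 1 : ℕ) : ℝ)) =
        ((m + 1 : ℕ) : ℝ) * (2 * G / Real.sqrt (c * θ)) := by
      have e1 : c * θ = ((m + 1 : ℕ) : ℝ) * (c * h) := by
        calc c * θ = c * (((m + 1 : ℕ) : ℝ) * h) := by rw [hnh]
          _ = ((m + 1 : ℕ) : ℝ) * (c * h) := by ring
      rw [e1, Real.sqrt_mul hnpos.le]
      have h8 : 0 < Real.sqrt ((m + 1 : ℕ) : ℝ) := Real.sqrt_pos.mpr hnpos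
      have h9 : 0 < Real.sqrt (c * h) := Real.sqrt_pos.mpr hchpos
      have h10 : Real.sqrt ((m + 1 : ℕ) : ℝ) * Real.sqrt ((m + 1 : ℕ) : ℝ) =
          ((m + 1 : ℕ) : ℝ) := Real.mul_self_sqrt hnpos.le
      field_simp
      nlinarith [h10]
    have h11 : ((m + 1 : ℕ) : ℝ) * (1 + 2 * G / Real.sqrt (c * θ)) =
        ((m + 1 : ℕ) : ℝ) + ((m + 1 : ℕ) : ℝ) * (2 * G / Real.sqrt (c * θ)) := by ring
    have h12 := h3.trans h6
    rw [h7] at h12
    rw [h11]
    exact (add_le_add h12 h0').trans (le_of_eq (add_comm _ _))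
  -- error
  have hT3 : (n : ℝ) * (Cδ * (h * Real.sqrt h)) ≤ 1 := by
    have e1 : (n : ℝ) * (Cδ * (h * Real.sqrt h)) = θ * (Cδ * Real.sqrt h) := by
      rw [← hnh]; ring
    rw [e1]
    have h1 : Cδ * Real.sqrt h ≤ 1 := by
      have h2 : h ≤ 1 / n := by
        rw [hh]; exact div_le_div_of_nonneg_right hθ1 hnpos.le
      have h3 : Cδ ^ 2 * h ≤ 1 := by
        calc Cδ ^ 2 * h ≤ n * h := mul_le_mul_of_nonneg_right (by linarith) hpos.le
          _ = θ := hnh
          _ ≤ 1 := hθ1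
      have h4 : (Cδ * Real.sqrt h) ^ 2 ≤ 1 := by
        rw [mul_pow, Real.sq_sqrt hpos.le]
        exact h3
      have h5 : 0 ≤ Cδ * Real.sqrt h := by positivity
      nlinarith
    have h2 : 0 ≤ Cδ * Real.sqrt h := by positivity
    nlinarith
  have hT2 : h * C3 * F o ≤ n * (C3 * M / c + 1) := by
    have : h * C3 * F o = n * ((h * C3 / n) * F o) := by field_simp
    rw [this]
    exact mul_le_mul_of_nonneg_left hFo hnpos.le
  have hT3' : (n : ℝ) * ((n : ℝ) * (Cδ * (h * Real.sqrt h))) ≤ n * 1 :=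
    mul_le_mul_of_nonneg_left hT3 hnpos.le
  have hfin : ∑ k ∈ Finset.range n, a k (δ + o) ≤
      n * (2 * G / Real.sqrt (c * θ) + C3 * M / c + 3) := by
    have : ∑ i ∈ Finset.range n, ∑ l ∈ Finset.range i,
        (-(deriv (J l) (δ + o + ((i : ℝ) - l) * (c * h)))) = F o := rfl
    rw [this] at hsum
    have e5 : (n : ℝ) * (2 * G / Real.sqrt (c * θ) + C3 * M / c + 3) =
        n * (1 + 2 * G / Real.sqrt (c * θ)) + n * (C3 * M / c + 1) + n * 1 := by ring
    rw [e5]
    linarith [hsum, hT1, hT2, hT3']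
  rw [one_div, inv_mul_le_iff₀ hnpos]
  exact hfin

end Pool.Agent.Lib.MP_eee7b5_an
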