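import Pool.Agent.Lib.MP_eee7b5_an.Taylor
import Pool.Agent.Lib.MP_eee7b5_an.ChainA
import Pool.Agent.Lib.MP_eee7b5_an.ChainB
import Pool.Agent.Lib.MP_eee7b5_an.ChainC
import Pool.Agent.Lib.MP_eee7b5_an.ChainD
import Pool.Agent.Lib.MP_eee7b5_an.ChainE

set_option autoImplicit false

/-!
The entropy estimate for the chain.
-/

namespace Pool.Agent.Lib.MP_eee7b5_an

open MeasureTheory Set Matrix
open scoped ENNReal

variable {d : ℕ}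

/-- **Entropy estimate** for the chain. -/
theorem chain_entropy {lam Lam θ : ℝ} (hd : 1 ≤ d) (hlam : 0 < lam) (hLam : lam ≤ Lam)
    (hθ : 0 < θ) (hθ1 : θ ≤ 1) :
    ∃ C1 : ℝ, 0 < C1 ∧ ∀ δ, 0 < δ → δ ≤ 1 → ∃ n0 : ℕ, ∀ n : ℕ, n0 ≤ n → 0 < n →
      ∀ (B : ℕ → ZZ d → Matrix (Fin d) (Fin d) ℝ), (∀ k y, EllB lam Lam (B k y)) →
      ∃ δ', δ ≤ δ' ∧ δ' ≤ 2 * δ ∧
        (1 / (n : ℝ)) * ∑ k ∈ Finset.range n, aK (4 / lam) (θ / n) B k δ' ≤ C1 := by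
  have hκ : (0 : ℝ) < 4 / lam := by positivity
  have hc : (0 : ℝ) < lam / 40 := by positivity
  obtain ⟨G, hG, hG0⟩ := aK_zero d hd hκ
  obtain ⟨C1, hC1, H⟩ := real_sum (c := lam / 40) (C3 := 3 * d / (2 * lam)) (M := (d * Lam) ^ 2)
    (G := G) (θ := θ) hc (by positivity) (by positivity) hG.le hθ hθ1
  refine ⟨C1, hC1, fun δ hδ hδ1 => ?_⟩
  obtain ⟨h0, C, hh0, hC, hstep⟩ := aK_succ (d := d) (lam := lam) (Lam := Lam) (δ := δ)
    (S := 3 + lam / 40) hd hlam hLam hδ (by linarith)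
  obtain ⟨n0, hn0⟩ := H δ hδ hδ1 h0 C hh0 hC.le
  refine ⟨n0, fun n hn hn1 B hB => ?_⟩
  have hnpos : (0 : ℝ) < n := by exact_mod_cast hn1
  refine hn0 n hn hn1 (fun k s => aK (4 / lam) (θ / n) B k s)
    (fun k s => JK (4 / lam) (θ / n) B k s) ?_ ?_ ?_
  · intro hle k s hs1 hs2
    exact hstep B hB k s (θ / n) hs1 hs2 (by positivity) hle
  · intro k s hs
    exact JK_props hd hlam hLam hκ hB k hs
  · intro s hs
    exact hG0 _ _ s hs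

end Pool.Agent.Lib.MP_eee7b5_an
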