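import Pool.Agent.Lib.MP_eee7b5_an.Taylor
import Pool.Agent.Lib.MP_eee7b5_an.ChainA
import Pool.Agent.Lib.MP_eee7b5_an.ChainB
import Pool.Agent.Lib.MP_eee7b5_an.ChainC
import Pool.Agent.Lib.MP_eee7b5_an.ChainD
import Pool.Agent.Lib.MP_eee7b5_an.ChainE
import Pool.Agent.Lib.MP_eee7b5_an.ChainF
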