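import Pool.Agent.Lib.MP_eee7b5_an.Defs

set_option autoImplicit false

/-!
Kinetic cylinders: geometry and measure.
-/

namespace Pool.Agent.Lib.MP_eee7b5_an

open MeasureTheory Set Matrix
open scoped ENNReal

variable {d : ℕ}

theorem kin_continuous (z : ST d) (ρ : ℝ) : Continuous (kin z ρ) := by
  unfold kin
  fun_prop

theorem kin_zero (z : ST d) (ρ : ℝ) : kin z ρ 0 = z := by
  unfold kin
  simp

theorem kin_comp (z z' : ST d) (ρ ρ' : ℝ) (p : ST d) :
    kin z ρ (kin z' ρ' p) = kin (kin z ρ z') (ρ * ρ') p := by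
  unfold kin
  refine Prod.ext ?_ (Prod.ext ?_ ?_)
  · simp only
    ring
  · simp only
    module
  · simp only
    module

theorem kin_surj (z : ST d) {ρ : ℝ} (hρ : 0 < ρ) : Function.Surjective (kin z ρ) := by
  intro q
  refine ⟨((q.1 - z.1) / ρ ^ 2, (ρ ^ 3)⁻¹ • (q.2.1 - z.2.1 - (q.1 - z.1) • z.2.2),
    ρ⁻¹ • (q.2.2 - z.2.2)), ?_⟩
  unfold kin
  have h1 : ρ ^ 2 * ((q.1 - z.1) / ρ ^ 2) = q.1 - z.1 := by field_simp
  have h3 : ρ ^ 3 ≠ 0 := by positivity
  refine Prod.ext ?_ (Prod.ext ?_ ?_)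
  · simp only [h1]
    ring
  · simp only [h1, smul_inv_smul₀ h3]
    abel
  · simp only [smul_inv_smul₀ hρ.ne']
    abel

theorem kin_inj (z : ST d) {ρ : ℝ} (hρ : 0 < ρ) : Function.Injective (kin z ρ) := by
  intro p q h
  unfold kin at h
  have h3 : ρ ^ 3 ≠ 0 := by positivity
  have h2 : ρ ^ 2 ≠ 0 := by positivity
  have e1 := congrArg Prod.fst h
  have e2 := congrArg (fun r => r.2.1) h
  have e3 := congrArg (fun r => r.2.2) h
  simp only at e1 e2 e3
  have f1 : p.1 = q.1 := mul_left_cancel₀ h2 (add_left_cancel e1)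
  rw [f1] at e2
  have f2 : p.2.1 = q.2.1 :=
    smul_right_injective _ h3 (add_left_cancel (add_right_cancel e2))
  have f3 : p.2.2 = q.2.2 := smul_right_injective _ hρ.ne' (add_left_cancel e3)
  exact Prod.ext f1 (Prod.ext f2 f3)

end Pool.Agent.Lib.MP_eee7b5_an
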