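import Pool.Agent.Lib.MP_eee7b5_an.Defs
import Pool.Agent.Lib.MP_eee7b5_an.CylA

set_option autoImplicit false

/-!
Kinetic cylinders: geometry and measure.
-/

namespace Pool.Agent.Lib.MP_eee7b5_an

open MeasureTheory Set Matrix
open scoped ENNReal

variable {d : ℕ}

/-- The dilation. -/
noncomputable def cylB_dil (ρ : ℝ) (p : ST d) : ST d :=
  Prod.map (fun t : ℝ => ρ ^ 2 • t) (Prod.map (fun x : E d => ρ ^ 3 • x) (fun v : E d => ρ • v)) p

/-- The shear. -/
noncomputable def cylB_shear (w : E d) (p : ST d) : ST d :=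
  (id p.1, (fun (t : ℝ) (q : E d × E d) => Prod.map (fun x => x + t • w) id q) p.1 p.2)

theorem cylB_kin (z : ST d) (ρ : ℝ) (p : ST d) :
    kin z ρ p = z + cylB_shear z.2.2 (cylB_dil ρ p) := by
  unfold kin cylB_shear cylB_dil
  ext1
  · simp
  · ext1
    · simp only [Prod.map_fst, Prod.map_snd, smul_eq_mul, Prod.snd_add, Prod.fst_add]
      rw [add_assoc]
    · simp

theorem cylB_map_dil {ρ : ℝ} (hρ : 0 < ρ) :
    Measure.map (cylB_dil ρ) (volume : Measure (ST d))
      = ENNReal.ofReal ((ρ ^ (4 * d + 2))⁻¹) • (volume : Measure (ST d)) := by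
  have h1 : Measure.map (fun t : ℝ => ρ ^ 2 • t) (volume : Measure ℝ)
      = ENNReal.ofReal ((ρ ^ 2)⁻¹) • (volume : Measure ℝ) := by
    have := Measure.map_addHaar_smul (volume : Measure ℝ) (r := ρ ^ 2) (by positivity)
    rw [this]
    congr 2
    rw [Module.finrank_self, pow_one, abs_of_pos (by positivity)]
  have h2 : Measure.map (fun x : E d => ρ ^ 3 • x) (volume : Measure (E d))
      = ENNReal.ofReal (((ρ ^ 3) ^ d)⁻¹) • (volume : Measure (E d)) := by
    have := Measure.map_addHaar_smul (volume : Measure (E d)) (r := ρ ^ 3) (by positivity)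
    rw [this]
    congr 2
    rw [finrank_euclideanSpace_fin, abs_of_pos (by positivity)]
  have h3 : Measure.map (fun x : E d => ρ • x) (volume : Measure (E d))
      = ENNReal.ofReal ((ρ ^ d)⁻¹) • (volume : Measure (E d)) := by
    have := Measure.map_addHaar_smul (volume : Measure (E d)) (r := ρ) (by positivity)
    rw [this]
    congr 2
    rw [finrank_euclideanSpace_fin, abs_of_pos (by positivity)]
  have e : (volume : Measure (ST d)) = (volume : Measure ℝ).prod
      ((volume : Measure (E d)).prod (volume : Measure (E d))) := rfl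
  have e' : (cylB_dil ρ : ST d → ST d) = Prod.map (fun t : ℝ => ρ ^ 2 • t)
      (Prod.map (fun x : E d => ρ ^ 3 • x) (fun v : E d => ρ • v)) := rfl
  rw [e, e', ← Measure.map_prod_map _ _ (by fun_prop) (by fun_prop),
    ← Measure.map_prod_map _ _ (by fun_prop) (by fun_prop), h1, h2, h3]
  rw [Measure.prod_smul_left, Measure.prod_smul_right, Measure.prod_smul_left,
    Measure.prod_smul_right, Measure.prod_smul_right, smul_smul, smul_smul]
  congr 1
  rw [← ENNReal.ofReal_mul (by positivity), ← ENNReal.ofReal_mul (by positivity)]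
  congr 1
  rw [← mul_inv, ← mul_inv]
  congr 1
  ring

theorem cylB_shear_mp (w : E d) :
    MeasurePreserving (cylB_shear w : ST d → ST d) volume volume := by
  suffices key : MeasurePreserving (fun p : ℝ × (E d × E d) => (id p.1,
      (fun (t : ℝ) (q : E d × E d) => Prod.map (fun x => x + t • w) id q) p.1 p.2))
      ((volume : Measure ℝ).prod ((volume : Measure (E d)).prod (volume : Measure (E d))))
      ((volume : Measure ℝ).prod ((volume : Measure (E d)).prod (volume : Measure (E d)))) from key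
  refine MeasurePreserving.skew_product
    (g := fun (t : ℝ) (q : E d × E d) => Prod.map (fun x => x + t • w) id q)
    (MeasurePreserving.id (volume : Measure ℝ)) ?_ ?_
  · unfold Function.uncurry
    simp only [Prod.map]
    fun_prop
  · refine Filter.Eventually.of_forall (fun t => ?_)
    exact ((measurePreserving_add_right (volume : Measure (E d)) (t • w)).prod
      (MeasurePreserving.id (volume : Measure (E d)))).map_eq

/-- Measure scaling. -/
theorem volume_kin_preimage (z : ST d) {ρ : ℝ} (hρ : 0 < ρ) {A : Set (ST d)}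
    (hA : MeasurableSet A) :
    ENNReal.ofReal (ρ ^ (4 * d + 2)) * volume (kin z ρ ⁻¹' A) = volume A := by
  have hT : MeasurePreserving (fun p : ST d => z + p) volume volume :=
    (measurePreserving_add_left (volume : Measure ℝ) z.1).prod
      ((measurePreserving_add_left (volume : Measure (E d)) z.2.1).prod
        (measurePreserving_add_left (volume : Measure (E d)) z.2.2))
  have hS := cylB_shear_mp (d := d) z.2.2
  have hTS := hT.comp hS
  have e : kin z ρ ⁻¹' A = cylB_dil ρ ⁻¹' (((fun p : ST d => z + p) ∘ cylB_shear z.2.2) ⁻¹' A) := by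
    ext p
    simp only [mem_preimage, Function.comp_apply, cylB_kin]
  have hmd : Measurable (cylB_dil ρ : ST d → ST d) := by
    unfold cylB_dil
    simp only [Prod.map]
    fun_prop
  have hAm := hTS.measurable hA
  rw [e, ← Measure.map_apply hmd hAm, cylB_map_dil hρ, Measure.smul_apply,
    hTS.measure_preimage hA.nullMeasurableSet, smul_eq_mul, ← mul_assoc,
    ← ENNReal.ofReal_mul (by positivity), mul_inv_cancel₀ (by positivity), ENNReal.ofReal_one,
    one_mul]

theorem kin_preimage_Qf (z : ST d) {ρ : ℝ} (hρ : 0 < ρ) (r : ℝ) (hr : 0 < r) :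
    kin z ρ ⁻¹' Qf z (ρ * r) = Qf 0 r := by
  ext p
  simp only [mem_preimage, Qf, kin, mem_ofPred_eq, add_sub_cancel_left, Prod.fst_zero,
    Prod.snd_zero, sub_zero, smul_zero]
  have e1 : z.2.1 + ρ ^ 3 • p.2.1 + (ρ ^ 2 * p.1) • z.2.2 - z.2.1 - (ρ ^ 2 * p.1) • z.2.2
      = ρ ^ 3 • p.2.1 := by abel
  have h2 : 0 < ρ ^ 2 := by positivity
  have h3 : 0 < ρ ^ 3 := by positivity
  rw [e1, norm_smul, norm_smul, Real.norm_of_nonneg h3.le, Real.norm_of_nonneg hρ.le, mul_pow,
    mul_pow, mul_lt_mul_iff_right₀ h2, mul_lt_mul_iff_right₀ h3, mul_lt_mul_iff_right₀ hρ,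
    mul_pos_iff_of_pos_left h2]

theorem kin_preimage_Qp (z : ST d) {ρ : ℝ} (hρ : 0 < ρ) (r : ℝ) (hr : 0 < r) :
    kin z ρ ⁻¹' Qp z (ρ * r) = Qp 0 r := by
  ext p
  simp only [mem_preimage, Qp, kin, mem_ofPred_eq, add_sub_cancel_left, Prod.fst_zero,
    Prod.snd_zero, sub_zero, smul_zero]
  have e1 : z.2.1 + ρ ^ 3 • p.2.1 + (ρ ^ 2 * p.1) • z.2.2 - z.2.1 - (ρ ^ 2 * p.1) • z.2.2
      = ρ ^ 3 • p.2.1 := by abel
  have h2 : 0 < ρ ^ 2 := by positivity
  have h3 : 0 < ρ ^ 3 := by positivity
  have e2 : -(ρ * r) ^ 2 = ρ ^ 2 * (-(r ^ 2)) := by ring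
  have e3 : ρ ^ 2 * p.1 ≤ 0 ↔ p.1 ≤ 0 := by
    constructor
    · intro h
      by_contra hc
      push Not at hc
      have := mul_pos h2 hc
      linarith
    · intro h
      exact mul_nonpos_of_nonneg_of_nonpos h2.le h
  rw [e1, e2, norm_smul, norm_smul, Real.norm_of_nonneg h3.le, Real.norm_of_nonneg hρ.le, mul_pow,
    mul_lt_mul_iff_right₀ h2, mul_lt_mul_iff_right₀ h3, mul_lt_mul_iff_right₀ hρ, e3]

end Pool.Agent.Lib.MP_eee7b5_an
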