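import Pool.Agent.Lib.MP_eee7b5_an.Defs
import Pool.Agent.Lib.MP_eee7b5_an.CylA
import Pool.Agent.Lib.MP_eee7b5_an.CylB

set_option autoImplicit false

/-!
Kinetic cylinders: geometry and measure.
-/

namespace Pool.Agent.Lib.MP_eee7b5_an

open MeasureTheory Set Matrix
open scoped ENNReal

variable {d : ℕ}

theorem Qf_zero (ρ : ℝ) : (Qf 0 ρ : Set (ST d)) =
    Ioo 0 (ρ ^ 2) ×ˢ Metric.ball 0 (ρ ^ 3) ×ˢ Metric.ball 0 ρ := by
  ext p
  simp [Qf, and_assoc]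

theorem Qp_zero (ρ : ℝ) : (Qp 0 ρ : Set (ST d)) =
    Ioc (-(ρ ^ 2)) 0 ×ˢ Metric.ball 0 (ρ ^ 3) ×ˢ Metric.ball 0 ρ := by
  ext p
  simp [Qp, and_assoc]

theorem Qf_isOpen (z : ST d) (ρ : ℝ) : IsOpen (Qf z ρ) := by
  unfold Qf
  simp only [ofPred_and]
  exact (isOpen_lt (by fun_prop) (by fun_prop)).inter
    ((isOpen_lt (by fun_prop) (by fun_prop)).inter
      ((isOpen_lt (by fun_prop) (by fun_prop)).inter (isOpen_lt (by fun_prop) (by fun_prop))))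

theorem Qp_measurable (z : ST d) (ρ : ℝ) : MeasurableSet (Qp z ρ) := by
  unfold Qp
  simp only [ofPred_and]
  exact (isOpen_lt (by fun_prop) (by fun_prop)).measurableSet.inter
    ((isClosed_le (by fun_prop) (by fun_prop)).measurableSet.inter
      ((isOpen_lt (by fun_prop) (by fun_prop)).measurableSet.inter
        (isOpen_lt (by fun_prop) (by fun_prop)).measurableSet))

theorem volume_Qf (z : ST d) {ρ : ℝ} (hρ : 0 < ρ) :
    volume (Qf z ρ) = ENNReal.ofReal (ρ ^ (4 * d + 2)) * volume (Qf (0 : ST d) 1) := by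
  rw [← volume_kin_preimage z hρ (Qf_isOpen z ρ).measurableSet]
  congr 2
  have := kin_preimage_Qf z hρ 1 one_pos
  rwa [mul_one] at this

theorem openPosST : (volume : Measure (ST d)).IsOpenPosMeasure := by
  have h1 : (volume : Measure (E d × E d)).IsOpenPosMeasure := by
    rw [Measure.volume_eq_prod]
    infer_instance
  rw [Measure.volume_eq_prod]
  infer_instance

theorem volume_Qf_pos (z : ST d) {ρ : ℝ} (hρ : 0 < ρ) : 0 < volume (Qf z ρ) := by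
  haveI : (volume : Measure (ST d)).IsOpenPosMeasure := openPosST
  refine (Qf_isOpen z ρ).measure_pos volume ⟨kin z ρ (1 / 2, 0, 0), ?_⟩
  have h := kin_preimage_Qf z hρ 1 one_pos
  rw [mul_one] at h
  rw [← mem_preimage, h, Qf_zero]
  refine ⟨⟨by norm_num, by norm_num⟩, ?_, ?_⟩ <;> simp

theorem volume_Qf_lt_top (z : ST d) (ρ : ℝ) : volume (Qf z ρ) < ⊤ := by
  refine Bornology.IsBounded.measure_lt_top ?_
  rw [isBounded_iff_forall_norm_le]
  refine ⟨max (|z.1| + ρ ^ 2) (max (‖z.2.1‖ + ρ ^ 2 * ‖z.2.2‖ + |ρ| ^ 3) (‖z.2.2‖ + |ρ|)), ?_⟩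
  rintro p ⟨h1, h2, h3, h4⟩
  have e1 : |p.1| ≤ |z.1| + ρ ^ 2 := by
    have : |p.1| ≤ |z.1| + |p.1 - z.1| := by
      have := abs_add_le z.1 (p.1 - z.1)
      simpa using this
    rw [abs_of_pos h1] at this
    linarith
  have e2 : ‖p.2.1‖ ≤ ‖z.2.1‖ + ρ ^ 2 * ‖z.2.2‖ + |ρ| ^ 3 := by
    have hh : p.2.1 = (p.2.1 - z.2.1 - (p.1 - z.1) • z.2.2) + z.2.1 + (p.1 - z.1) • z.2.2 := by
      abel
    have a1 : ‖p.2.1‖ ≤ ‖p.2.1 - z.2.1 - (p.1 - z.1) • z.2.2‖ + ‖z.2.1‖ +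
        ‖(p.1 - z.1) • z.2.2‖ := by
      conv_lhs => rw [hh]
      exact norm_add₃_le
    have a2 : ‖(p.1 - z.1) • z.2.2‖ ≤ ρ ^ 2 * ‖z.2.2‖ := by
      rw [norm_smul, Real.norm_eq_abs, abs_of_pos h1]
      exact mul_le_mul_of_nonneg_right h2.le (norm_nonneg _)
    have a3 : ρ ^ 3 ≤ |ρ| ^ 3 := by
      rw [← abs_pow]; exact le_abs_self _
    linarith
  have e3 : ‖p.2.2‖ ≤ ‖z.2.2‖ + |ρ| := by
    have a1 : ‖p.2.2‖ ≤ ‖z.2.2‖ + ‖p.2.2 - z.2.2‖ := by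
      have := norm_add_le z.2.2 (p.2.2 - z.2.2)
      simpa using this
    have := le_abs_self ρ
    linarith
  rw [Prod.norm_def, Prod.norm_def, Real.norm_eq_abs]
  exact max_le_max e1 (max_le_max e2 e3)

end Pool.Agent.Lib.MP_eee7b5_an
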