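import Pool.Agent.Lib.MP_eee7b5_an.Defs
import Pool.Agent.Lib.MP_eee7b5_an.CylA
import Pool.Agent.Lib.MP_eee7b5_an.CylB
import Pool.Agent.Lib.MP_eee7b5_an.CylC

set_option autoImplicit false

/-!
Kinetic cylinders: geometry and measure.
-/

namespace Pool.Agent.Lib.MP_eee7b5_an

open MeasureTheory Set Matrix
open scoped ENNReal

variable {d : ℕ}

/-- The future cylinder at `z` contains the past cylinders of half size of the points
`z ∘ (t, x, v)`, `1/4 < t < 1`, `|x| < 3/4`, `|v| < 1/2` (unit scale). -/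
theorem Qp_half_subset {y : ST d} (h1 : 1 / 4 ≤ y.1) (h2 : y.1 < 1) (h3 : ‖y.2.1‖ < 3 / 4)
    (h4 : ‖y.2.2‖ < 1 / 2) : Qp y (1 / 2) ⊆ Qf 0 1 := by
  intro p hp
  obtain ⟨a1, a2, a3, a4⟩ := hp
  simp only [Qf, mem_setOf_eq, Prod.fst_zero, Prod.snd_zero, sub_zero, smul_zero, one_pow]
  refine ⟨?_, ?_, ?_, ?_⟩
  · norm_num at a1
    linarith
  · linarith
  · have e1 : p.2.1 = (p.2.1 - y.2.1 - (p.1 - y.1) • y.2.2) + y.2.1 + (p.1 - y.1) • y.2.2 := by
      abel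
    have e2 : ‖(p.1 - y.1) • y.2.2‖ ≤ 1 / 4 * (1 / 2) := by
      rw [norm_smul, Real.norm_eq_abs]
      have : |p.1 - y.1| ≤ 1 / 4 := by
        rw [abs_le]
        norm_num at a1
        constructor <;> linarith
      exact mul_le_mul this h4.le (norm_nonneg _) (by norm_num)
    have e3 : ‖p.2.1‖ ≤ ‖p.2.1 - y.2.1 - (p.1 - y.1) • y.2.2‖ + ‖y.2.1‖ +
        ‖(p.1 - y.1) • y.2.2‖ := by
      conv_lhs => rw [e1]
      exact norm_add₃_le
    norm_num at a3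
    linarith
  · have e1 : p.2.2 = (p.2.2 - y.2.2) + y.2.2 := by abel
    have e3 : ‖p.2.2‖ ≤ ‖p.2.2 - y.2.2‖ + ‖y.2.2‖ := by
      conv_lhs => rw [e1]
      exact norm_add_le _ _
    linarith

end Pool.Agent.Lib.MP_eee7b5_an
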