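import Pool.Agent.Lib.MP_eee7b5_an.Growth
import Pool.Agent.Lib.MP_eee7b5_an.CylA
import Pool.Agent.Lib.MP_eee7b5_an.CylB
import Pool.Agent.Lib.MP_eee7b5_an.CylC
import Pool.Agent.Lib.MP_eee7b5_an.CylD

set_option autoImplicit false

/-!
Kinetic cylinders: geometry and measure.
-/

namespace Pool.Agent.Lib.MP_eee7b5_an

open MeasureTheory Set Matrix
open scoped ENNReal

variable {d : ℕ}

/-- Growth lemma for future cylinders (unit scale). -/
theorem growth_future {lam Lam : ℝ} (hd : 1 ≤ d) (hlam : 0 < lam) (hLam : lam ≤ Lam) :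
    ∃ μ : ℝ, 0 < μ ∧ μ < 1 ∧ ∀ (Ω : Set (ST d)) (g : ST d → ℝ), IsOpen Ω → IsSol lam Lam Ω g →
      Qf 0 1 ⊆ Ω → (∀ p ∈ Qf (0 : ST d) 1, 0 ≤ g p) →
      volume (Qf 0 1 ∩ {p | g p < 1}) ≤ ENNReal.ofReal μ * volume (Qf (0 : ST d) 1) →
      ∀ y : ST d, 1 / 4 ≤ y.1 → y.1 < 1 → ‖y.2.1‖ < 3 / 4 → ‖y.2.2‖ < 1 / 2 → 1 / 3 ≤ g y := by
  obtain ⟨ε0, hε0, hgrowth⟩ := growth (d := d) hd hlam hLam
  set V : ℝ := (volume (Qf (0 : ST d) 1)).toReal with hV
  have hVtop : volume (Qf (0 : ST d) 1) ≠ ⊤ := (volume_Qf_lt_top 0 1).ne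
  have hVpos : 0 < V := ENNReal.toReal_pos (volume_Qf_pos 0 one_pos).ne' hVtop
  have hVeq : volume (Qf (0 : ST d) 1) = ENNReal.ofReal V := (ENNReal.ofReal_toReal hVtop).symm
  set M : ℝ := (1 / 2 : ℝ) ^ (4 * d + 2) with hM
  have hMpos : 0 < M := by positivity
  refine ⟨min (1 / 2) (M * ε0 / V), lt_min (by norm_num) (by positivity),
    lt_of_le_of_lt (min_le_left _ _) (by norm_num), ?_⟩
  intro Ω g hΩ hg hQ h0 hvol y h1 h2 h3 h4
  have hsub : Qp y (1 / 2) ⊆ Qf 0 1 := Qp_half_subset h1 h2 h3 h4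
  have hhalf : (0 : ℝ) < 1 / 2 := by norm_num
  have hQ1 : Q1 d = kin y (1 / 2) ⁻¹' Qp y (1 / 2) := by
    have e1 := kin_preimage_Qp y hhalf 1 one_pos
    rw [mul_one] at e1
    rw [e1, Qp_zero]
    unfold Q1
    norm_num
  have hgc : ContinuousOn g Ω := hg.continuousOn hΩ
  set A : Set (ST d) := Qp y (1 / 2) ∩ {p | g p < 1} with hA
  have hAm : MeasurableSet A := by
    have e2 : A = Qp y (1 / 2) ∩ (Ω ∩ g ⁻¹' Iio 1) := by
      ext p
      constructor
      · rintro ⟨k1, k2⟩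
        exact ⟨k1, hQ (hsub k1), k2⟩
      · rintro ⟨k1, _, k2⟩
        exact ⟨k1, k2⟩
    rw [e2]
    exact (Qp_measurable y (1 / 2)).inter
      (hgc.isOpen_inter_preimage hΩ isOpen_Iio).measurableSet
  have hpre : Q1 d ∩ {p | g (kin y (1 / 2) p) < 1} = kin y (1 / 2) ⁻¹' A := by
    rw [hQ1]
    rfl
  have hvolA : volume A ≤ ENNReal.ofReal (M * ε0) := by
    calc volume A ≤ volume (Qf 0 1 ∩ {p | g p < 1}) :=
          measure_mono (inter_subset_inter_left _ hsub)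
      _ ≤ ENNReal.ofReal (min (1 / 2) (M * ε0 / V)) * volume (Qf (0 : ST d) 1) := hvol
      _ ≤ ENNReal.ofReal (M * ε0 / V) * volume (Qf (0 : ST d) 1) := by
          gcongr
          exact min_le_right _ _
      _ = ENNReal.ofReal (M * ε0) := by
          rw [hVeq, ← ENNReal.ofReal_mul (by positivity)]
          congr 1
          field_simp
  have hfin : 1 / 3 ≤ g (kin y (1 / 2) 0) := by
    refine hgrowth (kin y (1 / 2) ⁻¹' Ω) (fun p => g (kin y (1 / 2) p))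
      (hΩ.preimage (kin_continuous y _)) (hg.kin hΩ y hhalf) ?_ ?_ ?_
    · rw [hQ1]
      exact preimage_mono (hsub.trans hQ)
    · intro p hp
      rw [hQ1] at hp
      exact h0 _ (hsub hp)
    · rw [hpre]
      have e3 := volume_kin_preimage y hhalf hAm
      have e4 : ENNReal.ofReal M * volume (kin y (1 / 2) ⁻¹' A) ≤
          ENNReal.ofReal M * ENNReal.ofReal ε0 := by
        rw [hM, e3, ← hM, ← ENNReal.ofReal_mul hMpos.le]
        exact hvolA
      have hM0 : ENNReal.ofReal M ≠ 0 := by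
        rw [Ne, ENNReal.ofReal_eq_zero, not_le]
        exact hMpos
      exact (ENNReal.mul_le_mul_iff_right hM0 ENNReal.ofReal_ne_top).mp e4
  rwa [kin_zero] at hfin

end Pool.Agent.Lib.MP_eee7b5_an
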