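import Mathlib

set_option autoImplicit false

/-!
# Kinetic Krylov–Safonov: definitions

Coordinates: a point of space-time is `p = (t, x, v)`, `p.1 = t`, `p.2.1 = x`, `p.2.2 = v`.
-/

namespace Pool.Agent.Lib.MP_eee7b5_an

open MeasureTheory Set Matrix
open scoped ENNReal

/-- `ℝ^d`. -/
abbrev E (d : ℕ) := EuclideanSpace ℝ (Fin d)
/-- Phase space: `z = (x, v)`. -/
abbrev ZZ (d : ℕ) := E d × E d
/-- Space-time. -/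
abbrev ST (d : ℕ) := ℝ × E d × E d

/-! ### The Gaussian kernel -/

/-- Exponent of the kernel: half the quadratic form of `Σ(s)⁻¹`,
`Σ(s) = [[κ² s³, κ s²], [κ s², 2 s]] ⊗ I`. -/
noncomputable def qG {d : ℕ} (κ s : ℝ) (z : ZZ d) : ℝ :=
  ‖z.1‖ ^ 2 / (κ ^ 2 * s ^ 3) - inner ℝ z.1 z.2 / (κ * s ^ 2) + ‖z.2‖ ^ 2 / (2 * s)

/-- The polar form of `2 * qG`, i.e. the derivative of `qG κ s` at `z` in direction `e`. -/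
noncomputable def bG {d : ℕ} (κ s : ℝ) (z e : ZZ d) : ℝ :=
  2 * inner ℝ z.1 e.1 / (κ ^ 2 * s ^ 3) - (inner ℝ z.1 e.2 + inner ℝ e.1 z.2) / (κ * s ^ 2)
    + inner ℝ z.2 e.2 / s

/-- The Gaussian probability density with covariance `Σ(s)`. -/
noncomputable def GG {d : ℕ} (κ s : ℝ) (z : ZZ d) : ℝ :=
  ((2 * Real.pi * κ * s ^ 2) ^ d)⁻¹ * Real.exp (-(qG κ s z))

/-- Directional derivative of `GG` (first order). -/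
noncomputable def dG {d : ℕ} (κ s : ℝ) (e z : ZZ d) : ℝ := -(bG κ s z e) * GG κ s z

/-- Second directional derivative of `GG`. -/
noncomputable def ddG {d : ℕ} (κ s : ℝ) (e f z : ZZ d) : ℝ :=
  (bG κ s z e * bG κ s z f - bG κ s e f) * GG κ s z

/-- `∂_s GG`. -/
noncomputable def sG {d : ℕ} (κ s : ℝ) (z : ZZ d) : ℝ :=
  (-(2 * (d : ℝ)) / s + 3 * ‖z.1‖ ^ 2 / (κ ^ 2 * s ^ 4) - 2 * inner ℝ z.1 z.2 / (κ * s ^ 3)
    + ‖z.2‖ ^ 2 / (2 * s ^ 2)) * GG κ s z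

/-- Unit vector in the `x_a` direction. -/
noncomputable def dx {d : ℕ} (a : Fin d) : ZZ d := (EuclideanSpace.single a (1 : ℝ), 0)
/-- Unit vector in the `v_a` direction. -/
noncomputable def dv {d : ℕ} (a : Fin d) : ZZ d := (0, EuclideanSpace.single a (1 : ℝ))

/-! ### Finite mixtures -/

/-- `∑ w_i GG_s(z - y_i)`.  With weights `w_i` this is the smoothed law `u_s`; with weights
`w_i α_i` it is the smoothed first moment `p_s` of the mark `α`. -/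
noncomputable def uM {d : ℕ} {ι : Type} [Fintype ι] (κ : ℝ) (w : ι → ℝ) (y : ι → ZZ d) (s : ℝ)
    (z : ZZ d) : ℝ := ∑ i, w i * GG κ s (z - y i)

/-- First directional derivative of `uM`. -/
noncomputable def duM {d : ℕ} {ι : Type} [Fintype ι] (κ : ℝ) (w : ι → ℝ) (y : ι → ZZ d) (s : ℝ)
    (e z : ZZ d) : ℝ := ∑ i, w i * dG κ s e (z - y i)

/-- Second directional derivative of `uM`. -/
noncomputable def dduM {d : ℕ} {ι : Type} [Fintype ι] (κ : ℝ) (w : ι → ℝ) (y : ι → ZZ d) (s : ℝ)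
    (e f z : ZZ d) : ℝ := ∑ i, w i * ddG κ s e f (z - y i)

/-- `∂_s uM`. -/
noncomputable def suM {d : ℕ} {ι : Type} [Fintype ι] (κ : ℝ) (w : ι → ℝ) (y : ι → ZZ d) (s : ℝ)
    (z : ZZ d) : ℝ := ∑ i, w i * sG κ s (z - y i)

/-- The posterior mean `a_s = p_s / u_s` of the mark `α`. -/
noncomputable def aM {d : ℕ} {ι : Type} [Fintype ι] (κ : ℝ) (w α : ι → ℝ) (y : ι → ZZ d) (s : ℝ)
    (z : ZZ d) : ℝ := uM κ (fun i => w i * α i) y s z / uM κ w y s z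

/-- Directional derivative of `aM`. -/
noncomputable def daM {d : ℕ} {ι : Type} [Fintype ι] (κ : ℝ) (w α : ι → ℝ) (y : ι → ZZ d) (s : ℝ)
    (e z : ZZ d) : ℝ :=
  (duM κ (fun i => w i * α i) y s e z - aM κ w α y s z * duM κ w y s e z) / uM κ w y s z

/-- `J(s) = ∫ p_s² / u_s`. -/
noncomputable def JM {d : ℕ} {ι : Type} [Fintype ι] (κ : ℝ) (w α : ι → ℝ) (y : ι → ZZ d)
    (s : ℝ) : ℝ := ∫ z : ZZ d, (uM κ (fun i => w i * α i) y s z) ^ 2 / uM κ w y s z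

/-- `∫ u_s (∂_e a_s)²`. -/
noncomputable def eM {d : ℕ} {ι : Type} [Fintype ι] (κ : ℝ) (w α : ι → ℝ) (y : ι → ZZ d)
    (s : ℝ) (e : ZZ d) : ℝ := ∫ z : ZZ d, uM κ w y s z * (daM κ w α y s e z) ^ 2

/-- The entropy integrand. -/
noncomputable def phi (u : ℝ) : ℝ := (1 + u) * Real.log (1 + u) - u

/-- The entropy. -/
noncomputable def Phi {d : ℕ} (u : ZZ d → ℝ) : ℝ := ∫ z : ZZ d, phi (u z)

/-! ### The chain -/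

/-- `j`-th column of `B` as a vector of `ℝ^d`. -/
noncomputable def colB {d : ℕ} (B : Matrix (Fin d) (Fin d) ℝ) (j : Fin d) : E d :=
  WithLp.toLp 2 (fun i => B i j)

/-- `lam ≤ B Bᵀ ≤ Lam`. -/
def EllB {d : ℕ} (lam Lam : ℝ) (B : Matrix (Fin d) (Fin d) ℝ) : Prop :=
  ∀ ξ : Fin d → ℝ, lam * (ξ ⬝ᵥ ξ) ≤ ξ ⬝ᵥ ((B * Bᵀ) *ᵥ ξ) ∧
    ξ ⬝ᵥ ((B * Bᵀ) *ᵥ ξ) ≤ Lam * (ξ ⬝ᵥ ξ)

/-- One step of the chain: the average of `g` over the `2 d` points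
`(x - h v, v ± √(2 h d) B e_j)`. -/
noncomputable def stepAvg {d : ℕ} (h : ℝ) (B : Matrix (Fin d) (Fin d) ℝ) (g : ZZ d → ℝ)
    (y : ZZ d) : ℝ :=
  (2 * (d : ℝ))⁻¹ * ∑ j : Fin d,
    (g (y.1 - h • y.2, y.2 + Real.sqrt (2 * h * d) • colB B j) +
      g (y.1 - h • y.2, y.2 - Real.sqrt (2 * h * d) • colB B j))

/-- Expectation of `g` at step `k` of the chain started at `0`. -/
noncomputable def EX {d : ℕ} (h : ℝ) (B : ℕ → ZZ d → Matrix (Fin d) (Fin d) ℝ) :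
    ℕ → (ZZ d → ℝ) → ℝ
  | 0, g => g 0
  | (k + 1), g => EX h B k (fun y => stepAvg h (B k y) g y)

/-! ### Classical solutions -/

/-- `f` is a classical solution of `f_t + v·∇_x f = tr (a D_v² f)`, `lam ≤ a ≤ Lam`, on `Ω`. -/
def IsSol {d : ℕ} (lam Lam : ℝ) (Ω : Set (ST d)) (f : ST d → ℝ) : Prop :=
  ∃ (a : ST d → Matrix (Fin d) (Fin d) ℝ) (ft : ST d → ℝ) (Dx Dv : ST d → (E d →L[ℝ] ℝ))
    (D2v : ST d → (E d →L[ℝ] E d →L[ℝ] ℝ)),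
    (∀ p ∈ Ω, (a p).IsSymm ∧
      ∀ ξ : Fin d → ℝ, lam * (ξ ⬝ᵥ ξ) ≤ ξ ⬝ᵥ (a p *ᵥ ξ) ∧ ξ ⬝ᵥ (a p *ᵥ ξ) ≤ Lam * (ξ ⬝ᵥ ξ)) ∧
    ContinuousOn ft Ω ∧ ContinuousOn Dx Ω ∧ ContinuousOn D2v Ω ∧
    (∀ p ∈ Ω, HasDerivAt (fun s => f (s, p.2.1, p.2.2)) (ft p) p.1) ∧
    (∀ p ∈ Ω, HasFDerivAt (fun y => f (p.1, y, p.2.2)) (Dx p) p.2.1) ∧
    (∀ p ∈ Ω, HasFDerivAt (fun w => f (p.1, p.2.1, w)) (Dv p) p.2.2) ∧
    (∀ p ∈ Ω, HasFDerivAt (fun w => Dv (p.1, p.2.1, w)) (D2v p) p.2.2) ∧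
    (∀ p ∈ Ω, ft p + Dx p p.2.2 = ∑ i, ∑ j, a p i j *
      D2v p (EuclideanSpace.single i (1 : ℝ)) (EuclideanSpace.single j (1 : ℝ)))

/-! ### Kinetic scaling and cylinders -/

/-- The kinetic dilation-translation `z ∘ S_ρ`. -/
noncomputable def kin {d : ℕ} (z : ST d) (ρ : ℝ) (p : ST d) : ST d :=
  (z.1 + ρ ^ 2 * p.1, z.2.1 + ρ ^ 3 • p.2.1 + (ρ ^ 2 * p.1) • z.2.2, z.2.2 + ρ • p.2.2)

/-- Future cylinder; `z` is the centre of its bottom. -/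
def Qf {d : ℕ} (z : ST d) (ρ : ℝ) : Set (ST d) :=
  {p | 0 < p.1 - z.1 ∧ p.1 - z.1 < ρ ^ 2 ∧ ‖p.2.1 - z.2.1 - (p.1 - z.1) • z.2.2‖ < ρ ^ 3 ∧
    ‖p.2.2 - z.2.2‖ < ρ}

/-- Past cylinder; `z` is the centre of its top. -/
def Qp {d : ℕ} (z : ST d) (ρ : ℝ) : Set (ST d) :=
  {p | -(ρ ^ 2) < p.1 - z.1 ∧ p.1 - z.1 ≤ 0 ∧ ‖p.2.1 - z.2.1 - (p.1 - z.1) • z.2.2‖ < ρ ^ 3 ∧
    ‖p.2.2 - z.2.2‖ < ρ}

/-- The region `0 < t ≤ T`, `|x| ≤ R³`, `|v| ≤ R`. -/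
def Reg {d : ℕ} (T R : ℝ) : Set (ST d) :=
  {p | 0 < p.1 ∧ p.1 ≤ T ∧ ‖p.2.1‖ ≤ R ^ 3 ∧ ‖p.2.2‖ ≤ R}

end Pool.Agent.Lib.MP_eee7b5_an
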