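import Pool.Agent.Lib.MP_eee7b5_an.Cyl
import Pool.Agent.Lib.MP_eee7b5_an.Bar

set_option autoImplicit false

/-!
Growth lemma + barrier, and the filling of future cylinders.
-/

namespace Pool.Agent.Lib.MP_eee7b5_an

open MeasureTheory Set Matrix
open scoped ENNReal

variable {d : ℕ}

/-- `g ≥ a` on a proportion `≥ 1 - μ` of `Qf z ρ`. -/
def Dens (μ a : ℝ) (g : ST d → ℝ) (z : ST d) (ρ : ℝ) : Prop :=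
  volume (Qf z ρ ∩ {p | g p < a}) ≤ ENNReal.ofReal μ * volume (Qf z ρ)

/-- The region `z ∘ S_ρ (0 < t ≤ T, |x| ≤ R³, |v| ≤ R)`. -/
def RegAt (z : ST d) (ρ T R : ℝ) : Set (ST d) :=
  {p | 0 < p.1 - z.1 ∧ p.1 - z.1 ≤ T * ρ ^ 2 ∧
    ‖p.2.1 - z.2.1 - (p.1 - z.1) • z.2.2‖ ≤ R ^ 3 * ρ ^ 3 ∧ ‖p.2.2 - z.2.2‖ ≤ R * ρ}

theorem kin_preimage_RegAt (z : ST d) {ρ : ℝ} (hρ : 0 < ρ) (T R : ℝ) :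
    kin z ρ ⁻¹' RegAt z ρ T R = RegAt 0 1 T R := by
  ext p
  have h2 : 0 < ρ ^ 2 := by positivity
  have h3 : 0 < ρ ^ 3 := by positivity
  have e1 : (kin z ρ p).1 - z.1 = ρ ^ 2 * p.1 := by
    simp [kin]
  have e2 : (kin z ρ p).2.1 - z.2.1 - ((kin z ρ p).1 - z.1) • z.2.2 = ρ ^ 3 • p.2.1 := by
    rw [e1]
    simp only [kin]
    abel
  have e3 : (kin z ρ p).2.2 - z.2.2 = ρ • p.2.2 := by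
    simp [kin]
  have n2 : ‖ρ ^ 3 • p.2.1‖ = ρ ^ 3 * ‖p.2.1‖ := by
    rw [norm_smul, Real.norm_of_nonneg h3.le]
  have n3 : ‖ρ • p.2.2‖ = ρ * ‖p.2.2‖ := by
    rw [norm_smul, Real.norm_of_nonneg hρ.le]
  have key : kin z ρ p ∈ RegAt z ρ T R ↔ (0 < ρ ^ 2 * p.1 ∧ ρ ^ 2 * p.1 ≤ T * ρ ^ 2 ∧
      ρ ^ 3 * ‖p.2.1‖ ≤ R ^ 3 * ρ ^ 3 ∧ ρ * ‖p.2.2‖ ≤ R * ρ) := by
    unfold RegAt
    show (0 < (kin z ρ p).1 - z.1 ∧ (kin z ρ p).1 - z.1 ≤ T * ρ ^ 2 ∧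
      ‖(kin z ρ p).2.1 - z.2.1 - ((kin z ρ p).1 - z.1) • z.2.2‖ ≤ R ^ 3 * ρ ^ 3 ∧
      ‖(kin z ρ p).2.2 - z.2.2‖ ≤ R * ρ) ↔ _
    rw [e2, e3, e1, n2, n3]
  have key2 : p ∈ RegAt (0 : ST d) 1 T R ↔ (0 < p.1 ∧ p.1 ≤ T ∧ ‖p.2.1‖ ≤ R ^ 3 ∧
      ‖p.2.2‖ ≤ R) := by
    unfold RegAt
    show (0 < p.1 - 0 ∧ p.1 - 0 ≤ T * 1 ^ 2 ∧
      ‖p.2.1 - 0 - (p.1 - 0) • (0 : E d)‖ ≤ R ^ 3 * 1 ^ 3 ∧ ‖p.2.2 - 0‖ ≤ R * 1) ↔ _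
    simp
  rw [Set.mem_preimage, key, key2]
  constructor
  · rintro ⟨a1, a2, a3, a4⟩
    refine ⟨?_, ?_, ?_, ?_⟩
    · exact (mul_pos_iff_of_pos_left h2).1 a1
    · rw [mul_comm T] at a2
      exact le_of_mul_le_mul_left a2 h2
    · rw [mul_comm (R ^ 3)] at a3
      exact le_of_mul_le_mul_left a3 h3
    · rw [mul_comm R] at a4
      exact le_of_mul_le_mul_left a4 hρ
  · rintro ⟨a1, a2, a3, a4⟩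
    refine ⟨mul_pos h2 a1, ?_, ?_, ?_⟩
    · rw [mul_comm T]
      exact mul_le_mul_of_nonneg_left a2 h2.le
    · rw [mul_comm (R ^ 3)]
      exact mul_le_mul_of_nonneg_left a3 h3.le
    · rw [mul_comm R]
      exact mul_le_mul_of_nonneg_left a4 hρ.le

/-- Growth lemma and barrier combined, unit scale. -/
def BGLU (d : ℕ) (lam Lam μ : ℝ) : Prop :=
  ∀ K T : ℝ, 1 ≤ K → 1 ≤ T → ∃ R c : ℝ, 1 ≤ R ∧ 0 < c ∧ c ≤ 1 ∧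
      ∀ (Ω : Set (ST d)) (g : ST d → ℝ) (T' : ℝ), IsOpen Ω → IsSol lam Lam Ω g →
      1 ≤ T' → T' ≤ T → RegAt 0 1 T' R ⊆ Ω → (∀ p ∈ RegAt (0 : ST d) 1 T' R, 0 ≤ g p) →
      Dens μ 1 g 0 1 →
      ∀ p : ST d, 1 ≤ p.1 → p.1 ≤ T' → ‖p.2.1‖ ≤ K ^ 3 → ‖p.2.2‖ ≤ K → c ≤ g p

/-- Growth lemma and barrier combined, at every position, scale and level. -/
def BGL (d : ℕ) (lam Lam μ : ℝ) : Prop :=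
  ∀ K T : ℝ, 1 ≤ K → 1 ≤ T → ∃ R c : ℝ, 1 ≤ R ∧ 0 < c ∧ c ≤ 1 ∧
      ∀ (Ω : Set (ST d)) (g : ST d → ℝ), IsOpen Ω → IsSol lam Lam Ω g →
      ∀ (z : ST d) (ρ T' a : ℝ), 0 < ρ → 1 ≤ T' → T' ≤ T → 0 < a →
      RegAt z ρ T' R ⊆ Ω → (∀ p ∈ RegAt z ρ T' R, 0 ≤ g p) → Dens μ a g z ρ →
      ∀ p : ST d, ρ ^ 2 ≤ p.1 - z.1 → p.1 - z.1 ≤ T' * ρ ^ 2 →
        ‖p.2.1 - z.2.1 - (p.1 - z.1) • z.2.2‖ ≤ K ^ 3 * ρ ^ 3 → ‖p.2.2 - z.2.2‖ ≤ K * ρ →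
        c * a ≤ g p

/-- Filling of a future cylinder: if `g ≥ a` has density `≥ 1 - μ` at all dyadic scales
`2^{-j} ρ`, `j ≥ 1`, then `g ≥ c a` on `Qf z ρ` except for the first fraction `κ` of the time. -/
def FILL (d : ℕ) (lam Lam μ : ℝ) : Prop :=
  ∀ κ : ℝ, 0 < κ → κ < 1 → ∃ R c : ℝ, 1 ≤ R ∧ 0 < c ∧ c ≤ 1 ∧
      ∀ (Ω : Set (ST d)) (g : ST d → ℝ), IsOpen Ω → IsSol lam Lam Ω g →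
      ∀ (z : ST d) (ρ a : ℝ), 0 < ρ → 0 < a →
      RegAt z ρ 1 R ⊆ Ω → (∀ p ∈ RegAt z ρ 1 R, 0 ≤ g p) →
      (∀ j : ℕ, 1 ≤ j → Dens μ a g z (ρ / 2 ^ j)) →
      ∀ p ∈ Qf z ρ, κ * ρ ^ 2 ≤ p.1 - z.1 → c * a ≤ g p

end Pool.Agent.Lib.MP_eee7b5_an
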