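import Pool.Agent.Lib.MP_eee7b5_an.Cyl
import Pool.Agent.Lib.MP_eee7b5_an.Bar
import Pool.Agent.Lib.MP_eee7b5_an.FillA

set_option autoImplicit false

/-!
Growth lemma + barrier, and the filling of future cylinders.
-/

namespace Pool.Agent.Lib.MP_eee7b5_an

open MeasureTheory Set Matrix
open scoped ENNReal

variable {d : ℕ}

theorem fillB_kin (p : ST d) : kin ((1 / 2 : ℝ), (0 : E d), (0 : E d)) 1 p
    = (1 / 2 + p.1, p.2.1, p.2.2) := by
  unfold kin
  ext1
  · simp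
  · ext1
    · simp
    · simp

theorem exists_BGLU {lam Lam : ℝ} (hd : 1 ≤ d) (hlam : 0 < lam) (hLam : lam ≤ Lam) :
    ∃ μ : ℝ, 0 < μ ∧ μ < 1 ∧ BGLU d lam Lam μ := by
  obtain ⟨μ, hμ, hμ1, hgrow⟩ := growth_future (d := d) hd hlam hLam
  refine ⟨μ, hμ, hμ1, ?_⟩
  intro K T hK hT
  obtain ⟨R, c, hR, hKR, hc, hbar⟩ := barrier (d := d) hlam hLam (K := K) (T := T) (t1 := 1 / 2)
    hK (by linarith) (by norm_num)
  refine ⟨R, min 1 (c / 3), hR, lt_min one_pos (by positivity), min_le_left _ _, ?_⟩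
  intro Ω g T' hΩ hg hT'1 hT'T hreg hpos hdens p hp1 hpT hpx hpv
  have hR3 : 1 ≤ R ^ 3 := one_le_pow₀ hR
  have hmem : ∀ q : ST d, 0 < q.1 → q.1 ≤ T' → ‖q.2.1‖ ≤ R ^ 3 → ‖q.2.2‖ ≤ R →
      q ∈ RegAt (0 : ST d) 1 T' R := by
    intro q h1 h2 h3 h4
    refine ⟨?_, ?_, ?_, ?_⟩
    · simpa using h1
    · simpa using h2
    · simpa using h3
    · simpa using h4
  have hQf : (Qf 0 1 : Set (ST d)) ⊆ RegAt (0 : ST d) 1 T' R := by
    intro q hq
    obtain ⟨h1, h2, h3, h4⟩ := hq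
    simp only [Prod.fst_zero, Prod.snd_zero, sub_zero, smul_zero, one_pow] at h1 h2 h3 h4
    exact hmem q h1 (by linarith) (by linarith) (by linarith)
  have hg3 : ∀ (x v : E d), ‖x‖ ≤ 1 / 2 → ‖v‖ ≤ 1 / 4 → 1 / 3 ≤ g (1 / 2, x, v) := by
    intro x v hx hv
    exact hgrow Ω g hΩ hg (hQf.trans hreg) (fun q hq => hpos q (hQf hq)) hdens (1 / 2, x, v)
      (by norm_num) (by norm_num) (by simpa using lt_of_le_of_lt hx (by norm_num))
      (by simpa using lt_of_le_of_lt hv (by norm_num))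
  set z0 : ST d := ((1 / 2 : ℝ), (0 : E d), (0 : E d)) with hz0
  have hsol := (hg.kin hΩ z0 (ρ := 1) one_pos).const_mul 3
  have hregC : ∀ q ∈ RegC d (T' - 1 / 2) R, kin z0 1 q ∈ RegAt (0 : ST d) 1 T' R := by
    intro q hq
    obtain ⟨h1, h2, h3⟩ := hq
    rw [mem_closedBall_zero_iff] at h2 h3
    rw [hz0, fillB_kin]
    exact hmem _ (by simp only; linarith [h1.1]) (by simp only; linarith [h1.2]) h2 h3
  have key := hbar (kin z0 1 ⁻¹' Ω) (fun q => 3 * g (kin z0 1 q)) (T' - 1 / 2)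
    (hΩ.preimage (kin_continuous z0 1)) hsol (by linarith) (by linarith)
    (fun q hq => hreg (hregC q hq))
    (fun q hq => by
      have := hpos _ (hregC q hq)
      show 0 ≤ 3 * g (kin z0 1 q)
      linarith)
    (fun x v hx hv => by
      have h5 := hg3 x v hx hv
      show 1 ≤ 3 * g (kin z0 1 (0, x, v))
      rw [hz0, fillB_kin]
      simp only [add_zero]
      linarith)
    (p.1 - 1 / 2, p.2.1, p.2.2) (by simp only; linarith) (by simp only; linarith) hpx hpv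
  have h6 : kin z0 1 (p.1 - 1 / 2, p.2.1, p.2.2) = p := by
    rw [hz0, fillB_kin]
    simp
  rw [h6] at key
  refine (min_le_right _ _).trans ?_
  linarith

end Pool.Agent.Lib.MP_eee7b5_an
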