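import Pool.Agent.Lib.MP_eee7b5_an.Cyl
import Pool.Agent.Lib.MP_eee7b5_an.Bar
import Pool.Agent.Lib.MP_eee7b5_an.FillA
import Pool.Agent.Lib.MP_eee7b5_an.FillB

set_option autoImplicit false

/-!
Growth lemma + barrier, and the filling of future cylinders.
-/

namespace Pool.Agent.Lib.MP_eee7b5_an

open MeasureTheory Set Matrix
open scoped ENNReal

variable {d : ℕ}

theorem BGL_of_BGLU {lam Lam μ : ℝ} (hlam : 0 < lam) (hμ : 0 < μ) (h : BGLU d lam Lam μ) :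
    BGL d lam Lam μ := by
  intro K T hK hT
  obtain ⟨R, c, hR, hc, hc1, H⟩ := h K T hK hT
  refine ⟨R, c, hR, hc, hc1, ?_⟩
  intro Ω g hΩ hg z ρ T' a hρ hT' hT'T ha hsub hnn hD p hp1 hp2 hp3 hp4
  have hsub' : RegAt 0 1 T' R ⊆ kin z ρ ⁻¹' Ω := by
    rw [← kin_preimage_RegAt z hρ T' R]
    exact preimage_mono hsub
  have hg' : IsSol lam Lam (kin z ρ ⁻¹' Ω) (fun q => a⁻¹ * g (kin z ρ q)) :=
    (IsSol.kin hΩ hg z hρ).const_mul a⁻¹
  have hnn' : ∀ q ∈ RegAt (0 : ST d) 1 T' R, 0 ≤ a⁻¹ * g (kin z ρ q) := by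
    intro q hq
    rw [← kin_preimage_RegAt z hρ T' R] at hq
    exact mul_nonneg (inv_nonneg.2 ha.le) (hnn _ hq)
  have hQsub : Qf z ρ ⊆ Ω := by
    intro q hq
    apply hsub
    obtain ⟨q1, q2, q3, q4⟩ := hq
    have hR3 : (1 : ℝ) ≤ R ^ 3 := one_le_pow₀ hR
    have hρ2 : 0 < ρ ^ 2 := by positivity
    have hρ3 : 0 < ρ ^ 3 := by positivity
    refine ⟨q1, ?_, ?_, ?_⟩
    · nlinarith
    · nlinarith
    · nlinarith
  have hmeas : MeasurableSet (Qf z ρ ∩ {p | g p < a}) := by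
    have h1 : ContinuousOn g (Qf z ρ) := (hg.continuousOn hΩ).mono hQsub
    exact (h1.isOpen_inter_preimage (Qf_isOpen z ρ) isOpen_Iio).measurableSet
  have hpre : kin z ρ ⁻¹' (Qf z ρ ∩ {p | g p < a}) =
      Qf 0 1 ∩ {q | a⁻¹ * g (kin z ρ q) < 1} := by
    rw [preimage_inter]
    have h1 := kin_preimage_Qf z hρ 1 one_pos
    rw [mul_one] at h1
    rw [h1]
    congr 1
    ext q
    simp only [mem_preimage, mem_ofPred_eq]
    rw [inv_mul_lt_iff₀ ha, mul_one]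
  have hD' : Dens μ 1 (fun q => a⁻¹ * g (kin z ρ q)) (0 : ST d) 1 := by
    unfold Dens at hD ⊢
    rw [← hpre]
    have e1 := volume_kin_preimage z hρ hmeas
    have e2 := volume_Qf z hρ
    have hpos : ENNReal.ofReal (ρ ^ (4 * d + 2)) ≠ 0 := by
      simp only [ne_eq, ENNReal.ofReal_eq_zero, not_le]
      positivity
    have htop : ENNReal.ofReal (ρ ^ (4 * d + 2)) ≠ ⊤ := ENNReal.ofReal_ne_top
    rw [← e1, e2] at hD
    have e3 : ENNReal.ofReal μ * (ENNReal.ofReal (ρ ^ (4 * d + 2)) * volume (Qf (0 : ST d) 1)) =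
        ENNReal.ofReal (ρ ^ (4 * d + 2)) * (ENNReal.ofReal μ * volume (Qf (0 : ST d) 1)) := by
      ring
    rw [e3] at hD
    exact (ENNReal.mul_le_mul_iff_right hpos htop).1 hD
  obtain ⟨q, rfl⟩ := kin_surj z hρ p
  have hkin1 : (kin z ρ q).1 - z.1 = ρ ^ 2 * q.1 := by
    simp [kin]
  have hkin2 : (kin z ρ q).2.1 - z.2.1 - ((kin z ρ q).1 - z.1) • z.2.2 = ρ ^ 3 • q.2.1 := by
    rw [hkin1]
    simp only [kin]
    abel
  have hkin3 : (kin z ρ q).2.2 - z.2.2 = ρ • q.2.2 := by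
    simp [kin]
  rw [hkin2, norm_smul, Real.norm_eq_abs, abs_of_pos (by positivity : 0 < ρ ^ 3)] at hp3
  rw [hkin3, norm_smul, Real.norm_eq_abs, abs_of_pos hρ] at hp4
  rw [hkin1] at hp1 hp2
  have hρ2 : 0 < ρ ^ 2 := by positivity
  have hρ3 : 0 < ρ ^ 3 := by positivity
  have key := H (kin z ρ ⁻¹' Ω) (fun q => a⁻¹ * g (kin z ρ q)) T'
    (hΩ.preimage (kin_continuous z ρ)) hg' hT' hT'T hsub' hnn' hD' q ?_ ?_ ?_ ?_
  · rw [inv_mul_eq_div, le_div_iff₀ ha] at key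
    exact key
  · by_contra hcon
    push Not at hcon
    nlinarith
  · by_contra hcon
    push Not at hcon
    nlinarith
  · by_contra hcon
    push Not at hcon
    nlinarith
  · by_contra hcon
    push Not at hcon
    nlinarith

end Pool.Agent.Lib.MP_eee7b5_an
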