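import Pool.Agent.Lib.MP_eee7b5_an.Cyl
import Pool.Agent.Lib.MP_eee7b5_an.Bar
import Pool.Agent.Lib.MP_eee7b5_an.FillA
import Pool.Agent.Lib.MP_eee7b5_an.FillB
import Pool.Agent.Lib.MP_eee7b5_an.FillC

set_option autoImplicit false

/-!
Growth lemma + barrier, and the filling of future cylinders.
-/

namespace Pool.Agent.Lib.MP_eee7b5_an

open MeasureTheory Set Matrix
open scoped ENNReal

variable {d : ℕ}

/-- The dyadic scale used below. -/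
theorem exists_dyadic_scale {κ ρ s : ℝ} (hκ : 0 < κ) (hρ : 0 < ρ) (h1 : κ * ρ ^ 2 ≤ s)
    (h2 : s < ρ ^ 2) :
    ∃ j : ℕ, 1 ≤ j ∧ (ρ / 2 ^ j) ^ 2 ≤ s ∧ s ≤ 4 * (ρ / 2 ^ j) ^ 2 ∧
      ρ ≤ (2 / Real.sqrt κ + 1) * (ρ / 2 ^ j) := by
  have hρ2 : 0 < ρ ^ 2 := by positivity
  have hs : 0 < s := lt_of_lt_of_le (by positivity) h1
  have hx : 1 ≤ ρ ^ 2 / s := by
    rw [le_div_iff₀ hs]; linarith
  obtain ⟨n, hn1, hn2⟩ := exists_nat_pow_near hx (by norm_num : (1 : ℝ) < 4)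
  rw [le_div_iff₀ hs] at hn1
  rw [div_lt_iff₀ hs] at hn2
  have h4 : ∀ m : ℕ, (4 : ℝ) ^ m = (2 ^ m) ^ 2 := by
    intro m
    rw [← pow_mul, mul_comm, pow_mul]; norm_num
  refine ⟨n + 1, Nat.succ_le_succ (Nat.zero_le _), ?_, ?_, ?_⟩
  · rw [div_pow, ← h4, div_le_iff₀ (by positivity)]
    linarith
  · rw [div_pow, ← h4, pow_succ 4 n]
    have h5 : 4 * (ρ ^ 2 / (4 ^ n * 4)) = ρ ^ 2 / 4 ^ n := by
      field_simp
    rw [h5, le_div_iff₀ (by positivity)]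
    linarith
  · have hsq : 0 < Real.sqrt κ := Real.sqrt_pos.2 hκ
    have h6 : Real.sqrt κ * 2 ^ n ≤ 1 := by
      have h7 : (Real.sqrt κ * 2 ^ n) ^ 2 ≤ 1 ^ 2 := by
        rw [mul_pow, Real.sq_sqrt hκ.le, ← h4, one_pow]
        have h8 : 4 ^ n * (κ * ρ ^ 2) ≤ ρ ^ 2 :=
          le_trans (mul_le_mul_of_nonneg_left h1 (by positivity)) hn1
        have h9 : κ * 4 ^ n * ρ ^ 2 ≤ 1 * ρ ^ 2 := by linarith
        exact le_of_mul_le_mul_right h9 hρ2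
      exact le_of_sq_le_sq h7 (by norm_num)
    have h10 : (2 : ℝ) ^ n ≤ 1 / Real.sqrt κ := by
      rw [le_div_iff₀ hsq]; linarith
    have h11 : (2 : ℝ) ^ (n + 1) ≤ 2 / Real.sqrt κ + 1 := by
      have h12 : 2 / Real.sqrt κ = 2 * (1 / Real.sqrt κ) := by ring
      rw [pow_succ, h12]; linarith
    have h13 : ρ = 2 ^ (n + 1) * (ρ / 2 ^ (n + 1)) := by
      field_simp
    calc ρ = 2 ^ (n + 1) * (ρ / 2 ^ (n + 1)) := h13
      _ ≤ (2 / Real.sqrt κ + 1) * (ρ / 2 ^ (n + 1)) :=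
        mul_le_mul_of_nonneg_right h11 (by positivity)

theorem FILL_of_BGL {lam Lam μ : ℝ} (hlam : 0 < lam) (hμ : 0 < μ) (h : BGL d lam Lam μ) :
    FILL d lam Lam μ := by
  intro κ hκ hκ1
  have hK : 1 ≤ 2 / Real.sqrt κ + 1 := by
    have : 0 ≤ 2 / Real.sqrt κ := by positivity
    linarith
  obtain ⟨R, c, hR, hc, hc1, H⟩ := h (2 / Real.sqrt κ + 1) 4 hK (by norm_num)
  refine ⟨R, c, hR, hc, hc1, ?_⟩
  intro Ω g hΩ hg z ρ a hρ ha hreg hpos hdens p hp hpt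
  obtain ⟨hp0, hp1, hp2, hp3⟩ := hp
  obtain ⟨j, hj, hj1, hj2, hj3⟩ := exists_dyadic_scale hκ hρ hpt hp1
  have hr : 0 < ρ / 2 ^ j := by positivity
  have hpow : (1 : ℝ) ≤ 2 ^ j := one_le_pow₀ (by norm_num)
  have hrle : ρ / 2 ^ j ≤ ρ := div_le_self hρ.le hpow
  have hsub : RegAt z (ρ / 2 ^ j) 4 R ⊆ RegAt z ρ 1 R := by
    rintro q ⟨hq0, hq1, hq2, hq3⟩
    have hR0 : 0 ≤ R := by linarith
    refine ⟨hq0, ?_, ?_, ?_⟩
    · have h2j : (2 : ℝ) ≤ 2 ^ j := by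
        calc (2 : ℝ) = 2 ^ 1 := by norm_num
          _ ≤ 2 ^ j := pow_le_pow_right₀ (by norm_num) hj
      have h3 : ρ / 2 ^ j ≤ ρ / 2 := div_le_div_of_nonneg_left hρ.le (by norm_num) h2j
      have h4 : (ρ / 2 ^ j) ^ 2 ≤ (ρ / 2) ^ 2 := pow_le_pow_left₀ hr.le h3 2
      nlinarith [h4]
    · exact hq2.trans (mul_le_mul_of_nonneg_left (pow_le_pow_left₀ hr.le hrle 3)
        (by positivity))
    · exact hq3.trans (mul_le_mul_of_nonneg_left hrle hR0)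
  refine H Ω g hΩ hg z (ρ / 2 ^ j) 4 a hr (by norm_num) le_rfl ha (hsub.trans hreg)
    (fun q hq => hpos q (hsub hq)) (hdens j hj) p hj1 hj2 ?_ ?_
  · rw [← mul_pow]
    exact hp2.le.trans (pow_le_pow_left₀ hρ.le hj3 3)
  · exact hp3.le.trans hj3

end Pool.Agent.Lib.MP_eee7b5_an
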