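import Pool.Agent.Lib.MP_eee7b5_an.Cyl
import Pool.Agent.Lib.MP_eee7b5_an.Bar
import Pool.Agent.Lib.MP_eee7b5_an.FillA
import Pool.Agent.Lib.MP_eee7b5_an.FillB
import Pool.Agent.Lib.MP_eee7b5_an.FillC
import Pool.Agent.Lib.MP_eee7b5_an.FillD
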