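import Pool.Agent.Lib.MP_eee7b5_an.Defs

set_option autoImplicit false

/-!
Basic facts on the Gaussian kernel `GG` and on the envelope `Env`.
-/

namespace Pool.Agent.Lib.MP_eee7b5_an

open MeasureTheory Set Matrix
open scoped ENNReal

/-- Gaussian envelope. -/
noncomputable def Env {d : ℕ} (c : ℝ) (z : ZZ d) : ℝ :=
  Real.exp (-(c * (‖z.1‖ ^ 2 + ‖z.2‖ ^ 2)))

theorem Env_pos {d : ℕ} (c : ℝ) (z : ZZ d) : 0 < Env c z := Real.exp_pos _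

theorem Env_le_one {d : ℕ} {c : ℝ} (hc : 0 ≤ c) (z : ZZ d) : Env c z ≤ 1 := by
  unfold Env
  rw [Real.exp_le_one_iff]
  have : 0 ≤ c * (‖z.1‖ ^ 2 + ‖z.2‖ ^ 2) := by positivity
  linarith

theorem Env_continuous {d : ℕ} (c : ℝ) : Continuous (Env c : ZZ d → ℝ) := by
  unfold Env
  fun_prop

theorem qG_square {d : ℕ} {κ s : ℝ} (hκ : 0 < κ) (hs : 0 < s) (z : ZZ d) :
    qG κ s z = ‖z.1 - (κ * s / 2) • z.2‖ ^ 2 / (κ ^ 2 * s ^ 3) + ‖z.2‖ ^ 2 / (4 * s) := by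
  rw [norm_sub_sq_real, inner_smul_right, norm_smul, Real.norm_eq_abs, mul_pow, sq_abs]
  unfold qG
  field_simp
  ring

/-- The exponent is positive definite, locally uniformly in `s > 0`.
(Complete the square: `qG = ‖x - (κ s / 2) v‖² / (κ² s³) + ‖v‖² / (4 s)`.) -/
theorem qG_lower {d : ℕ} {κ δ S : ℝ} (hκ : 0 < κ) (hδ : 0 < δ) (hS : δ ≤ S) :
    ∃ c : ℝ, 0 < c ∧ ∀ s, δ ≤ s → s ≤ S → ∀ z : ZZ d,
      c * (‖z.1‖ ^ 2 + ‖z.2‖ ^ 2) ≤ qG κ s z := by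
  have hS0 : 0 < S := lt_of_lt_of_le hδ hS
  refine ⟨min (1 / (2 * (κ ^ 2 * S ^ 3))) (1 / (4 * S * (κ ^ 2 * S ^ 2 / 2 + 1))), ?_, ?_⟩
  · apply lt_min <;> positivity
  intro s h1 h2 z
  have hs : 0 < s := lt_of_lt_of_le hδ h1
  rw [qG_square hκ hs]
  set c := min (1 / (2 * (κ ^ 2 * S ^ 3))) (1 / (4 * S * (κ ^ 2 * S ^ 2 / 2 + 1))) with hc
  have hc0 : 0 < c := by
    rw [hc]
    apply lt_min <;> positivity
  set A := ‖z.1 - (κ * s / 2) • z.2‖ with hA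
  have hx : ‖z.1‖ ^ 2 ≤ 2 * A ^ 2 + κ ^ 2 * S ^ 2 / 2 * ‖z.2‖ ^ 2 := by
    have e : z.1 = (z.1 - (κ * s / 2) • z.2) + (κ * s / 2) • z.2 := by abel
    have e2 : ‖z.1‖ ≤ A + κ * s / 2 * ‖z.2‖ := by
      calc ‖z.1‖ = ‖(z.1 - (κ * s / 2) • z.2) + (κ * s / 2) • z.2‖ := by rw [← e]
        _ ≤ ‖z.1 - (κ * s / 2) • z.2‖ + ‖(κ * s / 2) • z.2‖ := norm_add_le _ _
        _ = A + κ * s / 2 * ‖z.2‖ := by
          rw [norm_smul, Real.norm_eq_abs, abs_of_pos (by positivity)]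
    have e3 : ‖z.1‖ ^ 2 ≤ (A + κ * s / 2 * ‖z.2‖) ^ 2 :=
      pow_le_pow_left₀ (norm_nonneg _) e2 2
    have e4 : (κ * s / 2 * ‖z.2‖) ^ 2 ≤ κ ^ 2 * S ^ 2 / 4 * ‖z.2‖ ^ 2 := by
      have h3 : s ^ 2 ≤ S ^ 2 := pow_le_pow_left₀ hs.le h2 2
      have h4 : 0 ≤ κ ^ 2 * ‖z.2‖ ^ 2 := by positivity
      nlinarith [mul_le_mul_of_nonneg_left h3 h4]
    nlinarith [sq_nonneg (A - κ * s / 2 * ‖z.2‖)]
  have hV : 0 ≤ ‖z.2‖ ^ 2 := sq_nonneg _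
  have hA2 : 0 ≤ A ^ 2 := sq_nonneg _
  have k1 : 2 * c * A ^ 2 ≤ A ^ 2 / (κ ^ 2 * s ^ 3) := by
    have h3 : s ^ 3 ≤ S ^ 3 := pow_le_pow_left₀ hs.le h2 3
    have h4 : 2 * c ≤ 1 / (κ ^ 2 * s ^ 3) := by
      calc 2 * c ≤ 2 * (1 / (2 * (κ ^ 2 * S ^ 3))) := by
            have := min_le_left (1 / (2 * (κ ^ 2 * S ^ 3))) (1 / (4 * S * (κ ^ 2 * S ^ 2 / 2 + 1)))
            rw [← hc] at this
            linarith
        _ = 1 / (κ ^ 2 * S ^ 3) := by field_simp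
        _ ≤ 1 / (κ ^ 2 * s ^ 3) := by
            apply one_div_le_one_div_of_le (by positivity)
            exact mul_le_mul_of_nonneg_left h3 (by positivity)
    calc 2 * c * A ^ 2 ≤ 1 / (κ ^ 2 * s ^ 3) * A ^ 2 := mul_le_mul_of_nonneg_right h4 hA2
      _ = A ^ 2 / (κ ^ 2 * s ^ 3) := by ring
  have k2 : c * (κ ^ 2 * S ^ 2 / 2 + 1) * ‖z.2‖ ^ 2 ≤ ‖z.2‖ ^ 2 / (4 * s) := by
    have h4 : c * (κ ^ 2 * S ^ 2 / 2 + 1) ≤ 1 / (4 * s) := by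
      calc c * (κ ^ 2 * S ^ 2 / 2 + 1) ≤
            1 / (4 * S * (κ ^ 2 * S ^ 2 / 2 + 1)) * (κ ^ 2 * S ^ 2 / 2 + 1) :=
            mul_le_mul_of_nonneg_right (min_le_right _ _) (by positivity)
        _ = 1 / (4 * S) := by field_simp
        _ ≤ 1 / (4 * s) := one_div_le_one_div_of_le (by positivity) (by linarith)
    calc c * (κ ^ 2 * S ^ 2 / 2 + 1) * ‖z.2‖ ^ 2 ≤ 1 / (4 * s) * ‖z.2‖ ^ 2 :=
          mul_le_mul_of_nonneg_right h4 hV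
      _ = ‖z.2‖ ^ 2 / (4 * s) := by ring
  calc c * (‖z.1‖ ^ 2 + ‖z.2‖ ^ 2)
      ≤ c * ((2 * A ^ 2 + κ ^ 2 * S ^ 2 / 2 * ‖z.2‖ ^ 2) + ‖z.2‖ ^ 2) := by
        apply mul_le_mul_of_nonneg_left _ hc0.le
        linarith
    _ = 2 * c * A ^ 2 + c * (κ ^ 2 * S ^ 2 / 2 + 1) * ‖z.2‖ ^ 2 := by ring
    _ ≤ A ^ 2 / (κ ^ 2 * s ^ 3) + ‖z.2‖ ^ 2 / (4 * s) := add_le_add k1 k2

theorem GG_pos {d : ℕ} {κ s : ℝ} (hκ : 0 < κ) (hs : 0 < s) (z : ZZ d) : 0 < GG κ s z := by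
  unfold GG
  have := Real.pi_pos
  positivity

theorem GG_le {d : ℕ} {κ s : ℝ} (hκ : 0 < κ) (hs : 0 < s) (z : ZZ d) :
    GG κ s z ≤ ((2 * Real.pi * κ * s ^ 2) ^ d)⁻¹ := by
  have hpi := Real.pi_pos
  have h1 : Real.exp (-(qG κ s z)) ≤ 1 := by
    rw [Real.exp_le_one_iff, qG_square hκ hs]
    have : 0 ≤ ‖z.1 - (κ * s / 2) • z.2‖ ^ 2 / (κ ^ 2 * s ^ 3) + ‖z.2‖ ^ 2 / (4 * s) := by
      positivity
    linarith
  unfold GG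
  exact mul_le_of_le_one_right (by positivity) h1

theorem GG_continuous {d : ℕ} (κ s : ℝ) : Continuous (GG κ s : ZZ d → ℝ) := by
  unfold GG qG
  fun_prop

end Pool.Agent.Lib.MP_eee7b5_an
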