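import Pool.Agent.Lib.MP_eee7b5_an.Defs
import Pool.Agent.Lib.MP_eee7b5_an.GBasicA

set_option autoImplicit false

/-!
Basic facts on the Gaussian kernel `GG` and on the envelope `Env`.
-/

namespace Pool.Agent.Lib.MP_eee7b5_an

open MeasureTheory Set Matrix
open scoped ENNReal

private theorem gauss_integral {d : ℕ} {b : ℝ} (hb : 0 < b) :
    ∫ v : E d, Real.exp (-b * ‖v‖ ^ 2) = (Real.pi / b) ^ ((d : ℝ) / 2) := by
  rw [GaussianFourier.integral_rexp_neg_mul_sq_norm hb, finrank_euclideanSpace, Fintype.card_fin]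

private theorem gauss_integrable {d : ℕ} {b : ℝ} (hb : 0 < b) :
    Integrable (fun v : E d => Real.exp (-b * ‖v‖ ^ 2)) := by
  by_contra h
  have h1 := gauss_integral (d := d) hb
  rw [integral_undef h] at h1
  have : 0 < (Real.pi / b) ^ ((d : ℝ) / 2) := Real.rpow_pos_of_pos (div_pos Real.pi_pos hb) _
  linarith

theorem integrable_Env {d : ℕ} {c : ℝ} (hc : 0 < c) : Integrable (Env c : ZZ d → ℝ) := by
  have h := (gauss_integrable (d := d) hc).mul_prod (gauss_integrable (d := d) hc)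
  refine h.congr (Filter.Eventually.of_forall fun z => ?_)
  simp only [Env]
  rw [← Real.exp_add]
  congr 1
  ring

theorem integrable_GG {d : ℕ} {κ s : ℝ} (hκ : 0 < κ) (hs : 0 < s) :
    Integrable (GG κ s : ZZ d → ℝ) := by
  obtain ⟨c, hc, h⟩ := qG_lower (d := d) hκ hs le_rfl
  refine ((integrable_Env (d := d) hc).const_mul ((2 * Real.pi * κ * s ^ 2) ^ d)⁻¹).mono'
    (GG_continuous κ s).aestronglyMeasurable (Filter.Eventually.of_forall fun z => ?_)
  rw [Real.norm_eq_abs, abs_of_pos (GG_pos hκ hs z)]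
  unfold GG Env
  apply mul_le_mul_of_nonneg_left _ (by have := Real.pi_pos; positivity)
  apply Real.exp_le_exp.2
  have := h s le_rfl le_rfl z
  linarith

theorem integral_GG {d : ℕ} {κ s : ℝ} (hκ : 0 < κ) (hs : 0 < s) :
    ∫ z : ZZ d, GG κ s z = 1 := by
  have hpi := Real.pi_pos
  set b1 : ℝ := (κ ^ 2 * s ^ 3)⁻¹ with hb1
  set b2 : ℝ := (4 * s)⁻¹ with hb2
  have hb1' : 0 < b1 := by positivity
  have hb2' : 0 < b2 := by positivity
  set K : ℝ := ((2 * Real.pi * κ * s ^ 2) ^ d)⁻¹ with hK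
  have e1 : ∀ z : ZZ d, GG κ s z =
      K * (Real.exp (-b1 * ‖z.1 - (κ * s / 2) • z.2‖ ^ 2) * Real.exp (-b2 * ‖z.2‖ ^ 2)) := by
    intro z
    unfold GG
    rw [← hK, ← Real.exp_add, qG_square hκ hs]
    congr 2
    rw [hb1, hb2]
    ring
  have hint := integrable_GG (d := d) hκ hs
  rw [Measure.volume_eq_prod] at hint ⊢
  rw [integral_prod_symm _ hint]
  have e2 : ∀ v : E d, ∫ x : E d, GG κ s (x, v) =
      K * ((Real.pi / b1) ^ ((d : ℝ) / 2)) * Real.exp (-b2 * ‖v‖ ^ 2) := by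
    intro v
    have e3 : ∀ x : E d, GG κ s (x, v) = K * Real.exp (-b2 * ‖v‖ ^ 2) *
        Real.exp (-b1 * ‖x - (κ * s / 2) • v‖ ^ 2) := by
      intro x
      rw [e1 (x, v)]
      ring
    simp_rw [e3]
    rw [integral_const_mul]
    rw [integral_sub_right_eq_self (fun x : E d => Real.exp (-b1 * ‖x‖ ^ 2)) ((κ * s / 2) • v)]
    rw [gauss_integral hb1']
    ring
  simp_rw [e2]
  rw [integral_const_mul, gauss_integral hb2']
  have e4 : (Real.pi / b1) ^ ((d : ℝ) / 2) * (Real.pi / b2) ^ ((d : ℝ) / 2) =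
      (2 * Real.pi * κ * s ^ 2) ^ d := by
    rw [← Real.mul_rpow (by positivity) (by positivity)]
    have e5 : Real.pi / b1 * (Real.pi / b2) = (2 * Real.pi * κ * s ^ 2) ^ (2 : ℝ) := by
      rw [hb1, hb2]
      rw [Real.rpow_two]
      simp only [div_inv_eq_mul]
      ring
    have e6 : (2 : ℝ) * ((d : ℝ) / 2) = (d : ℝ) := by ring
    rw [e5, ← Real.rpow_mul (by positivity), e6, Real.rpow_natCast]
  rw [mul_assoc, e4, hK]
  exact inv_mul_cancel₀ (by positivity)

end Pool.Agent.Lib.MP_eee7b5_an
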