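import Pool.Agent.Lib.MP_eee7b5_an.Defs
import Pool.Agent.Lib.MP_eee7b5_an.GBasicA
import Pool.Agent.Lib.MP_eee7b5_an.GBasicB

set_option autoImplicit false

/-!
Basic facts on the Gaussian kernel `GG` and on the envelope `Env`.
-/

namespace Pool.Agent.Lib.MP_eee7b5_an

open MeasureTheory Set Matrix
open scoped ENNReal

/-- polynomials are below exponentials -/
theorem gbc_poly {c : ℝ} (hc : 0 < c) (n : ℕ) : ∃ C : ℝ, 0 < C ∧ ∀ r : ℝ, 0 ≤ r →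
    (1 + r) ^ n ≤ C * Real.exp (c * r) := by
  refine ⟨(n.factorial : ℝ) * (1 / c) ^ n * Real.exp c, by positivity, ?_⟩
  intro r hr
  have h := Real.pow_div_factorial_le_exp (c * (1 + r)) (by positivity) n
  rw [div_le_iff₀ (by positivity), mul_pow] at h
  have h1 : Real.exp (c * (1 + r)) = Real.exp c * Real.exp (c * r) := by
    rw [← Real.exp_add]
    congr 1
    ring
  have h2 : (1 / c) ^ n * c ^ n = 1 := by
    rw [← mul_pow, one_div, inv_mul_cancel₀ hc.ne', one_pow]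
  calc (1 + r) ^ n = (1 / c) ^ n * (c ^ n * (1 + r) ^ n) := by rw [← mul_assoc, h2, one_mul]
    _ ≤ (1 / c) ^ n * (Real.exp (c * (1 + r)) * (n.factorial : ℝ)) :=
        mul_le_mul_of_nonneg_left h (by positivity)
    _ = (n.factorial : ℝ) * (1 / c) ^ n * Real.exp c * Real.exp (c * r) := by rw [h1]; ring

/-- Polynomials times the kernel are below an envelope. -/
theorem GG_env {d : ℕ} {κ δ S : ℝ} (hκ : 0 < κ) (hδ : 0 < δ) (hS : δ ≤ S) (n : ℕ) :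
    ∃ c C : ℝ, 0 < c ∧ 0 < C ∧ ∀ s, δ ≤ s → s ≤ S → ∀ z : ZZ d,
      (1 + ‖z.1‖ ^ 2 + ‖z.2‖ ^ 2) ^ n * GG κ s z ≤ C * Env c z := by
  obtain ⟨c0, hc0, hq⟩ := qG_lower (d := d) hκ hδ hS
  obtain ⟨C1, hC1, hp⟩ := gbc_poly (half_pos hc0) n
  have hpi := Real.pi_pos
  refine ⟨c0 / 2, C1 * ((2 * Real.pi * κ * δ ^ 2) ^ d)⁻¹, half_pos hc0, by positivity, ?_⟩
  intro s hs1 hs2 z
  have hs0 : 0 < s := lt_of_lt_of_le hδ hs1
  set r : ℝ := ‖z.1‖ ^ 2 + ‖z.2‖ ^ 2 with hr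
  have hr0 : 0 ≤ r := by positivity
  have h1 : (1 + ‖z.1‖ ^ 2 + ‖z.2‖ ^ 2) ^ n ≤ C1 * Real.exp (c0 / 2 * r) := by
    have := hp r hr0
    rwa [hr, ← add_assoc] at this
  have h2 : GG κ s z ≤ ((2 * Real.pi * κ * δ ^ 2) ^ d)⁻¹ * Real.exp (-(c0 * r)) := by
    unfold GG
    apply mul_le_mul
    · apply inv_anti₀ (by positivity)
      apply pow_le_pow_left₀ (by positivity)
      have : δ ^ 2 ≤ s ^ 2 := pow_le_pow_left₀ hδ.le hs1 2
      exact mul_le_mul_of_nonneg_left this (by positivity)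
    · apply Real.exp_le_exp.mpr
      have := hq s hs1 hs2 z
      linarith
    · exact (Real.exp_pos _).le
    · positivity
  calc (1 + ‖z.1‖ ^ 2 + ‖z.2‖ ^ 2) ^ n * GG κ s z
      ≤ (C1 * Real.exp (c0 / 2 * r)) * (((2 * Real.pi * κ * δ ^ 2) ^ d)⁻¹ *
          Real.exp (-(c0 * r))) := by
        apply mul_le_mul h1 h2 (GG_pos hκ hs0 z).le (by positivity)
    _ = C1 * ((2 * Real.pi * κ * δ ^ 2) ^ d)⁻¹ * (Real.exp (c0 / 2 * r) *
          Real.exp (-(c0 * r))) := by ring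
    _ = C1 * ((2 * Real.pi * κ * δ ^ 2) ^ d)⁻¹ * Env (c0 / 2) z := by
        rw [← Real.exp_add]
        unfold Env
        rw [← hr]
        congr 2
        ring

/-- Polynomials times an envelope are below an envelope. -/
theorem Env_poly {d : ℕ} {c : ℝ} (hc : 0 < c) (n : ℕ) :
    ∃ C : ℝ, 0 < C ∧ ∀ z : ZZ d,
      (1 + ‖z.1‖ ^ 2 + ‖z.2‖ ^ 2) ^ n * Env c z ≤ C * Env (c / 2) z := by
  obtain ⟨C1, hC1, hp⟩ := gbc_poly (half_pos hc) n
  refine ⟨C1, hC1, fun z => ?_⟩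
  set r : ℝ := ‖z.1‖ ^ 2 + ‖z.2‖ ^ 2 with hr
  have hr0 : 0 ≤ r := by positivity
  have h1 : (1 + ‖z.1‖ ^ 2 + ‖z.2‖ ^ 2) ^ n ≤ C1 * Real.exp (c / 2 * r) := by
    have := hp r hr0
    rwa [hr, ← add_assoc] at this
  calc (1 + ‖z.1‖ ^ 2 + ‖z.2‖ ^ 2) ^ n * Env c z ≤ (C1 * Real.exp (c / 2 * r)) * Env c z :=
        mul_le_mul_of_nonneg_right h1 (Env_pos c z).le
    _ = C1 * Env (c / 2) z := by
        unfold Env
        rw [← hr, mul_assoc, ← Real.exp_add]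
        congr 2
        ring

theorem gbc_q_half {d : ℕ} {κ s : ℝ} (hκ : 0 < κ) (hs : 0 < s) (z : ZZ d) :
    qG (κ / 2) (2 * s) z = qG κ s z / 2 := by
  unfold qG
  field_simp

theorem gbc_q_low {d : ℕ} {κ s : ℝ} (hκ : 0 < κ) (hs : 0 < s) (hs1 : s ≤ 1) (z : ZZ d) :
    (‖z.1‖ ^ 2 + ‖z.2‖ ^ 2) / ((4 * κ ^ 2 + 4) * s) ≤ qG κ s z := by
  rw [qG_square hκ hs]
  set X : E d := z.1 - (κ * s / 2) • z.2 with hX
  have hx : ‖z.1‖ ≤ ‖X‖ + κ * s / 2 * ‖z.2‖ := by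
    have h1 : z.1 = X + (κ * s / 2) • z.2 := by rw [hX]; abel
    calc ‖z.1‖ = ‖X + (κ * s / 2) • z.2‖ := by rw [← h1]
      _ ≤ ‖X‖ + ‖(κ * s / 2) • z.2‖ := norm_add_le _ _
      _ = ‖X‖ + κ * s / 2 * ‖z.2‖ := by
          rw [norm_smul, Real.norm_eq_abs, abs_of_pos (by positivity)]
  have hx2 : ‖z.1‖ ≤ ‖X‖ + κ / 2 * ‖z.2‖ := by
    refine hx.trans ?_
    have h2 : κ * s / 2 ≤ κ / 2 := by nlinarith
    have h3 := mul_le_mul_of_nonneg_right h2 (norm_nonneg z.2)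
    linarith
  have hx3 : ‖z.1‖ ^ 2 ≤ 2 * ‖X‖ ^ 2 + κ ^ 2 / 2 * ‖z.2‖ ^ 2 := by
    have h4 : ‖z.1‖ ^ 2 ≤ (‖X‖ + κ / 2 * ‖z.2‖) ^ 2 := pow_le_pow_left₀ (norm_nonneg _) hx2 2
    have h5 := sq_nonneg (‖X‖ - κ / 2 * ‖z.2‖)
    nlinarith
  have hs3 : s ^ 3 ≤ s := by
    have : s ^ 3 = s * (s * s) := by ring
    rw [this]
    have h6 : s * s ≤ 1 := by nlinarith
    nlinarith
  have h7 : ‖X‖ ^ 2 / (κ ^ 2 * s) ≤ ‖X‖ ^ 2 / (κ ^ 2 * s ^ 3) := by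
    apply div_le_div_of_nonneg_left (by positivity) (by positivity)
    exact mul_le_mul_of_nonneg_left hs3 (by positivity)
  have h8 : (‖z.1‖ ^ 2 + ‖z.2‖ ^ 2) / ((4 * κ ^ 2 + 4) * s) ≤
      ‖X‖ ^ 2 / (κ ^ 2 * s) + ‖z.2‖ ^ 2 / (4 * s) := by
    have e1 : ‖X‖ ^ 2 / (κ ^ 2 * s) + ‖z.2‖ ^ 2 / (4 * s) =
        (‖X‖ ^ 2 / κ ^ 2 + ‖z.2‖ ^ 2 / 4) / s := by
      field_simp
    have e2 : (‖z.1‖ ^ 2 + ‖z.2‖ ^ 2) / ((4 * κ ^ 2 + 4) * s) =
        ((‖z.1‖ ^ 2 + ‖z.2‖ ^ 2) / (4 * κ ^ 2 + 4)) / s := by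
      rw [div_div]
    rw [e1, e2]
    apply div_le_div_of_nonneg_right _ hs.le
    rw [div_le_iff₀ (by positivity)]
    have e3 : (‖X‖ ^ 2 / κ ^ 2 + ‖z.2‖ ^ 2 / 4) * (4 * κ ^ 2 + 4) =
        4 * ‖X‖ ^ 2 + 4 * (‖X‖ ^ 2 / κ ^ 2) + κ ^ 2 * ‖z.2‖ ^ 2 + ‖z.2‖ ^ 2 := by
      field_simp
      ring
    rw [e3]
    have h9 : 0 ≤ ‖X‖ ^ 2 / κ ^ 2 := by positivity
    have h10 : 0 ≤ κ ^ 2 * ‖z.2‖ ^ 2 := by positivity
    have h11 : 0 ≤ ‖X‖ ^ 2 := by positivity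
    linarith
  linarith

/-- The mass of the kernel concentrates at `0` when `s → 0`. -/
theorem GG_tail {d : ℕ} {κ : ℝ} (hκ : 0 < κ) (ρ ε : ℝ) (hρ : 0 < ρ) (hε : 0 < ε) :
    ∃ δ0 : ℝ, 0 < δ0 ∧ ∀ s, 0 < s → s ≤ δ0 →
      ∫ z in {z : ZZ d | ρ ≤ ‖z‖}, GG κ s z ≤ ε := by
  set A : ℝ := ρ ^ 2 / (8 * κ ^ 2 + 8) with hA
  have hA0 : 0 < A := by positivity
  have hpi := Real.pi_pos
  refine ⟨min 1 (ε * A / 2 ^ d), by positivity, ?_⟩
  intro s hs hsδ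
  have hs1 : s ≤ 1 := hsδ.trans (min_le_left _ _)
  have hs2 : s ≤ ε * A / 2 ^ d := hsδ.trans (min_le_right _ _)
  have hpt : ∀ z ∈ {z : ZZ d | ρ ≤ ‖z‖},
      GG κ s z ≤ (2 ^ d * Real.exp (-(A / s))) * GG (κ / 2) (2 * s) z := by
    intro z hz
    have h1 : ρ ^ 2 ≤ ‖z.1‖ ^ 2 + ‖z.2‖ ^ 2 := by
      have h2 : ρ ≤ max ‖z.1‖ ‖z.2‖ := hz
      rcases le_max_iff.mp h2 with h | h
      · have := pow_le_pow_left₀ hρ.le h 2
        have h3 : 0 ≤ ‖z.2‖ ^ 2 := by positivity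
        linarith
      · have := pow_le_pow_left₀ hρ.le h 2
        have h3 : 0 ≤ ‖z.1‖ ^ 2 := by positivity
        linarith
    have h4 := gbc_q_low hκ hs hs1 z
    have h5 : 2 * (A / s) ≤ qG κ s z := by
      refine le_trans ?_ h4
      have e1 : 2 * (A / s) = ρ ^ 2 / ((4 * κ ^ 2 + 4) * s) := by
        rw [hA]
        field_simp
        ring
      rw [e1]
      exact div_le_div_of_nonneg_right h1 (by positivity)
    unfold GG
    rw [gbc_q_half hκ hs]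
    have e2 : (2 * Real.pi * (κ / 2) * (2 * s) ^ 2) ^ d = 2 ^ d * (2 * Real.pi * κ * s ^ 2) ^ d := by
      rw [← mul_pow]
      congr 1
      ring
    rw [e2]
    have e3 : Real.exp (-(qG κ s z)) = Real.exp (-(qG κ s z / 2)) * Real.exp (-(qG κ s z / 2)) := by
      rw [← Real.exp_add]
      congr 1
      ring
    have h6 : Real.exp (-(qG κ s z / 2)) ≤ Real.exp (-(A / s)) := by
      apply Real.exp_le_exp.mpr
      linarith
    rw [e3]
    have h2d : (0 : ℝ) < 2 ^ d := by positivity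
    have hP : 0 < (2 * Real.pi * κ * s ^ 2) ^ d := by positivity
    have e4 : 2 ^ d * Real.exp (-(A / s)) * ((2 ^ d * (2 * Real.pi * κ * s ^ 2) ^ d)⁻¹ *
        Real.exp (-(qG κ s z / 2))) = ((2 * Real.pi * κ * s ^ 2) ^ d)⁻¹ *
        (Real.exp (-(A / s)) * Real.exp (-(qG κ s z / 2))) := by
      field_simp
    rw [e4]
    apply mul_le_mul_of_nonneg_left _ (by positivity)
    exact mul_le_mul_of_nonneg_right h6 (Real.exp_pos _).le
  have hmeas : MeasurableSet {z : ZZ d | ρ ≤ ‖z‖} := by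
    exact (isClosed_le continuous_const continuous_norm).measurableSet
  have hint : Integrable (fun z : ZZ d => (2 ^ d * Real.exp (-(A / s))) * GG (κ / 2) (2 * s) z) :=
    (integrable_GG (by positivity) (by positivity)).const_mul _
  calc ∫ z in {z : ZZ d | ρ ≤ ‖z‖}, GG κ s z
      ≤ ∫ z in {z : ZZ d | ρ ≤ ‖z‖}, (2 ^ d * Real.exp (-(A / s))) * GG (κ / 2) (2 * s) z :=
        setIntegral_mono_on (integrable_GG hκ hs).integrableOn hint.integrableOn hmeas hpt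
    _ ≤ ∫ z : ZZ d, (2 ^ d * Real.exp (-(A / s))) * GG (κ / 2) (2 * s) z := by
        apply setIntegral_le_integral hint
        filter_upwards with z
        have := GG_pos (d := d) (κ := κ / 2) (s := 2 * s) (by positivity) (by positivity) z
        simp only [Pi.zero_apply]
        positivity
    _ = 2 ^ d * Real.exp (-(A / s)) := by
        rw [integral_const_mul, integral_GG (by positivity) (by positivity), mul_one]
    _ ≤ 2 ^ d * (s / A) := by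
        apply mul_le_mul_of_nonneg_left _ (by positivity)
        rw [Real.exp_neg, ← inv_div A s]
        apply inv_anti₀ (by positivity)
        have := Real.add_one_le_exp (A / s)
        linarith
    _ ≤ ε := by
        rw [le_div_iff₀ (by positivity)] at hs2
        rw [← mul_div_assoc, div_le_iff₀ hA0]
        linarith

end Pool.Agent.Lib.MP_eee7b5_an
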