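import Pool.Agent.Lib.MP_eee7b5_an.Defs
import Pool.Agent.Lib.MP_eee7b5_an.GBasicA
import Pool.Agent.Lib.MP_eee7b5_an.GBasicB
import Pool.Agent.Lib.MP_eee7b5_an.GBasicC
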