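import Pool.Agent.Lib.MP_eee7b5_an.GBasic

set_option autoImplicit false

/-!
Derivatives of the Gaussian kernel, the heat identity and the transport identity.
-/

namespace Pool.Agent.Lib.MP_eee7b5_an

open MeasureTheory Set Matrix
open scoped ENNReal

theorem bG_symm {d : ℕ} (κ s : ℝ) (z e : ZZ d) : bG κ s z e = bG κ s e z := by
  unfold bG
  rw [real_inner_comm e.1 z.1, real_inner_comm e.2 z.2]
  ring

theorem bG_add {d : ℕ} (κ s : ℝ) (z z' e : ZZ d) :
    bG κ s (z + z') e = bG κ s z e + bG κ s z' e := by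
  unfold bG
  rw [Prod.fst_add, Prod.snd_add, inner_add_left, inner_add_left, inner_add_left,
    inner_add_right]
  ring

theorem bG_smul {d : ℕ} (κ s t : ℝ) (z e : ZZ d) : bG κ s (t • z) e = t * bG κ s z e := by
  unfold bG
  rw [Prod.smul_fst, Prod.smul_snd, real_inner_smul_left, real_inner_smul_left,
    real_inner_smul_left, real_inner_smul_right]
  ring

/-- `q(z + t e) = q(z) + t b(z,e) + t² b(e,e) / 2`. -/
theorem qG_add_smul {d : ℕ} (κ s t : ℝ) (z e : ZZ d) :
    qG κ s (z + t • e) = qG κ s z + t * bG κ s z e + t ^ 2 * (bG κ s e e / 2) := by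
  have h1 : ‖z.1 + t • e.1‖ ^ 2 = ‖z.1‖ ^ 2 + 2 * t * inner ℝ z.1 e.1 + t ^ 2 * ‖e.1‖ ^ 2 := by
    rw [norm_add_sq_real, real_inner_smul_right, norm_smul, mul_pow, Real.norm_eq_abs, sq_abs]
    ring
  have h2 : ‖z.2 + t • e.2‖ ^ 2 = ‖z.2‖ ^ 2 + 2 * t * inner ℝ z.2 e.2 + t ^ 2 * ‖e.2‖ ^ 2 := by
    rw [norm_add_sq_real, real_inner_smul_right, norm_smul, mul_pow, Real.norm_eq_abs, sq_abs]
    ring
  have h3 : inner ℝ (z.1 + t • e.1) (z.2 + t • e.2) = inner ℝ z.1 z.2 +
      t * (inner ℝ z.1 e.2 + inner ℝ e.1 z.2) + t ^ 2 * inner ℝ e.1 e.2 := by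
    rw [inner_add_left, inner_add_right, inner_add_right, real_inner_smul_left,
      real_inner_smul_right, real_inner_smul_left, real_inner_smul_right]
    ring
  unfold qG bG
  rw [Prod.fst_add, Prod.snd_add, Prod.smul_fst, Prod.smul_snd, h1, h2, h3,
    real_inner_self_eq_norm_sq, real_inner_self_eq_norm_sq]
  ring

end Pool.Agent.Lib.MP_eee7b5_an
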