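import Pool.Agent.Lib.MP_eee7b5_an.GBasic
import Pool.Agent.Lib.MP_eee7b5_an.GDerivA

set_option autoImplicit false

/-!
Derivatives of the Gaussian kernel, the heat identity and the transport identity.
-/

namespace Pool.Agent.Lib.MP_eee7b5_an

open MeasureTheory Set Matrix
open scoped ENNReal

theorem bG_abs_le {d : ℕ} {κ δ S : ℝ} (hκ : 0 < κ) (hδ : 0 < δ) (hS : δ ≤ S) :
    ∃ C : ℝ, 0 < C ∧ ∀ s, δ ≤ s → s ≤ S → ∀ z e : ZZ d,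
      |bG κ s z e| ≤ C * (‖z.1‖ + ‖z.2‖) * (‖e.1‖ + ‖e.2‖) := by
  have _ := hS
  refine ⟨2 / (κ ^ 2 * δ ^ 3) + 1 / (κ * δ ^ 2) + 1 / δ, by positivity, ?_⟩
  intro s hs _ z e
  have hs0 : 0 < s := hδ.trans_le hs
  have i11 : |inner ℝ z.1 e.1| ≤ ‖z.1‖ * ‖e.1‖ := abs_real_inner_le_norm _ _
  have i12 : |inner ℝ z.1 e.2| ≤ ‖z.1‖ * ‖e.2‖ := abs_real_inner_le_norm _ _
  have i21 : |inner ℝ e.1 z.2| ≤ ‖e.1‖ * ‖z.2‖ := abs_real_inner_le_norm _ _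
  have i22 : |inner ℝ z.2 e.2| ≤ ‖z.2‖ * ‖e.2‖ := abs_real_inner_le_norm _ _
  have c1 : 2 / (κ ^ 2 * s ^ 3) ≤ 2 / (κ ^ 2 * δ ^ 3) := by
    refine div_le_div_of_nonneg_left (by norm_num) (by positivity) ?_
    exact mul_le_mul_of_nonneg_left (pow_le_pow_left₀ hδ.le hs 3) (by positivity)
  have c2 : 1 / (κ * s ^ 2) ≤ 1 / (κ * δ ^ 2) := by
    refine div_le_div_of_nonneg_left (by norm_num) (by positivity) ?_
    exact mul_le_mul_of_nonneg_left (pow_le_pow_left₀ hδ.le hs 2) (by positivity)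
  have c3 : 1 / s ≤ 1 / δ := one_div_le_one_div_of_le hδ hs
  have c1' : 0 ≤ 2 / (κ ^ 2 * s ^ 3) := by positivity
  have c2' : 0 ≤ 1 / (κ * s ^ 2) := by positivity
  have c3' : 0 ≤ 1 / s := by positivity
  have d1 : 0 ≤ 2 / (κ ^ 2 * δ ^ 3) := by positivity
  have d2 : 0 ≤ 1 / (κ * δ ^ 2) := by positivity
  have d3 : 0 ≤ 1 / δ := by positivity
  set C := 2 / (κ ^ 2 * δ ^ 3) + 1 / (κ * δ ^ 2) + 1 / δ with hC
  have hb : bG κ s z e = 2 / (κ ^ 2 * s ^ 3) * inner ℝ z.1 e.1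
      - 1 / (κ * s ^ 2) * (inner ℝ z.1 e.2 + inner ℝ e.1 z.2) + 1 / s * inner ℝ z.2 e.2 := by
    unfold bG
    ring
  have a1 : |2 / (κ ^ 2 * s ^ 3) * inner ℝ z.1 e.1| ≤ C * (‖z.1‖ * ‖e.1‖) := by
    rw [abs_mul, abs_of_nonneg c1']
    exact mul_le_mul (c1.trans (by rw [hC]; linarith)) i11 (abs_nonneg _) (by positivity)
  have a2 : |1 / (κ * s ^ 2) * (inner ℝ z.1 e.2 + inner ℝ e.1 z.2)| ≤
      C * (‖z.1‖ * ‖e.2‖ + ‖e.1‖ * ‖z.2‖) := by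
    rw [abs_mul, abs_of_nonneg c2']
    refine mul_le_mul (c2.trans (by rw [hC]; linarith)) ?_ (abs_nonneg _) (by positivity)
    exact (abs_add_le _ _).trans (add_le_add i12 i21)
  have a3 : |1 / s * inner ℝ z.2 e.2| ≤ C * (‖z.2‖ * ‖e.2‖) := by
    rw [abs_mul, abs_of_nonneg c3']
    exact mul_le_mul (c3.trans (by rw [hC]; linarith)) i22 (abs_nonneg _) (by positivity)
  rw [hb]
  calc |2 / (κ ^ 2 * s ^ 3) * inner ℝ z.1 e.1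
        - 1 / (κ * s ^ 2) * (inner ℝ z.1 e.2 + inner ℝ e.1 z.2) + 1 / s * inner ℝ z.2 e.2|
      ≤ |2 / (κ ^ 2 * s ^ 3) * inner ℝ z.1 e.1
        - 1 / (κ * s ^ 2) * (inner ℝ z.1 e.2 + inner ℝ e.1 z.2)| + |1 / s * inner ℝ z.2 e.2| :=
        abs_add_le _ _
    _ ≤ |2 / (κ ^ 2 * s ^ 3) * inner ℝ z.1 e.1|
        + |1 / (κ * s ^ 2) * (inner ℝ z.1 e.2 + inner ℝ e.1 z.2)| + |1 / s * inner ℝ z.2 e.2| :=
        add_le_add (abs_sub _ _) le_rfl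
    _ ≤ C * (‖z.1‖ * ‖e.1‖) + C * (‖z.1‖ * ‖e.2‖ + ‖e.1‖ * ‖z.2‖) + C * (‖z.2‖ * ‖e.2‖) :=
        add_le_add (add_le_add a1 a2) a3
    _ = C * (‖z.1‖ + ‖z.2‖) * (‖e.1‖ + ‖e.2‖) := by ring

theorem hasLineDerivAt_GG {d : ℕ} (κ s : ℝ) (e z : ZZ d) :
    HasLineDerivAt ℝ (GG κ s) (dG κ s e z) z e := by
  unfold HasLineDerivAt
  have h1 : (fun t : ℝ => GG κ s (z + t • e)) = fun t : ℝ => ((2 * Real.pi * κ * s ^ 2) ^ d)⁻¹ *
      Real.exp (-(qG κ s z + t * bG κ s z e + t ^ 2 * (bG κ s e e / 2))) := by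
    funext t
    rw [GG, qG_add_smul]
  rw [h1]
  have h2 : HasDerivAt (fun t : ℝ => -(qG κ s z + t * bG κ s z e + t ^ 2 * (bG κ s e e / 2)))
      (-(0 + 1 * bG κ s z e + (2 * 0) * (bG κ s e e / 2))) 0 := by
    have e1 : HasDerivAt (fun t : ℝ => t * bG κ s z e) (1 * bG κ s z e) 0 :=
      (hasDerivAt_id (0 : ℝ)).mul_const _
    have e2 : HasDerivAt (fun t : ℝ => t ^ 2 * (bG κ s e e / 2)) ((2 * 0) * (bG κ s e e / 2)) 0 := by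
      have := (hasDerivAt_pow 2 (0 : ℝ)).mul_const (bG κ s e e / 2)
      simpa using this
    exact (((hasDerivAt_const (0 : ℝ) (qG κ s z)).add e1).add e2).neg
  have h3 := h2.exp.const_mul ((2 * Real.pi * κ * s ^ 2) ^ d)⁻¹
  refine h3.congr_deriv ?_
  rw [dG, GG]
  simp
  ring

theorem hasLineDerivAt_dG {d : ℕ} (κ s : ℝ) (e f z : ZZ d) :
    HasLineDerivAt ℝ (dG κ s e) (ddG κ s e f z) z f := by
  have hG := hasLineDerivAt_GG κ s f z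
  unfold HasLineDerivAt at hG ⊢
  have h1 : (fun t : ℝ => dG κ s e (z + t • f)) = fun t : ℝ =>
      (-(bG κ s z e + t * bG κ s f e)) * GG κ s (z + t • f) := by
    funext t
    rw [dG, bG_add, bG_smul]
  rw [h1]
  have h2 : HasDerivAt (fun t : ℝ => -(bG κ s z e + t * bG κ s f e)) (-(0 + 1 * bG κ s f e)) 0 :=
    ((hasDerivAt_const (0 : ℝ) (bG κ s z e)).add ((hasDerivAt_id (0 : ℝ)).mul_const _)).neg
  refine (h2.mul hG).congr_deriv ?_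
  rw [ddG, dG, bG_symm κ s e f]
  simp
  ring

theorem ddG_symm {d : ℕ} (κ s : ℝ) (e f z : ZZ d) : ddG κ s e f z = ddG κ s f e z := by
  rw [ddG, ddG, bG_symm κ s e f, mul_comm (bG κ s z e)]

end Pool.Agent.Lib.MP_eee7b5_an
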