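import Pool.Agent.Lib.MP_eee7b5_an.GBasic
import Pool.Agent.Lib.MP_eee7b5_an.GDerivA
import Pool.Agent.Lib.MP_eee7b5_an.GDerivB

set_option autoImplicit false

/-!
Derivatives of the Gaussian kernel, the heat identity and the transport identity.
-/

namespace Pool.Agent.Lib.MP_eee7b5_an

open MeasureTheory Set Matrix
open scoped ENNReal

theorem hasDerivAt_GG_s {d : ℕ} {κ s : ℝ} (hκ : 0 < κ) (hs : 0 < s) (z : ZZ d) :
    HasDerivAt (fun s => GG κ s z) (sG κ s z) s := by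
  have hpi := Real.pi_pos
  -- the prefactor
  have h1 : HasDerivAt (fun s : ℝ => ((2 * Real.pi * κ * s ^ 2) ^ d)⁻¹)
      (-(2 * (d : ℝ)) / s * ((2 * Real.pi * κ * s ^ 2) ^ d)⁻¹) s := by
    have h2 : HasDerivAt (fun s : ℝ => 2 * Real.pi * κ * s ^ 2) (2 * Real.pi * κ * (2 * s)) s := by
      have h3 := (hasDerivAt_pow 2 s).const_mul (2 * Real.pi * κ)
      simpa using h3
    have hne : (2 * Real.pi * κ * s ^ 2) ^ d ≠ 0 := by positivity
    have h3 := (h2.pow d).inv hne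
    refine h3.congr_deriv ?_
    rcases d with _ | m
    · simp
    · rw [Nat.add_sub_cancel]
      have hs0 : s ≠ 0 := hs.ne'
      have hk0 : κ ≠ 0 := hκ.ne'
      have hp0 : Real.pi ≠ 0 := hpi.ne'
      simp only [Pi.pow_apply]
      push_cast
      field_simp
      ring
  -- the exponent
  have h2 : HasDerivAt (fun s : ℝ => -(qG κ s z))
      (3 * ‖z.1‖ ^ 2 / (κ ^ 2 * s ^ 4) - 2 * inner ℝ z.1 z.2 / (κ * s ^ 3)
        + ‖z.2‖ ^ 2 / (2 * s ^ 2)) s := by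
    unfold qG
    have hs0 : s ≠ 0 := hs.ne'
    have hk0 : κ ≠ 0 := hκ.ne'
    have e1 : HasDerivAt (fun s : ℝ => ‖z.1‖ ^ 2 / (κ ^ 2 * s ^ 3))
        (-(3 * ‖z.1‖ ^ 2 / (κ ^ 2 * s ^ 4))) s := by
      have h3 := (((hasDerivAt_pow 3 s).const_mul (κ ^ 2)).inv (by positivity)).const_mul (‖z.1‖ ^ 2)
      refine (h3.congr_deriv ?_)
      push_cast
      field_simp
    have e2 : HasDerivAt (fun s : ℝ => inner ℝ z.1 z.2 / (κ * s ^ 2))
        (-(2 * inner ℝ z.1 z.2 / (κ * s ^ 3))) s := by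
      have h3 := (((hasDerivAt_pow 2 s).const_mul κ).inv (by positivity)).const_mul
        (inner ℝ z.1 z.2)
      refine (h3.congr_deriv ?_)
      push_cast
      field_simp
    have e3 : HasDerivAt (fun s : ℝ => ‖z.2‖ ^ 2 / (2 * s)) (-(‖z.2‖ ^ 2 / (2 * s ^ 2))) s := by
      have h3 := (((hasDerivAt_id s).const_mul 2).inv (by simpa using hs0)).const_mul (‖z.2‖ ^ 2)
      refine (h3.congr_deriv ?_)
      simp only [id]
      field_simp
    have h3 := ((e1.sub e2).add e3).neg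
    refine h3.congr_deriv ?_
    ring
  have h3 := h1.mul h2.exp
  unfold GG sG GG
  refine h3.congr_deriv ?_
  ring

private lemma bG_dx {d : ℕ} (κ s : ℝ) (z : ZZ d) (a : Fin d) :
    bG κ s z (dx a) = 2 * z.1 a / (κ ^ 2 * s ^ 3) - z.2 a / (κ * s ^ 2) := by
  unfold bG dx
  simp [EuclideanSpace.inner_single_right, EuclideanSpace.inner_single_left]

private lemma bG_dv {d : ℕ} (κ s : ℝ) (z : ZZ d) (a : Fin d) :
    bG κ s z (dv a) = -(z.1 a / (κ * s ^ 2)) + z.2 a / s := by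
  unfold bG dv
  simp [EuclideanSpace.inner_single_right, EuclideanSpace.inner_single_left]

private lemma bG_dxdx {d : ℕ} (κ s : ℝ) (a : Fin d) :
    bG κ s (dx a) (dx a) = 2 / (κ ^ 2 * s ^ 3) := by
  rw [bG_dx]
  unfold dx
  simp

private lemma bG_dxdv {d : ℕ} (κ s : ℝ) (a : Fin d) :
    bG κ s (dx a) (dv a) = -(1 / (κ * s ^ 2)) := by
  rw [bG_dv]
  unfold dx
  simp

private lemma bG_dvdv {d : ℕ} (κ s : ℝ) (a : Fin d) :
    bG κ s (dv a) (dv a) = 1 / s := by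
  rw [bG_dv]
  unfold dv
  simp

private lemma sums {d : ℕ} (z : ZZ d) (A B C D : ℝ) :
    ∑ a : Fin d, (A * z.1 a ^ 2 + B * (z.1 a * z.2 a) + C * z.2 a ^ 2 + D) =
      A * ‖z.1‖ ^ 2 + B * inner ℝ z.1 z.2 + C * ‖z.2‖ ^ 2 + d * D := by
  rw [EuclideanSpace.norm_sq_eq, EuclideanSpace.norm_sq_eq, PiLp.inner_apply,
    Finset.sum_add_distrib, Finset.sum_add_distrib, Finset.sum_add_distrib, ← Finset.mul_sum,
    ← Finset.mul_sum, ← Finset.mul_sum, Finset.sum_const, Finset.card_univ, Fintype.card_fin,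
    nsmul_eq_mul]
  have h1 : ∀ a : Fin d, ‖z.1 a‖ ^ 2 = z.1 a ^ 2 := fun a => by
    rw [Real.norm_eq_abs, sq_abs]
  have h2 : ∀ a : Fin d, ‖z.2 a‖ ^ 2 = z.2 a ^ 2 := fun a => by
    rw [Real.norm_eq_abs, sq_abs]
  have h3 : ∀ a : Fin d, inner ℝ (z.1 a) (z.2 a) = z.1 a * z.2 a := fun a => by
    simp [mul_comm]
  simp only [h1, h2, h3]

/-- `∂_s G = (1/2) Σ'(s) : D² G`. -/
theorem heat {d : ℕ} {κ s : ℝ} (hκ : 0 < κ) (hs : 0 < s) (z : ZZ d) :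
    sG κ s z = ∑ a : Fin d, (3 * κ ^ 2 * s ^ 2 / 2 * ddG κ s (dx a) (dx a) z
      + 2 * κ * s * ddG κ s (dx a) (dv a) z + ddG κ s (dv a) (dv a) z) := by
  have hs0 : s ≠ 0 := hs.ne'
  have hk0 : κ ≠ 0 := hκ.ne'
  have h1 : ∀ a : Fin d, 3 * κ ^ 2 * s ^ 2 / 2 * ddG κ s (dx a) (dx a) z
      + 2 * κ * s * ddG κ s (dx a) (dv a) z + ddG κ s (dv a) (dv a) z =
      GG κ s z * (3 / (κ ^ 2 * s ^ 4) * z.1 a ^ 2 + -2 / (κ * s ^ 3) * (z.1 a * z.2 a) +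
        1 / (2 * s ^ 2) * z.2 a ^ 2 + -2 / s) := by
    intro a
    unfold ddG
    rw [bG_dx, bG_dv, bG_dxdx, bG_dxdv, bG_dvdv]
    field_simp
    ring
  rw [Finset.sum_congr rfl fun a _ => h1 a, ← Finset.mul_sum, sums]
  unfold sG
  ring

/-- `- v · ∇_x G = κ s² Δ_x G + 2 s ∇_x·∇_v G`. -/
theorem transport {d : ℕ} {κ s : ℝ} (hκ : 0 < κ) (hs : 0 < s) (z : ZZ d) :
    bG κ s z (z.2, 0) * GG κ s z = ∑ a : Fin d, (κ * s ^ 2 * ddG κ s (dx a) (dx a) z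
      + 2 * s * ddG κ s (dx a) (dv a) z) := by
  have hs0 : s ≠ 0 := hs.ne'
  have hk0 : κ ≠ 0 := hκ.ne'
  have h1 : ∀ a : Fin d, κ * s ^ 2 * ddG κ s (dx a) (dx a) z
      + 2 * s * ddG κ s (dx a) (dv a) z =
      GG κ s z * (0 * z.1 a ^ 2 + 2 / (κ ^ 2 * s ^ 3) * (z.1 a * z.2 a) +
        -1 / (κ * s ^ 2) * z.2 a ^ 2 + 0) := by
    intro a
    unfold ddG
    rw [bG_dx, bG_dv, bG_dxdx, bG_dxdv]
    field_simp
    ring
  rw [Finset.sum_congr rfl fun a _ => h1 a, ← Finset.mul_sum, sums]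
  unfold bG
  simp only [inner_zero_right, real_inner_self_eq_norm_sq]
  ring

end Pool.Agent.Lib.MP_eee7b5_an
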