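import Pool.Agent.Lib.MP_eee7b5_an.GBasic
import Pool.Agent.Lib.MP_eee7b5_an.GBasicC
import Pool.Agent.Lib.MP_eee7b5_an.GDerivA
import Pool.Agent.Lib.MP_eee7b5_an.GDerivB
import Pool.Agent.Lib.MP_eee7b5_an.GDerivC

set_option autoImplicit false

/-!
Derivatives of the Gaussian kernel, the heat identity and the transport identity.
-/

namespace Pool.Agent.Lib.MP_eee7b5_an

open MeasureTheory Set Matrix
open scoped ENNReal

private theorem bG_vel_GDerivD {d : ℕ} (κ s : ℝ) (b : E d) (z : ZZ d) :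
    bG κ s z (0, b) = ∑ a : Fin d, b a * bG κ s z (dv a) := by
  have h1 : ∀ w : E d, inner ℝ w b = ∑ a : Fin d, b a * w a := by
    intro w
    rw [PiLp.inner_apply]
    rfl
  have h2 : ∀ a : Fin d, b a * bG κ s z (dv a) =
      -((b a * z.1 a) / (κ * s ^ 2)) + (b a * z.2 a) / s := by
    intro a
    simp only [bG, dv, inner_zero_right, inner_zero_left, EuclideanSpace.inner_single_right]
    simp
    ring
  rw [Finset.sum_congr rfl fun a _ => h2 a, Finset.sum_add_distrib, Finset.sum_neg_distrib,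
    ← Finset.sum_div, ← Finset.sum_div, ← h1, ← h1]
  simp only [bG, inner_zero_right, inner_zero_left]
  ring

/-- Second derivative in a velocity direction `b`. -/
theorem ddG_vel {d : ℕ} (κ s : ℝ) (b : E d) (z : ZZ d) :
    ddG κ s (0, b) (0, b) z = ∑ a : Fin d, ∑ a' : Fin d,
      b a * b a' * ddG κ s (dv a) (dv a') z := by
  have h1 : bG κ s z (0, b) * bG κ s z (0, b) = ∑ a : Fin d, ∑ a' : Fin d,
      b a * b a' * (bG κ s z (dv a) * bG κ s z (dv a')) := by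
    rw [bG_vel_GDerivD, Finset.sum_mul_sum]
    refine Finset.sum_congr rfl fun a _ => Finset.sum_congr rfl fun a' _ => ?_
    ring
  have h2 : bG κ s (0, b) (0, b) = ∑ a : Fin d, ∑ a' : Fin d,
      b a * b a' * bG κ s (dv a) (dv a') := by
    rw [bG_vel_GDerivD]
    refine Finset.sum_congr rfl fun a _ => ?_
    rw [bG_symm, bG_vel_GDerivD, Finset.mul_sum]
    refine Finset.sum_congr rfl fun a' _ => ?_
    ring
  unfold ddG
  rw [h1, h2, ← Finset.sum_sub_distrib, Finset.sum_mul]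
  refine Finset.sum_congr rfl fun a _ => ?_
  rw [← Finset.sum_sub_distrib, Finset.sum_mul]
  refine Finset.sum_congr rfl fun a' _ => ?_
  ring

private theorem sG_bound_GDerivD {d : ℕ} {κ δ s : ℝ} (hκ : 0 < κ) (hδ : 0 < δ) (hs : δ ≤ s)
    (z : ZZ d) :
    |-(2 * (d : ℝ)) / s + 3 * ‖z.1‖ ^ 2 / (κ ^ 2 * s ^ 4) - 2 * inner ℝ z.1 z.2 / (κ * s ^ 3)
      + ‖z.2‖ ^ 2 / (2 * s ^ 2)| ≤
    (2 * (d : ℝ) / δ + 3 / (κ ^ 2 * δ ^ 4) + 1 / (κ * δ ^ 3) + 1 / (2 * δ ^ 2)) *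
      (1 + ‖z.1‖ ^ 2 + ‖z.2‖ ^ 2) := by
  have hs0 : 0 < s := hδ.trans_le hs
  have hd : (0 : ℝ) ≤ d := Nat.cast_nonneg d
  have e1 : |-(2 * (d : ℝ)) / s| ≤ 2 * (d : ℝ) / δ := by
    rw [abs_div, abs_neg, abs_of_nonneg (by positivity : (0 : ℝ) ≤ 2 * d), abs_of_pos hs0]
    exact div_le_div_of_nonneg_left (by positivity) hδ hs
  have e2 : |3 * ‖z.1‖ ^ 2 / (κ ^ 2 * s ^ 4)| ≤ 3 / (κ ^ 2 * δ ^ 4) * ‖z.1‖ ^ 2 := by
    rw [abs_of_nonneg (by positivity)]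
    have h1 : 3 * ‖z.1‖ ^ 2 / (κ ^ 2 * s ^ 4) ≤ 3 * ‖z.1‖ ^ 2 / (κ ^ 2 * δ ^ 4) := by
      refine div_le_div_of_nonneg_left (by positivity) (by positivity) ?_
      exact mul_le_mul_of_nonneg_left (pow_le_pow_left₀ hδ.le hs 4) (by positivity)
    refine h1.trans (le_of_eq ?_)
    ring
  have e3 : |2 * inner ℝ z.1 z.2 / (κ * s ^ 3)| ≤ 1 / (κ * δ ^ 3) * (‖z.1‖ ^ 2 + ‖z.2‖ ^ 2) := by
    have h1 : |2 * inner ℝ z.1 z.2| ≤ ‖z.1‖ ^ 2 + ‖z.2‖ ^ 2 := by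
      rw [abs_mul, abs_of_pos (by norm_num : (0 : ℝ) < 2)]
      have h2 := abs_real_inner_le_norm z.1 z.2
      nlinarith [sq_nonneg (‖z.1‖ - ‖z.2‖)]
    rw [abs_div, abs_of_pos (by positivity : 0 < κ * s ^ 3)]
    have h3 : |2 * inner ℝ z.1 z.2| / (κ * s ^ 3) ≤ (‖z.1‖ ^ 2 + ‖z.2‖ ^ 2) / (κ * δ ^ 3) := by
      refine div_le_div₀ (by positivity) h1 (by positivity) ?_
      exact mul_le_mul_of_nonneg_left (pow_le_pow_left₀ hδ.le hs 3) (by positivity)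
    refine h3.trans (le_of_eq ?_)
    ring
  have e4 : |‖z.2‖ ^ 2 / (2 * s ^ 2)| ≤ 1 / (2 * δ ^ 2) * ‖z.2‖ ^ 2 := by
    rw [abs_of_nonneg (by positivity)]
    have h1 : ‖z.2‖ ^ 2 / (2 * s ^ 2) ≤ ‖z.2‖ ^ 2 / (2 * δ ^ 2) := by
      refine div_le_div_of_nonneg_left (by positivity) (by positivity) ?_
      exact mul_le_mul_of_nonneg_left (pow_le_pow_left₀ hδ.le hs 2) (by positivity)
    refine h1.trans (le_of_eq ?_)
    ring
  set A := 2 * (d : ℝ) / δ with hA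
  set B := 3 / (κ ^ 2 * δ ^ 4) with hB
  set C := 1 / (κ * δ ^ 3) with hC
  set D := 1 / (2 * δ ^ 2) with hD
  have hA0 : 0 ≤ A := by positivity
  have hB0 : 0 ≤ B := by positivity
  have hC0 : 0 ≤ C := by positivity
  have hD0 : 0 ≤ D := by positivity
  have h5 := abs_add_le (-(2 * (d : ℝ)) / s + 3 * ‖z.1‖ ^ 2 / (κ ^ 2 * s ^ 4) -
    2 * inner ℝ z.1 z.2 / (κ * s ^ 3)) (‖z.2‖ ^ 2 / (2 * s ^ 2))
  have h6 := abs_sub (-(2 * (d : ℝ)) / s + 3 * ‖z.1‖ ^ 2 / (κ ^ 2 * s ^ 4))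
    (2 * inner ℝ z.1 z.2 / (κ * s ^ 3))
  have h7 := abs_add_le (-(2 * (d : ℝ)) / s) (3 * ‖z.1‖ ^ 2 / (κ ^ 2 * s ^ 4))
  have p1 : 0 ≤ ‖z.1‖ ^ 2 := sq_nonneg _
  have p2 : 0 ≤ ‖z.2‖ ^ 2 := sq_nonneg _
  have q1 := mul_nonneg hA0 p1
  have q2 := mul_nonneg hA0 p2
  have q4 := mul_nonneg hB0 p2
  have q7 := mul_nonneg hD0 p1
  nlinarith

/-- All derivatives are below an envelope. -/
theorem deriv_env {d : ℕ} {κ δ S : ℝ} (hκ : 0 < κ) (hδ : 0 < δ) (hS : δ ≤ S) :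
    ∃ c C : ℝ, 0 < c ∧ 0 < C ∧ ∀ s, δ ≤ s → s ≤ S → ∀ z : ZZ d,
      GG κ s z ≤ C * Env c z ∧ |sG κ s z| ≤ C * Env c z ∧
      (∀ e : ZZ d, |dG κ s e z| ≤ C * (‖e.1‖ + ‖e.2‖) * Env c z) ∧
      (∀ e f : ZZ d, |ddG κ s e f z| ≤ C * (‖e.1‖ + ‖e.2‖) * (‖f.1‖ + ‖f.2‖) * Env c z) := by
  obtain ⟨C1, hC1, hb⟩ := bG_abs_le (d := d) hκ hδ hS
  obtain ⟨c, C2, hc, hC2, hg⟩ := GG_env (d := d) hκ hδ hS 1
  set K : ℝ := 2 * (d : ℝ) / δ + 3 / (κ ^ 2 * δ ^ 4) + 1 / (κ * δ ^ 3) + 1 / (2 * δ ^ 2) with hK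
  have hK0 : 0 ≤ K := by positivity
  set M : ℝ := 1 + K + C1 + (2 * C1 ^ 2 + C1) with hM
  have hM0 : 0 < M := by positivity
  refine ⟨c, M * C2, hc, by positivity, ?_⟩
  intro s hs hsS z
  have hs0 : 0 < s := hδ.trans_le hs
  have hG := GG_pos (d := d) hκ hs0 z
  have hE := Env_pos c z
  have h1 := hg s hs hsS z
  rw [pow_one] at h1
  set P : ℝ := 1 + ‖z.1‖ ^ 2 + ‖z.2‖ ^ 2 with hP
  have hP1 : 1 ≤ P := by
    have p1 : 0 ≤ ‖z.1‖ ^ 2 := sq_nonneg _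
    have p2 : 0 ≤ ‖z.2‖ ^ 2 := sq_nonneg _
    linarith
  have hlin : ‖z.1‖ + ‖z.2‖ ≤ P := by
    nlinarith [sq_nonneg (‖z.1‖ - 1), sq_nonneg (‖z.2‖ - 1)]
  have hquad : (‖z.1‖ + ‖z.2‖) ^ 2 ≤ 2 * P := by
    nlinarith [sq_nonneg (‖z.1‖ - ‖z.2‖)]
  -- a bound by `m * P` gives the bound by the envelope
  have key : ∀ m w : ℝ, 0 ≤ m → m ≤ M → 0 ≤ w → m * w * P * GG κ s z ≤ M * C2 * w * Env c z := by
    intro m w hm hmM hw
    calc m * w * P * GG κ s z = (m * w) * (P * GG κ s z) := by ring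
      _ ≤ (m * w) * (C2 * Env c z) := mul_le_mul_of_nonneg_left h1 (by positivity)
      _ ≤ (M * w) * (C2 * Env c z) :=
        mul_le_mul_of_nonneg_right (mul_le_mul_of_nonneg_right hmM hw) (by positivity)
      _ = M * C2 * w * Env c z := by ring
  refine ⟨?_, ?_, ?_, ?_⟩
  · have h2 := key 1 1 (by norm_num) (by rw [hM]; nlinarith [sq_nonneg C1]) (by norm_num)
    have h3 : GG κ s z ≤ P * GG κ s z := by
      have := mul_le_mul_of_nonneg_right hP1 hG.le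
      linarith
    linarith
  · have h2 := key K 1 hK0 (by rw [hM]; nlinarith [sq_nonneg C1]) (by norm_num)
    have h3 := sG_bound_GDerivD hκ hδ hs z
    unfold sG
    rw [abs_mul, abs_of_pos hG]
    have h4 := mul_le_mul_of_nonneg_right h3 hG.le
    linarith
  · intro e
    have h2 := key C1 (‖e.1‖ + ‖e.2‖) hC1.le (by rw [hM]; nlinarith [sq_nonneg C1]) (by positivity)
    unfold dG
    rw [abs_mul, abs_neg, abs_of_pos hG]
    have h3 := hb s hs hsS z e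
    have h4 : C1 * (‖z.1‖ + ‖z.2‖) * (‖e.1‖ + ‖e.2‖) ≤ C1 * (‖e.1‖ + ‖e.2‖) * P := by
      have h5 : 0 ≤ C1 * (‖e.1‖ + ‖e.2‖) := by positivity
      have h6 := mul_le_mul_of_nonneg_left hlin h5
      linarith
    have h7 := mul_le_mul_of_nonneg_right (h3.trans h4) hG.le
    linarith
  · intro e f
    set a := ‖e.1‖ + ‖e.2‖ with ha
    set b := ‖f.1‖ + ‖f.2‖ with hb'
    have ha0 : 0 ≤ a := by positivity
    have hb0 : 0 ≤ b := by positivity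
    have h2 := key (2 * C1 ^ 2 + C1) (a * b) (by positivity)
      (by rw [hM]; linarith) (by positivity)
    unfold ddG
    rw [abs_mul, abs_of_pos hG]
    have h3 := hb s hs hsS z e
    have h4 := hb s hs hsS z f
    have h5 := hb s hs hsS e f
    have h6 : |bG κ s z e * bG κ s z f| ≤
        (C1 * (‖z.1‖ + ‖z.2‖) * a) * (C1 * (‖z.1‖ + ‖z.2‖) * b) := by
      rw [abs_mul]
      exact mul_le_mul h3 h4 (abs_nonneg _) (by positivity)
    have h7 := abs_sub (bG κ s z e * bG κ s z f) (bG κ s e f)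
    have h8 : |bG κ s z e * bG κ s z f - bG κ s e f| ≤ (2 * C1 ^ 2 + C1) * (a * b) * P := by
      have h9 : (C1 * (‖z.1‖ + ‖z.2‖) * a) * (C1 * (‖z.1‖ + ‖z.2‖) * b) ≤
          2 * C1 ^ 2 * (a * b) * P := by
        have h10 : 0 ≤ C1 ^ 2 * (a * b) := by positivity
        have h11 := mul_le_mul_of_nonneg_left hquad h10
        linarith
      have h12 : C1 * a * b ≤ C1 * (a * b) * P := by
        have h13 : 0 ≤ C1 * (a * b) := by positivity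
        have h14 := mul_le_mul_of_nonneg_left hP1 h13
        linarith
      linarith
    have h15 := mul_le_mul_of_nonneg_right h8 hG.le
    linarith

end Pool.Agent.Lib.MP_eee7b5_an
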