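import Pool.Agent.Lib.MP_eee7b5_an.GBasic
import Pool.Agent.Lib.MP_eee7b5_an.GDerivA
import Pool.Agent.Lib.MP_eee7b5_an.GDerivB
import Pool.Agent.Lib.MP_eee7b5_an.GDerivC
import Pool.Agent.Lib.MP_eee7b5_an.GDerivD
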