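import Pool.Agent.Lib.MP_eee7b5_an.Defs

set_option autoImplicit false

/-!
Classical solutions: elementary facts.
-/

namespace Pool.Agent.Lib.MP_eee7b5_an

open MeasureTheory Set Matrix
open scoped ENNReal

variable {d : ℕ}

theorem IsSol.mono {lam Lam : ℝ} {Ω Ω' : Set (ST d)} {f : ST d → ℝ} (h : IsSol lam Lam Ω f)
    (hΩ : Ω' ⊆ Ω) : IsSol lam Lam Ω' f := by
  obtain ⟨a, ft, Dx, Dv, D2v, h1, h2, h3, h4, h5, h6, h7, h8, h9⟩ := h
  exact ⟨a, ft, Dx, Dv, D2v, fun p hp => h1 p (hΩ hp), h2.mono hΩ, h3.mono hΩ, h4.mono hΩ,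
    fun p hp => h5 p (hΩ hp), fun p hp => h6 p (hΩ hp), fun p hp => h7 p (hΩ hp),
    fun p hp => h8 p (hΩ hp), fun p hp => h9 p (hΩ hp)⟩

theorem IsSol.mono_ell {lam Lam lam' Lam' : ℝ} {Ω : Set (ST d)} {f : ST d → ℝ}
    (h : IsSol lam Lam Ω f) (h1 : lam' ≤ lam) (h2 : Lam ≤ Lam') : IsSol lam' Lam' Ω f := by
  obtain ⟨a, ft, Dx, Dv, D2v, k1, k⟩ := h
  refine ⟨a, ft, Dx, Dv, D2v, fun p hp => ⟨(k1 p hp).1, fun ξ => ?_⟩, k⟩
  have h3 : 0 ≤ ξ ⬝ᵥ ξ := by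
    simp only [dotProduct]
    exact Finset.sum_nonneg fun i _ => mul_self_nonneg _
  obtain ⟨h4, h5⟩ := (k1 p hp).2 ξ
  exact ⟨(mul_le_mul_of_nonneg_right h1 h3).trans h4,
    h5.trans (mul_le_mul_of_nonneg_right h2 h3)⟩

theorem IsSol.const_mul {lam Lam : ℝ} {Ω : Set (ST d)} {f : ST d → ℝ} (h : IsSol lam Lam Ω f)
    (c : ℝ) : IsSol lam Lam Ω (fun p => c * f p) := by
  obtain ⟨a, ft, Dx, Dv, D2v, h1, h2, h3, h4, h5, h6, h7, h8, h9⟩ := h
  refine ⟨a, fun p => c * ft p, fun p => c • Dx p, fun p => c • Dv p, fun p => c • D2v p, h1,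
    ?_, ?_, ?_, ?_, ?_, ?_, ?_, ?_⟩
  · exact continuousOn_const.mul h2
  · exact h3.const_smul c
  · exact h4.const_smul c
  · intro p hp
    exact (h5 p hp).const_mul c
  · intro p hp
    exact (h6 p hp).const_mul c
  · intro p hp
    exact (h7 p hp).const_mul c
  · intro p hp
    exact (h8 p hp).const_smul c
  · intro p hp
    have h10 := h9 p hp
    have h11 : (c * ft p) + (c • Dx p) p.2.2 = c * (ft p + Dx p p.2.2) := by
      rw [ContinuousLinearMap.smul_apply, smul_eq_mul]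
      ring
    show (c * ft p) + (c • Dx p) p.2.2 = _
    rw [h11, h10, Finset.mul_sum]
    refine Finset.sum_congr rfl fun i _ => ?_
    rw [Finset.mul_sum]
    refine Finset.sum_congr rfl fun j _ => ?_
    simp only [ContinuousLinearMap.smul_apply, smul_eq_mul]
    ring

theorem IsSol.add_const {lam Lam : ℝ} {Ω : Set (ST d)} {f : ST d → ℝ} (h : IsSol lam Lam Ω f)
    (c : ℝ) : IsSol lam Lam Ω (fun p => f p + c) := by
  obtain ⟨a, ft, Dx, Dv, D2v, h1, h2, h3, h4, h5, h6, h7, h8, h9⟩ := h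
  exact ⟨a, ft, Dx, Dv, D2v, h1, h2, h3, h4, fun p hp => (h5 p hp).add_const c,
    fun p hp => (h6 p hp).add_const c, fun p hp => (h7 p hp).add_const c, h8, h9⟩

end Pool.Agent.Lib.MP_eee7b5_an
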