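import Pool.Agent.Lib.MP_eee7b5_an.Defs
import Pool.Agent.Lib.MP_eee7b5_an.SolA

set_option autoImplicit false

/-!
Classical solutions: elementary facts.
-/

namespace Pool.Agent.Lib.MP_eee7b5_an

open MeasureTheory Set Matrix
open scoped ENNReal

variable {d : ℕ}

/-- A classical solution on an open set is continuous there. -/
theorem IsSol.continuousOn {lam Lam : ℝ} {Ω : Set (ST d)} (hΩ : IsOpen Ω) {f : ST d → ℝ}
    (h : IsSol lam Lam Ω f) : ContinuousOn f Ω := by
  obtain ⟨a, ft, Dx, Dv, D2v, _, hft, hDx, _, h1, h2, h3, _, _⟩ := h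
  intro p0 hp0
  apply ContinuousAt.continuousWithinAt
  have hΩ0 : Ω ∈ nhds p0 := hΩ.mem_nhds hp0
  have e1 : ∀ᶠ p in nhds p0, ‖ft p‖ < ‖ft p0‖ + 1 := by
    have := (hft.continuousAt hΩ0).norm.tendsto
    exact this.eventually (gt_mem_nhds (by linarith))
  have e2 : ∀ᶠ p in nhds p0, ‖Dx p‖ < ‖Dx p0‖ + 1 := by
    have := (hDx.continuousAt hΩ0).norm.tendsto
    exact this.eventually (gt_mem_nhds (by linarith))
  obtain ⟨ε, hε, hball⟩ := Metric.eventually_nhds_iff_ball.mp ((hΩ.eventually_mem hp0).and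
    (e1.and e2))
  have hmem : ∀ (t : ℝ) (x v : E d), dist t p0.1 < ε → dist x p0.2.1 < ε → dist v p0.2.2 < ε →
      ((t, x, v) : ST d) ∈ Metric.ball p0 ε := by
    intro t x v ht hx hv
    rw [Metric.mem_ball, Prod.dist_eq, Prod.dist_eq]
    exact max_lt ht (max_lt hx hv)
  set M1 := ‖ft p0‖ + 1 with hM1
  set M2 := ‖Dx p0‖ + 1 with hM2
  have hbound : ∀ᶠ p in nhds p0, ‖f p - f p0‖ ≤
      M1 * ‖p.1 - p0.1‖ + M2 * ‖p.2.1 - p0.2.1‖ + ‖f (p0.1, p0.2.1, p.2.2) - f p0‖ := by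
    filter_upwards [Metric.ball_mem_nhds p0 hε] with p hp
    rw [Metric.mem_ball, Prod.dist_eq, Prod.dist_eq] at hp
    have hpt : dist p.1 p0.1 < ε := lt_of_le_of_lt (le_max_left _ _) hp
    have hpx : dist p.2.1 p0.2.1 < ε :=
      lt_of_le_of_lt ((le_max_left _ _).trans (le_max_right _ _)) hp
    have hpv : dist p.2.2 p0.2.2 < ε :=
      lt_of_le_of_lt ((le_max_right _ _).trans (le_max_right _ _)) hp
    have b1 : ‖f (p.1, p.2.1, p.2.2) - f (p0.1, p.2.1, p.2.2)‖ ≤ M1 * ‖p.1 - p0.1‖ := by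
      refine Convex.norm_image_sub_le_of_norm_hasDerivWithin_le
        (f := fun s => f (s, p.2.1, p.2.2)) (f' := fun s => ft (s, p.2.1, p.2.2))
        (s := Metric.ball p0.1 ε) ?_ ?_ (convex_ball _ _) (Metric.mem_ball_self hε) hpt
      · intro s hs
        have hm := hmem s p.2.1 p.2.2 hs hpx hpv
        exact (h1 _ (hball _ hm).1).hasDerivWithinAt
      · intro s hs
        have hm := hmem s p.2.1 p.2.2 hs hpx hpv
        exact (hball _ hm).2.1.le
    have b2 : ‖f (p0.1, p.2.1, p.2.2) - f (p0.1, p0.2.1, p.2.2)‖ ≤ M2 * ‖p.2.1 - p0.2.1‖ := by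
      refine Convex.norm_image_sub_le_of_norm_hasFDerivWithin_le
        (f := fun y => f (p0.1, y, p.2.2)) (f' := fun y => Dx (p0.1, y, p.2.2))
        (s := Metric.ball p0.2.1 ε) ?_ ?_ (convex_ball _ _) (Metric.mem_ball_self hε) hpx
      · intro y hy
        have hm := hmem p0.1 y p.2.2 (by rw [dist_self]; exact hε) hy hpv
        exact (h2 _ (hball _ hm).1).hasFDerivWithinAt
      · intro y hy
        have hm := hmem p0.1 y p.2.2 (by rw [dist_self]; exact hε) hy hpv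
        exact (hball _ hm).2.2.le
    calc ‖f p - f p0‖ = ‖(f (p.1, p.2.1, p.2.2) - f (p0.1, p.2.1, p.2.2)) +
          (f (p0.1, p.2.1, p.2.2) - f (p0.1, p0.2.1, p.2.2)) +
          (f (p0.1, p0.2.1, p.2.2) - f p0)‖ := by
          congr 1
          ring
      _ ≤ ‖f (p.1, p.2.1, p.2.2) - f (p0.1, p.2.1, p.2.2)‖ +
          ‖f (p0.1, p.2.1, p.2.2) - f (p0.1, p0.2.1, p.2.2)‖ +
          ‖f (p0.1, p0.2.1, p.2.2) - f p0‖ := norm_add₃_le
      _ ≤ _ := by linarith
  rw [ContinuousAt, tendsto_iff_norm_sub_tendsto_zero]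
  refine squeeze_zero' (Filter.Eventually.of_forall fun p => norm_nonneg _) hbound ?_
  have c1 : Filter.Tendsto (fun p : ST d => M1 * ‖p.1 - p0.1‖) (nhds p0) (nhds 0) := by
    have : Continuous (fun p : ST d => M1 * ‖p.1 - p0.1‖) := by fun_prop
    have h := this.tendsto p0
    simpa using h
  have c2 : Filter.Tendsto (fun p : ST d => M2 * ‖p.2.1 - p0.2.1‖) (nhds p0) (nhds 0) := by
    have : Continuous (fun p : ST d => M2 * ‖p.2.1 - p0.2.1‖) := by fun_prop
    have h := this.tendsto p0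
    simpa using h
  have c3 : Filter.Tendsto (fun p : ST d => ‖f (p0.1, p0.2.1, p.2.2) - f p0‖) (nhds p0)
      (nhds 0) := by
    have hc : ContinuousAt (fun w => f (p0.1, p0.2.1, w)) p0.2.2 := (h3 p0 hp0).continuousAt
    have hp : Filter.Tendsto (fun p : ST d => p.2.2) (nhds p0) (nhds p0.2.2) :=
      (by fun_prop : Continuous (fun p : ST d => p.2.2)).tendsto p0
    have h4 := (hc.tendsto.comp hp).sub_const (f p0)
    have h5 := h4.norm
    have h6 : ‖f (p0.1, p0.2.1, p0.2.2) - f p0‖ = 0 := by simp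
    rw [h6] at h5
    exact h5
  have := (c1.add c2).add c3
  simpa using this

end Pool.Agent.Lib.MP_eee7b5_an
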