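import Pool.Agent.Lib.MP_eee7b5_an.Defs
import Pool.Agent.Lib.MP_eee7b5_an.SolA
import Pool.Agent.Lib.MP_eee7b5_an.SolB

set_option autoImplicit false

/-!
Classical solutions: elementary facts.
-/

namespace Pool.Agent.Lib.MP_eee7b5_an

open MeasureTheory Set Matrix
open scoped ENNReal

variable {d : ℕ}

open scoped MatrixOrder ComplexOrder in
private theorem exists_BBt {a : Matrix (Fin d) (Fin d) ℝ} (ha : a.PosSemidef) :
    ∃ B : Matrix (Fin d) (Fin d) ℝ, B * Bᵀ = a := by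
  obtain ⟨B, hB⟩ := CStarAlgebra.nonneg_iff_eq_star_mul_self.mp ha.nonneg
  refine ⟨Bᵀ, ?_⟩
  rw [hB, Matrix.transpose_transpose, Matrix.star_eq_conjTranspose,
    Matrix.conjTranspose_eq_transpose_of_trivial]

/-- A symmetric elliptic matrix is `B Bᵀ`. -/
theorem exists_B {lam Lam : ℝ} (hlam : 0 ≤ lam) (a : Matrix (Fin d) (Fin d) ℝ)
    (hs : a.IsSymm) (ha : ∀ ξ : Fin d → ℝ, lam * (ξ ⬝ᵥ ξ) ≤ ξ ⬝ᵥ (a *ᵥ ξ) ∧
      ξ ⬝ᵥ (a *ᵥ ξ) ≤ Lam * (ξ ⬝ᵥ ξ)) :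
    ∃ B : Matrix (Fin d) (Fin d) ℝ, B * Bᵀ = a ∧ EllB lam Lam B := by
  have hps : a.PosSemidef := by
    apply Matrix.PosSemidef.of_dotProduct_mulVec_nonneg
    · rw [Matrix.IsHermitian, Matrix.conjTranspose_eq_transpose_of_trivial]
      exact hs
    · intro x
      have h1 := (ha x).1
      have h2 : 0 ≤ x ⬝ᵥ x := by
        unfold dotProduct
        exact Finset.sum_nonneg fun i _ => mul_self_nonneg _
      simp only [star_trivial]
      exact (mul_nonneg hlam h2).trans h1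
  obtain ⟨B, hB⟩ := exists_BBt hps
  refine ⟨B, hB, fun ξ => ?_⟩
  rw [hB]
  exact ha ξ

end Pool.Agent.Lib.MP_eee7b5_an
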