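import Pool.Agent.Lib.MP_eee7b5_an.Defs
import Pool.Agent.Lib.MP_eee7b5_an.SolA
import Pool.Agent.Lib.MP_eee7b5_an.SolB
import Pool.Agent.Lib.MP_eee7b5_an.SolC

set_option autoImplicit false

/-!
Classical solutions: elementary facts.
-/

namespace Pool.Agent.Lib.MP_eee7b5_an

open MeasureTheory Set Matrix
open scoped ENNReal

variable {d : ℕ}

/-- Uniform continuity near a compact set. -/
theorem solD_unif {β : Type*} [NormedAddCommGroup β] {Ω K : Set (ST d)} (hΩ : IsOpen Ω)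
    (hK : IsCompact K) (hKΩ : K ⊆ Ω) {g : ST d → β} (hg : ContinuousOn g Ω) {ε : ℝ}
    (hε : 0 < ε) :
    ∃ δ : ℝ, 0 < δ ∧ ∀ p ∈ K, ∀ q : ST d, dist q p ≤ δ → q ∈ Ω ∧ ‖g q - g p‖ ≤ ε := by
  obtain ⟨δ0, hδ0, hsub⟩ := hK.exists_cthickening_subset_open hΩ hKΩ
  have hK' : IsCompact (Metric.cthickening δ0 K) := hK.cthickening
  have huc := hK'.uniformContinuousOn_of_continuous (hg.mono hsub)
  rw [Metric.uniformContinuousOn_iff] at huc
  obtain ⟨δ1, hδ1, h1⟩ := huc ε hε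
  refine ⟨min δ0 (δ1 / 2), lt_min hδ0 (by positivity), ?_⟩
  intro p hp q hq
  have hq0 : q ∈ Metric.cthickening δ0 K :=
    Metric.mem_cthickening_of_dist_le q p δ0 K hp (hq.trans (min_le_left _ _))
  have hp0 : p ∈ Metric.cthickening δ0 K := Metric.self_subset_cthickening K hp
  refine ⟨hsub hq0, ?_⟩
  have : dist q p < δ1 := by
    have := hq.trans (min_le_right _ _)
    linarith
  rw [← dist_eq_norm]
  exact (h1 q hq0 p hp0 this).le

/-- distance in space-time -/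
theorem solD_dist (p : ST d) (s : ℝ) (y w : E d) {δ : ℝ} (h1 : |s - p.1| ≤ δ)
    (h2 : ‖y - p.2.1‖ ≤ δ) (h3 : ‖w - p.2.2‖ ≤ δ) : dist ((s, y, w) : ST d) p ≤ δ := by
  rw [Prod.dist_eq, Prod.dist_eq]
  refine max_le ?_ (max_le ?_ ?_)
  · simpa [Real.dist_eq] using h1
  · simpa [dist_eq_norm] using h2
  · simpa [dist_eq_norm] using h3

/-- Second difference in `v`. -/
theorem solD_second {f : ST d → ℝ} {Dv : ST d → (E d →L[ℝ] ℝ)}
    {D2v : ST d → (E d →L[ℝ] E d →L[ℝ] ℝ)} {p : ST d} {δ ε : ℝ} {b : E d} (hb : ‖b‖ ≤ δ)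
    (h1 : ∀ q : ST d, dist q p ≤ δ → HasFDerivAt (fun w => f (q.1, q.2.1, w)) (Dv q) q.2.2)
    (h2 : ∀ q : ST d, dist q p ≤ δ → HasFDerivAt (fun w => Dv (q.1, q.2.1, w)) (D2v q) q.2.2)
    (h3 : ∀ q : ST d, dist q p ≤ δ → ‖D2v q - D2v p‖ ≤ ε) :
    f (p.1, p.2.1, p.2.2 + b) + f (p.1, p.2.1, p.2.2 - b) ≤
      2 * f p + D2v p b b + ε * ‖b‖ ^ 2 := by
  set C : ℝ := D2v p b b + ε * ‖b‖ ^ 2 with hC
  have hδ0 : 0 ≤ δ := le_trans (norm_nonneg _) hb
  have hpt : ∀ r : ℝ, |r| ≤ 1 → dist ((p.1, p.2.1, p.2.2 + r • b) : ST d) p ≤ δ := by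
    intro r hr
    refine solD_dist p _ _ _ (by simpa using hδ0) (by simpa using hδ0) ?_
    have : p.2.2 + r • b - p.2.2 = r • b := by abel
    rw [this, norm_smul, Real.norm_eq_abs]
    have h0 := norm_nonneg b
    nlinarith
  have hline : ∀ r : ℝ, HasDerivAt (fun r : ℝ => p.2.2 + r • b) b r := by
    intro r
    have := ((hasDerivAt_id r).smul_const b).const_add p.2.2
    simpa using this
  -- first derivative along the line
  have hf' : ∀ r : ℝ, |r| ≤ 1 → HasDerivAt (fun r : ℝ => f (p.1, p.2.1, p.2.2 + r • b))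
      (Dv (p.1, p.2.1, p.2.2 + r • b) b) r := by
    intro r hr
    have := (h1 _ (hpt r hr)).comp_hasDerivAt r (hline r)
    exact this
  have hg' : ∀ r : ℝ, |r| ≤ 1 → HasDerivAt (fun r : ℝ => Dv (p.1, p.2.1, p.2.2 + r • b) b)
      (D2v (p.1, p.2.1, p.2.2 + r • b) b b) r := by
    intro r hr
    have h4 := (h2 _ (hpt r hr)).comp_hasDerivAt r (hline r)
    have h5 := (ContinuousLinearMap.apply ℝ ℝ b).hasFDerivAt.comp_hasDerivAt r h4
    exact h5
  have hbd : ∀ r : ℝ, |r| ≤ 1 → D2v (p.1, p.2.1, p.2.2 + r • b) b b ≤ C := by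
    intro r hr
    have h6 := h3 _ (hpt r hr)
    have h7 : |(D2v (p.1, p.2.1, p.2.2 + r • b) - D2v p) b b| ≤ ε * ‖b‖ ^ 2 := by
      have h8 := ((D2v (p.1, p.2.1, p.2.2 + r • b) - D2v p) b).le_opNorm b
      have h9 := (D2v (p.1, p.2.1, p.2.2 + r • b) - D2v p).le_opNorm b
      rw [Real.norm_eq_abs] at h8
      have h0 := norm_nonneg b
      calc _ ≤ _ := h8
        _ ≤ (ε * ‖b‖) * ‖b‖ := by
          refine mul_le_mul_of_nonneg_right (h9.trans ?_) h0
          exact mul_le_mul_of_nonneg_right h6 h0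
        _ = ε * ‖b‖ ^ 2 := by ring
    have h10 := (abs_le.mp h7).2
    simp only [_root_.sub_apply] at h10
    rw [hC]
    linarith
  -- difference of first derivatives
  have hdiff : ∀ s : ℝ, 0 ≤ s → s ≤ 1 →
      Dv (p.1, p.2.1, p.2.2 + s • b) b - Dv (p.1, p.2.1, p.2.2 + (-s) • b) b ≤ C * (s - (-s)) := by
    intro s hs0 hs1
    have hin : ∀ r ∈ Icc (-s) s, |r| ≤ 1 := by
      intro r hr
      rw [abs_le]
      exact ⟨by linarith [hr.1], by linarith [hr.2]⟩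
    refine Convex.image_sub_le_mul_sub_of_deriv_le (convex_Icc (-s) s)
      (f := fun r : ℝ => Dv (p.1, p.2.1, p.2.2 + r • b) b) ?_ ?_ ?_ (-s) ?_ s ?_ (by linarith)
    · intro r hr
      exact (hg' r (hin r hr)).continuousAt.continuousWithinAt
    · intro r hr
      exact (hg' r (hin r (interior_subset hr))).differentiableAt.differentiableWithinAt
    · intro r hr
      rw [(hg' r (hin r (interior_subset hr))).deriv]
      exact hbd r (hin r (interior_subset hr))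
    · exact ⟨le_refl _, by linarith⟩
    · exact ⟨by linarith, le_refl _⟩
  -- the function psi
  set ψ : ℝ → ℝ := fun s => f (p.1, p.2.1, p.2.2 + s • b) + f (p.1, p.2.1, p.2.2 + (-s) • b)
    - C * s ^ 2 with hψ
  have hψ' : ∀ s : ℝ, 0 ≤ s → s ≤ 1 → HasDerivAt ψ
      (Dv (p.1, p.2.1, p.2.2 + s • b) b - Dv (p.1, p.2.1, p.2.2 + (-s) • b) b - C * (2 * s)) s := by
    intro s hs0 hs1
    have ha1 := hf' s (abs_le.mpr ⟨by linarith, hs1⟩)
    have ha2 : HasDerivAt (fun s : ℝ => f (p.1, p.2.1, p.2.2 + (-s) • b))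
        (-(Dv (p.1, p.2.1, p.2.2 + (-s) • b) b)) s := by
      have h11 := hf' (-s) (by rw [abs_neg]; exact abs_le.mpr ⟨by linarith, hs1⟩)
      have h12 := h11.scomp s (hasDerivAt_neg s)
      have h13 : (-1 : ℝ) • (Dv (p.1, p.2.1, p.2.2 + (-s) • b) b)
          = -(Dv (p.1, p.2.1, p.2.2 + (-s) • b) b) := by simp
      rw [← h13]
      exact h12
    have ha3 : HasDerivAt (fun s : ℝ => C * s ^ 2) (C * (2 * s)) s := by
      have := (hasDerivAt_pow 2 s).const_mul C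
      simpa using this
    have h14 := (ha1.add ha2).sub ha3
    have h15 : Dv (p.1, p.2.1, p.2.2 + s • b) b - Dv (p.1, p.2.1, p.2.2 + (-s) • b) b
        - C * (2 * s) = Dv (p.1, p.2.1, p.2.2 + s • b) b
        + -(Dv (p.1, p.2.1, p.2.2 + (-s) • b) b) - C * (2 * s) := by ring
    rw [h15]
    exact h14
  have hfin : ψ 1 - ψ 0 ≤ 0 * (1 - 0) := by
    refine Convex.image_sub_le_mul_sub_of_deriv_le (convex_Icc (0 : ℝ) 1) (f := ψ) ?_ ?_ ?_
      0 ?_ 1 ?_ zero_le_one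
    · intro r hr
      exact (hψ' r hr.1 hr.2).continuousAt.continuousWithinAt
    · intro r hr
      have hr' := interior_subset hr
      exact (hψ' r hr'.1 hr'.2).differentiableAt.differentiableWithinAt
    · intro r hr
      have hr' := interior_subset hr
      rw [(hψ' r hr'.1 hr'.2).deriv]
      have := hdiff r hr'.1 hr'.2
      linarith
    · exact ⟨le_refl _, zero_le_one⟩
    · exact ⟨zero_le_one, le_refl _⟩
  simp only [hψ, one_smul, neg_smul, zero_smul, neg_zero, add_zero] at hfin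
  have hp : f (p.1, p.2.1, p.2.2) = f p := rfl
  rw [hp] at hfin
  have hsub : p.2.2 + -b = p.2.2 - b := by abel
  rw [hsub] at hfin
  rw [hC] at hfin
  linarith

/-- Transport part. -/
theorem solD_first {f ft : ST d → ℝ} {Dx : ST d → (E d →L[ℝ] ℝ)} {p : ST d} {δ ε h : ℝ}
    {b : E d} (hb : ‖b‖ ≤ δ) (hh : 0 < h) (hh1 : h ≤ δ) (hh2 : h * ‖p.2.2‖ ≤ δ)
    (h1 : ∀ q : ST d, dist q p ≤ δ → HasDerivAt (fun s => f (s, q.2.1, q.2.2)) (ft q) q.1)
    (h2 : ∀ q : ST d, dist q p ≤ δ → HasFDerivAt (fun y => f (q.1, y, q.2.2)) (Dx q) q.2.1)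
    (h3 : ∀ q : ST d, dist q p ≤ δ → ‖ft q - ft p‖ ≤ ε)
    (h4 : ∀ q : ST d, dist q p ≤ δ → ‖Dx q - Dx p‖ ≤ ε) :
    f (p.1 - h, p.2.1 - h • p.2.2, p.2.2 + b) ≤
      f (p.1, p.2.1, p.2.2 + b) - h * (ft p + Dx p p.2.2) + h * ε * (1 + ‖p.2.2‖) := by
  have hδ0 : 0 ≤ δ := le_trans (norm_nonneg _) hb
  have hbb : ‖p.2.2 + b - p.2.2‖ ≤ δ := by simpa using hb
  have hv0 := norm_nonneg p.2.2
  -- time part
  have hA : (ft p - ε) * (p.1 - (p.1 - h)) ≤
      f (p.1, p.2.1 - h • p.2.2, p.2.2 + b) - f (p.1 - h, p.2.1 - h • p.2.2, p.2.2 + b) := by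
    have hpt : ∀ s ∈ Icc (p.1 - h) p.1,
        dist ((s, p.2.1 - h • p.2.2, p.2.2 + b) : ST d) p ≤ δ := by
      intro s hs
      refine solD_dist p _ _ _ ?_ ?_ hbb
      · rw [abs_le]
        exact ⟨by linarith [hs.1], by linarith [hs.2]⟩
      · have : p.2.1 - h • p.2.2 - p.2.1 = -(h • p.2.2) := by abel
        rw [this, norm_neg, norm_smul, Real.norm_eq_abs, abs_of_pos hh]
        exact hh2
    refine Convex.mul_sub_le_image_sub_of_le_deriv (convex_Icc (p.1 - h) p.1)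
      (f := fun s : ℝ => f (s, p.2.1 - h • p.2.2, p.2.2 + b)) ?_ ?_ ?_ (p.1 - h) ?_ p.1 ?_
      (by linarith)
    · intro s hs
      exact (h1 _ (hpt s hs)).continuousAt.continuousWithinAt
    · intro s hs
      exact (h1 _ (hpt s (interior_subset hs))).differentiableAt.differentiableWithinAt
    · intro s hs
      have h5 := h1 _ (hpt s (interior_subset hs))
      have h6 := h3 _ (hpt s (interior_subset hs))
      have h7 : deriv (fun s : ℝ => f (s, p.2.1 - h • p.2.2, p.2.2 + b)) s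
          = ft (s, p.2.1 - h • p.2.2, p.2.2 + b) := h5.deriv
      rw [h7]
      rw [Real.norm_eq_abs] at h6
      have := (abs_le.mp h6).1
      linarith
    · exact ⟨le_refl _, by linarith⟩
    · exact ⟨by linarith, le_refl _⟩
  -- space part
  have hB : f (p.1, p.2.1 - h • p.2.2, p.2.2 + b) - f (p.1, p.2.1 - (0 : ℝ) • p.2.2, p.2.2 + b)
      ≤ (-(Dx p p.2.2) + ε * ‖p.2.2‖) * (h - 0) := by
    have hpt : ∀ r ∈ Icc (0 : ℝ) h,
        dist ((p.1, p.2.1 - r • p.2.2, p.2.2 + b) : ST d) p ≤ δ := by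
      intro r hr
      refine solD_dist p _ _ _ (by simpa using hδ0) ?_ hbb
      have : p.2.1 - r • p.2.2 - p.2.1 = -(r • p.2.2) := by abel
      rw [this, norm_neg, norm_smul, Real.norm_eq_abs, abs_of_nonneg hr.1]
      refine le_trans ?_ hh2
      exact mul_le_mul_of_nonneg_right hr.2 hv0
    have hline : ∀ r : ℝ, HasDerivAt (fun r : ℝ => p.2.1 - r • p.2.2) (-p.2.2) r := by
      intro r
      have := ((hasDerivAt_id r).smul_const p.2.2).const_sub p.2.1
      simpa using this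
    have hder : ∀ r ∈ Icc (0 : ℝ) h,
        HasDerivAt (fun r : ℝ => f (p.1, p.2.1 - r • p.2.2, p.2.2 + b))
          (-(Dx (p.1, p.2.1 - r • p.2.2, p.2.2 + b) p.2.2)) r := by
      intro r hr
      have h8 := (h2 _ (hpt r hr)).comp_hasDerivAt r (hline r)
      have h9 : Dx (p.1, p.2.1 - r • p.2.2, p.2.2 + b) (-p.2.2)
          = -(Dx (p.1, p.2.1 - r • p.2.2, p.2.2 + b) p.2.2) := map_neg _ _
      rw [← h9]
      exact h8
    refine Convex.image_sub_le_mul_sub_of_deriv_le (convex_Icc (0 : ℝ) h)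
      (f := fun r : ℝ => f (p.1, p.2.1 - r • p.2.2, p.2.2 + b)) ?_ ?_ ?_ 0 ?_ h ?_ hh.le
    · intro r hr
      exact (hder r hr).continuousAt.continuousWithinAt
    · intro r hr
      exact (hder r (interior_subset hr)).differentiableAt.differentiableWithinAt
    · intro r hr
      rw [(hder r (interior_subset hr)).deriv]
      have h10 := h4 _ (hpt r (interior_subset hr))
      have h11 := (Dx (p.1, p.2.1 - r • p.2.2, p.2.2 + b) - Dx p).le_opNorm p.2.2
      rw [Real.norm_eq_abs] at h11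
      have h12 : |(Dx (p.1, p.2.1 - r • p.2.2, p.2.2 + b) - Dx p) p.2.2| ≤ ε * ‖p.2.2‖ :=
        h11.trans (mul_le_mul_of_nonneg_right h10 hv0)
      have h13 := (abs_le.mp h12).1
      simp only [_root_.sub_apply] at h13
      linarith
    · exact ⟨le_refl _, hh.le⟩
    · exact ⟨hh.le, le_refl _⟩
  rw [zero_smul, sub_zero] at hB
  nlinarith

/-- Sum over the columns. -/
theorem solD_cols (B : Matrix (Fin d) (Fin d) ℝ) (D : E d →L[ℝ] E d →L[ℝ] ℝ) :
    ∑ j, D (colB B j) (colB B j) = ∑ i, ∑ k, (B * Bᵀ) i k *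
      D (EuclideanSpace.single i (1 : ℝ)) (EuclideanSpace.single k (1 : ℝ)) := by
  have hcol : ∀ j, colB B j = ∑ i, B i j • (EuclideanSpace.single i (1 : ℝ) : E d) := by
    intro j
    ext k
    simp [colB, EuclideanSpace.single, Pi.single_apply]
  have h1 : ∀ j, D (colB B j) (colB B j) = ∑ i, ∑ k, (B i j * B k j) *
      D (EuclideanSpace.single i (1 : ℝ)) (EuclideanSpace.single k (1 : ℝ)) := by
    intro j
    rw [hcol j]
    simp only [map_sum, map_smul, _root_.sum_apply, _root_.smul_apply,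
      smul_eq_mul, Finset.mul_sum]
    rw [Finset.sum_comm]
    refine Finset.sum_congr rfl fun i _ => Finset.sum_congr rfl fun k _ => ?_
    ring
  simp only [h1]
  rw [Finset.sum_comm]
  refine Finset.sum_congr rfl fun i _ => ?_
  rw [Finset.sum_comm]
  refine Finset.sum_congr rfl fun k _ => ?_
  rw [Matrix.mul_apply, Finset.sum_mul]
  rfl

/-- Sum of the squared norms of the columns. -/
theorem solD_norms {lam Lam : ℝ} {B : Matrix (Fin d) (Fin d) ℝ} (hB : EllB lam Lam B) :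
    ∑ j, ‖colB B j‖ ^ 2 ≤ d * Lam := by
  have h1 : ∀ j, ‖colB B j‖ ^ 2 = ∑ i, B i j * B i j := by
    intro j
    rw [EuclideanSpace.norm_sq_eq]
    refine Finset.sum_congr rfl fun i _ => ?_
    simp [colB, sq]
  simp only [h1]
  rw [Finset.sum_comm]
  have h2 : ∀ i, ∑ j, B i j * B i j ≤ Lam := by
    intro i
    have h3 := (hB (Pi.single i 1)).2
    have h4 : (Pi.single i (1 : ℝ) : Fin d → ℝ) ⬝ᵥ Pi.single i 1 = 1 := by simp
    have h5 : (Pi.single i (1 : ℝ) : Fin d → ℝ) ⬝ᵥ ((B * Bᵀ) *ᵥ Pi.single i 1)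
        = (B * Bᵀ) i i := by simp
    rw [h4, h5, mul_one, Matrix.mul_apply] at h3
    exact h3
  calc _ ≤ ∑ _i : Fin d, Lam := Finset.sum_le_sum fun i _ => h2 i
    _ = d * Lam := by simp

/-- One step of the chain on a classical solution, uniformly on compact sets. -/
theorem IsSol.one_step {lam Lam : ℝ} (hd : 1 ≤ d) (hlam : 0 < lam) {Ω : Set (ST d)}
    (hΩ : IsOpen Ω) {f : ST d → ℝ} (h : IsSol lam Lam Ω f) {K : Set (ST d)}
    (hK : IsCompact K) (hKΩ : K ⊆ Ω) {ε : ℝ} (hε : 0 < ε) :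
    ∃ h0 : ℝ, 0 < h0 ∧ ∀ h, 0 < h → h ≤ h0 → ∀ p ∈ K,
      ∃ B : Matrix (Fin d) (Fin d) ℝ, EllB lam Lam B ∧
        stepAvg h B (fun z => f (p.1 - h, z.1, z.2)) p.2 ≤ f p + ε * h := by
  obtain ⟨a, ft, Dx, Dv, D2v, ha, hftc, hDxc, hD2c, hft, hDx, hDv, hD2, heq⟩ := h
  -- bound of the velocities on K
  obtain ⟨M, hM0, hM⟩ : ∃ M : ℝ, 0 ≤ M ∧ ∀ p ∈ K, ‖p.2.2‖ ≤ M := by
    obtain ⟨M, hM⟩ := hK.isBounded.exists_norm_le
    refine ⟨max M 0, le_max_right _ _, fun p hp => ?_⟩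
    have h1 := hM p hp
    exact ((norm_snd_le p.2).trans (norm_snd_le p)).trans (h1.trans (le_max_left _ _))
  set A : ℝ := 1 + M + d * |Lam| with hA
  have hA0 : 0 < A := by positivity
  set ε' : ℝ := ε / A with hε'
  have hε'0 : 0 < ε' := by positivity
  obtain ⟨δ1, hδ1, h1⟩ := solD_unif (β := ℝ) hΩ hK hKΩ hftc hε'0
  obtain ⟨δ2, hδ2, h2⟩ := solD_unif (β := E d →L[ℝ] ℝ) hΩ hK hKΩ hDxc hε'0
  obtain ⟨δ3, hδ3, h3⟩ := solD_unif (β := E d →L[ℝ] E d →L[ℝ] ℝ) hΩ hK hKΩ hD2c hε'0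
  set δ : ℝ := min δ1 (min δ2 δ3) with hδ
  have hδ0 : 0 < δ := lt_min hδ1 (lt_min hδ2 hδ3)
  have hδ1' : δ ≤ δ1 := min_le_left _ _
  have hδ2' : δ ≤ δ2 := (min_le_right _ _).trans (min_le_left _ _)
  have hδ3' : δ ≤ δ3 := (min_le_right _ _).trans (min_le_right _ _)
  set Q : ℝ := 2 * d * (d * |Lam|) + 1 with hQ
  have hQ0 : 0 < Q := by positivity
  refine ⟨min δ (min (δ / (M + 1)) (δ ^ 2 / Q)), ?_, ?_⟩
  · refine lt_min hδ0 (lt_min ?_ ?_) <;> positivity
  intro h hh hh0 p hp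
  have hh1 : h ≤ δ := hh0.trans (min_le_left _ _)
  have hh2 : h * ‖p.2.2‖ ≤ δ := by
    have h4 : h ≤ δ / (M + 1) := hh0.trans ((min_le_right _ _).trans (min_le_left _ _))
    have h5 : h * (M + 1) ≤ δ := by rwa [le_div_iff₀ (by linarith)] at h4
    have h6 := hM p hp
    nlinarith
  have hh3 : h * Q ≤ δ ^ 2 := by
    have h4 : h ≤ δ ^ 2 / Q := hh0.trans ((min_le_right _ _).trans (min_le_right _ _))
    rwa [le_div_iff₀ hQ0] at h4
  have hpΩ := hKΩ hp
  obtain ⟨B, hBa, hB⟩ := exists_B hlam.le (a p) (ha p hpΩ).1 (ha p hpΩ).2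
  refine ⟨B, hB, ?_⟩
  have hdr : (1 : ℝ) ≤ (d : ℝ) := by exact_mod_cast hd
  have hdpos : (0 : ℝ) < d := by linarith
  have hnorms := solD_norms hB
  have hLam : (d : ℝ) * Lam ≤ d * |Lam| :=
    mul_le_mul_of_nonneg_left (le_abs_self _) hdpos.le
  have hcolj : ∀ j, ‖colB B j‖ ^ 2 ≤ d * |Lam| := by
    intro j
    refine le_trans ?_ (hnorms.trans hLam)
    exact Finset.single_le_sum (f := fun j => ‖colB B j‖ ^ 2) (fun i _ => sq_nonneg _)
      (Finset.mem_univ j)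
  set b : Fin d → E d := fun j => Real.sqrt (2 * h * d) • colB B j with hbdef
  have hbsq : ∀ j, ‖b j‖ ^ 2 = 2 * h * d * ‖colB B j‖ ^ 2 := by
    intro j
    simp only [hbdef]
    rw [norm_smul, mul_pow, Real.norm_eq_abs, sq_abs, Real.sq_sqrt (by positivity)]
  have hbδ : ∀ j, ‖b j‖ ≤ δ := by
    intro j
    have h7 : ‖b j‖ ^ 2 ≤ δ ^ 2 := by
      rw [hbsq j]
      have h8 := hcolj j
      have h9 : 2 * h * d * ‖colB B j‖ ^ 2 ≤ 2 * h * d * (d * |Lam|) :=
        mul_le_mul_of_nonneg_left h8 (by positivity)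
      have h10 : 2 * h * d * (d * |Lam|) ≤ h * Q := by rw [hQ]; nlinarith
      linarith
    exact abs_le_of_sq_le_sq' h7 hδ0.le |>.2
  have hD2b : ∀ j, D2v p (b j) (b j) = 2 * h * d * D2v p (colB B j) (colB B j) := by
    intro j
    simp only [hbdef, map_smul, _root_.smul_apply, smul_eq_mul]
    have := Real.mul_self_sqrt (show (0 : ℝ) ≤ 2 * h * d by positivity)
    rw [← mul_assoc, this]
  have hterm : ∀ j : Fin d,
      f (p.1 - h, p.2.1 - h • p.2.2, p.2.2 + b j) + f (p.1 - h, p.2.1 - h • p.2.2, p.2.2 - b j)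
      ≤ 2 * f p - 2 * h * (ft p + Dx p p.2.2) + 2 * h * ε' * (1 + ‖p.2.2‖)
        + D2v p (b j) (b j) + ε' * ‖b j‖ ^ 2 := by
    intro j
    have hs := solD_second (f := f) (Dv := Dv) (D2v := D2v) (p := p) (δ := δ) (ε := ε')
      (hbδ j) (fun q hq => hDv q (h3 p hp q (hq.trans hδ3')).1)
      (fun q hq => hD2 q (h3 p hp q (hq.trans hδ3')).1)
      (fun q hq => (h3 p hp q (hq.trans hδ3')).2)
    have hf1 := solD_first (f := f) (ft := ft) (Dx := Dx) (p := p) (δ := δ) (ε := ε') (h := h)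
      (hbδ j) hh hh1 hh2 (fun q hq => hft q (h1 p hp q (hq.trans hδ1')).1)
      (fun q hq => hDx q (h1 p hp q (hq.trans hδ1')).1)
      (fun q hq => (h1 p hp q (hq.trans hδ1')).2)
      (fun q hq => (h2 p hp q (hq.trans hδ2')).2)
    have hf2 := solD_first (f := f) (ft := ft) (Dx := Dx) (p := p) (δ := δ) (ε := ε') (h := h)
      (b := -b j) (by rw [norm_neg]; exact hbδ j) hh hh1 hh2
      (fun q hq => hft q (h1 p hp q (hq.trans hδ1')).1)
      (fun q hq => hDx q (h1 p hp q (hq.trans hδ1')).1)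
      (fun q hq => (h1 p hp q (hq.trans hδ1')).2)
      (fun q hq => (h2 p hp q (hq.trans hδ2')).2)
    rw [← sub_eq_add_neg] at hf2
    linarith
  unfold stepAvg
  have hsum : ∑ j : Fin d, (f (p.1 - h, p.2.1 - h • p.2.2, p.2.2 + b j)
      + f (p.1 - h, p.2.1 - h • p.2.2, p.2.2 - b j))
      ≤ (d : ℝ) * (2 * f p - 2 * h * (ft p + Dx p p.2.2) + 2 * h * ε' * (1 + ‖p.2.2‖))
        + 2 * h * d * (ft p + Dx p p.2.2) + ε' * (2 * h * d * (d * |Lam|)) := by
    refine le_trans (Finset.sum_le_sum fun j _ => hterm j) ?_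
    rw [Finset.sum_add_distrib, Finset.sum_add_distrib]
    have e1 : ∑ _j : Fin d, (2 * f p - 2 * h * (ft p + Dx p p.2.2) + 2 * h * ε' * (1 + ‖p.2.2‖))
        = (d : ℝ) * (2 * f p - 2 * h * (ft p + Dx p p.2.2) + 2 * h * ε' * (1 + ‖p.2.2‖)) := by
      rw [Finset.sum_const, Finset.card_univ, Fintype.card_fin, nsmul_eq_mul]
    have e2 : ∑ j, D2v p (b j) (b j) = 2 * h * d * (ft p + Dx p p.2.2) := by
      simp only [hD2b]
      rw [← Finset.mul_sum, solD_cols B (D2v p), hBa, ← heq p hpΩ]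
    have e3 : ∑ j, ε' * ‖b j‖ ^ 2 ≤ ε' * (2 * h * d * (d * |Lam|)) := by
      rw [← Finset.mul_sum]
      refine mul_le_mul_of_nonneg_left ?_ hε'0.le
      simp only [hbsq]
      rw [← Finset.mul_sum]
      exact mul_le_mul_of_nonneg_left (hnorms.trans hLam) (by positivity)
    rw [e1, e2]
    linarith
  have hfinal : (2 * (d : ℝ))⁻¹ * ∑ j : Fin d,
      (f (p.1 - h, p.2.1 - h • p.2.2, p.2.2 + b j)
        + f (p.1 - h, p.2.1 - h • p.2.2, p.2.2 - b j)) ≤ f p + ε * h := by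
    rw [inv_mul_le_iff₀ (by positivity)]
    refine le_trans hsum ?_
    have hvM := hM p hp
    have hεA : ε' * A = ε := by rw [hε']; field_simp
    have hkey : ε' * (1 + ‖p.2.2‖) + ε' * (d * |Lam|) ≤ ε := by
      rw [← hεA, hA]
      nlinarith
    have h20 : (0 : ℝ) ≤ 2 * d * h := by positivity
    nlinarith [mul_le_mul_of_nonneg_left hkey h20]
  exact hfinal

end Pool.Agent.Lib.MP_eee7b5_an
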