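import Pool.Agent.Lib.MP_eee7b5_an.Defs
import Pool.Agent.Lib.MP_eee7b5_an.SolA
import Pool.Agent.Lib.MP_eee7b5_an.SolB
import Pool.Agent.Lib.MP_eee7b5_an.SolC
import Pool.Agent.Lib.MP_eee7b5_an.SolD

set_option autoImplicit false

/-!
Classical solutions: elementary facts.
-/

namespace Pool.Agent.Lib.MP_eee7b5_an

open MeasureTheory Set Matrix
open scoped ENNReal

variable {d : ℕ}

/-- Sum of the squared norms of the columns. -/
theorem solE_norms {lam Lam : ℝ} {B : Matrix (Fin d) (Fin d) ℝ} (hB : EllB lam Lam B) :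
    ∑ j, ‖colB B j‖ ^ 2 ≤ d * Lam := by
  have h1 : ∀ j, ‖colB B j‖ ^ 2 = ∑ i, B i j * B i j := by
    intro j
    rw [EuclideanSpace.norm_sq_eq]
    refine Finset.sum_congr rfl fun i _ => ?_
    simp [colB, sq]
  simp only [h1]
  rw [Finset.sum_comm]
  have h2 : ∀ i, ∑ j, B i j * B i j ≤ Lam := by
    intro i
    have h3 := (hB (Pi.single i 1)).2
    have h4 : (Pi.single i (1 : ℝ) : Fin d → ℝ) ⬝ᵥ Pi.single i 1 = 1 := by simp
    have h5 : (Pi.single i (1 : ℝ) : Fin d → ℝ) ⬝ᵥ ((B * Bᵀ) *ᵥ Pi.single i 1)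
        = (B * Bᵀ) i i := by simp
    rw [h4, h5, mul_one, Matrix.mul_apply] at h3
    exact h3
  calc _ ≤ ∑ _i : Fin d, Lam := Finset.sum_le_sum fun i _ => h2 i
    _ = d * Lam := by simp

theorem solE_par (a b : E d) : ‖a + b‖ ^ 2 + ‖a - b‖ ^ 2 = 2 * ‖a‖ ^ 2 + 2 * ‖b‖ ^ 2 := by
  have h := parallelogram_law_with_norm ℝ a b
  nlinarith

/-- One step of the chain on the quadratic barrier. -/
theorem step_quad {lam Lam h : ℝ} (hd : 1 ≤ d) (hh : 0 ≤ h)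
    {B : Matrix (Fin d) (Fin d) ℝ} (hB : EllB lam Lam B) (z : ZZ d) :
    stepAvg h B (fun z => 4 * ‖z.1‖ ^ 2 + 4 * ‖z.2‖ ^ 2) z ≤
      4 * ‖z.1‖ ^ 2 + 4 * ‖z.2‖ ^ 2 + h * (8 * ‖z.1‖ * ‖z.2‖ + 4 * h * ‖z.2‖ ^ 2 + 8 * d * Lam) := by
  have hdr : (0 : ℝ) < d := by exact_mod_cast (by omega : 0 < d)
  have hn := solE_norms hB
  have hb : ∀ j, ‖Real.sqrt (2 * h * d) • colB B j‖ ^ 2 = 2 * h * d * ‖colB B j‖ ^ 2 := by
    intro j
    rw [norm_smul, mul_pow, Real.norm_eq_abs, sq_abs, Real.sq_sqrt (by positivity)]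
  have hterm : ∀ j : Fin d,
      (4 * ‖z.1 - h • z.2‖ ^ 2 + 4 * ‖z.2 + Real.sqrt (2 * h * d) • colB B j‖ ^ 2
        + (4 * ‖z.1 - h • z.2‖ ^ 2 + 4 * ‖z.2 - Real.sqrt (2 * h * d) • colB B j‖ ^ 2))
      = (8 * ‖z.1 - h • z.2‖ ^ 2 + 8 * ‖z.2‖ ^ 2) + 16 * h * d * ‖colB B j‖ ^ 2 := by
    intro j
    have h1 := solE_par z.2 (Real.sqrt (2 * h * d) • colB B j)
    rw [hb j] at h1
    linarith
  have hsum : stepAvg h B (fun z => 4 * ‖z.1‖ ^ 2 + 4 * ‖z.2‖ ^ 2) z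
      = 4 * ‖z.1 - h • z.2‖ ^ 2 + 4 * ‖z.2‖ ^ 2 + 8 * h * ∑ j, ‖colB B j‖ ^ 2 := by
    unfold stepAvg
    simp only [hterm]
    rw [Finset.sum_add_distrib, ← Finset.mul_sum, Finset.sum_const, Finset.card_univ,
      Fintype.card_fin, nsmul_eq_mul]
    field_simp
    ring
  rw [hsum]
  have h2 : ‖z.1 - h • z.2‖ ≤ ‖z.1‖ + h * ‖z.2‖ := by
    refine (norm_sub_le _ _).trans ?_
    rw [norm_smul, Real.norm_eq_abs, abs_of_nonneg hh]
  have h3 : ‖z.1 - h • z.2‖ ^ 2 ≤ (‖z.1‖ + h * ‖z.2‖) ^ 2 :=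
    pow_le_pow_left₀ (norm_nonneg _) h2 2
  have h4 : 8 * h * ∑ j, ‖colB B j‖ ^ 2 ≤ 8 * h * (d * Lam) :=
    mul_le_mul_of_nonneg_left hn (by positivity)
  nlinarith

/-- The point `(x - h v, v ± √(2 h d) B e_j)` is close to `(x, v)`. -/
theorem step_close {lam Lam h : ℝ} (hh : 0 ≤ h) {B : Matrix (Fin d) (Fin d) ℝ}
    (hB : EllB lam Lam B) (z : ZZ d) (hz : ‖z.2‖ ≤ 1) (j : Fin d) (σ : ℝ) (hσ : |σ| ≤ 1) :
    ‖(z.1 - h • z.2) - z.1‖ ≤ h ∧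
      ‖(z.2 + σ • (Real.sqrt (2 * h * d) • colB B j)) - z.2‖ ≤ Real.sqrt (2 * h * d * (d * Lam)) := by
  constructor
  · have h1 : (z.1 - h • z.2) - z.1 = -(h • z.2) := by abel
    rw [h1, norm_neg, norm_smul, Real.norm_eq_abs, abs_of_nonneg hh]
    nlinarith
  · have h1 : (z.2 + σ • (Real.sqrt (2 * h * d) • colB B j)) - z.2
        = σ • (Real.sqrt (2 * h * d) • colB B j) := by abel
    have hn := solE_norms hB
    have hj : ‖colB B j‖ ^ 2 ≤ d * Lam :=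
      (Finset.single_le_sum (f := fun j => ‖colB B j‖ ^ 2) (fun i _ => sq_nonneg _)
        (Finset.mem_univ j)).trans hn
    have hj' : ‖colB B j‖ ≤ Real.sqrt (d * Lam) := Real.le_sqrt_of_sq_le hj
    rw [h1, norm_smul, norm_smul, Real.norm_eq_abs, Real.norm_eq_abs,
      abs_of_nonneg (Real.sqrt_nonneg _), Real.sqrt_mul (by positivity : (0 : ℝ) ≤ 2 * h * d)]
    have h5 : Real.sqrt (2 * h * d) * ‖colB B j‖ ≤ Real.sqrt (2 * h * d) * Real.sqrt (d * Lam) :=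
      mul_le_mul_of_nonneg_left hj' (Real.sqrt_nonneg _)
    have h6 : 0 ≤ Real.sqrt (2 * h * d) * ‖colB B j‖ := by positivity
    calc |σ| * (Real.sqrt (2 * h * d) * ‖colB B j‖)
        ≤ 1 * (Real.sqrt (2 * h * d) * ‖colB B j‖) := mul_le_mul_of_nonneg_right hσ h6
      _ ≤ _ := by rw [one_mul]; exact h5

end Pool.Agent.Lib.MP_eee7b5_an
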