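import Pool.Agent.Lib.MP_eee7b5_an.Defs
import Pool.Agent.Lib.MP_eee7b5_an.SolA
import Pool.Agent.Lib.MP_eee7b5_an.SolB
import Pool.Agent.Lib.MP_eee7b5_an.SolC
import Pool.Agent.Lib.MP_eee7b5_an.SolD
import Pool.Agent.Lib.MP_eee7b5_an.SolE

set_option autoImplicit false

/-!
Classical solutions: elementary facts.
-/

namespace Pool.Agent.Lib.MP_eee7b5_an

open MeasureTheory Set Matrix
open scoped ENNReal

variable {d : ℕ}

theorem solF_kin_continuous (z : ST d) (ρ : ℝ) : Continuous (kin z ρ) := by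
  unfold kin
  fun_prop

/-- joint differentiability in `(t, x)` from continuous partial derivatives -/
theorem solF_joint {Ω : Set (ST d)} (hΩ : IsOpen Ω) {f ft : ST d → ℝ}
    {Dx : ST d → (E d →L[ℝ] ℝ)} (hft : ContinuousOn ft Ω) (hDx : ContinuousOn Dx Ω)
    (h1 : ∀ p ∈ Ω, HasDerivAt (fun s => f (s, p.2.1, p.2.2)) (ft p) p.1)
    (h2 : ∀ p ∈ Ω, HasFDerivAt (fun y => f (p.1, y, p.2.2)) (Dx p) p.2.1)
    (q : ST d) (hq : q ∈ Ω) :
    HasFDerivAt (fun u : ℝ × E d => f (u.1, u.2, q.2.2))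
      ((ft q • ContinuousLinearMap.id ℝ ℝ).coprod (Dx q)) (q.1, q.2.1) := by
  have hι : Continuous fun u : ℝ × E d => ((u.1, u.2, q.2.2) : ST d) := by fun_prop
  have hnhds : ∀ᶠ u in nhds ((q.1, q.2.1) : ℝ × E d), ((u.1, u.2, q.2.2) : ST d) ∈ Ω :=
    hι.continuousAt.eventually (hΩ.mem_nhds hq)
  have key := hasStrictFDerivAt_uncurry_coprod (𝕜 := ℝ) (u := ((q.1, q.2.1) : ℝ × E d))
    (f := fun τ ξ => f (τ, ξ, q.2.2))
    (f₁ := fun τ ξ => ft (τ, ξ, q.2.2) • ContinuousLinearMap.id ℝ ℝ)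
    (f₂ := fun τ ξ => Dx (τ, ξ, q.2.2)) ?_ ?_ ?_ ?_
  · exact key.hasFDerivAt
  · filter_upwards [hnhds] with u hu
    have h3 := (h1 _ hu).hasFDerivAt
    refine h3.congr_fderiv ?_
    refine ContinuousLinearMap.ext fun x => ?_
    change x • ft (u.1, u.2, q.2.2) = ft (u.1, u.2, q.2.2) • x
    rw [smul_eq_mul, smul_eq_mul, mul_comm]
  · filter_upwards [hnhds] with u hu
    exact h2 _ hu
  · have h3 : ContinuousAt ft q := (hft.continuousAt (hΩ.mem_nhds hq))
    have h4 : ContinuousAt (fun u : ℝ × E d => ft (u.1, u.2, q.2.2)) (q.1, q.2.1) :=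
      ContinuousAt.comp (f := fun u : ℝ × E d => ((u.1, u.2, q.2.2) : ST d)) h3 hι.continuousAt
    exact h4.smul continuousAt_const
  · have h3 : ContinuousAt Dx q := (hDx.continuousAt (hΩ.mem_nhds hq))
    exact ContinuousAt.comp (f := fun u : ℝ × E d => ((u.1, u.2, q.2.2) : ST d)) h3
      hι.continuousAt

/-- Kinetic change of variables. -/
theorem IsSol.kin {lam Lam : ℝ} {Ω : Set (ST d)} (hΩ : IsOpen Ω) {f : ST d → ℝ}
    (h : IsSol lam Lam Ω f) (z : ST d) {ρ : ℝ} (hρ : 0 < ρ) :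
    IsSol lam Lam (kin z ρ ⁻¹' Ω) (fun p => f (kin z ρ p)) := by
  obtain ⟨a, ft, Dx, Dv, D2v, ha, hft, hDx, hD2v, h1, h2, h3, h4, h5⟩ := h
  have hc := solF_kin_continuous z ρ
  have hmaps : MapsTo (Pool.Agent.Lib.MP_eee7b5_an.kin z ρ)
      (Pool.Agent.Lib.MP_eee7b5_an.kin z ρ ⁻¹' Ω) Ω := fun p hp => hp
  refine ⟨fun p => a (Pool.Agent.Lib.MP_eee7b5_an.kin z ρ p),
    fun p => ρ ^ 2 * (ft (Pool.Agent.Lib.MP_eee7b5_an.kin z ρ p) +
      Dx (Pool.Agent.Lib.MP_eee7b5_an.kin z ρ p) z.2.2),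
    fun p => ρ ^ 3 • Dx (Pool.Agent.Lib.MP_eee7b5_an.kin z ρ p),
    fun p => ρ • Dv (Pool.Agent.Lib.MP_eee7b5_an.kin z ρ p),
    fun p => ρ ^ 2 • D2v (Pool.Agent.Lib.MP_eee7b5_an.kin z ρ p),
    fun p hp => ha _ hp, ?_, ?_, ?_, ?_, ?_, ?_, ?_, ?_⟩
  · have e1 := hft.comp hc.continuousOn hmaps
    have e2 := hDx.comp hc.continuousOn hmaps
    exact continuousOn_const.mul (e1.add (e2.clm_apply continuousOn_const))
  · exact (hDx.comp hc.continuousOn hmaps).const_smul (ρ ^ 3)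
  · exact (hD2v.comp hc.continuousOn hmaps).const_smul (ρ ^ 2)
  · -- time derivative
    intro p hp
    have hj := solF_joint hΩ hft hDx h1 h2 (Pool.Agent.Lib.MP_eee7b5_an.kin z ρ p) hp
    have hγ : HasDerivAt (fun s : ℝ => ((z.1 + ρ ^ 2 * s,
        z.2.1 + ρ ^ 3 • p.2.1 + (ρ ^ 2 * s) • z.2.2) : ℝ × E d)) (ρ ^ 2, ρ ^ 2 • z.2.2) p.1 := by
      refine HasDerivAt.prodMk ?_ ?_
      · simpa using ((hasDerivAt_id p.1).const_mul (ρ ^ 2)).const_add z.1
      · have e1 : HasDerivAt (fun s : ℝ => ρ ^ 2 * s) (ρ ^ 2) p.1 := by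
          simpa using (hasDerivAt_id p.1).const_mul (ρ ^ 2)
        exact (e1.smul_const z.2.2).const_add _
    have hcomp := HasFDerivAt.comp_hasDerivAt (f := fun s : ℝ => ((z.1 + ρ ^ 2 * s,
        z.2.1 + ρ ^ 3 • p.2.1 + (ρ ^ 2 * s) • z.2.2) : ℝ × E d)) p.1 hj hγ
    refine (hcomp.congr_deriv ?_)
    rw [ContinuousLinearMap.coprod_apply, ContinuousLinearMap.smul_apply,
      ContinuousLinearMap.id_apply, smul_eq_mul, map_smul, smul_eq_mul]
    ring
  · -- position derivative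
    intro p hp
    have hd := h2 _ hp
    have hγ : HasFDerivAt (fun y : E d => z.2.1 + ρ ^ 3 • y + (ρ ^ 2 * p.1) • z.2.2)
        (ρ ^ 3 • ContinuousLinearMap.id ℝ (E d)) p.2.1 :=
      ((((ContinuousLinearMap.id ℝ (E d)).hasFDerivAt).const_smul (ρ ^ 3)).const_add
        z.2.1).add_const _
    have hcomp := HasFDerivAt.comp (g := fun y => f ((Pool.Agent.Lib.MP_eee7b5_an.kin z ρ p).1, y,
      (Pool.Agent.Lib.MP_eee7b5_an.kin z ρ p).2.2)) p.2.1 hd hγ
    refine hcomp.congr_fderiv ?_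
    refine ContinuousLinearMap.ext fun v => ?_
    rw [ContinuousLinearMap.comp_apply, ContinuousLinearMap.smul_apply,
      ContinuousLinearMap.id_apply, map_smul, ContinuousLinearMap.smul_apply]
  · -- velocity derivative
    intro p hp
    have hd := h3 _ hp
    have hγ : HasFDerivAt (fun y : E d => z.2.2 + ρ • y)
        (ρ • ContinuousLinearMap.id ℝ (E d)) p.2.2 :=
      (((ContinuousLinearMap.id ℝ (E d)).hasFDerivAt).const_smul ρ).const_add _
    have hcomp := HasFDerivAt.comp (g := fun y => f ((Pool.Agent.Lib.MP_eee7b5_an.kin z ρ p).1,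
      (Pool.Agent.Lib.MP_eee7b5_an.kin z ρ p).2.1, y)) p.2.2 hd hγ
    refine hcomp.congr_fderiv ?_
    refine ContinuousLinearMap.ext fun v => ?_
    rw [ContinuousLinearMap.comp_apply, ContinuousLinearMap.smul_apply,
      ContinuousLinearMap.id_apply, map_smul, ContinuousLinearMap.smul_apply]
  · -- second velocity derivative
    intro p hp
    have hd := h4 _ hp
    have hγ : HasFDerivAt (fun y : E d => z.2.2 + ρ • y)
        (ρ • ContinuousLinearMap.id ℝ (E d)) p.2.2 :=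
      (((ContinuousLinearMap.id ℝ (E d)).hasFDerivAt).const_smul ρ).const_add _
    have hcomp := (HasFDerivAt.comp (g := fun y => Dv ((Pool.Agent.Lib.MP_eee7b5_an.kin z ρ p).1,
      (Pool.Agent.Lib.MP_eee7b5_an.kin z ρ p).2.1, y)) p.2.2 hd hγ).const_smul ρ
    refine hcomp.congr_fderiv ?_
    refine ContinuousLinearMap.ext fun v => ContinuousLinearMap.ext fun u => ?_
    change ρ * (D2v (Pool.Agent.Lib.MP_eee7b5_an.kin z ρ p)) (ρ • v) u =
      ρ ^ 2 * (D2v (Pool.Agent.Lib.MP_eee7b5_an.kin z ρ p)) v u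
    rw [map_smul, ContinuousLinearMap.smul_apply, smul_eq_mul]
    ring
  · -- the equation
    intro p hp
    have hd := h5 _ hp
    have e1 : (Pool.Agent.Lib.MP_eee7b5_an.kin z ρ p).2.2 = z.2.2 + ρ • p.2.2 := rfl
    rw [e1, map_add, map_smul, smul_eq_mul] at hd
    simp only [ContinuousLinearMap.smul_apply, smul_eq_mul]
    have e2 : ∀ i j : Fin d, a (Pool.Agent.Lib.MP_eee7b5_an.kin z ρ p) i j *
        (ρ ^ 2 * D2v (Pool.Agent.Lib.MP_eee7b5_an.kin z ρ p) (EuclideanSpace.single i (1 : ℝ))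
          (EuclideanSpace.single j (1 : ℝ))) =
        ρ ^ 2 * (a (Pool.Agent.Lib.MP_eee7b5_an.kin z ρ p) i j *
          D2v (Pool.Agent.Lib.MP_eee7b5_an.kin z ρ p) (EuclideanSpace.single i (1 : ℝ))
          (EuclideanSpace.single j (1 : ℝ))) := fun i j => by ring
    simp_rw [e2, ← Finset.mul_sum]
    rw [← hd]
    ring

end Pool.Agent.Lib.MP_eee7b5_an
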