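import Pool.Agent.Lib.MP_eee7b5_an.Defs
import Pool.Agent.Lib.MP_eee7b5_an.SolA
import Pool.Agent.Lib.MP_eee7b5_an.SolB
import Pool.Agent.Lib.MP_eee7b5_an.SolC
import Pool.Agent.Lib.MP_eee7b5_an.SolD
import Pool.Agent.Lib.MP_eee7b5_an.SolE
import Pool.Agent.Lib.MP_eee7b5_an.SolF
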