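import Pool.Agent.Lib.MP_eee7b5_an.Occ
import Pool.Agent.Lib.MP_eee7b5_an.Sol

set_option autoImplicit false

/-!
The growth lemma (critical density).
-/

namespace Pool.Agent.Lib.MP_eee7b5_an

open MeasureTheory Set Matrix
open scoped ENNReal

variable {d : ℕ}

/-- Unit past cylinder at the origin. -/
def Q1 (d : ℕ) : Set (ST d) := Ioc (-1 : ℝ) 0 ×ˢ Metric.ball 0 1 ×ˢ Metric.ball 0 1

/-- `w = (3/2) g + 4 ‖x‖² + 4 ‖v‖²` cut at level `2`, at process time `r` (so `t = -r`). -/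
noncomputable def W2 (g : ST d → ℝ) (r : ℝ) (z : ZZ d) : ℝ :=
  open Classical in
  if ‖z.1‖ < 1 ∧ ‖z.2‖ < 1 then
    min (3 / 2 * g (-r, z.1, z.2) + (4 * ‖z.1‖ ^ 2 + 4 * ‖z.2‖ ^ 2)) 2
  else 2

/-- The supermartingale. -/
noncomputable def W1 (g : ST d → ℝ) (r : ℝ) (z : ZZ d) : ℝ := min (W2 g r z) 1

/-- The cutoff. -/
noncomputable def chi (g : ST d → ℝ) (r : ℝ) (z : ZZ d) : ℝ := max 0 (min 1 (3 - 2 * W2 g r z))

private theorem mem_Q1 {θ r : ℝ} (hθ1 : θ < 1) (hr : r ∈ Icc 0 θ) {z : ZZ d}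
    (hz : ‖z.1‖ < 1 ∧ ‖z.2‖ < 1) : ((-r, z.1, z.2) : ST d) ∈ Q1 d := by
  refine ⟨⟨?_, ?_⟩, ?_, ?_⟩
  · show -1 < -r
    linarith [hr.2]
  · show -r ≤ 0
    linarith [hr.1]
  · simpa using hz.1
  · simpa using hz.2

theorem W2_continuousOn {θ : ℝ} (hθ : 0 < θ) (hθ1 : θ < 1) {Ω : Set (ST d)} {g : ST d → ℝ}
    (hΩ : IsOpen Ω) (hg : ContinuousOn g Ω) (hQ : Q1 d ⊆ Ω) (h0 : ∀ p ∈ Q1 d, 0 ≤ g p) :
    ContinuousOn (fun p : ℝ × ZZ d => W2 g p.1 p.2) (Icc 0 θ ×ˢ univ) := by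
  intro p hp
  have hr : p.1 ∈ Icc 0 θ := hp.1
  by_cases hz : ‖p.2.1‖ < 1 ∧ ‖p.2.2‖ < 1
  · have hopen : IsOpen {q : ℝ × ZZ d | ‖q.2.1‖ < 1 ∧ ‖q.2.2‖ < 1} := by
      have h1 : IsOpen {q : ℝ × ZZ d | ‖q.2.1‖ < 1} := isOpen_lt (by fun_prop) continuous_const
      have h2 : IsOpen {q : ℝ × ZZ d | ‖q.2.2‖ < 1} := isOpen_lt (by fun_prop) continuous_const
      exact h1.inter h2
    have hev : (fun q : ℝ × ZZ d => W2 g q.1 q.2) =ᶠ[nhdsWithin p (Icc 0 θ ×ˢ univ)]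
        (fun q : ℝ × ZZ d =>
          min (3 / 2 * g (-q.1, q.2.1, q.2.2) + (4 * ‖q.2.1‖ ^ 2 + 4 * ‖q.2.2‖ ^ 2)) 2) := by
      filter_upwards [mem_nhdsWithin_of_mem_nhds (hopen.mem_nhds hz)] with q hq
      simp only [W2]
      rw [if_pos hq]
    have hgc : ContinuousAt (fun q : ℝ × ZZ d => g (-q.1, q.2.1, q.2.2)) p := by
      have h1 : ContinuousAt g ((-p.1, p.2.1, p.2.2) : ST d) :=
        hg.continuousAt (hΩ.mem_nhds (hQ (mem_Q1 hθ1 hr hz)))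
      have h2 : ContinuousAt (fun q : ℝ × ZZ d => ((-q.1, q.2.1, q.2.2) : ST d)) p := by
        fun_prop
      exact ContinuousAt.comp (f := fun q : ℝ × ZZ d => ((-q.1, q.2.1, q.2.2) : ST d)) h1 h2
    have hF : ContinuousAt (fun q : ℝ × ZZ d =>
          min (3 / 2 * g (-q.1, q.2.1, q.2.2) + (4 * ‖q.2.1‖ ^ 2 + 4 * ‖q.2.2‖ ^ 2)) 2) p := by
      refine Filter.Tendsto.min ?_ tendsto_const_nhds
      exact (continuousAt_const.mul hgc).add (by fun_prop)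
    exact (hF.continuousWithinAt).congr_of_eventuallyEq hev (by simp only [W2]; rw [if_pos hz])
  · have hbig : 2 < 4 * ‖p.2.1‖ ^ 2 + 4 * ‖p.2.2‖ ^ 2 := by
      rw [not_and_or, not_lt, not_lt] at hz
      rcases hz with hz | hz
      · nlinarith [sq_nonneg ‖p.2.2‖]
      · nlinarith [sq_nonneg ‖p.2.1‖]
    have hopen : IsOpen {q : ℝ × ZZ d | 2 < 4 * ‖q.2.1‖ ^ 2 + 4 * ‖q.2.2‖ ^ 2} :=
      isOpen_lt continuous_const (by fun_prop)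
    have hval : ∀ q ∈ (Icc 0 θ ×ˢ univ : Set (ℝ × ZZ d)),
        2 < 4 * ‖q.2.1‖ ^ 2 + 4 * ‖q.2.2‖ ^ 2 → W2 g q.1 q.2 = 2 := by
      intro q hq h2
      simp only [W2]
      split_ifs with hc
      · have := h0 _ (mem_Q1 hθ1 hq.1 hc)
        apply min_eq_right
        linarith
      · rfl
    have hev : (fun q : ℝ × ZZ d => W2 g q.1 q.2) =ᶠ[nhdsWithin p (Icc 0 θ ×ˢ univ)]
        (fun _ : ℝ × ZZ d => (2 : ℝ)) := by
      filter_upwards [mem_nhdsWithin_of_mem_nhds (hopen.mem_nhds hbig), self_mem_nhdsWithin]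
        with q hq1 hq2
      exact hval q hq2 hq1
    exact continuousWithinAt_const.congr_of_eventuallyEq hev (hval p hp hbig)

end Pool.Agent.Lib.MP_eee7b5_an
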