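import Pool.Agent.Lib.MP_eee7b5_an.Occ
import Pool.Agent.Lib.MP_eee7b5_an.Sol
import Pool.Agent.Lib.MP_eee7b5_an.GrowthA

set_option autoImplicit false

/-!
The growth lemma (critical density).
-/

namespace Pool.Agent.Lib.MP_eee7b5_an

open MeasureTheory Set Matrix
open scoped ENNReal

variable {d : ℕ}

private theorem gb_chi_nonneg (g : ST d → ℝ) (r : ℝ) (z : ZZ d) : 0 ≤ chi g r z :=
  le_max_left _ _

private theorem gb_chi_le_one (g : ST d → ℝ) (r : ℝ) (z : ZZ d) : chi g r z ≤ 1 :=
  max_le zero_le_one (min_le_left _ _)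

private theorem gb_chi_pos {g : ST d → ℝ} {r : ℝ} {z : ZZ d} (h : 0 < chi g r z) :
    ‖z.1‖ < 1 ∧ ‖z.2‖ < 1 ∧ g (-r, z.1, z.2) < 1 := by
  have h1 : W2 g r z < 3 / 2 := by
    by_contra hcon
    have h2 : 3 - 2 * W2 g r z ≤ 0 := by linarith
    have h3 : chi g r z ≤ 0 := max_le le_rfl ((min_le_right _ _).trans h2)
    linarith
  unfold W2 at h1
  split_ifs at h1 with h2
  · refine ⟨h2.1, h2.2, ?_⟩
    rcases min_lt_iff.mp h1 with h3 | h3
    · have h4 : 0 ≤ 4 * ‖z.1‖ ^ 2 + 4 * ‖z.2‖ ^ 2 := by positivity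
      linarith
    · norm_num at h3
  · norm_num at h1

theorem chi_integral {θ : ℝ} (hθ : 0 < θ) (hθ1 : θ < 1) {Ω : Set (ST d)} {g : ST d → ℝ}
    (hΩ : IsOpen Ω) (hg : ContinuousOn g Ω) (hQ : Q1 d ⊆ Ω) (h0 : ∀ p ∈ Q1 d, 0 ≤ g p)
    {ε0 : ℝ} (hε0 : 0 ≤ ε0) (hvol : volume (Q1 d ∩ {p | g p < 1}) ≤ ENNReal.ofReal ε0) :
    ∫ r in (0 : ℝ)..θ, ∫ z : ZZ d, chi g r z ≤ ε0 := by
  set A : Set (ST d) := Q1 d ∩ {p | g p < 1} with hA
  have hQm : MeasurableSet (Q1 d) := by
    unfold Q1
    exact measurableSet_Ioc.prod (measurableSet_ball.prod measurableSet_ball)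
  have hAm : MeasurableSet A := by
    have h1 : A = Q1 d ∩ (Ω ∩ g ⁻¹' Iio 1) := by
      ext p
      constructor
      · rintro ⟨h2, h3⟩
        exact ⟨h2, hQ h2, h3⟩
      · rintro ⟨h2, _, h3⟩
        exact ⟨h2, h3⟩
    rw [h1]
    exact hQm.inter (hg.isOpen_inter_preimage hΩ isOpen_Iio).measurableSet
  -- the sections
  set m : ℝ → ℝ≥0∞ := fun t => volume (Prod.mk t ⁻¹' A : Set (ZZ d)) with hm
  have hmm : Measurable m := measurable_measure_prodMk_left hAm
  have hfin : ∀ t, m t < ∞ := by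
    intro t
    have h1 : (Prod.mk t ⁻¹' A : Set (ZZ d)) ⊆ Metric.ball 0 1 ×ˢ Metric.ball 0 1 := by
      intro z hz
      exact hz.1.2
    refine lt_of_le_of_lt (measure_mono h1) ?_
    rw [Measure.volume_eq_prod, Measure.prod_prod]
    exact ENNReal.mul_lt_top measure_ball_lt_top measure_ball_lt_top
  have hM : ∀ t, m t ≤ volume (Metric.ball (0 : E d) 1 ×ˢ Metric.ball (0 : E d) 1) := by
    intro t
    apply measure_mono
    intro z hz
    exact hz.1.2
  have hMfin : volume (Metric.ball (0 : E d) 1 ×ˢ Metric.ball (0 : E d) 1) < ∞ := by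
    rw [Measure.volume_eq_prod, Measure.prod_prod]
    exact ENNReal.mul_lt_top measure_ball_lt_top measure_ball_lt_top
  -- inner integral
  have hin : ∀ r ∈ Ioc (0:ℝ) θ, ∫ z : ZZ d, chi g r z ≤ (m (-r)).toReal := by
    intro r hr
    have hsec : MeasurableSet (Prod.mk (-r) ⁻¹' A : Set (ZZ d)) := measurable_prodMk_left hAm
    have h1 : ∫ z : ZZ d, chi g r z ≤
        ∫ z : ZZ d, (Prod.mk (-r) ⁻¹' A : Set (ZZ d)).indicator (fun _ => (1:ℝ)) z := by
      apply integral_mono_of_nonneg
      · exact Filter.Eventually.of_forall fun z => gb_chi_nonneg g r z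
      · rw [integrable_indicator_iff hsec]
        exact integrableOn_const (hfin (-r)).ne
      · refine Filter.Eventually.of_forall fun z => ?_
        show chi g r z ≤ (Prod.mk (-r) ⁻¹' A : Set (ZZ d)).indicator (fun _ => (1:ℝ)) z
        by_cases hz : z ∈ (Prod.mk (-r) ⁻¹' A : Set (ZZ d))
        · rw [indicator_of_mem hz]
          exact gb_chi_le_one g r z
        · rw [indicator_of_notMem hz]
          by_contra hcon
          apply hz
          obtain ⟨h2, h3, h4⟩ := gb_chi_pos (lt_of_not_ge hcon)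
          refine ⟨⟨⟨?_, ?_⟩, ?_, ?_⟩, h4⟩
          · show -1 < -r
            have := hr.2
            linarith
          · show -r ≤ 0
            have := hr.1
            linarith
          · rw [mem_ball_zero_iff]
            exact h2
          · rw [mem_ball_zero_iff]
            exact h3
    refine h1.trans (le_of_eq ?_)
    rw [integral_indicator hsec]
    simp
    rfl
  -- outer integral
  rw [intervalIntegral.integral_of_le hθ.le]
  have hmr : Measurable (fun r : ℝ => m (-r)) := hmm.comp measurable_neg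
  have h2 : ∫ r in Ioc (0:ℝ) θ, ∫ z : ZZ d, chi g r z ≤ ∫ r in Ioc (0:ℝ) θ, (m (-r)).toReal := by
    apply integral_mono_of_nonneg
    · exact Filter.Eventually.of_forall fun r => integral_nonneg fun z => gb_chi_nonneg g r z
    · apply Integrable.mono' (g := fun _ => (volume (Metric.ball (0 : E d) 1 ×ˢ
        Metric.ball (0 : E d) 1)).toReal)
      · exact integrableOn_const (by rw [Real.volume_Ioc]; exact ENNReal.ofReal_ne_top)
      · exact hmr.ennreal_toReal.aestronglyMeasurable
      · refine Filter.Eventually.of_forall fun r => ?_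
        rw [Real.norm_of_nonneg ENNReal.toReal_nonneg]
        exact ENNReal.toReal_mono hMfin.ne (hM _)
    · rw [Filter.EventuallyLE, ae_restrict_iff' measurableSet_Ioc]
      exact Filter.Eventually.of_forall hin
  refine h2.trans ?_
  rw [integral_toReal hmr.aemeasurable (Filter.Eventually.of_forall fun r => hfin (-r))]
  apply ENNReal.toReal_le_of_le_ofReal hε0
  calc ∫⁻ r in Ioc (0:ℝ) θ, m (-r) ≤ ∫⁻ r : ℝ, m (-r) := setLIntegral_le_lintegral _ _
    _ = ∫⁻ r : ℝ, m r := lintegral_neg_eq_self m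
    _ = volume A := by
        rw [Measure.volume_eq_prod, Measure.prod_apply hAm]
    _ ≤ ENNReal.ofReal ε0 := hvol

end Pool.Agent.Lib.MP_eee7b5_an
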