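import Pool.Agent.Lib.MP_eee7b5_an.Occ
import Pool.Agent.Lib.MP_eee7b5_an.Sol
import Pool.Agent.Lib.MP_eee7b5_an.GrowthA
import Pool.Agent.Lib.MP_eee7b5_an.GrowthB

set_option autoImplicit false

/-!
The growth lemma (critical density).
-/

namespace Pool.Agent.Lib.MP_eee7b5_an

open MeasureTheory Set Matrix
open scoped ENNReal

variable {d : ℕ}

theorem growthC_mono {h : ℝ} (B : Matrix (Fin d) (Fin d) ℝ) (f g : ZZ d → ℝ) (y : ZZ d)
    (H : ∀ j : Fin d,
      f (y.1 - h • y.2, y.2 + Real.sqrt (2 * h * d) • colB B j) ≤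
        g (y.1 - h • y.2, y.2 + Real.sqrt (2 * h * d) • colB B j) ∧
      f (y.1 - h • y.2, y.2 - Real.sqrt (2 * h * d) • colB B j) ≤
        g (y.1 - h • y.2, y.2 - Real.sqrt (2 * h * d) • colB B j)) :
    stepAvg h B f y ≤ stepAvg h B g y := by
  unfold stepAvg
  refine mul_le_mul_of_nonneg_left ?_ (by positivity)
  exact Finset.sum_le_sum fun j _ => add_le_add (H j).1 (H j).2

theorem growthC_add {h : ℝ} (B : Matrix (Fin d) (Fin d) ℝ) (f g : ZZ d → ℝ) (y : ZZ d) :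
    stepAvg h B (fun z => f z + g z) y = stepAvg h B f y + stepAvg h B g y := by
  unfold stepAvg
  rw [← mul_add, ← Finset.sum_add_distrib]
  congr 1
  refine Finset.sum_congr rfl fun j _ => ?_
  ring

theorem growthC_const {h : ℝ} (hd : 1 ≤ d) (B : Matrix (Fin d) (Fin d) ℝ) (c : ℝ) (y : ZZ d) :
    stepAvg h B (fun _ => c) y = c := by
  have hdr : (0 : ℝ) < d := by exact_mod_cast (by omega : 0 < d)
  unfold stepAvg
  rw [Finset.sum_const, Finset.card_univ, Fintype.card_fin, nsmul_eq_mul]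
  field_simp
  ring

theorem growthC_ell {lam Lam : ℝ} (hlam : 0 < lam) (hLam : lam ≤ Lam) :
    ∃ B : Matrix (Fin d) (Fin d) ℝ, EllB lam Lam B := by
  refine ⟨Real.sqrt lam • (1 : Matrix (Fin d) (Fin d) ℝ), ?_⟩
  intro ξ
  have h1 : (Real.sqrt lam • (1 : Matrix (Fin d) (Fin d) ℝ)) *
      (Real.sqrt lam • (1 : Matrix (Fin d) (Fin d) ℝ))ᵀ = lam • (1 : Matrix (Fin d) (Fin d) ℝ) := by
    rw [Matrix.transpose_smul, Matrix.transpose_one, Matrix.smul_mul, Matrix.mul_smul,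
      Matrix.mul_one, smul_smul, Real.mul_self_sqrt hlam.le]
  have h2 : (lam • (1 : Matrix (Fin d) (Fin d) ℝ)) *ᵥ ξ = lam • ξ := by
    rw [Matrix.smul_mulVec, Matrix.one_mulVec]
  rw [h1, h2, dotProduct_smul, smul_eq_mul]
  have h3 : 0 ≤ ξ ⬝ᵥ ξ := by
    unfold dotProduct
    exact Finset.sum_nonneg fun i _ => mul_self_nonneg _
  exact ⟨le_refl _, mul_le_mul_of_nonneg_right hLam h3⟩

/-- One step of the supermartingale: a suitable matrix exists at every point. -/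
theorem W1_step {lam Lam θ : ℝ} (hd : 1 ≤ d) (hlam : 0 < lam) (hLam : lam ≤ Lam)
    (hθ : 0 < θ) (hθ1 : θ < 1) {Ω : Set (ST d)} {g : ST d → ℝ} (hΩ : IsOpen Ω)
    (hg : IsSol lam Lam Ω g) (hQ : Q1 d ⊆ Ω) (h0 : ∀ p ∈ Q1 d, 0 ≤ g p) {ε : ℝ}
    (hε : 0 < ε) :
    ∃ h0 : ℝ, 0 < h0 ∧ ∀ h, 0 < h → h ≤ h0 → ∀ r, 0 ≤ r → r + h ≤ θ → ∀ y : ZZ d,
      ∃ B : Matrix (Fin d) (Fin d) ℝ, EllB lam Lam B ∧
        stepAvg h B (W1 g (r + h)) y ≤ W1 g r y + h * (3 + 8 * d * Lam + ε) := by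
  have hdr : (0 : ℝ) < d := by exact_mod_cast (by omega : 0 < d)
  have hLam0 : 0 < Lam := lt_of_lt_of_le hlam hLam
  set K : Set (ST d) := Icc (-θ) 0 ×ˢ Metric.closedBall (0 : E d) (1 / 2) ×ˢ
    Metric.closedBall (0 : E d) (1 / 2) with hKdef
  have hK : IsCompact K :=
    isCompact_Icc.prod ((isCompact_closedBall _ _).prod (isCompact_closedBall _ _))
  have hKQ : K ⊆ Q1 d := by
    intro p hp
    obtain ⟨h1, h2, h3⟩ := hp
    refine ⟨⟨by linarith [h1.1], h1.2⟩, ?_, ?_⟩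
    · exact Metric.closedBall_subset_ball (by norm_num) h2
    · exact Metric.closedBall_subset_ball (by norm_num) h3
  obtain ⟨h1, hh1, hstep⟩ := (hg.const_mul (3 / 2)).one_step hd hlam hΩ hK (hKQ.trans hQ) hε
  set Q : ℝ := 8 * d * (d * Lam) + 1 with hQdef
  have hQ0 : 0 < Q := by positivity
  refine ⟨min h1 (min (1 / 2) (1 / Q)), lt_min hh1 (lt_min (by norm_num) (by positivity)), ?_⟩
  intro h hh hh0 r hr hrθ y
  have hle1 : h ≤ h1 := hh0.trans (min_le_left _ _)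
  have hle2 : h ≤ 1 / 2 := hh0.trans ((min_le_right _ _).trans (min_le_left _ _))
  have hle3 : h * Q ≤ 1 := by
    have := hh0.trans ((min_le_right _ _).trans (min_le_right _ _))
    rwa [le_div_iff₀ hQ0] at this
  have hW1le : ∀ s z, W1 g s z ≤ 1 := fun s z => min_le_right _ _
  by_cases hy : W1 g r y = 1
  · obtain ⟨B, hB⟩ := growthC_ell (d := d) hlam hLam
    refine ⟨B, hB, ?_⟩
    have h2 : stepAvg h B (W1 g (r + h)) y ≤ stepAvg h B (fun _ => (1 : ℝ)) y :=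
      growthC_mono B _ _ y fun j => ⟨hW1le _ _, hW1le _ _⟩
    rw [growthC_const hd] at h2
    rw [hy]
    have : 0 ≤ h * (3 + 8 * d * Lam + ε) := by positivity
    linarith
  · have hW2 : W2 g r y < 1 := by
      by_contra hcon
      push Not at hcon
      exact hy (min_eq_right hcon)
    have hW1eq : W1 g r y = W2 g r y := min_eq_left hW2.le
    have hin : ‖y.1‖ < 1 ∧ ‖y.2‖ < 1 := by
      by_contra hcon
      unfold W2 at hW2
      rw [if_neg hcon] at hW2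
      norm_num at hW2
    have hW2eq : W2 g r y = 3 / 2 * g (-r, y.1, y.2) + (4 * ‖y.1‖ ^ 2 + 4 * ‖y.2‖ ^ 2) := by
      unfold W2 at hW2 ⊢
      rw [if_pos hin] at hW2 ⊢
      rcases min_choice (3 / 2 * g (-r, y.1, y.2) + (4 * ‖y.1‖ ^ 2 + 4 * ‖y.2‖ ^ 2)) 2 with h5 | h5
      · exact h5
      · rw [h5] at hW2
        norm_num at hW2
    have hQ1 : ((-r, y.1, y.2) : ST d) ∈ Q1 d := by
      refine ⟨⟨by simp only; linarith, by simp only; linarith⟩, ?_, ?_⟩
      · simpa using hin.1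
      · simpa using hin.2
    have hg0 := h0 _ hQ1
    have hq : 4 * ‖y.1‖ ^ 2 + 4 * ‖y.2‖ ^ 2 < 1 := by
      rw [hW2eq] at hW2
      linarith
    have hx : ‖y.1‖ ≤ 1 / 2 := by
      have := norm_nonneg y.1
      nlinarith [sq_nonneg ‖y.2‖]
    have hv : ‖y.2‖ ≤ 1 / 2 := by
      have := norm_nonneg y.2
      nlinarith [sq_nonneg ‖y.1‖]
    have hpK : ((-r, y.1, y.2) : ST d) ∈ K := by
      refine ⟨⟨by simp only; linarith, by simp only; linarith⟩, ?_, ?_⟩
      · simpa using hx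
      · simpa using hv
    obtain ⟨B, hB, hBstep⟩ := hstep h hh hle1 _ hpK
    refine ⟨B, hB, ?_⟩
    have hcl := fun j σ hσ => step_close hh.le hB y (by linarith : ‖y.2‖ ≤ 1) j σ hσ
    have hsq : Real.sqrt (2 * h * d * (d * Lam)) < 1 / 2 := by
      rw [Real.sqrt_lt' (by norm_num)]
      have h6 : h * (8 * d * (d * Lam)) + h ≤ 1 := by
        have : h * Q = h * (8 * d * (d * Lam)) + h := by rw [hQdef]; ring
        linarith
      nlinarith
    have hx1 : ‖y.1 - h • y.2‖ < 1 := by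
      have h7 : ‖y.1 - h • y.2‖ ≤ ‖y.1‖ + h * ‖y.2‖ := by
        refine (norm_sub_le _ _).trans ?_
        rw [norm_smul, Real.norm_eq_abs, abs_of_pos hh]
      have h8 := norm_nonneg y.2
      nlinarith
    have hv1 : ∀ j (σ : ℝ), |σ| ≤ 1 →
        ‖y.2 + σ • (Real.sqrt (2 * h * d) • colB B j)‖ < 1 := by
      intro j σ hσ
      have h7 := (hcl j σ hσ).2
      have h8 : ‖y.2 + σ • (Real.sqrt (2 * h * d) • colB B j)‖
          ≤ ‖y.2‖ + ‖y.2 + σ • (Real.sqrt (2 * h * d) • colB B j) - y.2‖ := by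
        have := norm_add_le y.2 (y.2 + σ • (Real.sqrt (2 * h * d) • colB B j) - y.2)
        rwa [add_sub_cancel] at this
      linarith
    have hW1' : ∀ z : ZZ d, ‖z.1‖ < 1 → ‖z.2‖ < 1 → W1 g (r + h) z ≤
        3 / 2 * g (-r - h, z.1, z.2) + (4 * ‖z.1‖ ^ 2 + 4 * ‖z.2‖ ^ 2) := by
      intro z hz1 hz2
      refine (min_le_left _ _).trans ?_
      unfold W2
      rw [if_pos ⟨hz1, hz2⟩]
      have : -(r + h) = -r - h := by ring
      rw [this]
      exact min_le_left _ _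
    have h9 : stepAvg h B (W1 g (r + h)) y ≤ stepAvg h B (fun z =>
        3 / 2 * g (-r - h, z.1, z.2) + (4 * ‖z.1‖ ^ 2 + 4 * ‖z.2‖ ^ 2)) y := by
      refine growthC_mono B _ _ y fun j => ⟨?_, ?_⟩
      · refine hW1' _ hx1 ?_
        have := hv1 j 1 (by norm_num)
        rwa [one_smul] at this
      · refine hW1' _ hx1 ?_
        have := hv1 j (-1) (by norm_num)
        rwa [neg_one_smul, ← sub_eq_add_neg] at this
    rw [growthC_add] at h9
    have h10 := step_quad hd hh.le hB y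
    simp only at hBstep
    have h11 : 8 * ‖y.1‖ * ‖y.2‖ + 4 * h * ‖y.2‖ ^ 2 ≤ 3 := by
      have h12 := norm_nonneg y.1
      have h13 := norm_nonneg y.2
      have h14 : ‖y.1‖ * ‖y.2‖ ≤ 1 / 2 * (1 / 2) := mul_le_mul hx hv h13 (by norm_num)
      have h15 : ‖y.2‖ ^ 2 ≤ (1 / 2) ^ 2 := pow_le_pow_left₀ h13 hv 2
      nlinarith
    rw [hW1eq, hW2eq]
    nlinarith

end Pool.Agent.Lib.MP_eee7b5_an
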