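import Pool.Agent.Lib.MP_eee7b5_an.Occ
import Pool.Agent.Lib.MP_eee7b5_an.Sol
import Pool.Agent.Lib.MP_eee7b5_an.GrowthA
import Pool.Agent.Lib.MP_eee7b5_an.GrowthB
import Pool.Agent.Lib.MP_eee7b5_an.GrowthC

set_option autoImplicit false

/-!
The growth lemma (critical density).
-/

namespace Pool.Agent.Lib.MP_eee7b5_an

open MeasureTheory Set Matrix
open scoped ENNReal

variable {d : ℕ}

theorem gd_chi_nonneg (g : ST d → ℝ) (r : ℝ) (z : ZZ d) : 0 ≤ chi g r z := le_max_left _ _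

theorem gd_chi_le_one (g : ST d → ℝ) (r : ℝ) (z : ZZ d) : chi g r z ≤ 1 :=
  max_le zero_le_one (min_le_left _ _)

theorem gd_chi_zero (g : ST d → ℝ) (r : ℝ) (z : ZZ d) (hz : 1 ≤ ‖z‖) : chi g r z = 0 := by
  have h : ¬ (‖z.1‖ < 1 ∧ ‖z.2‖ < 1) := by
    intro h
    have : ‖z‖ < 1 := by
      rw [Prod.norm_def]
      exact max_lt h.1 h.2
    linarith
  unfold chi W2
  rw [if_neg h]
  norm_num

/-- `1 - χ ≤ W1` for a nonnegative `g`. -/
theorem gd_one_sub_chi_le {g : ST d → ℝ} (h0 : ∀ p ∈ Q1 d, 0 ≤ g p) {r : ℝ} (hr0 : 0 ≤ r)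
    (hr1 : r < 1) (z : ZZ d) : 1 - chi g r z ≤ W1 g r z := by
  have hW : 0 ≤ W2 g r z := by
    unfold W2
    split_ifs with h
    · refine le_min ?_ (by norm_num)
      have : 0 ≤ g (-r, z.1, z.2) := by
        refine h0 _ ?_
        simp only [Q1, mem_prod, mem_Ioc, Metric.mem_ball, dist_zero_right]
        exact ⟨⟨by linarith, by linarith⟩, h.1, h.2⟩
      positivity
    · norm_num
  unfold W1 chi
  rcases le_total 1 (W2 g r z) with h | h
  · rw [min_eq_right h]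
    have := le_max_left (0 : ℝ) (min 1 (3 - 2 * W2 g r z))
    linarith
  · rw [min_eq_left h, min_eq_left (by linarith : (1 : ℝ) ≤ 3 - 2 * W2 g r z)]
    rw [max_eq_right zero_le_one]
    linarith

theorem gd_EllB_sqrt {lam Lam : ℝ} (hlam : 0 < lam) (hLam : lam ≤ Lam) :
    EllB lam Lam (Real.sqrt lam • (1 : Matrix (Fin d) (Fin d) ℝ)) := by
  intro ξ
  have h : (Real.sqrt lam • (1 : Matrix (Fin d) (Fin d) ℝ)) *
      (Real.sqrt lam • (1 : Matrix (Fin d) (Fin d) ℝ))ᵀ = lam • 1 := by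
    rw [transpose_smul, transpose_one, smul_mul_smul_comm, Real.mul_self_sqrt hlam.le, one_mul]
  rw [h, smul_mulVec, one_mulVec, dotProduct_smul, smul_eq_mul]
  have h2 : 0 ≤ ξ ⬝ᵥ ξ := by
    simp only [dotProduct]
    exact Finset.sum_nonneg fun i _ => mul_self_nonneg _
  exact ⟨le_rfl, mul_le_mul_of_nonneg_right hLam h2⟩

/-- **Growth lemma**: a nonnegative solution which is `≥ 1` outside a set of small measure of the
unit past cylinder is `≥ 1/3` at the centre of its top. -/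
theorem growth {lam Lam : ℝ} (hd : 1 ≤ d) (hlam : 0 < lam) (hLam : lam ≤ Lam) :
    ∃ ε0 : ℝ, 0 < ε0 ∧ ∀ (Ω : Set (ST d)) (g : ST d → ℝ), IsOpen Ω → IsSol lam Lam Ω g →
      Q1 d ⊆ Ω → (∀ p ∈ Q1 d, 0 ≤ g p) →
      volume (Q1 d ∩ {p | g p < 1}) ≤ ENNReal.ofReal ε0 → 1 / 3 ≤ g 0 := by
  have hLam0 : 0 < Lam := hlam.trans_le hLam
  set D : ℝ := 4 + 8 * d * Lam with hD
  have hDpos : 0 < D := by positivity
  obtain ⟨θ, hθ, hθ2, hθ3⟩ : ∃ θ : ℝ, 0 < θ ∧ θ ≤ 1 / 2 ∧ θ * D ≤ 1 / 8 := by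
    refine ⟨min (1 / 2) (1 / (8 * D)), by positivity, min_le_left _ _, ?_⟩
    calc min (1 / 2) (1 / (8 * D)) * D ≤ (1 / (8 * D)) * D :=
          mul_le_mul_of_nonneg_right (min_le_right _ _) hDpos.le
      _ = 1 / 8 := by field_simp
  have hθ1 : θ < 1 := by linarith
  obtain ⟨ε0, hε0, hocc⟩ := occupation (d := d) (lam := lam) (Lam := Lam) (θ := θ) (η := 1 / 8)
    hd hlam hLam hθ hθ1.le (by norm_num)
  refine ⟨ε0, hε0, fun Ω g hΩ hg hQ h0 hvol => ?_⟩
  have hcont : ContinuousOn g Ω := hg.continuousOn hΩ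
  have hW2 := W2_continuousOn hθ hθ1 hΩ hcont hQ h0
  obtain ⟨n0, hn0⟩ := hocc (chi g) (by
      unfold chi
      exact continuousOn_const.sup (continuousOn_const.inf
        (continuousOn_const.sub (continuousOn_const.mul hW2))))
    ⟨1, fun r _ z hz => gd_chi_zero g r z hz⟩ (fun r z => gd_chi_nonneg g r z)
    (fun r z => gd_chi_le_one g r z) (chi_integral hθ hθ1 hΩ hcont hQ h0 hε0.le hvol)
  obtain ⟨h1, hh1, hstep⟩ := W1_step hd hlam hLam hθ hθ1 hΩ hg hQ h0 (ε := 1) one_pos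
  -- the number of steps
  obtain ⟨n, hn1, hn2, hn3⟩ : ∃ n : ℕ, n0 ≤ n ∧ 0 < n ∧ θ / n ≤ h1 := by
    obtain ⟨m, hm⟩ := exists_nat_gt (θ / h1)
    refine ⟨max n0 (max m 1), le_max_left _ _, by positivity, ?_⟩
    have hm' : (m : ℝ) ≤ (max n0 (max m 1) : ℕ) := by
      exact_mod_cast (le_max_left m 1).trans (le_max_right _ _)
    have hpos : (0 : ℝ) < (max n0 (max m 1) : ℕ) := by
      have : 0 < max n0 (max m 1) := by positivity
      exact_mod_cast this
    rw [div_le_iff₀ hpos]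
    rw [div_lt_iff₀ hh1] at hm
    nlinarith
  have hnpos : (0 : ℝ) < n := by exact_mod_cast hn2
  set h : ℝ := θ / n with hhdef
  have hh : 0 < h := by positivity
  have hnh : n * h = θ := by rw [hhdef]; field_simp
  -- the matrices
  have hex : ∀ (k : ℕ) (y : ZZ d), ∃ B : Matrix (Fin d) (Fin d) ℝ, EllB lam Lam B ∧
      (k < n → stepAvg h B (W1 g (((k + 1 : ℕ) : ℝ) * h)) y ≤ W1 g ((k : ℝ) * h) y + h * D) := by
    intro k y
    by_cases hk : k < n
    · have hk' : ((k : ℝ) + 1) ≤ n := by exact_mod_cast hk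
      obtain ⟨B, hB, hB2⟩ := hstep h hh hn3 ((k : ℝ) * h) (by positivity) (by nlinarith) y
      refine ⟨B, hB, fun _ => ?_⟩
      have e1 : ((k + 1 : ℕ) : ℝ) * h = (k : ℝ) * h + h := by push_cast; ring
      rw [e1]
      refine hB2.trans (le_of_eq ?_)
      rw [hD]; ring
    · exact ⟨_, gd_EllB_sqrt hlam hLam, fun h => absurd h hk⟩
  choose B hB hBs using hex
  have hsup := EX_super (h := h) (η := h * D) hd B (fun k => W1 g ((k : ℝ) * h)) n
    (fun k hk y => hBs k y hk)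
  have hoc := hn0 n hn1 hn2 B hB
  -- lower bound for the average
  have hlow : ∀ k ∈ Finset.range n,
      1 - W1 g 0 0 - θ * D ≤ EX h B k (chi g ((k : ℝ) * h)) := by
    intro k hk
    have hk' := Finset.mem_range.mp hk
    have hk2 : (k : ℝ) + 1 ≤ n := by exact_mod_cast hk'
    have hk3 : (k : ℝ) * h ≤ θ := by nlinarith
    have h1 := hsup k hk'.le
    simp only [Nat.cast_zero, zero_mul] at h1
    have h2 : EX h B k (fun _ => (1 : ℝ)) ≤
        EX h B k (fun y => W1 g ((k : ℝ) * h) y + chi g ((k : ℝ) * h) y) := by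
      refine EX_mono hd h B k fun y => ?_
      have := gd_one_sub_chi_le h0 (r := (k : ℝ) * h) (by positivity) (by linarith) y
      linarith
    rw [EX_const hd, EX_add hd] at h2
    have h3 : (k : ℝ) * (h * D) ≤ θ * D := by
      rw [← mul_assoc]
      exact mul_le_mul_of_nonneg_right hk3 hDpos.le
    linarith
  have hsum : (n : ℝ) * (1 - W1 g 0 0 - θ * D) ≤
      ∑ k ∈ Finset.range n, EX h B k (chi g ((k : ℝ) * h)) := by
    have := Finset.card_nsmul_le_sum (Finset.range n) _ _ hlow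
    simpa [nsmul_eq_mul] using this
  have h4 : 1 - W1 g 0 0 - θ * D ≤ 1 / 8 := by
    refine le_trans ?_ hoc
    rw [one_div, ← div_eq_inv_mul, le_div_iff₀ hnpos]
    linarith
  have h5 : W1 g 0 0 ≤ 3 / 2 * g 0 := by
    unfold W1 W2
    rw [if_pos (by simp)]
    refine (min_le_left _ _).trans ((min_le_left _ _).trans (le_of_eq ?_))
    simp
    rfl
  linarith

end Pool.Agent.Lib.MP_eee7b5_an
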