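import Pool.Agent.Lib.MP_eee7b5_an.Occ
import Pool.Agent.Lib.MP_eee7b5_an.Sol
import Pool.Agent.Lib.MP_eee7b5_an.GrowthA
import Pool.Agent.Lib.MP_eee7b5_an.GrowthB
import Pool.Agent.Lib.MP_eee7b5_an.GrowthC
import Pool.Agent.Lib.MP_eee7b5_an.GrowthD
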