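import Pool.Agent.Lib.MP_eee7b5_an.Ink

set_option autoImplicit false

/-!
Oscillation decay, Hölder estimate, and the frozen statement.
-/

namespace Pool.Agent.Lib.MP_eee7b5_an

open MeasureTheory Set Matrix
open scoped ENNReal

variable {d : ℕ}

/-- Oscillation decay, unit scale. -/
theorem osc_unit {lam Lam : ℝ} (hd : 1 ≤ d) (hlam : 0 < lam) (hLam : lam ≤ Lam) :
    ∃ R θ : ℝ, 1 < R ∧ 0 < θ ∧ θ < 1 ∧ ∀ (Ω : Set (ST d)) (f : ST d → ℝ) (m M : ℝ), IsOpen Ω →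
      IsSol lam Lam Ω f → Qp 0 R ⊆ Ω → (∀ p ∈ Qp (0 : ST d) R, m ≤ f p ∧ f p ≤ M) →
      ∃ m' M' : ℝ, m ≤ m' ∧ M' ≤ M ∧ M' - m' ≤ θ * (M - m) ∧
        ∀ p ∈ Qp (0 : ST d) 1, m' ≤ f p ∧ f p ≤ M' := by
  obtain ⟨R0, c0, hR0, hc0, hm⟩ := m2p (d := d) hd hlam hLam
  set c : ℝ := min c0 1 with hc
  have hcpos : 0 < c := lt_min hc0 one_pos
  have hc1 : c ≤ 1 := min_le_right _ _
  have hcc0 : c ≤ c0 := min_le_left _ _
  have hR3 : R0 ^ 3 < (R0 + 2) ^ 3 := by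
    have h0 : (0 : ℝ) ≤ R0 := by linarith
    exact pow_lt_pow_left₀ (by linarith) h0 (by norm_num)
  refine ⟨R0 + 2, 1 - c / 4, by linarith, by linarith, by linarith, ?_⟩
  intro Ω f m M hΩ hf hQ hb
  have hz0 : (0 : ST d) ∈ Qp (0 : ST d) (R0 + 2) := by
    refine ⟨?_, ?_, ?_, ?_⟩
    · simp only [Prod.fst_zero, sub_self]
      have : (0 : ℝ) < (R0 + 2) ^ 2 := by positivity
      linarith
    · simp
    · simp only [Prod.fst_zero, Prod.snd_zero, sub_self, zero_smul, norm_zero]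
      positivity
    · simp only [Prod.snd_zero, sub_self, norm_zero]
      linarith
  have hmM : m ≤ M := (hb 0 hz0).1.trans (hb 0 hz0).2
  have hsub1 : Qp (0 : ST d) 1 ⊆ Qp (0 : ST d) (R0 + 2) := by
    rintro p ⟨h1, h2, h3, h4⟩
    refine ⟨?_, h2, ?_, ?_⟩
    · have : (1 : ℝ) ^ 2 ≤ (R0 + 2) ^ 2 := by
        apply pow_le_pow_left₀ (by norm_num); linarith
      linarith
    · have : (1 : ℝ) ^ 3 ≤ (R0 + 2) ^ 3 := by
        apply pow_le_pow_left₀ (by norm_num); linarith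
      linarith
    · linarith
  rcases hmM.eq_or_lt with hEq | hlt
  · refine ⟨m, M, le_refl _, le_refl _, ?_, fun p hp => hb p (hsub1 hp)⟩
    rw [hEq]; simp
  -- the shifted function
  set z0 : ST d := ((-3 : ℝ), (0 : E d), (0 : E d)) with hz0def
  have hkin : ∀ p : ST d, kin z0 1 p = (p.1 - 3, p.2.1, p.2.2) := by
    intro p
    simp only [kin, hz0def]
    refine Prod.ext ?_ (Prod.ext ?_ ?_)
    · simp; ring
    · simp
    · simp
  have hD : 0 < M - m := by linarith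
  have hsol := IsSol.kin hΩ hf z0 one_pos
  have hopen : IsOpen (kin z0 1 ⁻¹' Ω) := hΩ.preimage (kin_continuous z0 1)
  have hregQ : ∀ p ∈ RegAt (0 : ST d) 1 3 R0, kin z0 1 p ∈ Qp (0 : ST d) (R0 + 2) := by
    rintro p ⟨h1, h2, h3, h4⟩
    simp only [Prod.fst_zero, Prod.snd_zero, sub_zero, smul_zero, one_pow, mul_one] at h1 h2 h3 h4
    rw [hkin]
    refine ⟨?_, ?_, ?_, ?_⟩
    · simp only [Prod.fst_zero, sub_zero]
      nlinarith
    · simp only [Prod.fst_zero, sub_zero]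
      linarith
    · simp only [Prod.fst_zero, Prod.snd_zero, sub_zero, smul_zero]
      linarith
    · simp only [Prod.snd_zero, sub_zero]
      linarith
  have hregΩ : RegAt (0 : ST d) 1 3 R0 ⊆ kin z0 1 ⁻¹' Ω := fun p hp => hQ (hregQ p hp)
  -- the two competitors
  have hg1 : IsSol lam Lam (kin z0 1 ⁻¹' Ω)
      (fun p => 4 / (M - m) * f (kin z0 1 p) + (-(4 * m / (M - m)))) :=
    (hsol.const_mul (4 / (M - m))).add_const (-(4 * m / (M - m)))
  have hg2 : IsSol lam Lam (kin z0 1 ⁻¹' Ω)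
      (fun p => -(4 / (M - m)) * f (kin z0 1 p) + 4 * M / (M - m)) :=
    (hsol.const_mul (-(4 / (M - m)))).add_const (4 * M / (M - m))
  set g1 : ST d → ℝ := fun p => 4 / (M - m) * f (kin z0 1 p) + (-(4 * m / (M - m))) with hg1def
  set g2 : ST d → ℝ := fun p => -(4 / (M - m)) * f (kin z0 1 p) + 4 * M / (M - m) with hg2def
  have e1 : ∀ p, g1 p = 4 * (f (kin z0 1 p) - m) / (M - m) := by
    intro p; simp only [hg1def]; field_simp; ring
  have e2 : ∀ p, g2 p = 4 * (M - f (kin z0 1 p)) / (M - m) := by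
    intro p; simp only [hg2def]; field_simp; ring
  have hsum : ∀ p, g1 p + g2 p = 4 := by
    intro p; rw [e1, e2]; field_simp; ring
  have hpos1 : ∀ p ∈ RegAt (0 : ST d) 1 3 R0, 0 ≤ g1 p := by
    intro p hp
    rw [e1]
    have := (hb _ (hregQ p hp)).1
    apply div_nonneg _ hD.le
    linarith
  have hpos2 : ∀ p ∈ RegAt (0 : ST d) 1 3 R0, 0 ≤ g2 p := by
    intro p hp
    rw [e2]
    have := (hb _ (hregQ p hp)).2
    apply div_nonneg _ hD.le
    linarith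
  have hcov : volume (Qf (0 : ST d) 1) ≤ volume (Qf (0 : ST d) 1 ∩ {p | 1 < g1 p})
      + volume (Qf (0 : ST d) 1 ∩ {p | 1 < g2 p}) := by
    refine le_trans (measure_mono ?_) (measure_union_le _ _)
    intro p hp
    by_cases h : 1 < g1 p
    · exact Or.inl ⟨hp, h⟩
    · refine Or.inr ⟨hp, ?_⟩
      have := hsum p
      show 1 < g2 p
      linarith
  have hshift : ∀ p ∈ Qp (0 : ST d) 1, 2 ≤ ((p.1 + 3, p.2.1, p.2.2) : ST d).1 ∧
      ((p.1 + 3, p.2.1, p.2.2) : ST d).1 ≤ 3 ∧ ‖((p.1 + 3, p.2.1, p.2.2) : ST d).2.1‖ ≤ 1 ∧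
      ‖((p.1 + 3, p.2.1, p.2.2) : ST d).2.2‖ ≤ 1 ∧
      kin z0 1 ((p.1 + 3, p.2.1, p.2.2) : ST d) = p := by
    rintro p ⟨h1, h2, h3, h4⟩
    simp only [Prod.fst_zero, Prod.snd_zero, sub_zero, smul_zero, one_pow] at h1 h2 h3 h4
    refine ⟨?_, ?_, ?_, ?_, ?_⟩
    · show 2 ≤ p.1 + 3
      linarith
    · show p.1 + 3 ≤ 3
      linarith
    · exact h3.le
    · exact h4.le
    · rw [hkin]
      simp
  by_cases hcase : volume (Qf (0 : ST d) 1) ≤ 2 * volume (Qf (0 : ST d) 1 ∩ {p | 1 < g1 p})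
  · refine ⟨m + c / 4 * (M - m), M, ?_, le_refl _, ?_, ?_⟩
    · have : 0 ≤ c / 4 * (M - m) := by positivity
      linarith
    · linarith
    · intro p hp
      refine ⟨?_, (hb p (hsub1 hp)).2⟩
      obtain ⟨a1, a2, a3, a4, a5⟩ := hshift p hp
      have h := hm (kin z0 1 ⁻¹' Ω) g1 hopen hg1 hregΩ hpos1 hcase _ a1 a2 a3 a4
      rw [e1, a5, le_div_iff₀ hD] at h
      have : c * (M - m) ≤ c0 * (M - m) := mul_le_mul_of_nonneg_right hcc0 hD.le
      linarith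
  · have hcase2 : volume (Qf (0 : ST d) 1) ≤ 2 * volume (Qf (0 : ST d) 1 ∩ {p | 1 < g2 p}) := by
      by_contra hno
      rw [not_le] at hcase hno
      have h1 := ENNReal.add_lt_add hcase hno
      have h2 : 2 * volume (Qf (0 : ST d) 1) ≤ 2 * (volume (Qf (0 : ST d) 1 ∩ {p | 1 < g1 p})
          + volume (Qf (0 : ST d) 1 ∩ {p | 1 < g2 p})) := by gcongr
      rw [mul_add] at h2
      rw [← two_mul] at h1
      exact absurd (lt_of_le_of_lt h2 h1) (lt_irrefl _)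
    refine ⟨m, M - c / 4 * (M - m), le_refl _, ?_, ?_, ?_⟩
    · have : 0 ≤ c / 4 * (M - m) := by positivity
      linarith
    · linarith
    · intro p hp
      refine ⟨(hb p (hsub1 hp)).1, ?_⟩
      obtain ⟨a1, a2, a3, a4, a5⟩ := hshift p hp
      have h := hm (kin z0 1 ⁻¹' Ω) g2 hopen hg2 hregΩ hpos2 hcase2 _ a1 a2 a3 a4
      rw [e2, a5, le_div_iff₀ hD] at h
      have : c * (M - m) ≤ c0 * (M - m) := mul_le_mul_of_nonneg_right hcc0 hD.le
      linarith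

end Pool.Agent.Lib.MP_eee7b5_an
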