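import Pool.Agent.Lib.MP_eee7b5_an.Ink
import Pool.Agent.Lib.MP_eee7b5_an.HolA

set_option autoImplicit false

/-!
Oscillation decay, Hölder estimate, and the frozen statement.
-/

namespace Pool.Agent.Lib.MP_eee7b5_an

open MeasureTheory Set Matrix
open scoped ENNReal

variable {d : ℕ}

/-- Oscillation decay at every position and scale. -/
theorem osc_scale {lam Lam R θ : ℝ} (hR : 1 < R)
    (h : ∀ (Ω : Set (ST d)) (f : ST d → ℝ) (m M : ℝ), IsOpen Ω →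
      IsSol lam Lam Ω f → Qp 0 R ⊆ Ω → (∀ p ∈ Qp (0 : ST d) R, m ≤ f p ∧ f p ≤ M) →
      ∃ m' M' : ℝ, m ≤ m' ∧ M' ≤ M ∧ M' - m' ≤ θ * (M - m) ∧
        ∀ p ∈ Qp (0 : ST d) 1, m' ≤ f p ∧ f p ≤ M')
    (Ω : Set (ST d)) (f : ST d → ℝ) (m M : ℝ) (hΩ : IsOpen Ω) (hf : IsSol lam Lam Ω f)
    (z : ST d) (ρ : ℝ) (hρ : 0 < ρ) (hQ : Qp z (ρ * R) ⊆ Ω)
    (hb : ∀ p ∈ Qp z (ρ * R), m ≤ f p ∧ f p ≤ M) :
    ∃ m' M' : ℝ, m ≤ m' ∧ M' ≤ M ∧ M' - m' ≤ θ * (M - m) ∧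
      ∀ p ∈ Qp z ρ, m' ≤ f p ∧ f p ≤ M' := by
  have hR0 : 0 < R := by linarith
  have e1 := kin_preimage_Qp z hρ R hR0
  have e2 := kin_preimage_Qp z hρ 1 one_pos
  rw [mul_one] at e2
  obtain ⟨m', M', h1, h2, h3, h4⟩ := h (kin z ρ ⁻¹' Ω) (fun p => f (kin z ρ p)) m M
    (hΩ.preimage (kin_continuous z ρ)) (IsSol.kin hΩ hf z hρ)
    (by rw [← e1]; exact preimage_mono hQ)
    (by
      intro p hp
      rw [← e1] at hp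
      exact hb _ hp)
  refine ⟨m', M', h1, h2, h3, ?_⟩
  intro p hp
  obtain ⟨p', rfl⟩ := kin_surj z hρ p
  apply h4 p'
  rw [← e2]
  exact hp

end Pool.Agent.Lib.MP_eee7b5_an
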