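import Pool.Agent.Lib.MP_eee7b5_an.Ink
import Pool.Agent.Lib.MP_eee7b5_an.HolA
import Pool.Agent.Lib.MP_eee7b5_an.HolB

set_option autoImplicit false

/-!
Oscillation decay, Hölder estimate, and the frozen statement.
-/

namespace Pool.Agent.Lib.MP_eee7b5_an

open MeasureTheory Set Matrix
open scoped ENNReal

variable {d : ℕ}

theorem HolCAux.Qp_mono (z : ST d) {r r' : ℝ} (hr : 0 < r) (hrr : r ≤ r') :
    Qp z r ⊆ Qp z r' := by
  rintro p ⟨h1, h2, h3, h4⟩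
  have e2 : r ^ 2 ≤ r' ^ 2 := pow_le_pow_left₀ hr.le hrr 2
  have e3 : r ^ 3 ≤ r' ^ 3 := pow_le_pow_left₀ hr.le hrr 3
  exact ⟨by linarith, h2, by linarith, by linarith⟩

theorem HolCAux.self_mem_Qp (z : ST d) {r : ℝ} (hr : 0 < r) : z ∈ Qp z r := by
  refine ⟨?_, ?_, ?_, ?_⟩
  · simp only [sub_self]
    have := pow_pos hr 2
    linarith
  · simp
  · simp only [sub_self, zero_smul, norm_zero]
    positivity
  · simpa using hr

/-- Kinetic Hölder estimate at a point. -/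
theorem holder_point {lam Lam : ℝ} (hd : 1 ≤ d) (hlam : 0 < lam) (hLam : lam ≤ Lam) :
    ∃ α C : ℝ, 0 < α ∧ 0 < C ∧ ∀ (Ω : Set (ST d)) (f : ST d → ℝ) (M : ℝ), IsOpen Ω →
      IsSol lam Lam Ω f → ∀ (z : ST d) (ρ : ℝ), 0 < ρ → Qp z ρ ⊆ Ω →
      (∀ p ∈ Qp z ρ, |f p| ≤ M) →
      ∀ r : ℝ, 0 < r → r ≤ ρ → ∀ q ∈ Qp z r, |f q - f z| ≤ C * M * (r / ρ) ^ α := by
  obtain ⟨R, θ, hR, hθ, hθ1, hosc⟩ := osc_unit (d := d) hd hlam hLam
  have hR0 : 0 < R := by linarith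
  have hlogR : 0 < Real.log R := Real.log_pos hR
  have hlogθ : Real.log θ < 0 := Real.log_neg hθ hθ1
  refine ⟨-Real.log θ / Real.log R, 2 / θ, div_pos (by linarith) hlogR, by positivity, ?_⟩
  intro Ω f M hΩ hf z ρ hρ hQ hb r hr hrρ q hq
  have hM : 0 ≤ M := (abs_nonneg _).trans (hb z (HolCAux.self_mem_Qp z hρ))
  -- iteration
  have hit : ∀ n : ℕ, ∃ m' M' : ℝ, M' - m' ≤ θ ^ n * (2 * M) ∧
      ∀ p ∈ Qp z (ρ / R ^ n), m' ≤ f p ∧ f p ≤ M' := by
    intro n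
    induction n with
    | zero =>
      refine ⟨-M, M, by simp; linarith, ?_⟩
      intro p hp
      rw [pow_zero, div_one] at hp
      exact abs_le.1 (hb p hp)
    | succ n ih =>
      obtain ⟨m1, M1, h1, h2⟩ := ih
      have hRn : 0 < R ^ n := pow_pos hR0 n
      have e : ρ / R ^ (n + 1) * R = ρ / R ^ n := by
        rw [pow_succ]
        field_simp
      have hsub : Qp z (ρ / R ^ n) ⊆ Ω := by
        refine (HolCAux.Qp_mono z (div_pos hρ hRn) ?_).trans hQ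
        exact div_le_self hρ.le (one_le_pow₀ hR.le)
      obtain ⟨m2, M2, -, -, h5, h6⟩ := osc_scale hR hosc Ω f m1 M1 hΩ hf z (ρ / R ^ (n + 1))
        (div_pos hρ (pow_pos hR0 _)) (by rw [e]; exact hsub) (by rw [e]; exact h2)
      refine ⟨m2, M2, ?_, h6⟩
      calc M2 - m2 ≤ θ * (M1 - m1) := h5
        _ ≤ θ * (θ ^ n * (2 * M)) := mul_le_mul_of_nonneg_left h1 hθ.le
        _ = θ ^ (n + 1) * (2 * M) := by ring
  -- choice of `n`
  obtain ⟨n, hn1, hn2⟩ := exists_nat_pow_near (x := ρ / r) (y := R)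
    (by rw [le_div_iff₀ hr]; linarith) hR
  have hRn : 0 < R ^ n := pow_pos hR0 n
  have hRn1 : 0 < R ^ (n + 1) := pow_pos hR0 (n + 1)
  have hrn : r ≤ ρ / R ^ n := by
    rw [le_div_iff₀ hr] at hn1
    rw [le_div_iff₀ hRn]
    linarith
  obtain ⟨m', M', h1, h2⟩ := hit n
  have a1 := h2 q (HolCAux.Qp_mono z hr hrn hq)
  have a2 := h2 z (HolCAux.self_mem_Qp z (div_pos hρ hRn))
  have h3 : |f q - f z| ≤ θ ^ n * (2 * M) := by
    rw [abs_le]
    constructor <;> linarith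
  -- `θ^(n+1) ≤ (r/ρ)^α`
  have h4 : θ ^ (n + 1) ≤ (r / ρ) ^ (-Real.log θ / Real.log R) := by
    have e1 : (R ^ (n + 1))⁻¹ ≤ r / ρ := by
      rw [inv_le_comm₀ hRn1 (by positivity), inv_div]
      exact hn2.le
    have e2 : ((R ^ (n + 1))⁻¹ : ℝ) ^ (-Real.log θ / Real.log R) ≤
        (r / ρ) ^ (-Real.log θ / Real.log R) :=
      Real.rpow_le_rpow (by positivity) e1 (div_nonneg (by linarith) hlogR.le)
    refine le_trans (le_of_eq ?_) e2
    rw [Real.rpow_def_of_pos (by positivity), Real.log_inv, Real.log_pow]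
    have : -(((n + 1 : ℕ) : ℝ) * Real.log R) * (-Real.log θ / Real.log R) =
        ((n + 1 : ℕ) : ℝ) * Real.log θ := by
      field_simp
    rw [this, Real.exp_nat_mul, Real.exp_log hθ]
  calc |f q - f z| ≤ θ ^ n * (2 * M) := h3
    _ = 2 / θ * M * θ ^ (n + 1) := by
      rw [pow_succ]
      field_simp
    _ ≤ 2 / θ * M * (r / ρ) ^ (-Real.log θ / Real.log R) :=
      mul_le_mul_of_nonneg_left h4 (by positivity)

end Pool.Agent.Lib.MP_eee7b5_an
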