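import Pool.Agent.Lib.MP_eee7b5_an.Ink
import Pool.Agent.Lib.MP_eee7b5_an.HolA
import Pool.Agent.Lib.MP_eee7b5_an.HolB
import Pool.Agent.Lib.MP_eee7b5_an.HolC

set_option autoImplicit false

/-!
Oscillation decay, Hölder estimate, and the frozen statement.
-/

namespace Pool.Agent.Lib.MP_eee7b5_an

open MeasureTheory Set Matrix
open scoped ENNReal

variable {d : ℕ}

/-- Geometry: a Euclidean neighbour is in a small past cylinder. -/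
theorem mem_Qp_of_dist {p q : ST d} (hpq : q ≠ p) (ht : q.1 ≤ p.1) (hv : ‖p.2.2‖ ≤ 1 / 2)
    (hD : ‖p - q‖ ≤ 1) : q ∈ Qp p (2 * ‖p - q‖ ^ (1 / 3 : ℝ)) := by
  have hD0 : 0 < ‖p - q‖ := norm_pos_iff.2 (sub_ne_zero.2 hpq.symm)
  have hn1 : |q.1 - p.1| ≤ ‖p - q‖ := by
    rw [abs_sub_comm, ← Real.norm_eq_abs]
    exact norm_fst_le (p - q)
  have hn2 : ‖q.2.1 - p.2.1‖ ≤ ‖p - q‖ := by
    rw [norm_sub_rev]
    exact (norm_fst_le (p - q).2).trans (norm_snd_le (p - q))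
  have hn3 : ‖q.2.2 - p.2.2‖ ≤ ‖p - q‖ := by
    rw [norm_sub_rev]
    exact (norm_snd_le (p - q).2).trans (norm_snd_le (p - q))
  generalize ‖p - q‖ = D at *
  set s : ℝ := D ^ (1 / 3 : ℝ) with hs
  have hs0 : 0 < s := Real.rpow_pos_of_pos hD0 _
  have hs3 : s ^ 3 = D := by
    rw [hs, ← Real.rpow_natCast, ← Real.rpow_mul hD0.le]
    norm_num
  have hs1 : s ≤ 1 := Real.rpow_le_one hD0.le hD (by norm_num)
  have hD2 : D ≤ s ^ 2 := by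
    rw [← hs3]
    exact pow_le_pow_of_le_one hs0.le hs1 (by norm_num)
  have hD1 : D ≤ s := by
    rw [← hs3]
    calc s ^ 3 ≤ s ^ 1 := pow_le_pow_of_le_one hs0.le hs1 (by norm_num)
      _ = s := pow_one s
  have habs := abs_le.1 hn1
  refine ⟨?_, by linarith, ?_, ?_⟩
  · nlinarith [sq_nonneg s, hs0]
  · calc ‖q.2.1 - p.2.1 - (q.1 - p.1) • p.2.2‖ ≤ ‖q.2.1 - p.2.1‖ + ‖(q.1 - p.1) • p.2.2‖ :=
          norm_sub_le _ _
      _ ≤ D + D * (1 / 2) := by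
          rw [norm_smul, Real.norm_eq_abs]
          exact add_le_add hn2 (mul_le_mul hn1 hv (norm_nonneg _) hD0.le)
      _ < (2 * s) ^ 3 := by
          have : (2 * s) ^ 3 = 8 * D := by rw [mul_pow, hs3]; norm_num
          rw [this]
          linarith
  · linarith

theorem Qp_subset_unit {p : ST d} (h1 : p.1 ∈ Ioo (1 / 2 : ℝ) 1)
    (h2 : p.2.1 ∈ Metric.ball (0 : E d) (1 / 2)) (h3 : p.2.2 ∈ Metric.ball (0 : E d) (1 / 2)) :
    Qp p (1 / 4) ⊆ Ioo (0 : ℝ) 1 ×ˢ Metric.ball (0 : E d) 1 ×ˢ Metric.ball (0 : E d) 1 := by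
  rintro y ⟨hy1, hy2, hy3, hy4⟩
  rw [mem_ball_zero_iff] at h2 h3
  have ha : |y.1 - p.1| ≤ 1 / 16 := by
    rw [abs_le]
    constructor <;> linarith
  refine ⟨⟨by linarith [h1.1], by linarith [h1.2]⟩, ?_, ?_⟩
  · rw [mem_ball_zero_iff]
    have e : y.2.1 = (y.2.1 - p.2.1 - (y.1 - p.1) • p.2.2) + p.2.1 + (y.1 - p.1) • p.2.2 := by
      abel
    calc ‖y.2.1‖ = ‖(y.2.1 - p.2.1 - (y.1 - p.1) • p.2.2) + p.2.1 + (y.1 - p.1) • p.2.2‖ := by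
          rw [← e]
      _ ≤ ‖y.2.1 - p.2.1 - (y.1 - p.1) • p.2.2‖ + ‖p.2.1‖ + ‖(y.1 - p.1) • p.2.2‖ :=
          (norm_add_le _ _).trans (add_le_add (norm_add_le _ _) le_rfl)
      _ ≤ ‖y.2.1 - p.2.1 - (y.1 - p.1) • p.2.2‖ + ‖p.2.1‖ + 1 / 16 * (1 / 2) := by
          gcongr
          rw [norm_smul, Real.norm_eq_abs]
          exact mul_le_mul ha h3.le (norm_nonneg _) (by norm_num)
      _ < 1 := by linarith
  · rw [mem_ball_zero_iff]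
    have e : y.2.2 = (y.2.2 - p.2.2) + p.2.2 := by abel
    calc ‖y.2.2‖ = ‖(y.2.2 - p.2.2) + p.2.2‖ := by rw [← e]
      _ ≤ ‖y.2.2 - p.2.2‖ + ‖p.2.2‖ := norm_add_le _ _
      _ < 1 := by linarith

end Pool.Agent.Lib.MP_eee7b5_an
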