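import Pool.Agent.Lib.MP_eee7b5_an.Ink
import Pool.Agent.Lib.MP_eee7b5_an.HolA
import Pool.Agent.Lib.MP_eee7b5_an.HolB
import Pool.Agent.Lib.MP_eee7b5_an.HolC
import Pool.Agent.Lib.MP_eee7b5_an.HolD

set_option autoImplicit false

/-!
Oscillation decay, Hölder estimate, and the frozen statement.
-/

namespace Pool.Agent.Lib.MP_eee7b5_an

open MeasureTheory Set Matrix
open scoped ENNReal

variable {d : ℕ}

theorem holE_step {lam Lam α C : ℝ} (hα : 0 < α) (hC : 0 < C)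
    (H : ∀ (Ω : Set (ST d)) (f : ST d → ℝ) (M : ℝ), IsOpen Ω →
      IsSol lam Lam Ω f → ∀ (z : ST d) (ρ : ℝ), 0 < ρ → Qp z ρ ⊆ Ω →
      (∀ p ∈ Qp z ρ, |f p| ≤ M) →
      ∀ r : ℝ, 0 < r → r ≤ ρ → ∀ q ∈ Qp z r, |f q - f z| ≤ C * M * (r / ρ) ^ α)
    (f : ST d → ℝ) (M : ℝ)
    (hf : IsSol lam Lam (Ioo (0 : ℝ) 1 ×ˢ Metric.ball (0 : E d) 1 ×ˢ Metric.ball (0 : E d) 1) f)
    (hb : ∀ p ∈ Ioo (0 : ℝ) 1 ×ˢ Metric.ball (0 : E d) 1 ×ˢ Metric.ball (0 : E d) 1, |f p| ≤ M)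
    (p : ST d) (hp : p ∈ Ioo (1 / 2 : ℝ) 1 ×ˢ Metric.ball (0 : E d) (1 / 2) ×ˢ
      Metric.ball (0 : E d) (1 / 2))
    (q : ST d) (hq : q ∈ Ioo (1 / 2 : ℝ) 1 ×ˢ Metric.ball (0 : E d) (1 / 2) ×ˢ
      Metric.ball (0 : E d) (1 / 2)) (ht : q.1 ≤ p.1) (hne : q ≠ p) :
    |f p - f q| ≤ ((C + 2) * 8 ^ α) * M * ‖p - q‖ ^ (α / 3) := by
  have hsub : Ioo (1 / 2 : ℝ) 1 ×ˢ Metric.ball (0 : E d) (1 / 2) ×ˢ Metric.ball (0 : E d) (1 / 2) ⊆
      Ioo (0 : ℝ) 1 ×ˢ Metric.ball (0 : E d) 1 ×ˢ Metric.ball (0 : E d) 1 := by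
    refine Set.prod_mono ?_ (Set.prod_mono ?_ ?_)
    · intro x hx
      exact ⟨by linarith [hx.1], hx.2⟩
    · exact Metric.ball_subset_ball (by norm_num)
    · exact Metric.ball_subset_ball (by norm_num)
  have hM : 0 ≤ M := (abs_nonneg _).trans (hb p (hsub hp))
  have hD0 : 0 < ‖p - q‖ := norm_pos_iff.2 (sub_ne_zero.2 hne.symm)
  set D := ‖p - q‖ with hDdef
  set s : ℝ := D ^ (1 / 3 : ℝ) with hs
  have hs0 : 0 < s := Real.rpow_pos_of_pos hD0 _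
  have hsα : (8 * s) ^ α = 8 ^ α * D ^ (α / 3) := by
    rw [Real.mul_rpow (by norm_num) hs0.le, hs, ← Real.rpow_mul hD0.le]
    congr 2
    ring
  have h8 : (0 : ℝ) < 8 ^ α := Real.rpow_pos_of_pos (by norm_num) _
  have hDα : 0 < D ^ (α / 3) := Real.rpow_pos_of_pos hD0 _
  have h2M : |f p - f q| ≤ 2 * M := by
    have h1 := abs_sub (f p) (f q)
    have h2 := hb p (hsub hp)
    have h3 := hb q (hsub hq)
    have h4 := abs_le.1 h2
    have h5 := abs_le.1 h3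
    rw [abs_le]
    constructor <;> linarith
  by_cases hr : 2 * s ≤ 1 / 4
  · have hD1 : D ≤ 1 := by
      by_contra hlt
      push Not at hlt
      have : (1 : ℝ) ≤ s := Real.one_le_rpow hlt.le (by norm_num)
      linarith
    have hv : ‖p.2.2‖ ≤ 1 / 2 := (mem_ball_zero_iff.1 hp.2.2).le
    have hmem := mem_Qp_of_dist hne ht hv hD1
    have hopen : IsOpen (Ioo (0 : ℝ) 1 ×ˢ Metric.ball (0 : E d) 1 ×ˢ Metric.ball (0 : E d) 1) :=
      isOpen_Ioo.prod (Metric.isOpen_ball.prod Metric.isOpen_ball)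
    have hQ := Qp_subset_unit hp.1 hp.2.1 hp.2.2
    have h := H _ f M hopen hf p (1 / 4) (by norm_num) hQ (fun y hy => hb y (hQ hy)) (2 * s)
      (by positivity) hr q hmem
    rw [abs_sub_comm]
    have e1 : 2 * s / (1 / 4) = 8 * s := by ring
    rw [e1, hsα] at h
    calc |f q - f p| ≤ C * M * (8 ^ α * D ^ (α / 3)) := h
      _ ≤ (C + 2) * M * (8 ^ α * D ^ (α / 3)) := by gcongr; linarith
      _ = ((C + 2) * 8 ^ α) * M * D ^ (α / 3) := by ring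
  · push Not at hr
    have h1 : (1 : ℝ) ≤ (8 * s) ^ α := Real.one_le_rpow (by linarith) hα.le
    rw [hsα] at h1
    calc |f p - f q| ≤ 2 * M := h2M
      _ = 2 * M * 1 := by ring
      _ ≤ (C + 2) * M * (8 ^ α * D ^ (α / 3)) := by
          gcongr
          linarith
      _ = ((C + 2) * 8 ^ α) * M * D ^ (α / 3) := by ring

/-- Hölder estimate in the unit cylinder for `IsSol`. -/
theorem holder_unit {lam Lam : ℝ} (hd : 1 ≤ d) (hlam : 0 < lam) (hLam : lam ≤ Lam) :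
    ∃ α : ℝ, 0 < α ∧ ∃ C : ℝ, ∀ (f : ST d → ℝ) (M : ℝ),
      IsSol lam Lam (Ioo (0 : ℝ) 1 ×ˢ Metric.ball (0 : E d) 1 ×ˢ Metric.ball (0 : E d) 1) f →
      (∀ p ∈ Ioo (0 : ℝ) 1 ×ˢ Metric.ball (0 : E d) 1 ×ˢ Metric.ball (0 : E d) 1, |f p| ≤ M) →
      ∀ p ∈ Ioo (1 / 2 : ℝ) 1 ×ˢ Metric.ball (0 : E d) (1 / 2) ×ˢ Metric.ball (0 : E d) (1 / 2),
      ∀ q ∈ Ioo (1 / 2 : ℝ) 1 ×ˢ Metric.ball (0 : E d) (1 / 2) ×ˢ Metric.ball (0 : E d) (1 / 2),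
        |f p - f q| ≤ C * M * ‖p - q‖ ^ α := by
  obtain ⟨α, C, hα, hC, H⟩ := holder_point (d := d) hd hlam hLam
  refine ⟨α / 3, by positivity, (C + 2) * 8 ^ α, ?_⟩
  intro f M hf hb p hp q hq
  by_cases hne : q = p
  · subst hne
    rw [sub_self, sub_self, abs_zero, norm_zero, Real.zero_rpow (by positivity), mul_zero]
  rcases le_total q.1 p.1 with ht | ht
  · exact holE_step hα hC H f M hf hb p hp q hq ht hne
  · rw [abs_sub_comm, norm_sub_rev]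
    exact holE_step hα hC H f M hf hb q hq p hp ht (Ne.symm hne)

end Pool.Agent.Lib.MP_eee7b5_an
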