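import Pool.Agent.Lib.MP_eee7b5_an.Ink
import Pool.Agent.Lib.MP_eee7b5_an.HolA
import Pool.Agent.Lib.MP_eee7b5_an.HolB
import Pool.Agent.Lib.MP_eee7b5_an.HolC
import Pool.Agent.Lib.MP_eee7b5_an.HolD
import Pool.Agent.Lib.MP_eee7b5_an.HolE

set_option autoImplicit false

/-!
Oscillation decay, Hölder estimate, and the frozen statement.
-/

namespace Pool.Agent.Lib.MP_eee7b5_an

open MeasureTheory Set Matrix
open scoped ENNReal

variable {d : ℕ}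

theorem HolF_quad (A : Matrix (Fin d) (Fin d) ℝ) (ξ : Fin d → ℝ) :
    ξ ⬝ᵥ (((1 / 2 : ℝ) • (A + Aᵀ)) *ᵥ ξ) = ξ ⬝ᵥ (A *ᵥ ξ) := by
  have h1 : ξ ⬝ᵥ (Aᵀ *ᵥ ξ) = ξ ⬝ᵥ (A *ᵥ ξ) := by
    rw [Matrix.mulVec_transpose, dotProduct_comm, ← Matrix.dotProduct_mulVec]
  rw [Matrix.smul_mulVec, Matrix.add_mulVec, dotProduct_smul, dotProduct_add, h1, smul_eq_mul]
  ring

/-- The second derivative is symmetric, so the matrix may be symmetrised: the hypotheses of the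
frozen statement give `IsSol`. -/
theorem IsSol_of_frozen {lam Lam : ℝ} {Ω : Set (ST d)} (hΩ : IsOpen Ω)
    (a : ST d → Matrix (Fin d) (Fin d) ℝ) (f ft : ST d → ℝ) (Dx Dv : ST d → (E d →L[ℝ] ℝ))
    (D2v : ST d → (E d →L[ℝ] E d →L[ℝ] ℝ))
    (ha : ∀ p ∈ Ω, ∀ ξ : Fin d → ℝ, lam * (ξ ⬝ᵥ ξ) ≤ ξ ⬝ᵥ (a p *ᵥ ξ) ∧
      ξ ⬝ᵥ (a p *ᵥ ξ) ≤ Lam * (ξ ⬝ᵥ ξ))
    (h1 : ContinuousOn ft Ω) (h2 : ContinuousOn Dx Ω) (h3 : ContinuousOn D2v Ω)
    (h4 : ∀ p ∈ Ω, HasDerivAt (fun s => f (s, p.2.1, p.2.2)) (ft p) p.1)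
    (h5 : ∀ p ∈ Ω, HasFDerivAt (fun y => f (p.1, y, p.2.2)) (Dx p) p.2.1)
    (h6 : ∀ p ∈ Ω, HasFDerivAt (fun w => f (p.1, p.2.1, w)) (Dv p) p.2.2)
    (h7 : ∀ p ∈ Ω, HasFDerivAt (fun w => Dv (p.1, p.2.1, w)) (D2v p) p.2.2)
    (h8 : ∀ p ∈ Ω, ft p + Dx p p.2.2 = ∑ i, ∑ j, a p i j *
      D2v p (EuclideanSpace.single i (1 : ℝ)) (EuclideanSpace.single j (1 : ℝ))) :
    IsSol lam Lam Ω f := by
  have hsymm : ∀ p ∈ Ω, ∀ v w : E d, D2v p v w = D2v p w v := by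
    intro p hp v w
    have hcont : Continuous (fun w : E d => ((p.1, p.2.1, w) : ST d)) := by fun_prop
    have hev : ∀ᶠ w in nhds p.2.2, ((p.1, p.2.1, w) : ST d) ∈ Ω := by
      refine hcont.continuousAt.eventually ?_
      exact hΩ.mem_nhds hp
    have hev2 : ∀ᶠ w in nhds p.2.2,
        HasFDerivAt (fun w => f (p.1, p.2.1, w)) (Dv (p.1, p.2.1, w)) w := by
      filter_upwards [hev] with w hw
      exact h6 (p.1, p.2.1, w) hw
    exact second_derivative_symmetric_of_eventually hev2 (h7 p hp) v w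
  refine ⟨fun p => (1 / 2 : ℝ) • (a p + (a p)ᵀ), ft, Dx, Dv, D2v, ?_, h1, h2, h3, h4, h5, h6, h7,
    ?_⟩
  · intro p hp
    refine ⟨?_, fun ξ => ?_⟩
    · unfold Matrix.IsSymm
      rw [Matrix.transpose_smul, Matrix.transpose_add, Matrix.transpose_transpose, add_comm]
    · rw [HolF_quad]
      exact ha p hp ξ
  · intro p hp
    rw [h8 p hp]
    have e1 : ∑ i, ∑ j, ((1 / 2 : ℝ) • (a p + (a p)ᵀ)) i j *
        D2v p (EuclideanSpace.single i (1 : ℝ)) (EuclideanSpace.single j (1 : ℝ)) =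
        (1 / 2) * (∑ i, ∑ j, a p i j *
          D2v p (EuclideanSpace.single i (1 : ℝ)) (EuclideanSpace.single j (1 : ℝ))) +
        (1 / 2) * (∑ i, ∑ j, a p j i *
          D2v p (EuclideanSpace.single i (1 : ℝ)) (EuclideanSpace.single j (1 : ℝ))) := by
      simp only [Finset.mul_sum, ← Finset.sum_add_distrib]
      refine Finset.sum_congr rfl fun i _ => Finset.sum_congr rfl fun j _ => ?_
      simp only [Matrix.smul_apply, Matrix.add_apply, Matrix.transpose_apply, smul_eq_mul]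
      ring
    have e2 : (∑ i, ∑ j, a p j i *
          D2v p (EuclideanSpace.single i (1 : ℝ)) (EuclideanSpace.single j (1 : ℝ))) =
        ∑ i, ∑ j, a p i j *
          D2v p (EuclideanSpace.single i (1 : ℝ)) (EuclideanSpace.single j (1 : ℝ)) := by
      rw [Finset.sum_comm]
      refine Finset.sum_congr rfl fun i _ => Finset.sum_congr rfl fun j _ => ?_
      rw [hsymm p hp]
    rw [e1, e2]
    ring

end Pool.Agent.Lib.MP_eee7b5_an
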