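import Pool.Agent.Lib.MP_eee7b5_an.Ink
import Pool.Agent.Lib.MP_eee7b5_an.HolA
import Pool.Agent.Lib.MP_eee7b5_an.HolB
import Pool.Agent.Lib.MP_eee7b5_an.HolC
import Pool.Agent.Lib.MP_eee7b5_an.HolD
import Pool.Agent.Lib.MP_eee7b5_an.HolE
import Pool.Agent.Lib.MP_eee7b5_an.HolF

set_option autoImplicit false

/-!
Oscillation decay, Hölder estimate, and the frozen statement.
-/

namespace Pool.Agent.Lib.MP_eee7b5_an

open MeasureTheory Set Matrix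
open scoped ENNReal

variable {d : ℕ}

/-- Dimension zero. -/
theorem dim_zero (f ft : ST 0 → ℝ) (Dx : ST 0 → (E 0 →L[ℝ] ℝ)) (M : ℝ)
    (h4 : ∀ p ∈ Ioo (0 : ℝ) 1 ×ˢ Metric.ball (0 : E 0) 1 ×ˢ Metric.ball (0 : E 0) 1,
      HasDerivAt (fun s => f (s, p.2.1, p.2.2)) (ft p) p.1)
    (h8 : ∀ p ∈ Ioo (0 : ℝ) 1 ×ˢ Metric.ball (0 : E 0) 1 ×ˢ Metric.ball (0 : E 0) 1,
      ft p + Dx p p.2.2 = 0) :
    ∀ p ∈ Ioo (1 / 2 : ℝ) 1 ×ˢ Metric.ball (0 : E 0) (1 / 2) ×ˢ Metric.ball (0 : E 0) (1 / 2),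
    ∀ q ∈ Ioo (1 / 2 : ℝ) 1 ×ˢ Metric.ball (0 : E 0) (1 / 2) ×ˢ Metric.ball (0 : E 0) (1 / 2),
      f p = f q := by
  intro p hp q hq
  have hz : ∀ p : ST 0, f p = f (p.1, (0 : E 0), (0 : E 0)) := by
    rintro ⟨t, x, v⟩
    rw [Subsingleton.elim x 0, Subsingleton.elim v 0]
  rw [hz p, hz q]
  have hmem : ∀ t ∈ Ioo (0 : ℝ) 1, ((t, (0 : E 0), (0 : E 0)) : ST 0) ∈
      Ioo (0 : ℝ) 1 ×ˢ Metric.ball (0 : E 0) 1 ×ˢ Metric.ball (0 : E 0) 1 := by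
    intro t ht
    exact ⟨ht, by simp, by simp⟩
  have hd : ∀ t ∈ Ioo (0 : ℝ) 1, HasDerivAt (fun s => f (s, (0 : E 0), (0 : E 0))) 0 t := by
    intro t ht
    have e1 := h8 _ (hmem t ht)
    have e2 := h4 _ (hmem t ht)
    simp only [map_zero, add_zero] at e1
    rw [e1] at e2
    exact e2
  have hp1 : p.1 ∈ Ioo (0 : ℝ) 1 := ⟨by have := hp.1.1; linarith, hp.1.2⟩
  have hq1 : q.1 ∈ Ioo (0 : ℝ) 1 := ⟨by have := hq.1.1; linarith, hq.1.2⟩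
  exact IsOpen.is_const_of_deriv_eq_zero (f := fun s => f (s, (0 : E 0), (0 : E 0)))
    isOpen_Ioo isPreconnected_Ioo
    (fun t ht => (hd t ht).differentiableAt.differentiableWithinAt)
    (fun t ht => (hd t ht).deriv) hp1 hq1

end Pool.Agent.Lib.MP_eee7b5_an
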