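import Pool.Agent.Lib.MP_eee7b5_an.Ink
import Pool.Agent.Lib.MP_eee7b5_an.HolA
import Pool.Agent.Lib.MP_eee7b5_an.HolB
import Pool.Agent.Lib.MP_eee7b5_an.HolC
import Pool.Agent.Lib.MP_eee7b5_an.HolD
import Pool.Agent.Lib.MP_eee7b5_an.HolE
import Pool.Agent.Lib.MP_eee7b5_an.HolF
import Pool.Agent.Lib.MP_eee7b5_an.HolG
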