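import Pool.Agent.Lib.MP_eee7b5_an.Fill

set_option autoImplicit false

/-!
The covering argument and the passage from measure to pointwise bounds.
-/

namespace Pool.Agent.Lib.MP_eee7b5_an

open MeasureTheory Set Matrix
open scoped ENNReal

variable {d : ℕ}

/-- Enlargement of `Qf b ρ`. -/
def Qhat (b : ST d) (ρ : ℝ) : Set (ST d) :=
  {p | |p.1 - b.1| < 5 * ρ ^ 2 ∧ ‖p.2.1 - b.2.1 - (p.1 - b.1) • b.2.2‖ < 22 * ρ ^ 3 ∧
    ‖p.2.2 - b.2.2‖ < 4 * ρ}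

theorem mem_Qhat {a b : ST d} {ρa ρb : ℝ} (hρ : ρa ≤ 2 * ρb) (ha : 0 < ρa) (hb : 0 < ρb)
    (h : (Qf a ρa ∩ Qf b ρb).Nonempty) : a ∈ Qhat b ρb := by
  obtain ⟨p, ⟨a1, a2, a3, a4⟩, b1, b2, b3, b4⟩ := h
  have hs2 : ρa ^ 2 ≤ 4 * ρb ^ 2 := by
    calc ρa ^ 2 ≤ (2 * ρb) ^ 2 := pow_le_pow_left₀ ha.le hρ 2
      _ = 4 * ρb ^ 2 := by ring
  have hs3 : ρa ^ 3 ≤ 8 * ρb ^ 3 := by
    calc ρa ^ 3 ≤ (2 * ρb) ^ 3 := pow_le_pow_left₀ ha.le hρ 3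
      _ = 8 * ρb ^ 3 := by ring
  have hb2 : 0 < ρb ^ 2 := by positivity
  have hb3 : 0 < ρb ^ 3 := by positivity
  have hv : ‖a.2.2 - b.2.2‖ < 3 * ρb := by
    have e : a.2.2 - b.2.2 = (p.2.2 - b.2.2) - (p.2.2 - a.2.2) := by abel
    rw [e]
    have := norm_sub_le (p.2.2 - b.2.2) (p.2.2 - a.2.2)
    linarith
  refine ⟨?_, ?_, ?_⟩
  · rw [abs_lt]
    constructor <;> linarith
  · have e : a.2.1 - b.2.1 - (a.1 - b.1) • b.2.2 =
        (p.2.1 - b.2.1 - (p.1 - b.1) • b.2.2) - (p.2.1 - a.2.1 - (p.1 - a.1) • a.2.2)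
          - (p.1 - a.1) • (a.2.2 - b.2.2) := by
      simp only [sub_smul, smul_sub]
      abel
    rw [e]
    have n1 := norm_sub_le ((p.2.1 - b.2.1 - (p.1 - b.1) • b.2.2) -
      (p.2.1 - a.2.1 - (p.1 - a.1) • a.2.2)) ((p.1 - a.1) • (a.2.2 - b.2.2))
    have n2 := norm_sub_le (p.2.1 - b.2.1 - (p.1 - b.1) • b.2.2)
      (p.2.1 - a.2.1 - (p.1 - a.1) • a.2.2)
    have n3 : ‖(p.1 - a.1) • (a.2.2 - b.2.2)‖ ≤ 4 * ρb ^ 2 * (3 * ρb) := by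
      rw [norm_smul, Real.norm_of_nonneg a1.le]
      apply mul_le_mul (by linarith) hv.le (norm_nonneg _) (by positivity)
    have e3 : 4 * ρb ^ 2 * (3 * ρb) = 12 * ρb ^ 3 := by ring
    rw [e3] at n3
    linarith
  · linarith

theorem volume_Qhat (d : ℕ) : ∃ C : ℝ, 0 < C ∧ ∀ (b : ST d) (ρ : ℝ), 0 < ρ →
    volume (Qhat b ρ) ≤ ENNReal.ofReal C * volume (Qf b ρ) := by
  have hbd : Bornology.IsBounded (Qhat (0 : ST d) 1) := by
    have hsub : Qhat (0 : ST d) 1 ⊆ Metric.ball (0 : ℝ) 5 ×ˢ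
        (Metric.ball (0 : E d) 22 ×ˢ Metric.ball (0 : E d) 4) := by
      rintro p ⟨h1, h2, h3⟩
      refine ⟨?_, ?_, ?_⟩
      · simpa using h1
      · simpa using h2
      · simpa using h3
    exact (Metric.isBounded_ball.prod (Metric.isBounded_ball.prod Metric.isBounded_ball)).subset
      hsub
  have hfin : volume (Qhat (0 : ST d) 1) ≠ ⊤ := hbd.measure_lt_top.ne
  have hpos := volume_Qf_pos (0 : ST d) one_pos
  have htop := (volume_Qf_lt_top (0 : ST d) 1).ne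
  set V := volume (Qf (0 : ST d) 1) with hV
  set W := volume (Qhat (0 : ST d) 1) with hW
  have hV0 : 0 < V.toReal := ENNReal.toReal_pos hpos.ne' htop
  refine ⟨W.toReal / V.toReal + 1, by positivity, fun b ρ hρ => ?_⟩
  have hmeas : MeasurableSet (Qhat b ρ) := by
    apply IsOpen.measurableSet
    have o1 : IsOpen {p : ST d | |p.1 - b.1| < 5 * ρ ^ 2} :=
      isOpen_lt (by fun_prop) continuous_const
    have o2 : IsOpen {p : ST d | ‖p.2.1 - b.2.1 - (p.1 - b.1) • b.2.2‖ < 22 * ρ ^ 3} :=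
      isOpen_lt (by fun_prop) continuous_const
    have o3 : IsOpen {p : ST d | ‖p.2.2 - b.2.2‖ < 4 * ρ} :=
      isOpen_lt (by fun_prop) continuous_const
    exact o1.inter (o2.inter o3)
  have h1 := volume_kin_preimage b hρ hmeas
  have hpre : kin b ρ ⁻¹' Qhat b ρ = Qhat 0 1 := by
    ext p
    have h2 : 0 < ρ ^ 2 := by positivity
    have h3 : 0 < ρ ^ 3 := by positivity
    have e1 : (kin b ρ p).1 - b.1 = ρ ^ 2 * p.1 := by
      simp [kin]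
    have e2 : (kin b ρ p).2.1 - b.2.1 - ((kin b ρ p).1 - b.1) • b.2.2 = ρ ^ 3 • p.2.1 := by
      rw [e1]
      simp only [kin]
      abel
    have e3 : (kin b ρ p).2.2 - b.2.2 = ρ • p.2.2 := by
      simp [kin]
    have n1 : |ρ ^ 2 * p.1| = ρ ^ 2 * |p.1| := by
      rw [abs_mul, abs_of_pos h2]
    have n2 : ‖ρ ^ 3 • p.2.1‖ = ρ ^ 3 * ‖p.2.1‖ := by
      rw [norm_smul, Real.norm_of_nonneg h3.le]
    have n3 : ‖ρ • p.2.2‖ = ρ * ‖p.2.2‖ := by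
      rw [norm_smul, Real.norm_of_nonneg hρ.le]
    have key : kin b ρ p ∈ Qhat b ρ ↔ (ρ ^ 2 * |p.1| < 5 * ρ ^ 2 ∧
        ρ ^ 3 * ‖p.2.1‖ < 22 * ρ ^ 3 ∧ ρ * ‖p.2.2‖ < 4 * ρ) := by
      unfold Qhat
      show (|(kin b ρ p).1 - b.1| < 5 * ρ ^ 2 ∧
        ‖(kin b ρ p).2.1 - b.2.1 - ((kin b ρ p).1 - b.1) • b.2.2‖ < 22 * ρ ^ 3 ∧
        ‖(kin b ρ p).2.2 - b.2.2‖ < 4 * ρ) ↔ _
      rw [e2, e3, e1, n1, n2, n3]
    have key2 : p ∈ Qhat (0 : ST d) 1 ↔ (|p.1| < 5 ∧ ‖p.2.1‖ < 22 ∧ ‖p.2.2‖ < 4) := by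
      unfold Qhat
      show (|p.1 - 0| < 5 * 1 ^ 2 ∧ ‖p.2.1 - 0 - (p.1 - 0) • (0 : E d)‖ < 22 * 1 ^ 3 ∧
        ‖p.2.2 - 0‖ < 4 * 1) ↔ _
      simp
    rw [Set.mem_preimage, key, key2]
    rw [mul_comm 5, mul_comm 22, mul_comm 4, mul_lt_mul_iff_right₀ h2, mul_lt_mul_iff_right₀ h3,
      mul_lt_mul_iff_right₀ hρ]
  rw [hpre] at h1
  rw [← h1, volume_Qf b hρ]
  have h4 : W ≤ ENNReal.ofReal (W.toReal / V.toReal + 1) * V := by
    have e : W = ENNReal.ofReal (W.toReal / V.toReal) * V := by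
      rw [← ENNReal.ofReal_toReal htop, ← ENNReal.ofReal_mul (by positivity),
        ENNReal.toReal_ofReal (by positivity), div_mul_cancel₀ _ hV0.ne', ENNReal.ofReal_toReal hfin]
    calc W = ENNReal.ofReal (W.toReal / V.toReal) * V := e
      _ ≤ _ := by
        gcongr
        linarith
  calc ENNReal.ofReal (ρ ^ (4 * d + 2)) * W
      ≤ ENNReal.ofReal (ρ ^ (4 * d + 2)) * (ENNReal.ofReal (W.toReal / V.toReal + 1) * V) := by
        gcongr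
    _ = _ := by ring

end Pool.Agent.Lib.MP_eee7b5_an
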