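import Pool.Agent.Lib.MP_eee7b5_an.Fill
import Pool.Agent.Lib.MP_eee7b5_an.InkA

set_option autoImplicit false

/-!
The covering argument and the passage from measure to pointwise bounds.
-/

namespace Pool.Agent.Lib.MP_eee7b5_an

open MeasureTheory Set Matrix
open scoped ENNReal

variable {d : ℕ}

theorem InkB_nonempty (z : ST d) {ρ : ℝ} (hρ : 0 < ρ) : (Qf z ρ).Nonempty := by
  by_contra h
  rw [not_nonempty_iff_eq_empty] at h
  have := volume_Qf_pos z hρ
  rw [h] at this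
  simp at this

/-- Vitali covering by future cylinders. -/
theorem vitali_Qf (A : Set (ST d)) (ρ : ST d → ℝ) (r0 : ℝ) (hρ : ∀ z ∈ A, 0 < ρ z ∧ ρ z ≤ r0) :
    ∃ u : Set (ST d), u ⊆ A ∧ u.Countable ∧ u.PairwiseDisjoint (fun z => Qf z (ρ z)) ∧
      A ⊆ ⋃ b ∈ u, Qhat b (ρ b) := by
  obtain ⟨u, huA, hdisj, hcov⟩ := Vitali.exists_disjoint_subfamily_covering_enlargement
    (fun z => Qf z (ρ z)) A ρ 2 (by norm_num) (fun z hz => (hρ z hz).1.le) r0
    (fun z hz => (hρ z hz).2) (fun z hz => InkB_nonempty z (hρ z hz).1)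
  refine ⟨u, huA, ?_, hdisj, ?_⟩
  · exact hdisj.countable_of_isOpen (fun z _ => Qf_isOpen z (ρ z))
      (fun z hz => InkB_nonempty z (hρ z (huA hz)).1)
  · intro a ha
    obtain ⟨b, hb, hne, hle⟩ := hcov a ha
    simp only [mem_iUnion]
    exact ⟨b, hb, mem_Qhat hle (hρ a ha).1 (hρ b (huA hb)).1 hne⟩

end Pool.Agent.Lib.MP_eee7b5_an
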