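import Pool.Agent.Lib.MP_eee7b5_an.Fill
import Pool.Agent.Lib.MP_eee7b5_an.InkA
import Pool.Agent.Lib.MP_eee7b5_an.InkB

set_option autoImplicit false

/-!
The covering argument and the passage from measure to pointwise bounds.
-/

namespace Pool.Agent.Lib.MP_eee7b5_an

open MeasureTheory Set Matrix
open scoped ENNReal

variable {d : ℕ}

/-- Enlarged slab. -/
def SB (d : ℕ) (r : ℝ) : Set (ST d) :=
  Ioo 0 (1 + r) ×ˢ Metric.ball 0 (1 + 2 * r) ×ˢ Metric.ball 0 (1 + r)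

theorem ic_mem_Qf_one {z : ST d} (hz : z ∈ Qf (0 : ST d) 1) :
    0 < z.1 ∧ z.1 < 1 ∧ ‖z.2.1‖ < 1 ∧ ‖z.2.2‖ < 1 := by
  rw [Qf_zero] at hz
  simpa [and_assoc] using hz

theorem Qf_subset_SB {z : ST d} (hz : z ∈ Qf (0 : ST d) 1) {ρ r : ℝ} (hρ : 0 < ρ) (hr : ρ ≤ r)
    (hr1 : r ≤ 1) : Qf z ρ ⊆ SB d r := by
  obtain ⟨z1, z2, z3, z4⟩ := ic_mem_Qf_one hz
  rintro p ⟨p1, p2, p3, p4⟩
  have hρ1 : ρ ≤ 1 := hr.trans hr1
  have e2 : ρ ^ 2 ≤ ρ := by nlinarith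
  have e3 : ρ ^ 3 ≤ ρ := by nlinarith [mul_pos hρ hρ]
  simp only [SB, mem_prod, mem_Ioo, Metric.mem_ball, dist_zero_right]
  refine ⟨⟨by linarith, by linarith⟩, ?_, ?_⟩
  · have h1 : ‖p.2.1‖ ≤ ‖p.2.1 - z.2.1 - (p.1 - z.1) • z.2.2‖ + ‖z.2.1‖ +
        ‖(p.1 - z.1) • z.2.2‖ := by
      calc ‖p.2.1‖ = ‖(p.2.1 - z.2.1 - (p.1 - z.1) • z.2.2) + z.2.1 + (p.1 - z.1) • z.2.2‖ := by
            congr 1; abel
        _ ≤ _ := norm_add₃_le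
    have h2 : ‖(p.1 - z.1) • z.2.2‖ ≤ ρ := by
      rw [norm_smul, Real.norm_eq_abs, abs_of_pos p1]
      nlinarith [norm_nonneg z.2.2]
    linarith
  · have h1 : ‖p.2.2‖ ≤ ‖p.2.2 - z.2.2‖ + ‖z.2.2‖ := by
      calc ‖p.2.2‖ = ‖(p.2.2 - z.2.2) + z.2.2‖ := by congr 1; abel
        _ ≤ _ := norm_add_le _ _
    linarith

theorem volume_SB {ε : ℝ} (hε : 0 < ε) : ∃ r : ℝ, 0 < r ∧ r ≤ 1 ∧
    volume (SB d r) ≤ ENNReal.ofReal (1 + ε) * volume (Qf (0 : ST d) 1) := by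
  -- the polynomial factor
  have hcont : ContinuousAt (fun r : ℝ => (1 + r) * ((1 + 2 * r) ^ d * (1 + r) ^ d)) 0 := by
    fun_prop
  have hev : ∀ᶠ r in nhds (0 : ℝ), (1 + r) * ((1 + 2 * r) ^ d * (1 + r) ^ d) < 1 + ε := by
    refine hcont.eventually (gt_mem_nhds ?_)
    simp [hε]
  obtain ⟨δ, hδ, hδ2⟩ := Metric.eventually_nhds_iff.mp hev
  set r : ℝ := min (δ / 2) 1 with hr
  have hr0 : 0 < r := by positivity
  refine ⟨r, hr0, min_le_right _ _, ?_⟩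
  have hlt : (1 + r) * ((1 + 2 * r) ^ d * (1 + r) ^ d) < 1 + ε := by
    refine hδ2 ?_
    rw [dist_zero_right, Real.norm_eq_abs, abs_of_pos hr0]
    have := min_le_left (δ / 2) 1
    linarith
  have hfin : Module.finrank ℝ (E d) = d := by simp
  rw [Qf_zero]
  unfold SB
  rw [Measure.volume_eq_prod, Measure.prod_prod, Measure.volume_eq_prod, Measure.prod_prod,
    Measure.prod_prod, Measure.prod_prod, Real.volume_Ioo, Real.volume_Ioo,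
    Measure.addHaar_ball_of_pos volume (0 : E d) (by positivity : 0 < 1 + 2 * r),
    Measure.addHaar_ball_of_pos volume (0 : E d) (by positivity : 0 < 1 + r), hfin]
  simp only [sub_zero, one_pow, ENNReal.ofReal_one, one_mul]
  calc ENNReal.ofReal (1 + r) * (ENNReal.ofReal ((1 + 2 * r) ^ d) * volume (Metric.ball (0 : E d) 1)
        * (ENNReal.ofReal ((1 + r) ^ d) * volume (Metric.ball (0 : E d) 1)))
      = ENNReal.ofReal ((1 + r) * ((1 + 2 * r) ^ d * (1 + r) ^ d)) *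
        (volume (Metric.ball (0 : E d) 1) * volume (Metric.ball (0 : E d) 1)) := by
        rw [ENNReal.ofReal_mul (by positivity), ENNReal.ofReal_mul (by positivity)]
        ring
    _ ≤ _ := by gcongr

theorem RegAt_subset {z : ST d} (hz : z ∈ Qf (0 : ST d) 1) {ρ R : ℝ} (hρ : 0 < ρ)
    (hρ1 : ρ ≤ 1) (hR : 1 ≤ R) : RegAt z ρ 1 R ⊆ RegAt 0 1 2 (R + 2) := by
  obtain ⟨z1, z2, z3, z4⟩ := ic_mem_Qf_one hz
  rintro p ⟨p1, p2, p3, p4⟩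
  have e2 : ρ ^ 2 ≤ 1 := pow_le_one₀ hρ.le hρ1
  have e3 : ρ ^ 3 ≤ 1 := pow_le_one₀ hρ.le hρ1
  have hR3 : 0 ≤ R ^ 3 := by positivity
  simp only [RegAt, mem_ofPred_eq, Prod.fst_zero, Prod.snd_zero, sub_zero, smul_zero, one_pow,
    mul_one]
  refine ⟨by linarith, by linarith, ?_, ?_⟩
  · have h1 : ‖p.2.1‖ ≤ ‖p.2.1 - z.2.1 - (p.1 - z.1) • z.2.2‖ + ‖z.2.1‖ +
        ‖(p.1 - z.1) • z.2.2‖ := by
      calc ‖p.2.1‖ = ‖(p.2.1 - z.2.1 - (p.1 - z.1) • z.2.2) + z.2.1 + (p.1 - z.1) • z.2.2‖ := by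
            congr 1; abel
        _ ≤ _ := norm_add₃_le
    have h2 : ‖(p.1 - z.1) • z.2.2‖ ≤ 1 := by
      rw [norm_smul, Real.norm_eq_abs, abs_of_pos p1]
      nlinarith [norm_nonneg z.2.2]
    have h3 : R ^ 3 * ρ ^ 3 ≤ R ^ 3 := by nlinarith
    nlinarith [mul_pos (by linarith : 0 < R) (by linarith : 0 < R)]
  · have h1 : ‖p.2.2‖ ≤ ‖p.2.2 - z.2.2‖ + ‖z.2.2‖ := by
      calc ‖p.2.2‖ = ‖(p.2.2 - z.2.2) + z.2.2‖ := by congr 1; abel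
        _ ≤ _ := norm_add_le _ _
    have h3 : R * ρ ≤ R := by nlinarith
    linarith

end Pool.Agent.Lib.MP_eee7b5_an
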