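import Pool.Agent.Lib.MP_eee7b5_an.Fill
import Pool.Agent.Lib.MP_eee7b5_an.InkA
import Pool.Agent.Lib.MP_eee7b5_an.InkB
import Pool.Agent.Lib.MP_eee7b5_an.InkC

set_option autoImplicit false

/-!
The covering argument and the passage from measure to pointwise bounds.
-/

namespace Pool.Agent.Lib.MP_eee7b5_an

open MeasureTheory Set Matrix
open scoped ENNReal

variable {d : ℕ}

/-- Small cylinders lie in small balls. -/
private theorem Qf_dist_lt {z p : ST d} {ρ : ℝ} (hρ : 0 < ρ) (hρ1 : ρ ≤ 1) (hp : p ∈ Qf z ρ) :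
    dist p z < ρ * (2 + ‖z.2.2‖) := by
  obtain ⟨h1, h2, h3, h4⟩ := hp
  have hz : 0 ≤ ‖z.2.2‖ := norm_nonneg _
  have hρ2 : ρ ^ 2 ≤ ρ := by nlinarith
  have hρ3 : ρ ^ 3 ≤ ρ := by
    have : ρ ^ 3 = ρ * ρ ^ 2 := by ring
    rw [this]
    nlinarith
  have hprod : 0 ≤ ρ * ‖z.2.2‖ := by positivity
  have h5 : ‖p.2.1 - z.2.1‖ ≤ ‖p.2.1 - z.2.1 - (p.1 - z.1) • z.2.2‖ + ‖(p.1 - z.1) • z.2.2‖ := by
    have h6 : p.2.1 - z.2.1 = (p.2.1 - z.2.1 - (p.1 - z.1) • z.2.2) + (p.1 - z.1) • z.2.2 := by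
      abel
    calc ‖p.2.1 - z.2.1‖ = ‖(p.2.1 - z.2.1 - (p.1 - z.1) • z.2.2) + (p.1 - z.1) • z.2.2‖ := by
          rw [← h6]
      _ ≤ _ := norm_add_le _ _
  have h7 : ‖(p.1 - z.1) • z.2.2‖ ≤ ρ * ‖z.2.2‖ := by
    rw [norm_smul, Real.norm_eq_abs, abs_of_pos h1]
    exact mul_le_mul_of_nonneg_right (h2.le.trans hρ2) hz
  rw [Prod.dist_eq, Prod.dist_eq]
  refine max_lt ?_ (max_lt ?_ ?_)
  · rw [Real.dist_eq, abs_of_pos h1]
    nlinarith
  · rw [dist_eq_norm]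
    nlinarith
  · rw [dist_eq_norm]
    nlinarith

/-- Good scale: the first dyadic scale at which the density condition fails. -/
theorem exists_scale {μ a : ℝ} (hμ : 0 < μ) {g : ST d → ℝ} {z : ST d} {Ω : Set (ST d)}
    (hΩ : IsOpen Ω) (hg : ContinuousOn g Ω) (hz : z ∈ Ω) (hza : a < g z) {r0 : ℝ}
    (hr0 : 0 < r0) (hfail : ¬ Dens μ a g z r0) :
    ∃ ρ : ℝ, 0 < ρ ∧ ρ ≤ r0 ∧ ¬ Dens μ a g z ρ ∧ ∀ j : ℕ, 1 ≤ j → Dens μ a g z (ρ / 2 ^ j) := by
  have hcont : ContinuousAt g z := hg.continuousAt (hΩ.mem_nhds hz)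
  obtain ⟨δ, hδ, hball⟩ := Metric.eventually_nhds_iff_ball.mp
    (hcont.eventually (lt_mem_nhds hza))
  have hz0 : 0 ≤ ‖z.2.2‖ := norm_nonneg _
  set ρ1 : ℝ := min 1 (δ / (2 + ‖z.2.2‖)) with hρ1
  have hρ1pos : 0 < ρ1 := lt_min one_pos (by positivity)
  have hsmall : ∀ ρ : ℝ, 0 < ρ → ρ ≤ ρ1 → Dens μ a g z ρ := by
    intro ρ hρ hle
    have hempty : Qf z ρ ∩ {p | g p < a} = ∅ := by
      ext p
      simp only [mem_inter_iff, mem_setOf_eq, mem_empty_iff_false, iff_false, not_and, not_lt]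
      intro hp
      have h1 := Qf_dist_lt hρ (hle.trans (min_le_left _ _)) hp
      have h2 : ρ * (2 + ‖z.2.2‖) ≤ δ := by
        have h3 := hle.trans (min_le_right _ _)
        rwa [le_div_iff₀ (by positivity)] at h3
      exact (hball p (by rw [Metric.mem_ball]; linarith)).le
    unfold Dens
    rw [hempty, measure_empty]
    exact zero_le
  obtain ⟨N, hN⟩ : ∃ N : ℕ, ∀ j ≥ N, Dens μ a g z (r0 / 2 ^ j) := by
    have hlim : Filter.Tendsto (fun j : ℕ => r0 / 2 ^ j) Filter.atTop (nhds 0) := by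
      have h1 := tendsto_pow_atTop_nhds_zero_of_lt_one (r := (1 / 2 : ℝ)) (by norm_num)
        (by norm_num)
      have h2 := h1.const_mul r0
      rw [mul_zero] at h2
      refine h2.congr fun j => ?_
      rw [one_div, inv_pow]
      rfl
    obtain ⟨N, hN⟩ := Filter.eventually_atTop.mp (hlim.eventually (gt_mem_nhds hρ1pos))
    exact ⟨N, fun j hj => hsmall _ (by positivity) (hN j hj).le⟩
  classical
  have hex : ∃ k : ℕ, ∀ j ≥ k, Dens μ a g z (r0 / 2 ^ j) := ⟨N, hN⟩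
  obtain ⟨m, hm⟩ : ∃ m, Nat.find hex = m + 1 := by
    refine Nat.exists_eq_succ_of_ne_zero fun h0 => hfail ?_
    have h1 := Nat.find_spec hex 0 (by rw [h0])
    simpa using h1
  have hspec := Nat.find_spec hex
  rw [hm] at hspec
  have hmin : ¬ ∀ j ≥ m, Dens μ a g z (r0 / 2 ^ j) := Nat.find_min hex (by rw [hm]; omega)
  refine ⟨r0 / 2 ^ m, by positivity, ?_, ?_, ?_⟩
  · exact div_le_self hr0.le (one_le_pow₀ (by norm_num))
  · intro hD
    apply hmin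
    intro j hj
    rcases Nat.eq_or_lt_of_le hj with h1 | h1
    · rw [← h1]; exact hD
    · exact hspec j h1
  · intro j hj
    have h1 : r0 / 2 ^ m / 2 ^ j = r0 / 2 ^ (m + j) := by
      rw [pow_add, div_div]
    rw [h1]
    exact hspec _ (by omega)

end Pool.Agent.Lib.MP_eee7b5_an
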