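import Pool.Agent.Lib.MP_eee7b5_an.Fill
import Pool.Agent.Lib.MP_eee7b5_an.InkA
import Pool.Agent.Lib.MP_eee7b5_an.InkB
import Pool.Agent.Lib.MP_eee7b5_an.InkC
import Pool.Agent.Lib.MP_eee7b5_an.InkD

set_option autoImplicit false

/-!
The covering argument and the passage from measure to pointwise bounds.
-/

namespace Pool.Agent.Lib.MP_eee7b5_an

open MeasureTheory Set Matrix
open scoped ENNReal

variable {d : ℕ}

/-- The first fraction `κ` of a future cylinder, unit scale. -/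
theorem inkE_unit {κ : ℝ} (hκ : 0 < κ) (hκ1 : κ ≤ 1) :
    volume (Qf (0 : ST d) 1 ∩ {p | p.1 < κ}) = ENNReal.ofReal κ * volume (Qf (0 : ST d) 1) := by
  have e1 : Qf (0 : ST d) 1 ∩ {p | p.1 < κ}
      = Ioo 0 κ ×ˢ Metric.ball (0 : E d) 1 ×ˢ Metric.ball (0 : E d) 1 := by
    rw [Qf_zero]
    ext p
    simp only [one_pow]
    constructor
    · rintro ⟨⟨h1, h2⟩, h3⟩
      exact ⟨⟨h1.1, h3⟩, h2⟩
    · rintro ⟨h1, h2⟩
      exact ⟨⟨⟨h1.1, lt_of_lt_of_le h1.2 hκ1⟩, h2⟩, h1.2⟩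
  have e2 : (Qf (0 : ST d) 1)
      = Ioo 0 1 ×ˢ Metric.ball (0 : E d) 1 ×ˢ Metric.ball (0 : E d) 1 := by
    rw [Qf_zero]
    simp only [one_pow]
  rw [e1, e2]
  have e3 : (volume : Measure (ST d)) = (volume : Measure ℝ).prod
      ((volume : Measure (E d)).prod (volume : Measure (E d))) := rfl
  rw [e3, Measure.prod_prod, Measure.prod_prod, Measure.prod_prod, Measure.prod_prod,
    Real.volume_Ioo, Real.volume_Ioo, sub_zero, sub_zero, ENNReal.ofReal_one, one_mul]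

/-- The first fraction `κ` of a future cylinder. -/
theorem inkE_frac (z : ST d) {ρ κ : ℝ} (hρ : 0 < ρ) (hκ : 0 < κ) (hκ1 : κ ≤ 1) :
    volume (Qf z ρ ∩ {p | p.1 - z.1 < κ * ρ ^ 2}) = ENNReal.ofReal κ * volume (Qf z ρ) := by
  have hm : MeasurableSet (Qf z ρ ∩ {p : ST d | p.1 - z.1 < κ * ρ ^ 2}) := by
    apply (Qf_isOpen z ρ).measurableSet.inter
    apply IsOpen.measurableSet
    exact isOpen_lt (by fun_prop) (by fun_prop)
  have h1 := volume_kin_preimage z hρ hm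
  have e : kin z ρ ⁻¹' (Qf z ρ ∩ {p | p.1 - z.1 < κ * ρ ^ 2})
      = Qf (0 : ST d) 1 ∩ {p | p.1 < κ} := by
    rw [preimage_inter]
    have := kin_preimage_Qf z hρ 1 one_pos
    rw [mul_one] at this
    rw [this]
    congr 1
    ext p
    have h2 : 0 < ρ ^ 2 := by positivity
    constructor
    · intro hp
      have hp' : z.1 + ρ ^ 2 * p.1 - z.1 < κ * ρ ^ 2 := hp
      show p.1 < κ
      by_contra hc
      push Not at hc
      nlinarith
    · intro hp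
      have hp' : p.1 < κ := hp
      show z.1 + ρ ^ 2 * p.1 - z.1 < κ * ρ ^ 2
      nlinarith
  rw [← h1, e, inkE_unit hκ hκ1, volume_Qf z hρ]
  ring

/-- New measure in one cylinder. -/
theorem new_measure {lam Lam μ : ℝ} (hlam : 0 < lam) (hμ : 0 < μ) (hμ1 : μ < 1)
    (h : FILL d lam Lam μ) :
    ∃ R c : ℝ, 1 ≤ R ∧ 0 < c ∧ c ≤ 1 ∧
      ∀ (Ω : Set (ST d)) (g : ST d → ℝ), IsOpen Ω → IsSol lam Lam Ω g →
      ∀ (z : ST d) (ρ a : ℝ), 0 < ρ → 0 < a →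
      RegAt z ρ 1 R ⊆ Ω → (∀ p ∈ RegAt z ρ 1 R, 0 ≤ g p) →
      (∀ j : ℕ, 1 ≤ j → Dens μ a g z (ρ / 2 ^ j)) → ¬ Dens μ a g z ρ →
      ENNReal.ofReal (μ / 2) * volume (Qf z ρ) ≤
        volume (Qf z ρ ∩ {p | c * a ≤ g p ∧ g p < a}) := by
  obtain ⟨R, c, hR, hc, hc1, hF⟩ := h (μ / 2) (by linarith) (by linarith)
  refine ⟨R, c, hR, hc, hc1, ?_⟩
  intro Ω g hΩ hg z ρ a hρ ha hreg h0 hD hnD
  have hF' := hF Ω g hΩ hg z ρ a hρ ha hreg h0 hD
  have hsub : Qf z ρ ∩ {p | g p < a} ⊆ (Qf z ρ ∩ {p | c * a ≤ g p ∧ g p < a}) ∪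
      (Qf z ρ ∩ {p | p.1 - z.1 < μ / 2 * ρ ^ 2}) := by
    rintro p ⟨hp1, hp2⟩
    by_cases ht : p.1 - z.1 < μ / 2 * ρ ^ 2
    · exact Or.inr ⟨hp1, ht⟩
    · exact Or.inl ⟨hp1, hF' p hp1 (not_lt.mp ht), hp2⟩
  have h1 := (measure_mono hsub).trans (measure_union_le (μ := volume) _ _)
  rw [inkE_frac z hρ (by linarith : (0 : ℝ) < μ / 2) (by linarith)] at h1
  unfold Dens at hnD
  rw [not_le] at hnD
  have h2 := hnD.le.trans h1
  have hV := volume_Qf_lt_top z ρ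
  have e : ENNReal.ofReal μ * volume (Qf z ρ) = ENNReal.ofReal (μ / 2) * volume (Qf z ρ)
      + ENNReal.ofReal (μ / 2) * volume (Qf z ρ) := by
    rw [← add_mul, ← ENNReal.ofReal_add (by linarith) (by linarith)]
    congr 2
    ring
  rw [e] at h2
  have hfin : ENNReal.ofReal (μ / 2) * volume (Qf z ρ) ≠ ⊤ :=
    (ENNReal.mul_lt_top ENNReal.ofReal_lt_top hV).ne
  exact (ENNReal.add_le_add_iff_right hfin).mp h2

end Pool.Agent.Lib.MP_eee7b5_an
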