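import Pool.Agent.Lib.MP_eee7b5_an.Fill
import Pool.Agent.Lib.MP_eee7b5_an.InkA
import Pool.Agent.Lib.MP_eee7b5_an.InkB
import Pool.Agent.Lib.MP_eee7b5_an.InkC
import Pool.Agent.Lib.MP_eee7b5_an.InkD
import Pool.Agent.Lib.MP_eee7b5_an.InkE

set_option autoImplicit false

/-!
The covering argument and the passage from measure to pointwise bounds.
-/

namespace Pool.Agent.Lib.MP_eee7b5_an

open MeasureTheory Set Matrix
open scoped ENNReal

variable {d : ℕ}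

theorem inkF_Qf_subset_RegAt (z : ST d) {ρ R : ℝ} (hρ : 0 < ρ) (hR : 1 ≤ R) :
    Qf z ρ ⊆ RegAt z ρ 1 R := by
  intro p hp
  obtain ⟨h1, h2, h3, h4⟩ := hp
  refine ⟨h1, by linarith, ?_, ?_⟩
  · have : ρ ^ 3 ≤ R ^ 3 * ρ ^ 3 := by
      have h1R : 1 ≤ R ^ 3 := one_le_pow₀ hR
      have : 0 < ρ ^ 3 := by positivity
      nlinarith
    linarith
  · have : ρ ≤ R * ρ := by nlinarith
    linarith

theorem inkF_Qf_subset_SB {r : ℝ} (hr : 0 < r) : Qf (0 : ST d) 1 ⊆ SB d r := by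
  intro p hp
  rw [Qf_zero] at hp
  obtain ⟨h1, h2, h3⟩ := hp
  simp only [one_pow] at h1 h2
  refine ⟨⟨h1.1, by linarith [h1.2]⟩, ?_, ?_⟩
  · exact Metric.ball_subset_ball (by linarith) h2
  · exact Metric.ball_subset_ball (by linarith) h3

/-- **Growth of the measure of the level sets.** -/
theorem ink {lam Lam μ : ℝ} (hlam : 0 < lam) (hμ : 0 < μ) (hμ1 : μ < 1)
    (h : FILL d lam Lam μ) :
    ∃ R c η : ℝ, 1 ≤ R ∧ 0 < c ∧ c ≤ 1 ∧ 0 < η ∧
      ∀ (Ω : Set (ST d)) (g : ST d → ℝ), IsOpen Ω → IsSol lam Lam Ω g →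
      RegAt 0 1 2 R ⊆ Ω → (∀ p ∈ RegAt (0 : ST d) 1 2 R, 0 ≤ g p) →
      ∀ r a : ℝ, 0 < r → r ≤ 1 → 0 < a →
      (∀ z ∈ Qf (0 : ST d) 1, a < g z → ¬ Dens μ a g z r) →
      ENNReal.ofReal (1 + η) * volume (Qf (0 : ST d) 1 ∩ {p | a < g p}) ≤
        volume (SB d r ∩ {p | c * a ≤ g p}) := by
  classical
  obtain ⟨R, c, hR, hc, hc1, hnew⟩ := new_measure hlam hμ hμ1 h
  obtain ⟨C, hC, hQhat⟩ := volume_Qhat d
  refine ⟨R + 2, c, μ / (2 * C), by linarith, hc, hc1, by positivity, ?_⟩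
  intro Ω g hΩ hg hreg h0 r a hr hr1 ha hnd
  have hgc := hg.continuousOn hΩ
  -- the scale function
  have hQΩ : Qf (0 : ST d) 1 ⊆ Ω := by
    refine Subset.trans ?_ hreg
    intro p hp
    have h1 := inkF_Qf_subset_RegAt (0 : ST d) (one_pos) (show (1 : ℝ) ≤ R + 2 by linarith) hp
    exact ⟨h1.1, by linarith [h1.2.1], h1.2.2⟩
  have hsc : ∀ z ∈ Qf (0 : ST d) 1 ∩ {p | a < g p}, ∃ ρ : ℝ, 0 < ρ ∧ ρ ≤ r ∧
      ¬ Dens μ a g z ρ ∧ ∀ j : ℕ, 1 ≤ j → Dens μ a g z (ρ / 2 ^ j) := by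
    intro z hz
    exact exists_scale hμ hΩ hgc (hQΩ hz.1) hz.2 hr (hnd z hz.1 hz.2)
  let ρ : ST d → ℝ := fun z => if hz : z ∈ Qf (0 : ST d) 1 ∩ {p | a < g p} then
    Classical.choose (hsc z hz) else 1
  have hρ : ∀ z ∈ Qf (0 : ST d) 1 ∩ {p | a < g p}, 0 < ρ z ∧ ρ z ≤ r ∧
      ¬ Dens μ a g z (ρ z) ∧ ∀ j : ℕ, 1 ≤ j → Dens μ a g z (ρ z / 2 ^ j) := by
    intro z hz
    have e : ρ z = Classical.choose (hsc z hz) := dif_pos hz
    rw [e]
    exact Classical.choose_spec (hsc z hz)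
  have hregz : ∀ z ∈ Qf (0 : ST d) 1 ∩ {p | a < g p}, RegAt z (ρ z) 1 R ⊆
      RegAt (0 : ST d) 1 2 (R + 2) := by
    intro z hz
    obtain ⟨h1, h2, _⟩ := hρ z hz
    exact RegAt_subset hz.1 h1 (by linarith) hR
  have hn : ∀ z ∈ Qf (0 : ST d) 1 ∩ {p | a < g p},
      ENNReal.ofReal (μ / 2) * volume (Qf z (ρ z)) ≤
        volume (Qf z (ρ z) ∩ {p | c * a ≤ g p ∧ g p < a}) := by
    intro z hz
    obtain ⟨h1, h2, h3, h4⟩ := hρ z hz
    exact hnew Ω g hΩ hg z (ρ z) a h1 ha ((hregz z hz).trans hreg)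
      (fun p hp => h0 p (hregz z hz hp)) h4 h3
  obtain ⟨u, huE, huc, hud, huK⟩ := vitali_Qf (Qf (0 : ST d) 1 ∩ {p | a < g p}) ρ r
    (fun z hz => ⟨(hρ z hz).1, (hρ z hz).2.1⟩)
  -- measurability of the new sets
  have hmeas : ∀ b ∈ u, MeasurableSet (Qf b (ρ b) ∩ {p | c * a ≤ g p ∧ g p < a}) := by
    intro b hb
    have hsub : Qf b (ρ b) ⊆ Ω :=
      (inkF_Qf_subset_RegAt b (hρ b (huE hb)).1 hR).trans ((hregz b (huE hb)).trans hreg)
    have e : Qf b (ρ b) ∩ {p | c * a ≤ g p ∧ g p < a}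
        = (Qf b (ρ b) ∩ (Ω ∩ g ⁻¹' Iio a)) \ (Ω ∩ g ⁻¹' Iio (c * a)) := by
      ext p
      constructor
      · rintro ⟨hp, hp1, hp2⟩
        refine ⟨⟨hp, hsub hp, hp2⟩, ?_⟩
        rintro ⟨_, hp3⟩
        exact absurd hp3 (not_lt.mpr hp1)
      · rintro ⟨⟨hp, hp1, hp2⟩, hp3⟩
        refine ⟨hp, ?_, hp2⟩
        by_contra hlt
        exact hp3 ⟨hp1, not_le.mp hlt⟩
    rw [e]
    exact ((Qf_isOpen b (ρ b)).measurableSet.inter
      (hgc.isOpen_inter_preimage hΩ isOpen_Iio).measurableSet).diff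
      (hgc.isOpen_inter_preimage hΩ isOpen_Iio).measurableSet
  have hdisj : u.PairwiseDisjoint (fun b => Qf b (ρ b) ∩ {p | c * a ≤ g p ∧ g p < a}) := by
    intro x hx y hy hxy
    exact (hud hx hy hxy).mono inter_subset_left inter_subset_left
  set N : Set (ST d) := ⋃ b ∈ u, (Qf b (ρ b) ∩ {p | c * a ≤ g p ∧ g p < a}) with hN
  have hNm : MeasurableSet N := MeasurableSet.biUnion huc hmeas
  have hNv : volume N = ∑' b : u, volume (Qf (b : ST d) (ρ b) ∩ {p | c * a ≤ g p ∧ g p < a}) :=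
    measure_biUnion huc hdisj hmeas
  have hE : ENNReal.ofReal (μ / (2 * C)) * volume (Qf (0 : ST d) 1 ∩ {p | a < g p})
      ≤ volume N := by
    calc ENNReal.ofReal (μ / (2 * C)) * volume (Qf (0 : ST d) 1 ∩ {p | a < g p})
        ≤ ENNReal.ofReal (μ / (2 * C)) * volume (⋃ b ∈ u, Qhat b (ρ b)) := by
          gcongr
      _ ≤ ENNReal.ofReal (μ / (2 * C)) * ∑' b : u, volume (Qhat (b : ST d) (ρ b)) := by
          gcongr
          exact measure_biUnion_le volume huc _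
      _ = ∑' b : u, ENNReal.ofReal (μ / (2 * C)) * volume (Qhat (b : ST d) (ρ b)) := by
          rw [ENNReal.tsum_mul_left]
      _ ≤ ∑' b : u, volume (Qf (b : ST d) (ρ b) ∩ {p | c * a ≤ g p ∧ g p < a}) := by
          refine ENNReal.tsum_le_tsum (fun b => ?_)
          have hb := huE b.2
          calc ENNReal.ofReal (μ / (2 * C)) * volume (Qhat (b : ST d) (ρ b))
              ≤ ENNReal.ofReal (μ / (2 * C)) * (ENNReal.ofReal C * volume (Qf (b : ST d) (ρ b))) := by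
                gcongr
                exact hQhat b (ρ b) (hρ b hb).1
            _ = ENNReal.ofReal (μ / 2) * volume (Qf (b : ST d) (ρ b)) := by
                rw [← mul_assoc, ← ENNReal.ofReal_mul (by positivity)]
                congr 2
                field_simp
            _ ≤ _ := hn b hb
      _ = volume N := hNv.symm
  have hEN : Disjoint (Qf (0 : ST d) 1 ∩ {p | a < g p}) N := by
    rw [Set.disjoint_left]
    intro p hp hpN
    obtain ⟨b, _, hb⟩ := mem_iUnion₂.mp hpN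
    have h1 : a < g p := hp.2
    have h2 : g p < a := hb.2.2
    linarith
  have hsub : (Qf (0 : ST d) 1 ∩ {p | a < g p}) ∪ N ⊆ SB d r ∩ {p | c * a ≤ g p} := by
    rintro p (hp | hp)
    · refine ⟨inkF_Qf_subset_SB hr hp.1, ?_⟩
      have h1 : a < g p := hp.2
      have : c * a ≤ a := by nlinarith
      exact le_trans this h1.le
    · obtain ⟨b, hbu, hb⟩ := mem_iUnion₂.mp hp
      have hbE := huE hbu
      exact ⟨Qf_subset_SB hbE.1 (hρ b hbE).1 (hρ b hbE).2.1 hr1 hb.1, hb.2.1⟩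
  calc ENNReal.ofReal (1 + μ / (2 * C)) * volume (Qf (0 : ST d) 1 ∩ {p | a < g p})
      = volume (Qf (0 : ST d) 1 ∩ {p | a < g p})
        + ENNReal.ofReal (μ / (2 * C)) * volume (Qf (0 : ST d) 1 ∩ {p | a < g p}) := by
        rw [ENNReal.ofReal_add zero_le_one (by positivity), add_mul, ENNReal.ofReal_one, one_mul]
    _ ≤ volume (Qf (0 : ST d) 1 ∩ {p | a < g p}) + volume N := by gcongr
    _ = volume ((Qf (0 : ST d) 1 ∩ {p | a < g p}) ∪ N) := (measure_union hEN hNm).symm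
    _ ≤ _ := measure_mono hsub

end Pool.Agent.Lib.MP_eee7b5_an
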