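import Pool.Agent.Lib.MP_eee7b5_an.Fill
import Pool.Agent.Lib.MP_eee7b5_an.InkA
import Pool.Agent.Lib.MP_eee7b5_an.InkB
import Pool.Agent.Lib.MP_eee7b5_an.InkC
import Pool.Agent.Lib.MP_eee7b5_an.InkD
import Pool.Agent.Lib.MP_eee7b5_an.InkE
import Pool.Agent.Lib.MP_eee7b5_an.InkF

set_option autoImplicit false

/-!
The covering argument and the passage from measure to pointwise bounds.
-/

namespace Pool.Agent.Lib.MP_eee7b5_an

open MeasureTheory Set Matrix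
open scoped ENNReal

variable {d : ℕ}

/-- From a dense cylinder of fixed size to the target. -/
theorem from_dens {lam Lam μ : ℝ} (hlam : 0 < lam) (hμ : 0 < μ) (h : BGL d lam Lam μ)
    {r : ℝ} (hr : 0 < r) (hr1 : r ≤ 1) :
    ∃ R c : ℝ, 1 ≤ R ∧ 0 < c ∧ c ≤ 1 ∧ ∀ (Ω : Set (ST d)) (g : ST d → ℝ) (a : ℝ), IsOpen Ω →
      IsSol lam Lam Ω g → 0 < a → RegAt 0 1 3 R ⊆ Ω → (∀ p ∈ RegAt (0 : ST d) 1 3 R, 0 ≤ g p) →
      ∀ z ∈ Qf (0 : ST d) 1, Dens μ a g z r →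
      ∀ p : ST d, 2 ≤ p.1 → p.1 ≤ 3 → ‖p.2.1‖ ≤ 1 → ‖p.2.2‖ ≤ 1 → c * a ≤ g p := by
  have hr2 : 0 < r ^ 2 := by positivity
  have hr21 : r ^ 2 ≤ 1 := by nlinarith
  have hK : (1 : ℝ) ≤ 10 / r := by
    rw [le_div_iff₀ hr]; linarith
  have hT : (1 : ℝ) ≤ 3 / r ^ 2 := by
    rw [le_div_iff₀ hr2]; linarith
  obtain ⟨R0, c, hR0, hc, hc1, hmain⟩ := h (10 / r) (3 / r ^ 2) hK hT
  refine ⟨R0 + 4, c, by linarith, hc, hc1, ?_⟩
  intro Ω g a hΩ hg ha hreg h0 z hz hdens p hp1 hp2 hpx hpv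
  obtain ⟨hz1, hz2, hz3, hz4⟩ := hz
  simp only [Prod.fst_zero, Prod.snd_zero, sub_zero, smul_zero, one_pow] at hz1 hz2 hz3 hz4
  have hsub : RegAt z r ((p.1 - z.1) / r ^ 2) R0 ⊆ RegAt 0 1 3 (R0 + 4) := by
    rintro q ⟨hq1, hq2, hq3, hq4⟩
    have hq2' : q.1 - z.1 ≤ p.1 - z.1 := by
      rwa [div_mul_cancel₀ _ hr2.ne'] at hq2
    refine ⟨?_, ?_, ?_, ?_⟩
    · simp only [Prod.fst_zero, sub_zero]; linarith
    · simp only [Prod.fst_zero, sub_zero]; linarith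
    · simp only [Prod.fst_zero, Prod.snd_zero, sub_zero, smul_zero, one_pow, mul_one]
      have h1 : q.2.1 = (q.2.1 - z.2.1 - (q.1 - z.1) • z.2.2) + z.2.1 + (q.1 - z.1) • z.2.2 := by
        abel
      have h2 : ‖q.2.1‖ ≤ ‖q.2.1 - z.2.1 - (q.1 - z.1) • z.2.2‖ + ‖z.2.1‖ +
          ‖(q.1 - z.1) • z.2.2‖ := by
        calc ‖q.2.1‖ = ‖(q.2.1 - z.2.1 - (q.1 - z.1) • z.2.2) + z.2.1 + (q.1 - z.1) • z.2.2‖ := by
              rw [← h1]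
          _ ≤ _ := norm_add₃_le
      have h3 : ‖(q.1 - z.1) • z.2.2‖ ≤ 3 := by
        rw [norm_smul, Real.norm_eq_abs, abs_of_pos hq1]
        nlinarith [norm_nonneg z.2.2]
      have h4 : R0 ^ 3 * r ^ 3 ≤ R0 ^ 3 := by
        have : r ^ 3 ≤ 1 := pow_le_one₀ hr.le hr1
        have h5 : 0 ≤ R0 ^ 3 := by positivity
        nlinarith
      nlinarith [h2, h3, h4, hq3, hz3, sq_nonneg R0]
    · simp only [Prod.snd_zero, sub_zero, mul_one]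
      have h1 : q.2.2 = (q.2.2 - z.2.2) + z.2.2 := by abel
      have h2 : ‖q.2.2‖ ≤ ‖q.2.2 - z.2.2‖ + ‖z.2.2‖ := by
        calc ‖q.2.2‖ = ‖(q.2.2 - z.2.2) + z.2.2‖ := by rw [← h1]
          _ ≤ _ := norm_add_le _ _
      have h3 : R0 * r ≤ R0 := by nlinarith
      linarith
  refine hmain Ω g hΩ hg z r ((p.1 - z.1) / r ^ 2) a hr ?_ ?_ ha (hsub.trans hreg)
    (fun q hq => h0 q (hsub hq)) hdens p ?_ ?_ ?_ ?_
  · rw [le_div_iff₀ hr2]; linarith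
  · exact div_le_div_of_nonneg_right (by linarith) hr2.le
  · linarith
  · rw [div_mul_cancel₀ _ hr2.ne']
  · have h1 : (10 / r) ^ 3 * r ^ 3 = 1000 := by
      rw [div_pow, div_mul_cancel₀ _ (by positivity)]; norm_num
    rw [h1]
    have h2 : ‖p.2.1 - z.2.1 - (p.1 - z.1) • z.2.2‖ ≤ ‖p.2.1‖ + ‖z.2.1‖ +
        ‖(p.1 - z.1) • z.2.2‖ := by
      calc _ ≤ ‖p.2.1 - z.2.1‖ + ‖(p.1 - z.1) • z.2.2‖ := norm_sub_le _ _
        _ ≤ _ := by gcongr; exact norm_sub_le _ _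
    have h3 : ‖(p.1 - z.1) • z.2.2‖ ≤ 3 := by
      rw [norm_smul, Real.norm_eq_abs, abs_of_pos (by linarith)]
      nlinarith [norm_nonneg z.2.2]
    linarith
  · have h1 : (10 / r) * r = 10 := by
      rw [div_mul_cancel₀ _ hr.ne']
    rw [h1]
    have h2 := norm_sub_le p.2.2 z.2.2
    linarith

end Pool.Agent.Lib.MP_eee7b5_an
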