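import Pool.Agent.Lib.MP_eee7b5_an.Fill
import Pool.Agent.Lib.MP_eee7b5_an.InkA
import Pool.Agent.Lib.MP_eee7b5_an.InkB
import Pool.Agent.Lib.MP_eee7b5_an.InkC
import Pool.Agent.Lib.MP_eee7b5_an.InkD
import Pool.Agent.Lib.MP_eee7b5_an.InkE
import Pool.Agent.Lib.MP_eee7b5_an.InkF
import Pool.Agent.Lib.MP_eee7b5_an.InkG

set_option autoImplicit false

/-!
The covering argument and the passage from measure to pointwise bounds.
-/

namespace Pool.Agent.Lib.MP_eee7b5_an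

open MeasureTheory Set Matrix
open scoped ENNReal

variable {d : ℕ}

theorem Qf_subset_SB' {r : ℝ} (hr : 0 < r) : (Qf (0 : ST d) 1) ⊆ SB d r := by
  rw [Qf_zero]
  unfold SB
  refine Set.prod_mono ?_ (Set.prod_mono ?_ ?_)
  · intro x hx
    exact ⟨hx.1, by linarith [hx.2]⟩
  · exact Metric.ball_subset_ball (by linarith)
  · exact Metric.ball_subset_ball (by linarith)

/-- Iteration: if no cylinder of size `r` is dense at the levels `a_k = (c/2)^k`, `k < n`, then
the level sets grow linearly in measure. -/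
theorem ink_iter {lam Lam μ R c η : ℝ} (hc : 0 < c) (hc1 : c ≤ 1) (hη : 0 < η)
    (hink : ∀ (Ω : Set (ST d)) (g : ST d → ℝ), IsOpen Ω → IsSol lam Lam Ω g →
      RegAt 0 1 2 R ⊆ Ω → (∀ p ∈ RegAt (0 : ST d) 1 2 R, 0 ≤ g p) →
      ∀ r a : ℝ, 0 < r → r ≤ 1 → 0 < a →
      (∀ z ∈ Qf (0 : ST d) 1, a < g z → ¬ Dens μ a g z r) →
      ENNReal.ofReal (1 + η) * volume (Qf (0 : ST d) 1 ∩ {p | a < g p}) ≤
        volume (SB d r ∩ {p | c * a ≤ g p}))
    {r : ℝ} (hr : 0 < r) (hr1 : r ≤ 1)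
    (hSB : volume (SB d r) ≤ ENNReal.ofReal (1 + η / 4) * volume (Qf (0 : ST d) 1))
    (Ω : Set (ST d)) (g : ST d → ℝ) (hΩ : IsOpen Ω) (hg : IsSol lam Lam Ω g)
    (hreg : RegAt 0 1 2 R ⊆ Ω) (h0 : ∀ p ∈ RegAt (0 : ST d) 1 2 R, 0 ≤ g p)
    (hhalf : volume (Qf (0 : ST d) 1) ≤ 2 * volume (Qf (0 : ST d) 1 ∩ {p | 1 < g p}))
    (n : ℕ) (hn : ∀ k < n, ∀ z ∈ Qf (0 : ST d) 1, (c / 2) ^ k < g z →
      ¬ Dens μ ((c / 2) ^ k) g z r) :
    ENNReal.ofReal (1 / 2 + n * (η / 4)) * volume (Qf (0 : ST d) 1) ≤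
      volume (Qf (0 : ST d) 1 ∩ {p | (c / 2) ^ n < g p}) := by
  have hV : volume (Qf (0 : ST d) 1) ≠ ⊤ := (volume_Qf_lt_top 0 1).ne
  have hdiff : volume (SB d r \ Qf (0 : ST d) 1) ≤
      ENNReal.ofReal (η / 4) * volume (Qf (0 : ST d) 1) := by
    have h1 : volume (SB d r \ Qf (0 : ST d) 1) + volume (Qf (0 : ST d) 1) = volume (SB d r) := by
      have := measure_diff_add_inter (μ := volume) (SB d r) (Qf_isOpen (0 : ST d) 1).measurableSet
      rwa [inter_eq_right.2 (Qf_subset_SB' hr)] at this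
    have h2 : ENNReal.ofReal (1 + η / 4) * volume (Qf (0 : ST d) 1) =
        ENNReal.ofReal (η / 4) * volume (Qf (0 : ST d) 1) + volume (Qf (0 : ST d) 1) := by
      rw [ENNReal.ofReal_add (by norm_num) (by positivity), ENNReal.ofReal_one, add_mul, one_mul,
        add_comm]
    rw [← h1, h2] at hSB
    exact (ENNReal.add_le_add_iff_right hV).1 hSB
  induction n with
  | zero =>
    have h1 : ENNReal.ofReal (1 / 2 + ((0 : ℕ) : ℝ) * (η / 4)) = (2 : ℝ≥0∞)⁻¹ := by
      rw [Nat.cast_zero, zero_mul, add_zero, one_div, ENNReal.ofReal_inv_of_pos (by norm_num)]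
      norm_num
    rw [h1, pow_zero]
    calc (2 : ℝ≥0∞)⁻¹ * volume (Qf (0 : ST d) 1)
        ≤ (2 : ℝ≥0∞)⁻¹ * (2 * volume (Qf (0 : ST d) 1 ∩ {p | 1 < g p})) := by gcongr
      _ = volume (Qf (0 : ST d) 1 ∩ {p | 1 < g p}) := by
        rw [← mul_assoc, ENNReal.inv_mul_cancel (by norm_num) (by norm_num), one_mul]
  | succ n ih =>
    have ih' := ih (fun k hk => hn k (by omega))
    have h1 := hink Ω g hΩ hg hreg h0 r ((c / 2) ^ n) hr hr1 (by positivity)
      (hn n (by omega))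
    have h2 : volume (SB d r ∩ {p | c * (c / 2) ^ n ≤ g p}) ≤
        volume (Qf (0 : ST d) 1 ∩ {p | (c / 2) ^ (n + 1) < g p}) +
          ENNReal.ofReal (η / 4) * volume (Qf (0 : ST d) 1) := by
      refine le_trans (measure_mono ?_) ((measure_union_le _ _).trans
        (add_le_add le_rfl hdiff))
      rintro p ⟨hp1, hp2⟩
      by_cases hp : p ∈ Qf (0 : ST d) 1
      · left
        refine ⟨hp, ?_⟩
        have h3 : (0 : ℝ) < (c / 2) ^ n := by positivity
        have h4 : c * (c / 2) ^ n ≤ g p := hp2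
        show (c / 2) ^ (n + 1) < g p
        rw [pow_succ]
        nlinarith
      · right
        exact ⟨hp1, hp⟩
    have h3 : ENNReal.ofReal (1 / 2 + ((n + 1 : ℕ) : ℝ) * (η / 4)) * volume (Qf (0 : ST d) 1) +
        ENNReal.ofReal (η / 4) * volume (Qf (0 : ST d) 1) ≤
        ENNReal.ofReal (1 + η) * volume (Qf (0 : ST d) 1 ∩ {p | (c / 2) ^ n < g p}) := by
      calc _ = ENNReal.ofReal (1 / 2 + ((n + 1 : ℕ) : ℝ) * (η / 4) + η / 4) *
            volume (Qf (0 : ST d) 1) := by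
            rw [← add_mul, ← ENNReal.ofReal_add (by positivity) (by positivity)]
        _ ≤ ENNReal.ofReal ((1 + η) * (1 / 2 + n * (η / 4))) * volume (Qf (0 : ST d) 1) := by
            gcongr
            push_cast
            have : (0 : ℝ) ≤ n := Nat.cast_nonneg n
            nlinarith [mul_nonneg this (mul_nonneg hη.le hη.le)]
        _ = ENNReal.ofReal (1 + η) *
            (ENNReal.ofReal (1 / 2 + n * (η / 4)) * volume (Qf (0 : ST d) 1)) := by
            rw [ENNReal.ofReal_mul (by positivity), mul_assoc]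
        _ ≤ _ := by gcongr
    have h4 := h3.trans (h1.trans h2)
    exact (ENNReal.add_le_add_iff_right (ENNReal.mul_ne_top ENNReal.ofReal_ne_top hV)).1 h4

end Pool.Agent.Lib.MP_eee7b5_an
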