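import Pool.Agent.Lib.MP_eee7b5_an.Fill
import Pool.Agent.Lib.MP_eee7b5_an.InkA
import Pool.Agent.Lib.MP_eee7b5_an.InkB
import Pool.Agent.Lib.MP_eee7b5_an.InkC
import Pool.Agent.Lib.MP_eee7b5_an.InkD
import Pool.Agent.Lib.MP_eee7b5_an.InkE
import Pool.Agent.Lib.MP_eee7b5_an.InkF
import Pool.Agent.Lib.MP_eee7b5_an.InkG
import Pool.Agent.Lib.MP_eee7b5_an.InkH

set_option autoImplicit false

/-!
The covering argument and the passage from measure to pointwise bounds.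
-/

namespace Pool.Agent.Lib.MP_eee7b5_an

open MeasureTheory Set Matrix
open scoped ENNReal

variable {d : ℕ}

theorem RegAt_zero_mono {T R T' R' : ℝ} (hT : T ≤ T') (hR0 : 0 ≤ R) (hR : R ≤ R') :
    (RegAt 0 1 T R : Set (ST d)) ⊆ RegAt 0 1 T' R' := by
  rintro q ⟨h1, h2, h3, h4⟩
  refine ⟨h1, ?_, ?_, ?_⟩
  · simp only [one_pow, mul_one] at h2 ⊢; linarith
  · refine h3.trans ?_
    have : R ^ 3 ≤ R' ^ 3 := pow_le_pow_left₀ hR0 hR 3
    simpa using this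
  · refine h4.trans ?_
    simpa using hR

/-- **Measure to pointwise.** -/
theorem m2p {lam Lam : ℝ} (hd : 1 ≤ d) (hlam : 0 < lam) (hLam : lam ≤ Lam) :
    ∃ R c : ℝ, 1 ≤ R ∧ 0 < c ∧ ∀ (Ω : Set (ST d)) (g : ST d → ℝ), IsOpen Ω →
      IsSol lam Lam Ω g → RegAt 0 1 3 R ⊆ Ω → (∀ p ∈ RegAt (0 : ST d) 1 3 R, 0 ≤ g p) →
      volume (Qf (0 : ST d) 1) ≤ 2 * volume (Qf (0 : ST d) 1 ∩ {p | 1 < g p}) →
      ∀ p : ST d, 2 ≤ p.1 → p.1 ≤ 3 → ‖p.2.1‖ ≤ 1 → ‖p.2.2‖ ≤ 1 → c ≤ g p := by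
  obtain ⟨μ, hμ, hμ1, hB⟩ := exists_BGLU (d := d) hd hlam hLam
  have hBGL := BGL_of_BGLU hlam hμ hB
  have hF := FILL_of_BGL hlam hμ hBGL
  obtain ⟨R1, c1, η, hR1, hc1, hc11, hη, hink⟩ := ink hlam hμ hμ1 hF
  obtain ⟨r, hr, hr1, hSB⟩ := volume_SB (d := d) (ε := η / 4) (by positivity)
  obtain ⟨R2, c2, hR2, hc2, hc21, hfd⟩ := from_dens hlam hμ hBGL hr hr1
  obtain ⟨N, hN⟩ := exists_nat_gt (2 / η)
  have hN' : (1 : ℝ) < 1 / 2 + N * (η / 4) := by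
    rw [div_lt_iff₀ hη] at hN
    linarith
  refine ⟨max R1 R2, c2 * (c1 / 2) ^ N, le_trans hR1 (le_max_left _ _), by positivity, ?_⟩
  intro Ω g hΩ hg hreg h0 hhalf p hp1 hp2 hpx hpv
  have hs1 : (RegAt 0 1 2 R1 : Set (ST d)) ⊆ RegAt 0 1 3 (max R1 R2) :=
    RegAt_zero_mono (by norm_num) (by linarith) (le_max_left _ _)
  have hs2 : (RegAt 0 1 3 R2 : Set (ST d)) ⊆ RegAt 0 1 3 (max R1 R2) :=
    RegAt_zero_mono le_rfl (by linarith) (le_max_right _ _)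
  have hex : ∃ k < N, ∃ z ∈ Qf (0 : ST d) 1, Dens μ ((c1 / 2) ^ k) g z r := by
    by_contra hcon
    push Not at hcon
    have h1 := ink_iter hc1 hc11 hη hink hr hr1 hSB Ω g hΩ hg (hs1.trans hreg)
      (fun q hq => h0 q (hs1 hq)) hhalf N (fun k hk z hz _ => hcon k hk z hz)
    have h2 : volume (Qf (0 : ST d) 1 ∩ {p | (c1 / 2) ^ N < g p}) ≤ volume (Qf (0 : ST d) 1) :=
      measure_mono inter_subset_left
    have h3 := h1.trans h2
    have h4 : volume (Qf (0 : ST d) 1) < ENNReal.ofReal (1 / 2 + N * (η / 4)) *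
        volume (Qf (0 : ST d) 1) := by
      calc volume (Qf (0 : ST d) 1) = 1 * volume (Qf (0 : ST d) 1) := (one_mul _).symm
        _ < _ := by
          refine (ENNReal.mul_lt_mul_iff_left (volume_Qf_pos 0 one_pos).ne'
            (volume_Qf_lt_top 0 1).ne).2 ?_
          rw [← ENNReal.ofReal_one]
          exact (ENNReal.ofReal_lt_ofReal_iff (by linarith)).2 hN'
    exact absurd h3 (not_le.2 h4)
  obtain ⟨k, hk, z, hz, hd'⟩ := hex
  have h5 := hfd Ω g ((c1 / 2) ^ k) hΩ hg (by positivity) (hs2.trans hreg)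
    (fun q hq => h0 q (hs2 hq)) z hz hd' p hp1 hp2 hpx hpv
  have h6 : (c1 / 2) ^ N ≤ (c1 / 2) ^ k :=
    pow_le_pow_of_le_one (by positivity) (by linarith) hk.le
  have h7 : c2 * (c1 / 2) ^ N ≤ c2 * (c1 / 2) ^ k := by gcongr
  exact h7.trans h5

end Pool.Agent.Lib.MP_eee7b5_an
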