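import Pool.Agent.Lib.MP_eee7b5_an.Fill
import Pool.Agent.Lib.MP_eee7b5_an.InkA
import Pool.Agent.Lib.MP_eee7b5_an.InkB
import Pool.Agent.Lib.MP_eee7b5_an.InkC
import Pool.Agent.Lib.MP_eee7b5_an.InkD
import Pool.Agent.Lib.MP_eee7b5_an.InkE
import Pool.Agent.Lib.MP_eee7b5_an.InkF
import Pool.Agent.Lib.MP_eee7b5_an.InkG
import Pool.Agent.Lib.MP_eee7b5_an.InkH
import Pool.Agent.Lib.MP_eee7b5_an.InkI
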