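import Pool.Agent.Lib.MP_eee7b5_an.TTwo

set_option autoImplicit false

/-!
The kernel of one step of the chain, as a function of `ε = √h`.
-/

namespace Pool.Agent.Lib.MP_eee7b5_an

open MeasureTheory Set Matrix
open scoped ENNReal

/-- The shear `(x, v) ↦ (x - h v, v)` preserves integrals. -/
theorem integral_shear {d : ℕ} (h : ℝ) (g : ZZ d → ℝ) :
    ∫ z : ZZ d, g (z.1 - h • z.2, z.2) = ∫ z : ZZ d, g z := by
  -- the shear on the swapped product
  have h1 : MeasurePreserving (fun p : E d × E d => (p.1, p.2 - h • p.1))
      ((volume : Measure (E d)).prod (volume : Measure (E d)))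
      ((volume : Measure (E d)).prod (volume : Measure (E d))) := by
    refine MeasurePreserving.skew_product (g := fun (v x : E d) => x - h • v)
      (MeasurePreserving.id _) ?_ (Filter.Eventually.of_forall fun v => ?_)
    · exact (continuous_snd.sub (continuous_fst.const_smul h)).measurable
    · exact (measurePreserving_sub_right (volume : Measure (E d)) (h • v)).map_eq
  have h2 : MeasurePreserving (Prod.swap : E d × E d → E d × E d)
      ((volume : Measure (E d)).prod (volume : Measure (E d)))
      ((volume : Measure (E d)).prod (volume : Measure (E d))) :=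
    Measure.measurePreserving_swap
  have h3 : MeasurePreserving (fun z : ZZ d => ((z.1 - h • z.2, z.2) : ZZ d))
      (volume : Measure (ZZ d)) (volume : Measure (ZZ d)) := by
    have h4 := h2.comp (h1.comp h2)
    exact h4
  let e : ZZ d ≃ₜ ZZ d :=
    { toFun := fun z => (z.1 - h • z.2, z.2)
      invFun := fun z => (z.1 + h • z.2, z.2)
      left_inv := fun z => by simp
      right_inv := fun z => by simp
      continuous_toFun :=
        (continuous_fst.sub (continuous_snd.const_smul h)).prodMk continuous_snd
      continuous_invFun :=
        (continuous_fst.add (continuous_snd.const_smul h)).prodMk continuous_snd }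
  exact h3.integral_comp e.measurableEmbedding g

/-- Kernel of one step: jump `ε b`, shear by `ε²`, and decrease of `s` by `c ε²`. -/
noncomputable def KK {d : ℕ} (κ c s : ℝ) (b : E d) (ε : ℝ) (z : ZZ d) : ℝ :=
  GG κ (s - c * ε ^ 2) (z.1 - ε ^ 2 • z.2, z.2 - ε • b)

end Pool.Agent.Lib.MP_eee7b5_an
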