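import Pool.Agent.Lib.MP_eee7b5_an.TTwo
import Pool.Agent.Lib.MP_eee7b5_an.KernA

set_option autoImplicit false

/-!
The kernel of one step of the chain, as a function of `ε = √h`.
-/

namespace Pool.Agent.Lib.MP_eee7b5_an

open MeasureTheory Set Matrix
open scoped ENNReal

/-- Algebra of functions on an interval with three bounded derivatives. -/
def B3 (I : Set ℝ) (M : ℝ) (f : ℝ → ℝ) : Prop :=
  ∃ f1 f2 f3 : ℝ → ℝ, (∀ ε ∈ I, HasDerivAt f (f1 ε) ε) ∧ (∀ ε ∈ I, HasDerivAt f1 (f2 ε) ε) ∧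
    (∀ ε ∈ I, HasDerivAt f2 (f3 ε) ε) ∧
    ∀ ε ∈ I, |f ε| ≤ M ∧ |f1 ε| ≤ M ∧ |f2 ε| ≤ M ∧ |f3 ε| ≤ M

theorem B3.add {I : Set ℝ} {M N : ℝ} {f g : ℝ → ℝ} (hf : B3 I M f) (hg : B3 I N g) :
    B3 I (M + N) (fun ε => f ε + g ε) := by
  obtain ⟨f1, f2, f3, a1, a2, a3, a4⟩ := hf
  obtain ⟨g1, g2, g3, b1, b2, b3, b4⟩ := hg
  refine ⟨fun ε => f1 ε + g1 ε, fun ε => f2 ε + g2 ε, fun ε => f3 ε + g3 ε,
    fun ε hε => (a1 ε hε).add (b1 ε hε), fun ε hε => (a2 ε hε).add (b2 ε hε),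
    fun ε hε => (a3 ε hε).add (b3 ε hε), fun ε hε => ?_⟩
  obtain ⟨p0, p1, p2, p3⟩ := a4 ε hε
  obtain ⟨q0, q1, q2, q3⟩ := b4 ε hε
  exact ⟨(abs_add_le _ _).trans (add_le_add p0 q0), (abs_add_le _ _).trans (add_le_add p1 q1),
    (abs_add_le _ _).trans (add_le_add p2 q2), (abs_add_le _ _).trans (add_le_add p3 q3)⟩

theorem B3.mul {I : Set ℝ} {M N : ℝ} {f g : ℝ → ℝ} (hf : B3 I M f) (hg : B3 I N g) :
    B3 I (8 * M * N) (fun ε => f ε * g ε) := by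
  obtain ⟨f1, f2, f3, a1, a2, a3, a4⟩ := hf
  obtain ⟨g1, g2, g3, b1, b2, b3, b4⟩ := hg
  refine ⟨fun ε => f1 ε * g ε + f ε * g1 ε,
    fun ε => (f2 ε * g ε + f1 ε * g1 ε) + (f1 ε * g1 ε + f ε * g2 ε),
    fun ε => ((f3 ε * g ε + f2 ε * g1 ε) + (f2 ε * g1 ε + f1 ε * g2 ε)) +
      ((f2 ε * g1 ε + f1 ε * g2 ε) + (f1 ε * g2 ε + f ε * g3 ε)),
    fun ε hε => (a1 ε hε).mul (b1 ε hε),
    fun ε hε => ((a2 ε hε).mul (b1 ε hε)).add ((a1 ε hε).mul (b2 ε hε)),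
    fun ε hε => (((a3 ε hε).mul (b1 ε hε)).add ((a2 ε hε).mul (b2 ε hε))).add
      (((a2 ε hε).mul (b2 ε hε)).add ((a1 ε hε).mul (b3 ε hε))), fun ε hε => ?_⟩
  obtain ⟨p0, p1, p2, p3⟩ := a4 ε hε
  obtain ⟨q0, q1, q2, q3⟩ := b4 ε hε
  have hM : 0 ≤ M := (abs_nonneg _).trans p0
  have hN : 0 ≤ N := (abs_nonneg _).trans q0
  have key : ∀ x y : ℝ, |x| ≤ M → |y| ≤ N → |x * y| ≤ M * N := fun x y hx hy => by
    rw [abs_mul]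
    exact mul_le_mul hx hy (abs_nonneg _) hM
  have hMN : 0 ≤ M * N := mul_nonneg hM hN
  have k00 := key _ _ p0 q0
  have k10 := key _ _ p1 q0
  have k01 := key _ _ p0 q1
  have k20 := key _ _ p2 q0
  have k11 := key _ _ p1 q1
  have k02 := key _ _ p0 q2
  have k30 := key _ _ p3 q0
  have k21 := key _ _ p2 q1
  have k12 := key _ _ p1 q2
  have k03 := key _ _ p0 q3
  have t2 : ∀ x y : ℝ, ∀ m n : ℝ, |x| ≤ m → |y| ≤ n → |x + y| ≤ m + n := fun x y m n hx hy =>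
    (abs_add_le _ _).trans (add_le_add hx hy)
  refine ⟨?_, ?_, ?_, ?_⟩
  · linarith
  · have := t2 _ _ _ _ k10 k01
    linarith
  · have := t2 _ _ _ _ (t2 _ _ _ _ k20 k11) (t2 _ _ _ _ k11 k02)
    linarith
  · have := t2 _ _ _ _ (t2 _ _ _ _ (t2 _ _ _ _ k30 k21) (t2 _ _ _ _ k21 k12))
      (t2 _ _ _ _ (t2 _ _ _ _ k21 k12) (t2 _ _ _ _ k12 k03))
    linarith

theorem B3.const_mul {I : Set ℝ} {M : ℝ} (a : ℝ) {f : ℝ → ℝ} (hf : B3 I M f) :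
    B3 I (|a| * M) (fun ε => a * f ε) := by
  obtain ⟨f1, f2, f3, a1, a2, a3, a4⟩ := hf
  refine ⟨fun ε => a * f1 ε, fun ε => a * f2 ε, fun ε => a * f3 ε,
    fun ε hε => (a1 ε hε).const_mul a, fun ε hε => (a2 ε hε).const_mul a,
    fun ε hε => (a3 ε hε).const_mul a, fun ε hε => ?_⟩
  obtain ⟨p0, p1, p2, p3⟩ := a4 ε hε
  simp only [abs_mul]
  exact ⟨mul_le_mul_of_nonneg_left p0 (abs_nonneg _),
    mul_le_mul_of_nonneg_left p1 (abs_nonneg _), mul_le_mul_of_nonneg_left p2 (abs_nonneg _),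
    mul_le_mul_of_nonneg_left p3 (abs_nonneg _)⟩

/-- `1/(s - c ε²)` has three bounded derivatives. -/
theorem B3.inv {c δ : ℝ} (hc : 0 < c) (hδ : 0 < δ) :
    ∃ ε0 M : ℝ, 0 < ε0 ∧ ε0 ≤ 1 ∧ 0 < M ∧ c * ε0 ^ 2 ≤ δ / 2 ∧ ∀ s, δ ≤ s →
      B3 (Icc 0 ε0) M (fun ε => (s - c * ε ^ 2)⁻¹) := by
  set r : ℝ := 2 / δ with hr
  have hr0 : 0 < r := by positivity
  have hc2 : c * (min 1 √(δ / (2 * c))) ^ 2 ≤ δ / 2 := by
    have h1 : (min 1 √(δ / (2 * c))) ^ 2 ≤ √(δ / (2 * c)) ^ 2 :=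
      pow_le_pow_left₀ (by positivity) (min_le_right _ _) 2
    rw [Real.sq_sqrt (by positivity)] at h1
    calc c * (min 1 √(δ / (2 * c))) ^ 2 ≤ c * (δ / (2 * c)) :=
          mul_le_mul_of_nonneg_left h1 hc.le
      _ = δ / 2 := by field_simp
  refine ⟨min 1 √(δ / (2 * c)), r + 2 * c * r ^ 2 + (2 * c * r ^ 2 + 8 * c ^ 2 * r ^ 3) +
    (24 * c ^ 2 * r ^ 3 + 48 * c ^ 3 * r ^ 4), by positivity, min_le_left _ _, by positivity,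
    hc2, ?_⟩
  intro s hs
  have hpos : ∀ ε ∈ Icc (0 : ℝ) (min 1 √(δ / (2 * c))), δ / 2 ≤ s - c * ε ^ 2 := by
    intro ε hε
    have h1 : c * ε ^ 2 ≤ c * (min 1 √(δ / (2 * c))) ^ 2 :=
      mul_le_mul_of_nonneg_left (pow_le_pow_left₀ hε.1 hε.2 2) hc.le
    linarith
  have hw : ∀ ε ∈ Icc (0 : ℝ) (min 1 √(δ / (2 * c))),
      HasDerivAt (fun ε => (s - c * ε ^ 2)⁻¹) (2 * c * ε * ((s - c * ε ^ 2)⁻¹) ^ 2) ε := by
    intro ε hε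
    have h0 : s - c * ε ^ 2 ≠ 0 := by
      have := hpos ε hε
      intro h
      linarith
    have h1 : HasDerivAt (fun ε : ℝ => s - c * ε ^ 2) (-(c * (2 * ε))) ε := by
      have := ((hasDerivAt_pow 2 ε).const_mul c).const_sub s
      simpa using this
    refine (h1.inv h0).congr_deriv ?_
    field_simp
  have hwb : ∀ ε ∈ Icc (0 : ℝ) (min 1 √(δ / (2 * c))),
      0 ≤ (s - c * ε ^ 2)⁻¹ ∧ (s - c * ε ^ 2)⁻¹ ≤ r := by
    intro ε hε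
    have h1 := hpos ε hε
    have h2 : 0 < s - c * ε ^ 2 := by linarith
    refine ⟨inv_nonneg.2 h2.le, ?_⟩
    rw [hr, ← inv_div]
    exact inv_anti₀ (by positivity) h1
  refine ⟨fun ε => 2 * c * ε * ((s - c * ε ^ 2)⁻¹) ^ 2,
    fun ε => 2 * c * ((s - c * ε ^ 2)⁻¹) ^ 2 + 8 * c ^ 2 * ε ^ 2 * ((s - c * ε ^ 2)⁻¹) ^ 3,
    fun ε => 24 * c ^ 2 * ε * ((s - c * ε ^ 2)⁻¹) ^ 3 +
      48 * c ^ 3 * ε ^ 3 * ((s - c * ε ^ 2)⁻¹) ^ 4, hw, ?_, ?_, ?_⟩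
  · intro ε hε
    have h1 : HasDerivAt (fun ε : ℝ => 2 * c * ε) (2 * c) ε := by
      simpa using (hasDerivAt_id ε).const_mul (2 * c)
    refine (h1.mul ((hw ε hε).pow 2)).congr_deriv ?_
    simp only [Pi.pow_apply]
    generalize (s - c * ε ^ 2)⁻¹ = w
    push_cast
    ring
  · intro ε hε
    have h1 : HasDerivAt (fun ε : ℝ => 8 * c ^ 2 * ε ^ 2) (8 * c ^ 2 * (2 * ε)) ε := by
      simpa using (hasDerivAt_pow 2 ε).const_mul (8 * c ^ 2)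
    refine ((((hw ε hε).pow 2).const_mul (2 * c)).add
      (h1.mul ((hw ε hε).pow 3))).congr_deriv ?_
    simp only [Pi.pow_apply]
    generalize (s - c * ε ^ 2)⁻¹ = w
    push_cast
    ring
  · intro ε hε
    obtain ⟨hw0, hw1⟩ := hwb ε hε
    have hε0 : 0 ≤ ε := hε.1
    have hε1 : ε ≤ 1 := hε.2.trans (min_le_left _ _)
    simp only
    generalize (s - c * ε ^ 2)⁻¹ = w at hw0 hw1 ⊢
    have w2 : w ^ 2 ≤ r ^ 2 := pow_le_pow_left₀ hw0 hw1 2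
    have w3 : w ^ 3 ≤ r ^ 3 := pow_le_pow_left₀ hw0 hw1 3
    have w4 : w ^ 4 ≤ r ^ 4 := pow_le_pow_left₀ hw0 hw1 4
    have e2 : ε ^ 2 ≤ 1 := pow_le_one₀ hε0 hε1
    have e3 : ε ^ 3 ≤ 1 := pow_le_one₀ hε0 hε1
    have A1 : 2 * c * ε * w ^ 2 ≤ 2 * c * r ^ 2 := by
      calc 2 * c * ε * w ^ 2 ≤ 2 * c * 1 * r ^ 2 := by gcongr
        _ = _ := by ring
    have A2 : 2 * c * w ^ 2 ≤ 2 * c * r ^ 2 := by gcongr
    have A3 : 8 * c ^ 2 * ε ^ 2 * w ^ 3 ≤ 8 * c ^ 2 * r ^ 3 := by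
      calc 8 * c ^ 2 * ε ^ 2 * w ^ 3 ≤ 8 * c ^ 2 * 1 * r ^ 3 := by gcongr
        _ = _ := by ring
    have A4 : 24 * c ^ 2 * ε * w ^ 3 ≤ 24 * c ^ 2 * r ^ 3 := by
      calc 24 * c ^ 2 * ε * w ^ 3 ≤ 24 * c ^ 2 * 1 * r ^ 3 := by gcongr
        _ = _ := by ring
    have A5 : 48 * c ^ 3 * ε ^ 3 * w ^ 4 ≤ 48 * c ^ 3 * r ^ 4 := by
      calc 48 * c ^ 3 * ε ^ 3 * w ^ 4 ≤ 48 * c ^ 3 * 1 * r ^ 4 := by gcongr
        _ = _ := by ring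
    have P1 : 0 < 2 * c * r ^ 2 := by positivity
    have P2 : 0 < 8 * c ^ 2 * r ^ 3 := by positivity
    have P3 : 0 < 24 * c ^ 2 * r ^ 3 := by positivity
    have P4 : 0 < 48 * c ^ 3 * r ^ 4 := by positivity
    rw [abs_of_nonneg hw0, abs_of_nonneg (by positivity), abs_of_nonneg (by positivity),
      abs_of_nonneg (by positivity)]
    refine ⟨by linarith, by linarith, by linarith, by linarith⟩

end Pool.Agent.Lib.MP_eee7b5_an
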