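import Pool.Agent.Lib.MP_eee7b5_an.TTwo
import Pool.Agent.Lib.MP_eee7b5_an.KernA
import Pool.Agent.Lib.MP_eee7b5_an.KernB

set_option autoImplicit false

/-!
The kernel of one step of the chain, as a function of `ε = √h`.
-/

namespace Pool.Agent.Lib.MP_eee7b5_an

open MeasureTheory Set Matrix
open scoped ENNReal

theorem B3.kc_mono {I : Set ℝ} {M N : ℝ} {f : ℝ → ℝ} (hf : B3 I M f) (h : M ≤ N) : B3 I N f := by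
  obtain ⟨f1, f2, f3, h1, h2, h3, h4⟩ := hf
  refine ⟨f1, f2, f3, h1, h2, h3, fun ε hε => ?_⟩
  obtain ⟨a, b, c, d⟩ := h4 ε hε
  exact ⟨a.trans h, b.trans h, c.trans h, d.trans h⟩

theorem B3.kc_one (I : Set ℝ) : B3 I 1 (fun _ => (1 : ℝ)) := by
  refine ⟨fun _ => 0, fun _ => 0, fun _ => 0, fun ε _ => hasDerivAt_const ε 1,
    fun ε _ => hasDerivAt_const ε 0, fun ε _ => hasDerivAt_const ε 0, fun ε _ => ?_⟩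
  simp

theorem B3.kc_id {ε0 : ℝ} (h1 : ε0 ≤ 1) : B3 (Icc 0 ε0) 1 (fun ε => ε) := by
  refine ⟨fun _ => 1, fun _ => 0, fun _ => 0, fun ε _ => hasDerivAt_id ε,
    fun ε _ => hasDerivAt_const ε 1, fun ε _ => hasDerivAt_const ε 0, fun ε hε => ?_⟩
  refine ⟨?_, by simp, by simp, by simp⟩
  rw [abs_of_nonneg hε.1]
  exact hε.2.trans h1

theorem B3.kc_pow {I : Set ℝ} {M : ℝ} {f : ℝ → ℝ} (hf : B3 I M f) (n : ℕ) :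
    B3 I ((8 * M) ^ n) (fun ε => f ε ^ n) := by
  induction n with
  | zero => simpa using B3.kc_one I
  | succ n ih =>
    have h := B3.mul ih hf
    have e1 : 8 * (8 * M) ^ n * M = (8 * M) ^ (n + 1) := by rw [pow_succ]; ring
    rw [e1] at h
    simpa only [pow_succ] using h

/-- monomials in `ε` and `(s - c ε²)⁻¹` -/
theorem B3.kc_monom {ε0 M L : ℝ} (hε1 : ε0 ≤ 1) (hM : 0 < M) (hL : L = 8 * M + 1)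
    {r : ℝ → ℝ} (hr : B3 (Icc 0 ε0) M r) {k l : ℕ} (hk : k ≤ 4) (hl : l ≤ 3) :
    B3 (Icc 0 ε0) (8 * 8 ^ 4 * L ^ 3) (fun ε => ε ^ k * r ε ^ l) := by
  have h := B3.mul (B3.kc_pow (B3.kc_id hε1) k) (B3.kc_pow hr l)
  refine h.kc_mono ?_
  have h1 : (8 * (1 : ℝ)) ^ k ≤ 8 ^ 4 := by
    rw [mul_one]
    exact pow_le_pow_right₀ (by norm_num) hk
  have h2 : (8 * M) ^ l ≤ L ^ 3 := by
    have hL1 : 1 ≤ L := by rw [hL]; linarith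
    calc (8 * M) ^ l ≤ L ^ l := pow_le_pow_left₀ (by positivity) (by rw [hL]; linarith) l
      _ ≤ L ^ 3 := pow_le_pow_right₀ hL1 hl
  have h3 : (0 : ℝ) ≤ (8 * M) ^ l := by positivity
  calc 8 * (8 * (1 : ℝ)) ^ k * (8 * M) ^ l ≤ 8 * 8 ^ 4 * (8 * M) ^ l := by
        apply mul_le_mul_of_nonneg_right _ h3
        linarith
    _ ≤ 8 * 8 ^ 4 * L ^ 3 := mul_le_mul_of_nonneg_left h2 (by norm_num)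

theorem B3.kc_coef {I : Set ℝ} {C a A : ℝ} (hC : 0 ≤ C) (ha : |a| ≤ A) {f : ℝ → ℝ}
    (hf : B3 I C f) : B3 I (A * C) (fun ε => a * f ε) :=
  (B3.const_mul a hf).kc_mono (mul_le_mul_of_nonneg_right ha hC)

theorem kc_expand {d : ℕ} (κ τ ε : ℝ) (x v b : E d) :
    qG κ τ (x - ε ^ 2 • v, v - ε • b) =
      ((κ ^ 2)⁻¹ * ‖x‖ ^ 2) * (ε ^ 0 * τ⁻¹ ^ 3) + (-(2 * (κ ^ 2)⁻¹ * inner ℝ x v)) *
        (ε ^ 2 * τ⁻¹ ^ 3) + ((κ ^ 2)⁻¹ * ‖v‖ ^ 2) * (ε ^ 4 * τ⁻¹ ^ 3) +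
      (-(κ⁻¹ * inner ℝ x v)) * (ε ^ 0 * τ⁻¹ ^ 2) + (κ⁻¹ * inner ℝ x b) * (ε ^ 1 * τ⁻¹ ^ 2) +
      (κ⁻¹ * ‖v‖ ^ 2) * (ε ^ 2 * τ⁻¹ ^ 2) + (-(κ⁻¹ * inner ℝ v b)) * (ε ^ 3 * τ⁻¹ ^ 2) +
      (1 / 2 * ‖v‖ ^ 2) * (ε ^ 0 * τ⁻¹ ^ 1) + (-(inner ℝ v b)) * (ε ^ 1 * τ⁻¹ ^ 1) +
      (1 / 2 * ‖b‖ ^ 2) * (ε ^ 2 * τ⁻¹ ^ 1) := by
  unfold qG
  have h1 : ‖x - ε ^ 2 • v‖ ^ 2 = ‖x‖ ^ 2 - 2 * ε ^ 2 * inner ℝ x v + ε ^ 4 * ‖v‖ ^ 2 := by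
    rw [norm_sub_sq_real, inner_smul_right, norm_smul, mul_pow, Real.norm_eq_abs, sq_abs]
    ring
  have h2 : ‖v - ε • b‖ ^ 2 = ‖v‖ ^ 2 - 2 * ε * inner ℝ v b + ε ^ 2 * ‖b‖ ^ 2 := by
    rw [norm_sub_sq_real, inner_smul_right, norm_smul, mul_pow, Real.norm_eq_abs, sq_abs]
    ring
  have h3 : inner ℝ (x - ε ^ 2 • v) (v - ε • b) =
      inner ℝ x v - ε * inner ℝ x b - ε ^ 2 * ‖v‖ ^ 2 + ε ^ 3 * inner ℝ v b := by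
    rw [inner_sub_left, inner_sub_right, inner_sub_right, inner_smul_left, inner_smul_left,
      inner_smul_right, inner_smul_right, real_inner_self_eq_norm_sq]
    simp only [conj_trivial]
    ring
  simp only
  rw [h1, h2, h3]
  simp only [div_eq_mul_inv, mul_inv, inv_pow]
  ring

theorem kc_bnd_vv {d : ℕ} (x v : E d) {bmax : ℝ} (hb : 0 ≤ bmax) :
    |‖x‖ ^ 2| ≤ (1 + ‖x‖ ^ 2 + ‖v‖ ^ 2) * (1 + bmax) ^ 2 ∧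
    |‖v‖ ^ 2| ≤ (1 + ‖x‖ ^ 2 + ‖v‖ ^ 2) * (1 + bmax) ^ 2 ∧
    |inner ℝ x v| ≤ (1 + ‖x‖ ^ 2 + ‖v‖ ^ 2) * (1 + bmax) ^ 2 := by
  have h1 := sq_nonneg ‖x‖
  have h2 := sq_nonneg ‖v‖
  have hb1 : 1 ≤ (1 + bmax) ^ 2 := by
    have : 0 ≤ bmax ^ 2 := sq_nonneg _
    linarith [this, show (1 + bmax) ^ 2 = 1 + 2 * bmax + bmax ^ 2 by ring]
  have hP : 0 ≤ 1 + ‖x‖ ^ 2 + ‖v‖ ^ 2 := by linarith
  have hPb : 1 + ‖x‖ ^ 2 + ‖v‖ ^ 2 ≤ (1 + ‖x‖ ^ 2 + ‖v‖ ^ 2) * (1 + bmax) ^ 2 :=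
    le_mul_of_one_le_right hP hb1
  have h3 := abs_real_inner_le_norm x v
  have h4 : ‖x‖ * ‖v‖ ≤ (‖x‖ ^ 2 + ‖v‖ ^ 2) / 2 := by
    have : 0 ≤ (‖x‖ - ‖v‖) ^ 2 := sq_nonneg _
    linarith [this, show (‖x‖ - ‖v‖) ^ 2 = ‖x‖ ^ 2 - 2 * (‖x‖ * ‖v‖) + ‖v‖ ^ 2 by ring]
  refine ⟨?_, ?_, ?_⟩
  · rw [abs_of_nonneg h1]; linarith
  · rw [abs_of_nonneg h2]; linarith
  · linarith

theorem kc_bnd_xb {d : ℕ} (x b : E d) {bmax P : ℝ} (hb : 0 ≤ bmax) (hbb : ‖b‖ ≤ bmax)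
    (hP : 1 + ‖x‖ ^ 2 ≤ P) : |inner ℝ x b| ≤ P * (1 + bmax) ^ 2 := by
  have h1 := abs_real_inner_le_norm x b
  have h2 : ‖x‖ * ‖b‖ ≤ ‖x‖ * bmax := mul_le_mul_of_nonneg_left hbb (norm_nonneg _)
  have h3 : ‖x‖ ≤ P := by
    have : 0 ≤ (‖x‖ - 1) ^ 2 := sq_nonneg _
    have h5 := sq_nonneg ‖x‖
    linarith [this, show (‖x‖ - 1) ^ 2 = ‖x‖ ^ 2 - 2 * ‖x‖ + 1 by ring]
  have hP0 : 0 ≤ P := le_trans (norm_nonneg x) h3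
  have h4 : ‖x‖ * bmax ≤ P * bmax := mul_le_mul_of_nonneg_right h3 hb
  have h5 : bmax ≤ (1 + bmax) ^ 2 := by
    have : 0 ≤ bmax ^ 2 := sq_nonneg _
    linarith [this, show (1 + bmax) ^ 2 = 1 + 2 * bmax + bmax ^ 2 by ring]
  have h6 : P * bmax ≤ P * (1 + bmax) ^ 2 := mul_le_mul_of_nonneg_left h5 hP0
  linarith

theorem kc_bnd_bb {d : ℕ} (b : E d) {bmax P : ℝ} (hbb : ‖b‖ ≤ bmax)
    (hP : 1 ≤ P) : |‖b‖ ^ 2| ≤ P * (1 + bmax) ^ 2 := by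
  rw [abs_of_nonneg (sq_nonneg _)]
  have h1 : ‖b‖ ^ 2 ≤ (1 + bmax) ^ 2 :=
    pow_le_pow_left₀ (norm_nonneg _) (by linarith) 2
  have h2 : (0 : ℝ) ≤ (1 + bmax) ^ 2 := sq_nonneg _
  have h3 : (1 + bmax) ^ 2 ≤ P * (1 + bmax) ^ 2 := le_mul_of_one_le_left h2 hP
  linarith

/-- The exponent of the kernel has three derivatives bounded by a quadratic polynomial. -/
theorem B3.expo {d : ℕ} {κ c δ S bmax : ℝ} (hκ : 0 < κ) (hc : 0 < c) (hδ : 0 < δ)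
    (hS : δ ≤ S) (hb : 0 ≤ bmax) :
    ∃ ε0 M : ℝ, 0 < ε0 ∧ ε0 ≤ 1 ∧ 0 < M ∧ c * ε0 ^ 2 ≤ δ / 2 ∧
      ∀ s, δ ≤ s → s ≤ S → ∀ b : E d, ‖b‖ ≤ bmax → ∀ z : ZZ d,
      B3 (Icc 0 ε0) (M * (1 + ‖z.1‖ ^ 2 + ‖z.2‖ ^ 2))
        (fun ε => qG κ (s - c * ε ^ 2) (z.1 - ε ^ 2 • z.2, z.2 - ε • b)) := by
  obtain ⟨ε0, M, hε0, hε1, hM, hcε, hB⟩ := B3.inv hc hδ
  set L : ℝ := 8 * M + 1 with hL
  set C : ℝ := 8 * 8 ^ 4 * L ^ 3 with hC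
  have hC0 : 0 < C := by positivity
  set Kc : ℝ := 2 * ((κ ^ 2)⁻¹ + κ⁻¹ + 1) * (1 + bmax) ^ 2 with hKc
  have hKc0 : 0 < Kc := by positivity
  refine ⟨ε0, 10 * Kc * C, hε0, hε1, by positivity, hcε, ?_⟩
  intro s hs _ b hbb z
  obtain ⟨x, v⟩ := z
  have hr := hB s hs
  have hm : ∀ k l : ℕ, k ≤ 4 → l ≤ 3 → B3 (Icc 0 ε0) C
      (fun ε => ε ^ k * (s - c * ε ^ 2)⁻¹ ^ l) := fun k l hk hl =>
    B3.kc_monom hε1 hM hL hr hk hl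
  set P : ℝ := 1 + ‖x‖ ^ 2 + ‖v‖ ^ 2 with hP
  have hP1 : 1 ≤ P := by
    have := sq_nonneg ‖x‖; have := sq_nonneg ‖v‖; linarith
  have hi1 : 0 < (κ ^ 2)⁻¹ := by positivity
  have hi2 : 0 < κ⁻¹ := by positivity
  have hq : ∀ t : ℝ, |t| ≤ P * (1 + bmax) ^ 2 → ∀ a : ℝ, 0 ≤ a →
      a ≤ 2 * ((κ ^ 2)⁻¹ + κ⁻¹ + 1) → |a * t| ≤ Kc * P := by
    intro t ht a ha0 ha
    rw [abs_mul, abs_of_nonneg ha0]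
    calc a * |t| ≤ (2 * ((κ ^ 2)⁻¹ + κ⁻¹ + 1)) * (P * (1 + bmax) ^ 2) :=
          mul_le_mul ha ht (abs_nonneg _) (by positivity)
      _ = Kc * P := by rw [hKc]; ring
  obtain ⟨hxx, hvv, hxv⟩ := kc_bnd_vv x v hb
  have hbb2 : |‖b‖ ^ 2| ≤ P * (1 + bmax) ^ 2 := kc_bnd_bb b hbb hP1
  have hxb : |inner ℝ x b| ≤ P * (1 + bmax) ^ 2 :=
    kc_bnd_xb x b hb hbb (by rw [hP]; have := sq_nonneg ‖v‖; linarith)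
  have hvb : |inner ℝ v b| ≤ P * (1 + bmax) ^ 2 :=
    kc_bnd_xb v b hb hbb (by rw [hP]; have := sq_nonneg ‖x‖; linarith)
  have c1 : |(κ ^ 2)⁻¹ * ‖x‖ ^ 2| ≤ Kc * P := hq _ hxx _ hi1.le (by linarith)
  have c2 : |-(2 * (κ ^ 2)⁻¹ * inner ℝ x v)| ≤ Kc * P := by
    rw [abs_neg]; exact hq _ hxv _ (by linarith) (by linarith)
  have c3 : |(κ ^ 2)⁻¹ * ‖v‖ ^ 2| ≤ Kc * P := hq _ hvv _ hi1.le (by linarith)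
  have c4 : |-(κ⁻¹ * inner ℝ x v)| ≤ Kc * P := by
    rw [abs_neg]; exact hq _ hxv _ hi2.le (by linarith)
  have c5 : |κ⁻¹ * inner ℝ x b| ≤ Kc * P := hq _ hxb _ hi2.le (by linarith)
  have c6 : |κ⁻¹ * ‖v‖ ^ 2| ≤ Kc * P := hq _ hvv _ hi2.le (by linarith)
  have c7 : |-(κ⁻¹ * inner ℝ v b)| ≤ Kc * P := by
    rw [abs_neg]; exact hq _ hvb _ hi2.le (by linarith)
  have c8 : |1 / 2 * ‖v‖ ^ 2| ≤ Kc * P := hq _ hvv _ (by norm_num) (by linarith)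
  have c9 : |-(inner ℝ v b)| ≤ Kc * P := by
    rw [abs_neg]
    have := hq _ hvb 1 (by norm_num) (by linarith)
    rwa [one_mul] at this
  have c10 : |1 / 2 * ‖b‖ ^ 2| ≤ Kc * P := hq _ hbb2 _ (by norm_num) (by linarith)
  have hall := ((((((((((B3.kc_coef hC0.le c1 (hm 0 3 (by norm_num) (by norm_num))).add
    (B3.kc_coef hC0.le c2 (hm 2 3 (by norm_num) (by norm_num)))).add
    (B3.kc_coef hC0.le c3 (hm 4 3 (by norm_num) (by norm_num)))).add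
    (B3.kc_coef hC0.le c4 (hm 0 2 (by norm_num) (by norm_num)))).add
    (B3.kc_coef hC0.le c5 (hm 1 2 (by norm_num) (by norm_num)))).add
    (B3.kc_coef hC0.le c6 (hm 2 2 (by norm_num) (by norm_num)))).add
    (B3.kc_coef hC0.le c7 (hm 3 2 (by norm_num) (by norm_num)))).add
    (B3.kc_coef hC0.le c8 (hm 0 1 (by norm_num) (by norm_num)))).add
    (B3.kc_coef hC0.le c9 (hm 1 1 (by norm_num) (by norm_num)))).add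
    (B3.kc_coef hC0.le c10 (hm 2 1 (by norm_num) (by norm_num))))
  have hbound := hall.kc_mono (N := 10 * Kc * C * P) (le_of_eq (by ring))
  have hfun : (fun ε => qG κ (s - c * ε ^ 2) (x - ε ^ 2 • v, v - ε • b)) =
      (fun ε => ((κ ^ 2)⁻¹ * ‖x‖ ^ 2) * (ε ^ 0 * (s - c * ε ^ 2)⁻¹ ^ 3) +
      (-(2 * (κ ^ 2)⁻¹ * inner ℝ x v)) *
        (ε ^ 2 * (s - c * ε ^ 2)⁻¹ ^ 3) + ((κ ^ 2)⁻¹ * ‖v‖ ^ 2) *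
        (ε ^ 4 * (s - c * ε ^ 2)⁻¹ ^ 3) +
      (-(κ⁻¹ * inner ℝ x v)) * (ε ^ 0 * (s - c * ε ^ 2)⁻¹ ^ 2) +
      (κ⁻¹ * inner ℝ x b) * (ε ^ 1 * (s - c * ε ^ 2)⁻¹ ^ 2) +
      (κ⁻¹ * ‖v‖ ^ 2) * (ε ^ 2 * (s - c * ε ^ 2)⁻¹ ^ 2) +
      (-(κ⁻¹ * inner ℝ v b)) * (ε ^ 3 * (s - c * ε ^ 2)⁻¹ ^ 2) +
      (1 / 2 * ‖v‖ ^ 2) * (ε ^ 0 * (s - c * ε ^ 2)⁻¹ ^ 1) +
      (-(inner ℝ v b)) * (ε ^ 1 * (s - c * ε ^ 2)⁻¹ ^ 1) +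
      (1 / 2 * ‖b‖ ^ 2) * (ε ^ 2 * (s - c * ε ^ 2)⁻¹ ^ 1)) := by
    funext ε
    exact kc_expand κ (s - c * ε ^ 2) ε x v b
  show B3 (Icc 0 ε0) (10 * Kc * C * P)
    (fun ε => qG κ (s - c * ε ^ 2) (x - ε ^ 2 • v, v - ε • b))
  rw [hfun]
  exact hbound

/-- The prefactor of the kernel has three bounded derivatives. -/
theorem B3.pref {κ c δ S : ℝ} (d : ℕ) (hκ : 0 < κ) (hc : 0 < c) (hδ : 0 < δ)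
    (hS : δ ≤ S) :
    ∃ ε0 M : ℝ, 0 < ε0 ∧ ε0 ≤ 1 ∧ 0 < M ∧ c * ε0 ^ 2 ≤ δ / 2 ∧
      ∀ s, δ ≤ s → s ≤ S →
      B3 (Icc 0 ε0) M (fun ε => ((2 * Real.pi * κ * (s - c * ε ^ 2) ^ 2) ^ d)⁻¹) := by
  obtain ⟨ε0, M, hε0, hε1, hM, hcε, hB⟩ := B3.inv hc hδ
  have hpi := Real.pi_pos
  have h0 : 0 < |((2 * Real.pi * κ) ^ d)⁻¹| := abs_pos.2 (by positivity)
  refine ⟨ε0, |((2 * Real.pi * κ) ^ d)⁻¹| * (8 * M) ^ (2 * d), hε0, hε1, by positivity, hcε, ?_⟩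
  intro s hs _
  have h := B3.const_mul (((2 * Real.pi * κ) ^ d)⁻¹) (B3.kc_pow (hB s hs) (2 * d))
  have hfun : (fun ε => ((2 * Real.pi * κ * (s - c * ε ^ 2) ^ 2) ^ d)⁻¹) =
      (fun ε => ((2 * Real.pi * κ) ^ d)⁻¹ * (s - c * ε ^ 2)⁻¹ ^ (2 * d)) := by
    funext ε
    rw [mul_pow _ _ d, mul_inv, ← pow_mul, inv_pow]
  rw [hfun]
  exact h

end Pool.Agent.Lib.MP_eee7b5_an
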