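import Pool.Agent.Lib.MP_eee7b5_an.TTwo
import Pool.Agent.Lib.MP_eee7b5_an.KernA
import Pool.Agent.Lib.MP_eee7b5_an.KernB
import Pool.Agent.Lib.MP_eee7b5_an.KernC

set_option autoImplicit false

/-!
The kernel of one step of the chain, as a function of `ε = √h`.
-/

namespace Pool.Agent.Lib.MP_eee7b5_an

open MeasureTheory Set Matrix
open scoped ENNReal

/-- Exponential of a `B3` function, pointwise bounds of the three derivatives. -/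
theorem B3.exp_neg {I : Set ℝ} {M : ℝ} {f : ℝ → ℝ} (hf : B3 I M f) (hM : 1 ≤ M) :
    ∃ f1 f2 f3 : ℝ → ℝ, (∀ ε ∈ I, HasDerivAt (fun ε => Real.exp (-(f ε))) (f1 ε) ε) ∧
      (∀ ε ∈ I, HasDerivAt f1 (f2 ε) ε) ∧ (∀ ε ∈ I, HasDerivAt f2 (f3 ε) ε) ∧
      ∀ ε ∈ I, |f1 ε| ≤ 5 * M ^ 3 * Real.exp (-(f ε)) ∧ |f2 ε| ≤ 5 * M ^ 3 * Real.exp (-(f ε)) ∧
        |f3 ε| ≤ 5 * M ^ 3 * Real.exp (-(f ε)) := by
  obtain ⟨f1, f2, f3, h1, h2, h3, hb⟩ := hf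
  have hexp : ∀ ε ∈ I, HasDerivAt (fun ε => Real.exp (-(f ε)))
      (Real.exp (-(f ε)) * -(f1 ε)) ε := fun ε hε => (h1 ε hε).neg.exp
  refine ⟨fun ε => Real.exp (-(f ε)) * -(f1 ε),
    fun ε => Real.exp (-(f ε)) * (f1 ε ^ 2 - f2 ε),
    fun ε => Real.exp (-(f ε)) * (3 * f1 ε * f2 ε - f3 ε - f1 ε ^ 3), hexp, ?_, ?_, ?_⟩
  · intro ε hε
    have h := (hexp ε hε).fun_mul (h2 ε hε).fun_neg
    refine h.congr_deriv ?_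
    ring
  · intro ε hε
    have h := (hexp ε hε).fun_mul (((h2 ε hε).fun_pow 2).fun_sub (h3 ε hε))
    refine h.congr_deriv ?_
    simp only [Nat.cast_ofNat, Nat.add_one_sub_one, pow_one]
    ring
  · intro ε hε
    obtain ⟨-, g1, g2, g3⟩ := hb ε hε
    have hE := Real.exp_pos (-(f ε))
    have a1 : |f1 ε ^ 2| ≤ M ^ 2 := by
      rw [abs_pow]; exact pow_le_pow_left₀ (abs_nonneg _) g1 2
    have a2 : |f1 ε ^ 3| ≤ M ^ 3 := by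
      rw [abs_pow]; exact pow_le_pow_left₀ (abs_nonneg _) g1 3
    have a3 : |f1 ε * f2 ε| ≤ M ^ 2 := by
      rw [abs_mul, sq]
      exact mul_le_mul g1 g2 (abs_nonneg _) (by linarith)
    have m1 : M ≤ M ^ 3 := by nlinarith [mul_nonneg (by linarith : (0:ℝ) ≤ M) (sq_nonneg (M - 1))]
    have m2 : M ^ 2 ≤ M ^ 3 := by nlinarith [sq_nonneg M]
    have m0 : 0 < M ^ 3 := by positivity
    have key : ∀ X : ℝ, |X| ≤ 5 * M ^ 3 → |Real.exp (-(f ε)) * X| ≤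
        5 * M ^ 3 * Real.exp (-(f ε)) := by
      intro X hX
      rw [abs_mul, abs_of_pos hE, mul_comm]
      exact mul_le_mul_of_nonneg_right hX hE.le
    rw [abs_le] at g1 g2 g3 a1 a2 a3
    refine ⟨key _ ?_, key _ ?_, key _ ?_⟩
    · rw [abs_le]; constructor <;> linarith
    · rw [abs_le]; constructor <;> linarith
    · rw [abs_le]; constructor <;> nlinarith

/-- The exponent of the kernel is bounded below. -/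
theorem expo_lower {d : ℕ} {κ c δ S bmax : ℝ} (hκ : 0 < κ) (hc : 0 < c) (hδ : 0 < δ)
    (hS : δ ≤ S) (hb : 0 ≤ bmax) :
    ∃ ε0 c' C : ℝ, 0 < ε0 ∧ ε0 ≤ 1 ∧ 0 < c' ∧ 0 < C ∧ c * ε0 ^ 2 ≤ δ / 2 ∧
      ∀ s, δ ≤ s → s ≤ S → ∀ b : E d, ‖b‖ ≤ bmax → ∀ ε ∈ Icc (0 : ℝ) ε0, ∀ z : ZZ d,
      c' * (‖z.1‖ ^ 2 + ‖z.2‖ ^ 2) - C ≤
        qG κ (s - c * ε ^ 2) (z.1 - ε ^ 2 • z.2, z.2 - ε • b) := by
  obtain ⟨c0, hc0, hq⟩ := qG_lower (d := d) hκ (half_pos hδ) (by linarith : δ / 2 ≤ S)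
  set ε0 : ℝ := min 1 (Real.sqrt (δ / (2 * c))) with hε0
  have h0 : 0 < ε0 := by
    rw [hε0]
    exact lt_min one_pos (Real.sqrt_pos.2 (by positivity))
  have h1 : ε0 ≤ 1 := min_le_left _ _
  have h2 : c * ε0 ^ 2 ≤ δ / 2 := by
    have h3 : ε0 ^ 2 ≤ δ / (2 * c) := by
      calc ε0 ^ 2 ≤ (Real.sqrt (δ / (2 * c))) ^ 2 :=
            pow_le_pow_left₀ h0.le (min_le_right _ _) 2
        _ = δ / (2 * c) := Real.sq_sqrt (by positivity)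
    calc c * ε0 ^ 2 ≤ c * (δ / (2 * c)) := mul_le_mul_of_nonneg_left h3 hc.le
      _ = δ / 2 := by field_simp
  refine ⟨ε0, c0 / 6, c0 * bmax ^ 2 + 1, h0, h1, by positivity, by positivity, h2, ?_⟩
  intro s hs1 hs2 b hbb ε hε z
  have hεsq : ε ^ 2 ≤ ε0 ^ 2 := pow_le_pow_left₀ hε.1 hε.2 2
  have hε1 : ε ≤ 1 := hε.2.trans h1
  have hεsq1 : ε ^ 2 ≤ 1 := pow_le_one₀ hε.1 hε1
  have hcε : c * ε ^ 2 ≤ δ / 2 := (mul_le_mul_of_nonneg_left hεsq hc.le).trans h2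
  have hcε0 : 0 ≤ c * ε ^ 2 := by positivity
  have hq' := hq (s - c * ε ^ 2) (by linarith) (by linarith) (z.1 - ε ^ 2 • z.2, z.2 - ε • b)
  simp only at hq'
  set x' := z.1 - ε ^ 2 • z.2 with hx'
  set v' := z.2 - ε • b with hv'
  have n1 : ‖z.1‖ ≤ ‖x'‖ + ‖z.2‖ := by
    calc ‖z.1‖ = ‖x' + ε ^ 2 • z.2‖ := by rw [hx']; congr 1; abel
      _ ≤ ‖x'‖ + ‖ε ^ 2 • z.2‖ := norm_add_le _ _
      _ = ‖x'‖ + ε ^ 2 * ‖z.2‖ := by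
          rw [norm_smul, Real.norm_eq_abs, abs_of_nonneg (sq_nonneg _)]
      _ ≤ ‖x'‖ + ‖z.2‖ := by
          have := mul_le_mul_of_nonneg_right hεsq1 (norm_nonneg z.2)
          linarith
  have n2 : ‖z.2‖ ≤ ‖v'‖ + bmax := by
    calc ‖z.2‖ = ‖v' + ε • b‖ := by rw [hv']; congr 1; abel
      _ ≤ ‖v'‖ + ‖ε • b‖ := norm_add_le _ _
      _ = ‖v'‖ + ε * ‖b‖ := by
          rw [norm_smul, Real.norm_eq_abs, abs_of_nonneg hε.1]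
      _ ≤ ‖v'‖ + bmax := by
          have := mul_le_mul hε1 hbb (norm_nonneg b) zero_le_one
          linarith
  have q1 : ‖z.1‖ ^ 2 ≤ 2 * ‖x'‖ ^ 2 + 2 * ‖z.2‖ ^ 2 := by
    have := pow_le_pow_left₀ (norm_nonneg z.1) n1 2
    nlinarith [sq_nonneg (‖x'‖ - ‖z.2‖)]
  have q2 : ‖z.2‖ ^ 2 ≤ 2 * ‖v'‖ ^ 2 + 2 * bmax ^ 2 := by
    have := pow_le_pow_left₀ (norm_nonneg z.2) n2 2
    nlinarith [sq_nonneg (‖v'‖ - bmax)]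
  have q3 : ‖z.1‖ ^ 2 + ‖z.2‖ ^ 2 ≤ 6 * (‖x'‖ ^ 2 + ‖v'‖ ^ 2) + 6 * bmax ^ 2 := by
    nlinarith [sq_nonneg ‖x'‖]
  calc c0 / 6 * (‖z.1‖ ^ 2 + ‖z.2‖ ^ 2) - (c0 * bmax ^ 2 + 1)
      ≤ c0 / 6 * (6 * (‖x'‖ ^ 2 + ‖v'‖ ^ 2) + 6 * bmax ^ 2) - (c0 * bmax ^ 2 + 1) := by
        have := mul_le_mul_of_nonneg_left q3 (by positivity : (0:ℝ) ≤ c0 / 6)
        linarith
    _ = c0 * (‖x'‖ ^ 2 + ‖v'‖ ^ 2) - 1 := by ring
    _ ≤ c0 * (‖x'‖ ^ 2 + ‖v'‖ ^ 2) := by linarith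
    _ ≤ _ := hq'

end Pool.Agent.Lib.MP_eee7b5_an
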