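import Pool.Agent.Lib.MP_eee7b5_an.TTwo
import Pool.Agent.Lib.MP_eee7b5_an.KernA
import Pool.Agent.Lib.MP_eee7b5_an.KernB
import Pool.Agent.Lib.MP_eee7b5_an.KernC
import Pool.Agent.Lib.MP_eee7b5_an.KernD

set_option autoImplicit false

/-!
The kernel of one step of the chain, as a function of `ε = √h`.
-/

namespace Pool.Agent.Lib.MP_eee7b5_an

open MeasureTheory Set Matrix
open scoped ENNReal

theorem KernE_B3_mono {I J : Set ℝ} {M N : ℝ} {f : ℝ → ℝ} (hf : B3 I M f) (hJ : J ⊆ I)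
    (hMN : M ≤ N) : B3 J N f := by
  obtain ⟨f1, f2, f3, h1, h2, h3, h4⟩ := hf
  refine ⟨f1, f2, f3, fun ε hε => h1 ε (hJ hε), fun ε hε => h2 ε (hJ hε),
    fun ε hε => h3 ε (hJ hε), fun ε hε => ?_⟩
  obtain ⟨a, b, c, e⟩ := h4 ε (hJ hε)
  exact ⟨a.trans hMN, b.trans hMN, c.trans hMN, e.trans hMN⟩

/-- The kernel and its first three `ε`-derivatives are below an envelope. -/
theorem KK_bounds {d : ℕ} {κ c δ S bmax : ℝ} (hκ : 0 < κ) (hc : 0 < c) (hδ : 0 < δ)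
    (hS : δ ≤ S) (hb : 0 ≤ bmax) :
    ∃ ε0 c' C : ℝ, 0 < ε0 ∧ ε0 ≤ 1 ∧ 0 < c' ∧ 0 < C ∧ c * ε0 ^ 2 ≤ δ / 2 ∧
      ∀ s, δ ≤ s → s ≤ S → ∀ b : E d, ‖b‖ ≤ bmax → ∀ z : ZZ d,
      B3 (Icc 0 ε0) (C * Env c' z) (fun ε => KK κ c s b ε z) := by
  obtain ⟨ε1, M1, hε1, hε1', hM1, hcε1, H1⟩ := B3.pref (κ := κ) (c := c) d hκ hc hδ hS
  obtain ⟨ε2, M2, hε2, hε2', hM2, hcε2, H2⟩ := B3.expo (d := d) (κ := κ) (c := c) hκ hc hδ hS hb
  obtain ⟨ε3, c3, C3, hε3, hε3', hc3, hC3, hcε3, H3⟩ :=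
    expo_lower (d := d) (κ := κ) (c := c) hκ hc hδ hS hb
  obtain ⟨C5, hC5, H5⟩ := Env_poly (d := d) hc3 3
  set ε0 := min ε1 (min ε2 ε3) with hε0
  have hε0pos : 0 < ε0 := lt_min hε1 (lt_min hε2 hε3)
  have h01 : ε0 ≤ ε1 := min_le_left _ _
  have h02 : ε0 ≤ ε2 := (min_le_right _ _).trans (min_le_left _ _)
  have h03 : ε0 ≤ ε3 := (min_le_right _ _).trans (min_le_right _ _)
  set M := max M2 1 with hM
  have hM1' : 1 ≤ M := le_max_right _ _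
  have hMpos : 0 < M := lt_of_lt_of_le one_pos hM1'
  refine ⟨ε0, c3 / 2, 8 * M1 * (5 * M ^ 3 * Real.exp C3) * C5, hε0pos, h01.trans hε1',
    by positivity, by positivity, ?_, ?_⟩
  · refine le_trans ?_ hcε1
    exact mul_le_mul_of_nonneg_left (pow_le_pow_left₀ hε0pos.le h01 2) hc.le
  intro s hs hsS b hbm z
  have hR : 1 ≤ 1 + ‖z.1‖ ^ 2 + ‖z.2‖ ^ 2 := by
    have h1 : 0 ≤ ‖z.1‖ ^ 2 := by positivity
    have h2 : 0 ≤ ‖z.2‖ ^ 2 := by positivity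
    linarith
  set R := 1 + ‖z.1‖ ^ 2 + ‖z.2‖ ^ 2 with hRdef
  have hRpos : 0 < R := lt_of_lt_of_le one_pos hR
  have hp := KernE_B3_mono (H1 s hs hsS) (Icc_subset_Icc_right h01) le_rfl
  have hMR : M2 * R ≤ M * R := mul_le_mul_of_nonneg_right (le_max_left _ _) hRpos.le
  have hq := KernE_B3_mono (H2 s hs hsS b hbm z) (Icc_subset_Icc_right h02) hMR
  have hMR1 : 1 ≤ M * R := by
    calc (1 : ℝ) = 1 * 1 := (one_mul 1).symm
      _ ≤ M * R := mul_le_mul hM1' hR zero_le_one hMpos.le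
  obtain ⟨f1, f2, f3, h1, h2, h3, h4⟩ := hq.exp_neg hMR1
  set f : ℝ → ℝ := fun ε => qG κ (s - c * ε ^ 2) (z.1 - ε ^ 2 • z.2, z.2 - ε • b) with hf
  -- bound of the exponential
  have hexp : ∀ ε ∈ Icc (0 : ℝ) ε0, Real.exp (-(f ε)) ≤ Real.exp C3 * Env c3 z := by
    intro ε hε
    have h5 := H3 s hs hsS b hbm ε ⟨hε.1, hε.2.trans h03⟩ z
    unfold Env
    rw [← Real.exp_add]
    apply Real.exp_le_exp.mpr
    change c3 * (‖z.1‖ ^ 2 + ‖z.2‖ ^ 2) - C3 ≤ f ε at h5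
    linarith
  set N := 5 * (M * R) ^ 3 * (Real.exp C3 * Env c3 z) with hN
  have h5M : 1 ≤ 5 * (M * R) ^ 3 := by
    have : 1 ≤ (M * R) ^ 3 := one_le_pow₀ hMR1
    linarith
  have hE : 0 ≤ Real.exp C3 * Env c3 z := mul_nonneg (Real.exp_pos _).le (Env_pos c3 z).le
  have he : B3 (Icc 0 ε0) N (fun ε => Real.exp (-(f ε))) := by
    refine ⟨f1, f2, f3, h1, h2, h3, ?_⟩
    intro ε hε
    obtain ⟨a1, a2, a3⟩ := h4 ε hε
    have h6 : 5 * (M * R) ^ 3 * Real.exp (-(f ε)) ≤ N :=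
      mul_le_mul_of_nonneg_left (hexp ε hε) (by positivity)
    refine ⟨?_, a1.trans h6, a2.trans h6, a3.trans h6⟩
    rw [abs_of_pos (Real.exp_pos _)]
    calc Real.exp (-(f ε)) = 1 * Real.exp (-(f ε)) := (one_mul _).symm
      _ ≤ 5 * (M * R) ^ 3 * Real.exp (-(f ε)) :=
        mul_le_mul_of_nonneg_right h5M (Real.exp_pos _).le
      _ ≤ N := h6
  have hK := hp.mul he
  refine KernE_B3_mono hK subset_rfl ?_
  have h7 := H5 z
  calc 8 * M1 * N = 8 * M1 * (5 * M ^ 3 * Real.exp C3) * (R ^ 3 * Env c3 z) := by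
        rw [hN]
        ring
    _ ≤ 8 * M1 * (5 * M ^ 3 * Real.exp C3) * (C5 * Env (c3 / 2) z) :=
        mul_le_mul_of_nonneg_left h7 (by positivity)
    _ = _ := by ring

end Pool.Agent.Lib.MP_eee7b5_an
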