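import Pool.Agent.Lib.MP_eee7b5_an.TTwo
import Pool.Agent.Lib.MP_eee7b5_an.KernA
import Pool.Agent.Lib.MP_eee7b5_an.KernB
import Pool.Agent.Lib.MP_eee7b5_an.KernC
import Pool.Agent.Lib.MP_eee7b5_an.KernD
import Pool.Agent.Lib.MP_eee7b5_an.KernE

set_option autoImplicit false

/-!
The kernel of one step of the chain, as a function of `ε = √h`.
-/

namespace Pool.Agent.Lib.MP_eee7b5_an

open MeasureTheory Set Matrix
open scoped ENNReal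

namespace KernFAux

/-- The exponent as a rational function of `ε`. -/
noncomputable def Qe (κ c s X2 XV V2 XB VB B2 : ℝ) (ε : ℝ) : ℝ :=
  (X2 - 2 * ε ^ 2 * XV + ε ^ 4 * V2) / (κ ^ 2 * (s - c * ε ^ 2) ^ 3)
    - (XV - ε * XB - ε ^ 2 * V2 + ε ^ 3 * VB) / (κ * (s - c * ε ^ 2) ^ 2)
    + (V2 - 2 * ε * VB + ε ^ 2 * B2) / (2 * (s - c * ε ^ 2))

/-- Its derivative. -/
noncomputable def Qe1 (κ c s X2 XV V2 XB VB B2 : ℝ) (ε : ℝ) : ℝ :=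
  (-(4 * ε * XV) + 4 * ε ^ 3 * V2) / (κ ^ 2 * (s - c * ε ^ 2) ^ 3)
    + (X2 - 2 * ε ^ 2 * XV + ε ^ 4 * V2) * (6 * c * ε) / (κ ^ 2 * (s - c * ε ^ 2) ^ 4)
    - (-XB - 2 * ε * V2 + 3 * ε ^ 2 * VB) / (κ * (s - c * ε ^ 2) ^ 2)
    - (XV - ε * XB - ε ^ 2 * V2 + ε ^ 3 * VB) * (4 * c * ε) / (κ * (s - c * ε ^ 2) ^ 3)
    + (-(2 * VB) + 2 * ε * B2) / (2 * (s - c * ε ^ 2))
    + (V2 - 2 * ε * VB + ε ^ 2 * B2) * (2 * c * ε) / (2 * (s - c * ε ^ 2) ^ 2)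

theorem hasDerivAt_sig (c s ε : ℝ) :
    HasDerivAt (fun ε : ℝ => s - c * ε ^ 2) (-(2 * c * ε)) ε := by
  have h := ((hasDerivAt_pow 2 ε).const_mul c).const_sub s
  refine h.congr_deriv ?_
  simp
  ring

theorem hp1 (X2 XV V2 ε : ℝ) : HasDerivAt (fun ε : ℝ => X2 - 2 * ε ^ 2 * XV + ε ^ 4 * V2)
    (-(4 * ε * XV) + 4 * ε ^ 3 * V2) ε := by
  have := ((((hasDerivAt_pow 2 ε).const_mul 2).mul_const XV).const_sub X2).add
    ((hasDerivAt_pow 4 ε).mul_const V2)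
  refine this.congr_deriv ?_
  push_cast
  ring

theorem hp2 (XV XB V2 VB ε : ℝ) :
    HasDerivAt (fun ε : ℝ => XV - ε * XB - ε ^ 2 * V2 + ε ^ 3 * VB)
      (-XB - 2 * ε * V2 + 3 * ε ^ 2 * VB) ε := by
  have := ((((hasDerivAt_id' ε).mul_const XB).const_sub XV).sub
    ((hasDerivAt_pow 2 ε).mul_const V2)).add ((hasDerivAt_pow 3 ε).mul_const VB)
  refine this.congr_deriv ?_
  simp

theorem hp3 (V2 VB B2 ε : ℝ) : HasDerivAt (fun ε : ℝ => V2 - 2 * ε * VB + ε ^ 2 * B2)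
    (-(2 * VB) + 2 * ε * B2) ε := by
  have := ((((hasDerivAt_id' ε).const_mul 2).mul_const VB).const_sub V2).add
    ((hasDerivAt_pow 2 ε).mul_const B2)
  refine this.congr_deriv ?_
  simp

theorem hasDerivAt_Qe (κ c s X2 XV V2 XB VB B2 : ℝ) (hκ : κ ≠ 0) (ε : ℝ)
    (h : s - c * ε ^ 2 ≠ 0) :
    HasDerivAt (Qe κ c s X2 XV V2 XB VB B2) (Qe1 κ c s X2 XV V2 XB VB B2 ε) ε := by
  have hs := hasDerivAt_sig c s ε
  have h1 := (hp1 X2 XV V2 ε).div ((hs.pow 3).const_mul (κ ^ 2)) (by simp [hκ, h])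
  have h2 := (hp2 XV XB V2 VB ε).div ((hs.pow 2).const_mul κ) (by simp [hκ, h])
  have h3 := (hp3 V2 VB B2 ε).div (hs.const_mul 2) (by simp [h])
  have h4 := (h1.sub h2).add h3
  refine HasDerivAt.congr_deriv (f := Qe κ c s X2 XV V2 XB VB B2) h4 ?_
  unfold Qe1
  simp only [Pi.pow_apply]
  generalize s - c * ε ^ 2 = σ at h ⊢
  push_cast
  field_simp
  ring

theorem hasDerivAt_Qe1_zero (κ c s X2 XV V2 XB VB B2 : ℝ) (hκ : κ ≠ 0) (hs0 : s ≠ 0) :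
    HasDerivAt (Qe1 κ c s X2 XV V2 XB VB B2)
      (-(4 * XV) / (κ ^ 2 * s ^ 3) + X2 * (6 * c) / (κ ^ 2 * s ^ 4) + 2 * V2 / (κ * s ^ 2)
        - XV * (4 * c) / (κ * s ^ 3) + B2 / s + V2 * c / s ^ 2) 0 := by
  have hs := hasDerivAt_sig c s 0
  have h0 : s - c * (0:ℝ) ^ 2 ≠ 0 := by simpa using hs0
  have hi := hasDerivAt_id' (0:ℝ)
  have q1 : HasDerivAt (fun ε : ℝ => -(4 * ε * XV) + 4 * ε ^ 3 * V2) (-(4 * XV)) 0 := by
    have := ((hi.const_mul 4).mul_const XV).neg.add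
      (((hasDerivAt_pow 3 (0:ℝ)).const_mul 4).mul_const V2)
    refine this.congr_deriv ?_
    simp
  have q2 : HasDerivAt (fun ε : ℝ => -XB - 2 * ε * V2 + 3 * ε ^ 2 * VB) (-(2 * V2)) 0 := by
    have := (((hi.const_mul 2).mul_const V2).const_sub (-XB)).add
      (((hasDerivAt_pow 2 (0:ℝ)).const_mul 3).mul_const VB)
    refine this.congr_deriv ?_
    simp
  have q3 : HasDerivAt (fun ε : ℝ => -(2 * VB) + 2 * ε * B2) (2 * B2) 0 := by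
    have := ((hi.const_mul 2).mul_const B2).const_add (-(2 * VB))
    refine this.congr_deriv ?_
    simp
  have e1 := q1.div ((hs.pow 3).const_mul (κ ^ 2)) (by simp [hκ, hs0])
  have e2 := ((hp1 X2 XV V2 0).mul (hi.const_mul (6 * c))).div ((hs.pow 4).const_mul (κ ^ 2))
    (by simp [hκ, hs0])
  have e3 := q2.div ((hs.pow 2).const_mul κ) (by simp [hκ, hs0])
  have e4 := ((hp2 XV XB V2 VB 0).mul (hi.const_mul (4 * c))).div ((hs.pow 3).const_mul κ)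
    (by simp [hκ, hs0])
  have e5 := q3.div (hs.const_mul 2) (by simp [hs0])
  have e6 := ((hp3 V2 VB B2 0).mul (hi.const_mul (2 * c))).div ((hs.pow 2).const_mul 2)
    (by simp [hs0])
  have e := ((((e1.add e2).sub e3).sub e4).add e5).add e6
  refine HasDerivAt.congr_deriv (f := Qe1 κ c s X2 XV V2 XB VB B2) e ?_
  simp only [Pi.pow_apply]
  simp
  field_simp
  ring

/-- Prefactor and its logarithmic derivative. -/
theorem hasDerivAt_pref (d : ℕ) (κ c s ε : ℝ) (hκ : κ ≠ 0) (h : s - c * ε ^ 2 ≠ 0) :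
    HasDerivAt (fun ε : ℝ => ((2 * Real.pi * κ * (s - c * ε ^ 2) ^ 2) ^ d)⁻¹)
      (((2 * Real.pi * κ * (s - c * ε ^ 2) ^ 2) ^ d)⁻¹ * (4 * d * c * ε / (s - c * ε ^ 2))) ε := by
  have hs := hasDerivAt_sig c s ε
  have hpi := Real.pi_ne_zero
  have hA : (2 * Real.pi * κ * (s - c * ε ^ 2) ^ 2) ≠ 0 := by simp [hκ, h, hpi]
  have h1 := (((hs.pow 2).const_mul (2 * Real.pi * κ)).pow d).inv (pow_ne_zero d hA)
  refine HasDerivAt.congr_deriv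
    (f := fun ε : ℝ => ((2 * Real.pi * κ * (s - c * ε ^ 2) ^ 2) ^ d)⁻¹) h1 ?_
  simp only [Pi.pow_apply]
  generalize s - c * ε ^ 2 = σ at h hA ⊢
  rcases d with _ | d
  · simp
  · have hA' : (2 * Real.pi * κ * σ ^ 2) ^ (d + 1) ≠ 0 := pow_ne_zero _ hA
    simp only [Nat.add_sub_cancel, pow_succ (2 * Real.pi * κ * σ ^ 2) d]
    have hB : (2 * Real.pi * κ * σ ^ 2) ^ d ≠ 0 := pow_ne_zero _ hA
    generalize (2 * Real.pi * κ * σ ^ 2) ^ d = B at hB ⊢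
    push_cast
    field_simp
    ring

/-- Abstract kernel: product of the prefactor and of the exponential. -/
theorem kernel_at_zero (d : ℕ) {κ c s X2 XV V2 XB VB B2 : ℝ} (hκ : κ ≠ 0) (hs : 0 < s)
    (f1 f2 : ℝ → ℝ) (ε0 : ℝ) (hε0 : 0 < ε0)
    (h1 : ∀ ε ∈ Icc (0 : ℝ) ε0, HasDerivAt (fun ε : ℝ =>
      ((2 * Real.pi * κ * (s - c * ε ^ 2) ^ 2) ^ d)⁻¹ *
        Real.exp (-(Qe κ c s X2 XV V2 XB VB B2 ε))) (f1 ε) ε)
    (h2 : ∀ ε ∈ Icc (0 : ℝ) ε0, HasDerivAt f1 (f2 ε) ε) :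
    f1 0 = (((2 * Real.pi * κ * s ^ 2) ^ d)⁻¹ *
        Real.exp (-(Qe κ c s X2 XV V2 XB VB B2 0))) * (-(XB / (κ * s ^ 2) - VB / s)) ∧
    f2 0 = (((2 * Real.pi * κ * s ^ 2) ^ d)⁻¹ *
        Real.exp (-(Qe κ c s X2 XV V2 XB VB B2 0))) *
        ((XB / (κ * s ^ 2) - VB / s) ^ 2 + (4 * d * c / s -
        (-(4 * XV) / (κ ^ 2 * s ^ 3) + X2 * (6 * c) / (κ ^ 2 * s ^ 4) + 2 * V2 / (κ * s ^ 2)
        - XV * (4 * c) / (κ * s ^ 3) + B2 / s + V2 * c / s ^ 2))) := by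
  set F : ℝ → ℝ := fun ε : ℝ => ((2 * Real.pi * κ * (s - c * ε ^ 2) ^ 2) ^ d)⁻¹ *
        Real.exp (-(Qe κ c s X2 XV V2 XB VB B2 ε)) with hF
  set R : ℝ → ℝ := fun ε => 4 * d * c * ε / (s - c * ε ^ 2) - Qe1 κ c s X2 XV V2 XB VB B2 ε with hR
  have hder : ∀ ε : ℝ, s - c * ε ^ 2 ≠ 0 → HasDerivAt F (F ε * R ε) ε := by
    intro ε hε
    have hP := hasDerivAt_pref d κ c s ε hκ hε
    have hE := ((hasDerivAt_Qe κ c s X2 XV V2 XB VB B2 hκ ε hε).neg).exp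
    refine HasDerivAt.congr_deriv (f := F) (hP.mul hE) ?_
    simp only [hF, hR]
    simp only [Pi.neg_apply]
    ring
  -- neighbourhood where `σ > 0`
  have hcont : ContinuousAt (fun ε : ℝ => s - c * ε ^ 2) 0 := by fun_prop
  have hev : ∀ᶠ ε in nhds (0:ℝ), s - c * ε ^ 2 ≠ 0 := by
    apply hcont.eventually_ne
    simpa using hs.ne'
  have hz : s - c * (0:ℝ) ^ 2 ≠ 0 := by simpa using hs.ne'
  have hF0 : F 0 = ((2 * Real.pi * κ * s ^ 2) ^ d)⁻¹ *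
        Real.exp (-(Qe κ c s X2 XV V2 XB VB B2 0)) := by
    simp [hF]
  have hR0 : R 0 = -(XB / (κ * s ^ 2) - VB / s) := by
    simp only [hR, Qe1]
    have := hs.ne'
    simp
    field_simp
    ring
  have e1 : ∀ ε ∈ Icc (0:ℝ) ε0, s - c * ε ^ 2 ≠ 0 → f1 ε = F ε * R ε := by
    intro ε hε hσ
    exact (h1 ε hε).unique (hder ε hσ)
  have hm0 : (0:ℝ) ∈ Icc (0:ℝ) ε0 := ⟨le_refl _, hε0.le⟩
  refine ⟨?_, ?_⟩
  · rw [e1 0 hm0 hz, hF0, hR0]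
  · -- derivative of `F * R` at `0`
    have hd : HasDerivAt (fun ε : ℝ => 4 * d * c * ε / (s - c * ε ^ 2)) (4 * d * c / s) 0 := by
      have := ((hasDerivAt_id' (0:ℝ)).const_mul (4 * d * c)).div (hasDerivAt_sig c s 0) hz
      refine HasDerivAt.congr_deriv this ?_
      have := hs.ne'
      simp
      field_simp
    have hRd : HasDerivAt R (4 * d * c / s - (-(4 * XV) / (κ ^ 2 * s ^ 3)
        + X2 * (6 * c) / (κ ^ 2 * s ^ 4) + 2 * V2 / (κ * s ^ 2)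
        - XV * (4 * c) / (κ * s ^ 3) + B2 / s + V2 * c / s ^ 2)) 0 :=
      hd.sub (hasDerivAt_Qe1_zero κ c s X2 XV V2 XB VB B2 hκ hs.ne')
    have hFR := (hder 0 hz).mul hRd
    have hw1 : HasDerivWithinAt f1 (f2 0) (Icc 0 ε0) 0 := (h2 0 hm0).hasDerivWithinAt
    have hw2 : HasDerivWithinAt f1 (F 0 * R 0 * R 0 + F 0 * (4 * d * c / s -
        (-(4 * XV) / (κ ^ 2 * s ^ 3)
        + X2 * (6 * c) / (κ ^ 2 * s ^ 4) + 2 * V2 / (κ * s ^ 2)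
        - XV * (4 * c) / (κ * s ^ 3) + B2 / s + V2 * c / s ^ 2))) (Icc 0 ε0) 0 := by
      refine (hFR.hasDerivWithinAt (s := Icc 0 ε0)).congr_of_eventuallyEq ?_ ?_
      · filter_upwards [self_mem_nhdsWithin, nhdsWithin_le_nhds hev] with ε hε hσ
        exact e1 ε hε hσ
      · exact e1 0 hm0 hz
    have := (uniqueDiffOn_Icc hε0 0 hm0).eq_deriv _ hw1 hw2
    rw [this, hF0, hR0]
    ring

end KernFAux

theorem qG_shift {d : ℕ} (κ c s : ℝ) (b : E d) (z : ZZ d) (ε : ℝ) :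
    qG κ (s - c * ε ^ 2) (z.1 - ε ^ 2 • z.2, z.2 - ε • b) =
      KernFAux.Qe κ c s (‖z.1‖ ^ 2) (inner ℝ z.1 z.2) (‖z.2‖ ^ 2) (inner ℝ z.1 b)
        (inner ℝ z.2 b) (‖b‖ ^ 2) ε := by
  unfold qG KernFAux.Qe
  have e1 : ‖z.1 - ε ^ 2 • z.2‖ ^ 2 =
      ‖z.1‖ ^ 2 - 2 * ε ^ 2 * inner ℝ z.1 z.2 + ε ^ 4 * ‖z.2‖ ^ 2 := by
    rw [norm_sub_sq_real, real_inner_smul_right, norm_smul, Real.norm_eq_abs, mul_pow, sq_abs]
    ring
  have e2 : inner ℝ (z.1 - ε ^ 2 • z.2) (z.2 - ε • b) =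
      inner ℝ z.1 z.2 - ε * inner ℝ z.1 b - ε ^ 2 * ‖z.2‖ ^ 2 + ε ^ 3 * inner ℝ z.2 b := by
    rw [inner_sub_left, inner_sub_right, inner_sub_right, real_inner_smul_right,
      real_inner_smul_left, real_inner_smul_left, real_inner_smul_right,
      real_inner_self_eq_norm_sq]
    ring
  have e3 : ‖z.2 - ε • b‖ ^ 2 = ‖z.2‖ ^ 2 - 2 * ε * inner ℝ z.2 b + ε ^ 2 * ‖b‖ ^ 2 := by
    rw [norm_sub_sq_real, real_inner_smul_right, norm_smul, Real.norm_eq_abs, mul_pow, sq_abs]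
    ring
  simp only
  rw [e1, e2, e3]

/-- First and second `ε`-derivatives of the kernel at `ε = 0`. -/
theorem KK_at_zero {d : ℕ} {κ c s : ℝ} (hκ : 0 < κ) (hc : 0 < c) (hs : 0 < s) (b : E d)
    (z : ZZ d) (f1 f2 : ℝ → ℝ) (ε0 : ℝ) (hε0 : 0 < ε0)
    (h1 : ∀ ε ∈ Icc (0 : ℝ) ε0, HasDerivAt (fun ε => KK κ c s b ε z) (f1 ε) ε)
    (h2 : ∀ ε ∈ Icc (0 : ℝ) ε0, HasDerivAt f1 (f2 ε) ε) :
    f1 0 = -dG κ s (0, b) z ∧
    f2 0 = -(2 * c * sG κ s z) + 2 * (bG κ s z (z.2, 0) * GG κ s z)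
      + ddG κ s (0, b) (0, b) z := by
  have hKK : (fun ε => KK κ c s b ε z) = fun ε : ℝ =>
      ((2 * Real.pi * κ * (s - c * ε ^ 2) ^ 2) ^ d)⁻¹ *
        Real.exp (-(KernFAux.Qe κ c s (‖z.1‖ ^ 2) (inner ℝ z.1 z.2) (‖z.2‖ ^ 2)
          (inner ℝ z.1 b) (inner ℝ z.2 b) (‖b‖ ^ 2) ε)) := by
    funext ε
    unfold KK GG
    rw [qG_shift]
  rw [hKK] at h1
  obtain ⟨g1, g2⟩ := KernFAux.kernel_at_zero d hκ.ne' hs f1 f2 ε0 hε0 h1 h2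
  have hG : ((2 * Real.pi * κ * s ^ 2) ^ d)⁻¹ *
        Real.exp (-(KernFAux.Qe κ c s (‖z.1‖ ^ 2) (inner ℝ z.1 z.2) (‖z.2‖ ^ 2)
          (inner ℝ z.1 b) (inner ℝ z.2 b) (‖b‖ ^ 2) 0)) = GG κ s z := by
    unfold GG qG KernFAux.Qe
    congr 3
    simp
  rw [hG] at g1 g2
  have hs' := hs.ne'
  have hκ' := hκ.ne'
  refine ⟨?_, ?_⟩
  · rw [g1]
    unfold dG bG
    simp only [inner_zero_right, inner_zero_left]
    ring
  · rw [g2]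
    unfold sG ddG bG
    simp only [inner_zero_right, inner_zero_left, real_inner_self_eq_norm_sq]
    rw [real_inner_comm z.2 z.1]
    generalize GG κ s z = G
    field_simp
    ring

end Pool.Agent.Lib.MP_eee7b5_an
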