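import Pool.Agent.Lib.MP_eee7b5_an.TTwo
import Pool.Agent.Lib.MP_eee7b5_an.KernA
import Pool.Agent.Lib.MP_eee7b5_an.KernB
import Pool.Agent.Lib.MP_eee7b5_an.KernC
import Pool.Agent.Lib.MP_eee7b5_an.KernD
import Pool.Agent.Lib.MP_eee7b5_an.KernE
import Pool.Agent.Lib.MP_eee7b5_an.KernF
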