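import Pool.Agent.Lib.MP_eee7b5_an.Hol

set_option autoImplicit false

/-!
The frozen statement.
-/

namespace Pool.Agent.Lib.MP_eee7b5_an

open MeasureTheory Set Matrix
open scoped ENNReal

theorem main :
    ∀ (d : ℕ) (lam Lam : ℝ), 0 < lam → lam ≤ Lam →
    ∃ α : ℝ, 0 < α ∧ ∃ C : ℝ,
    ∀ (a : ℝ × EuclideanSpace ℝ (Fin d) × EuclideanSpace ℝ (Fin d) → Matrix (Fin d) (Fin d) ℝ)
      (f : ℝ × EuclideanSpace ℝ (Fin d) × EuclideanSpace ℝ (Fin d) → ℝ)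
      (ft : ℝ × EuclideanSpace ℝ (Fin d) × EuclideanSpace ℝ (Fin d) → ℝ)
      (Dx : ℝ × EuclideanSpace ℝ (Fin d) × EuclideanSpace ℝ (Fin d) →
        (EuclideanSpace ℝ (Fin d) →L[ℝ] ℝ))
      (Dv : ℝ × EuclideanSpace ℝ (Fin d) × EuclideanSpace ℝ (Fin d) →
        (EuclideanSpace ℝ (Fin d) →L[ℝ] ℝ))
      (D2v : ℝ × EuclideanSpace ℝ (Fin d) × EuclideanSpace ℝ (Fin d) →
        (EuclideanSpace ℝ (Fin d) →L[ℝ] EuclideanSpace ℝ (Fin d) →L[ℝ] ℝ))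
      (M : ℝ),
      (∀ p ∈ Set.Ioo (0 : ℝ) 1 ×ˢ Metric.ball (0 : EuclideanSpace ℝ (Fin d)) 1 ×ˢ
          Metric.ball (0 : EuclideanSpace ℝ (Fin d)) 1,
        ∀ ξ : Fin d → ℝ, lam * (ξ ⬝ᵥ ξ) ≤ ξ ⬝ᵥ (a p *ᵥ ξ) ∧ ξ ⬝ᵥ (a p *ᵥ ξ) ≤ Lam * (ξ ⬝ᵥ ξ)) →
      ContinuousOn ft (Set.Ioo (0 : ℝ) 1 ×ˢ Metric.ball (0 : EuclideanSpace ℝ (Fin d)) 1 ×ˢ
          Metric.ball (0 : EuclideanSpace ℝ (Fin d)) 1) →
      ContinuousOn Dx (Set.Ioo (0 : ℝ) 1 ×ˢ Metric.ball (0 : EuclideanSpace ℝ (Fin d)) 1 ×ˢ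
          Metric.ball (0 : EuclideanSpace ℝ (Fin d)) 1) →
      ContinuousOn D2v (Set.Ioo (0 : ℝ) 1 ×ˢ Metric.ball (0 : EuclideanSpace ℝ (Fin d)) 1 ×ˢ
          Metric.ball (0 : EuclideanSpace ℝ (Fin d)) 1) →
      (∀ p ∈ Set.Ioo (0 : ℝ) 1 ×ˢ Metric.ball (0 : EuclideanSpace ℝ (Fin d)) 1 ×ˢ
          Metric.ball (0 : EuclideanSpace ℝ (Fin d)) 1,
        HasDerivAt (fun s => f (s, p.2.1, p.2.2)) (ft p) p.1) →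
      (∀ p ∈ Set.Ioo (0 : ℝ) 1 ×ˢ Metric.ball (0 : EuclideanSpace ℝ (Fin d)) 1 ×ˢ
          Metric.ball (0 : EuclideanSpace ℝ (Fin d)) 1,
        HasFDerivAt (fun y => f (p.1, y, p.2.2)) (Dx p) p.2.1) →
      (∀ p ∈ Set.Ioo (0 : ℝ) 1 ×ˢ Metric.ball (0 : EuclideanSpace ℝ (Fin d)) 1 ×ˢ
          Metric.ball (0 : EuclideanSpace ℝ (Fin d)) 1,
        HasFDerivAt (fun w => f (p.1, p.2.1, w)) (Dv p) p.2.2) →
      (∀ p ∈ Set.Ioo (0 : ℝ) 1 ×ˢ Metric.ball (0 : EuclideanSpace ℝ (Fin d)) 1 ×ˢ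
          Metric.ball (0 : EuclideanSpace ℝ (Fin d)) 1,
        HasFDerivAt (fun w => Dv (p.1, p.2.1, w)) (D2v p) p.2.2) →
      (∀ p ∈ Set.Ioo (0 : ℝ) 1 ×ˢ Metric.ball (0 : EuclideanSpace ℝ (Fin d)) 1 ×ˢ
          Metric.ball (0 : EuclideanSpace ℝ (Fin d)) 1,
        ft p + Dx p p.2.2 = ∑ i, ∑ j, a p i j *
          D2v p (EuclideanSpace.single i (1 : ℝ)) (EuclideanSpace.single j (1 : ℝ))) →
      (∀ p ∈ Set.Icc (0 : ℝ) 1 ×ˢ Metric.ball (0 : EuclideanSpace ℝ (Fin d)) 1 ×ˢ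
          Metric.ball (0 : EuclideanSpace ℝ (Fin d)) 1, |f p| ≤ M) →
      ∀ p ∈ Set.Ioo (1 / 2 : ℝ) 1 ×ˢ Metric.ball (0 : EuclideanSpace ℝ (Fin d)) (1 / 2) ×ˢ
          Metric.ball (0 : EuclideanSpace ℝ (Fin d)) (1 / 2),
      ∀ q ∈ Set.Ioo (1 / 2 : ℝ) 1 ×ˢ Metric.ball (0 : EuclideanSpace ℝ (Fin d)) (1 / 2) ×ˢ
          Metric.ball (0 : EuclideanSpace ℝ (Fin d)) (1 / 2),
        |f p - f q| ≤ C * M * ‖p - q‖ ^ α := by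
  intro d lam Lam hlam hLam
  rcases Nat.eq_zero_or_pos d with rfl | hd
  · refine ⟨1, one_pos, 0, ?_⟩
    intro a f ft Dx Dv D2v M _ _ _ _ h4 _ _ _ h8 _ p hp q hq
    have h := dim_zero f ft Dx M h4 (fun p hp => by
      rw [h8 p hp]
      simp) p hp q hq
    rw [h]
    simp
  · obtain ⟨α, hα, C, H⟩ := holder_unit (d := d) hd hlam hLam
    refine ⟨α, hα, C, ?_⟩
    intro a f ft Dx Dv D2v M h0 h1 h2 h3 h4 h5 h6 h7 h8 hM p hp q hq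
    refine H f M ?_ ?_ p hp q hq
    · exact IsSol_of_frozen (isOpen_Ioo.prod (Metric.isOpen_ball.prod Metric.isOpen_ball))
        a f ft Dx Dv D2v h0 h1 h2 h3 h4 h5 h6 h7 h8
    · intro p hp
      exact hM p ⟨Ioo_subset_Icc_self hp.1, hp.2⟩

end Pool.Agent.Lib.MP_eee7b5_an
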