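import Pool.Agent.Lib.MP_eee7b5_an.GDeriv

set_option autoImplicit false

/-!
Finite mixtures of Gaussians: elementary facts.
-/

namespace Pool.Agent.Lib.MP_eee7b5_an

open MeasureTheory Set Matrix
open scoped ENNReal

variable {d : ℕ} {ι : Type} [Fintype ι]

private theorem bG_cont_MixA (κ s : ℝ) (e : ZZ d) : Continuous (fun z : ZZ d => bG κ s z e) := by
  unfold bG
  fun_prop

private theorem dG_cont_MixA (κ s : ℝ) (e : ZZ d) : Continuous (dG κ s e : ZZ d → ℝ) := by
  unfold dG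
  exact (bG_cont_MixA κ s e).neg.mul (GG_continuous κ s)

private theorem ddG_cont_MixA (κ s : ℝ) (e f : ZZ d) : Continuous (ddG κ s e f : ZZ d → ℝ) := by
  unfold ddG
  exact (((bG_cont_MixA κ s e).mul (bG_cont_MixA κ s f)).sub continuous_const).mul
    (GG_continuous κ s)

private theorem sG_cont_MixA (κ s : ℝ) : Continuous (sG κ s : ZZ d → ℝ) := by
  unfold sG
  refine Continuous.mul ?_ (GG_continuous κ s)
  fun_prop

theorem uM_continuous (κ : ℝ) (w : ι → ℝ) (y : ι → ZZ d) (s : ℝ) :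
    Continuous (uM κ w y s) := by
  unfold uM
  exact continuous_finsetSum _ (fun i _ => continuous_const.mul
    ((GG_continuous κ s).comp (continuous_id.sub continuous_const)))

theorem duM_continuous (κ : ℝ) (w : ι → ℝ) (y : ι → ZZ d) (s : ℝ) (e : ZZ d) :
    Continuous (duM κ w y s e) := by
  unfold duM
  exact continuous_finsetSum _ (fun i _ => continuous_const.mul
    ((dG_cont_MixA κ s e).comp (continuous_id.sub continuous_const)))

theorem dduM_continuous (κ : ℝ) (w : ι → ℝ) (y : ι → ZZ d) (s : ℝ) (e f : ZZ d) :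
    Continuous (dduM κ w y s e f) := by
  unfold dduM
  exact continuous_finsetSum _ (fun i _ => continuous_const.mul
    ((ddG_cont_MixA κ s e f).comp (continuous_id.sub continuous_const)))

theorem suM_continuous (κ : ℝ) (w : ι → ℝ) (y : ι → ZZ d) (s : ℝ) :
    Continuous (suM κ w y s) := by
  unfold suM
  exact continuous_finsetSum _ (fun i _ => continuous_const.mul
    ((sG_cont_MixA κ s).comp (continuous_id.sub continuous_const)))

theorem uM_pos {κ s : ℝ} (hκ : 0 < κ) (hs : 0 < s) {w : ι → ℝ} (hw : ∀ i, 0 ≤ w i)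
    (hw1 : ∑ i, w i = 1) (y : ι → ZZ d) (z : ZZ d) : 0 < uM κ w y s z := by
  unfold uM
  refine Finset.sum_pos' (fun i _ => mul_nonneg (hw i) (GG_pos hκ hs _).le) ?_
  by_contra hcon
  push Not at hcon
  have h0 : ∀ i, w i ≤ 0 := by
    intro i
    have h1 := hcon i (Finset.mem_univ i)
    have h2 := GG_pos hκ hs (z - y i)
    by_contra h3
    push Not at h3
    exact absurd (mul_pos h3 h2) (not_lt.2 h1)
  have : ∑ i, w i ≤ 0 := Finset.sum_nonpos (fun i _ => h0 i)
  linarith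

theorem uM_le {κ s : ℝ} (hκ : 0 < κ) (hs : 0 < s) {w : ι → ℝ} (hw : ∀ i, 0 ≤ w i)
    (hw1 : ∑ i, w i = 1) (y : ι → ZZ d) (z : ZZ d) :
    uM κ w y s z ≤ ((2 * Real.pi * κ * s ^ 2) ^ d)⁻¹ := by
  unfold uM
  calc ∑ i, w i * GG κ s (z - y i) ≤ ∑ i, w i * ((2 * Real.pi * κ * s ^ 2) ^ d)⁻¹ :=
        Finset.sum_le_sum (fun i _ => mul_le_mul_of_nonneg_left (GG_le hκ hs _) (hw i))
    _ = ((2 * Real.pi * κ * s ^ 2) ^ d)⁻¹ := by rw [← Finset.sum_mul, hw1, one_mul]

private theorem left_inv_MixA (d : ℕ) : (volume : Measure (ZZ d)).IsAddLeftInvariant :=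
  inferInstanceAs ((volume : Measure (E d)).prod (volume : Measure (E d))).IsAddLeftInvariant

private theorem right_inv_MixA (d : ℕ) : (volume : Measure (ZZ d)).IsAddRightInvariant := by
  have := left_inv_MixA d
  infer_instance

private theorem int_aux_MixA {κ s : ℝ} (hκ : 0 < κ) (hs : 0 < s) (c : ℝ) (y : ZZ d) :
    Integrable (fun z : ZZ d => c * GG κ s (z - y)) := by
  have := right_inv_MixA d
  exact ((integrable_GG hκ hs).comp_sub_right y).const_mul c

theorem integrable_uM {κ s : ℝ} (hκ : 0 < κ) (hs : 0 < s) (w : ι → ℝ) (y : ι → ZZ d) :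
    Integrable (uM κ w y s) := by
  unfold uM
  exact integrable_finsetSum _ (fun i _ => int_aux_MixA hκ hs (w i) (y i))

theorem integral_uM {κ s : ℝ} (hκ : 0 < κ) (hs : 0 < s) (w : ι → ℝ) (y : ι → ZZ d) :
    ∫ z, uM κ w y s z = ∑ i, w i := by
  unfold uM
  rw [integral_finsetSum _ (fun i _ => int_aux_MixA hκ hs (w i) (y i))]
  refine Finset.sum_congr rfl (fun i _ => ?_)
  have := right_inv_MixA d
  rw [integral_const_mul, integral_sub_right_eq_self (fun z : ZZ d => GG κ s z) (y i),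
    integral_GG hκ hs, mul_one]

theorem hasLineDerivAt_uM (κ : ℝ) (w : ι → ℝ) (y : ι → ZZ d) (s : ℝ) (e z : ZZ d) :
    HasLineDerivAt ℝ (uM κ w y s) (duM κ w y s e z) z e := by
  unfold HasLineDerivAt uM duM
  refine HasDerivAt.fun_sum (fun i _ => ?_)
  have h : HasDerivAt (fun t : ℝ => GG κ s (z - y i + t • e)) (dG κ s e (z - y i)) 0 :=
    hasLineDerivAt_GG κ s e (z - y i)
  have h2 : (fun t : ℝ => GG κ s (z + t • e - y i)) = fun t : ℝ => GG κ s (z - y i + t • e) := by
    funext t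
    congr 1
    abel
  have h3 : HasDerivAt (fun t : ℝ => GG κ s (z + t • e - y i)) (dG κ s e (z - y i)) 0 := by
    rw [h2]; exact h
  exact h3.const_mul (w i)

theorem hasLineDerivAt_duM (κ : ℝ) (w : ι → ℝ) (y : ι → ZZ d) (s : ℝ) (e f z : ZZ d) :
    HasLineDerivAt ℝ (duM κ w y s e) (dduM κ w y s e f z) z f := by
  unfold HasLineDerivAt duM dduM
  refine HasDerivAt.fun_sum (fun i _ => ?_)
  have h : HasDerivAt (fun t : ℝ => dG κ s e (z - y i + t • f)) (ddG κ s e f (z - y i)) 0 :=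
    hasLineDerivAt_dG κ s e f (z - y i)
  have h2 : (fun t : ℝ => dG κ s e (z + t • f - y i)) =
      fun t : ℝ => dG κ s e (z - y i + t • f) := by
    funext t
    congr 1
    abel
  have h3 : HasDerivAt (fun t : ℝ => dG κ s e (z + t • f - y i)) (ddG κ s e f (z - y i)) 0 := by
    rw [h2]; exact h
  exact h3.const_mul (w i)

theorem hasDerivAt_uM_s {κ s : ℝ} (hκ : 0 < κ) (hs : 0 < s) (w : ι → ℝ) (y : ι → ZZ d)
    (z : ZZ d) : HasDerivAt (fun s => uM κ w y s z) (suM κ w y s z) s := by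
  unfold uM suM
  exact HasDerivAt.fun_sum (fun i _ => (hasDerivAt_GG_s hκ hs (z - y i)).const_mul (w i))

theorem heatM {κ s : ℝ} (hκ : 0 < κ) (hs : 0 < s) (w : ι → ℝ) (y : ι → ZZ d) (z : ZZ d) :
    suM κ w y s z = ∑ a : Fin d, (3 * κ ^ 2 * s ^ 2 / 2 * dduM κ w y s (dx a) (dx a) z
      + 2 * κ * s * dduM κ w y s (dx a) (dv a) z + dduM κ w y s (dv a) (dv a) z) := by
  unfold suM dduM
  simp only [heat hκ hs, Finset.mul_sum]
  rw [Finset.sum_comm]
  refine Finset.sum_congr rfl (fun a _ => ?_)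
  rw [← Finset.sum_add_distrib, ← Finset.sum_add_distrib]
  refine Finset.sum_congr rfl (fun i _ => ?_)
  ring

end Pool.Agent.Lib.MP_eee7b5_an
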