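import Pool.Agent.Lib.MP_eee7b5_an.GDeriv
import Pool.Agent.Lib.MP_eee7b5_an.MixA

set_option autoImplicit false

/-!
Finite mixtures of Gaussians: elementary facts.
-/

namespace Pool.Agent.Lib.MP_eee7b5_an

open MeasureTheory Set Matrix
open scoped ENNReal

variable {d : ℕ} {ι : Type} [Fintype ι]

private theorem mixB_shift {c : ℝ} (hc : 0 < c) (z y : ZZ d) :
    Env c (z - y) ≤ Real.exp (c * (‖y.1‖ ^ 2 + ‖y.2‖ ^ 2)) * Env (c / 2) z := by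
  have key : ∀ a b : E d, ‖a‖ ^ 2 / 2 - ‖b‖ ^ 2 ≤ ‖a - b‖ ^ 2 := by
    intro a b
    have h1 : ‖a‖ ≤ ‖a - b‖ + ‖b‖ := by
      have := norm_add_le (a - b) b
      rwa [sub_add_cancel] at this
    have h2 : ‖a‖ ^ 2 ≤ (‖a - b‖ + ‖b‖) ^ 2 := pow_le_pow_left₀ (norm_nonneg _) h1 2
    nlinarith [sq_nonneg (‖a - b‖ - ‖b‖)]
  unfold Env
  rw [← Real.exp_add, Real.exp_le_exp]
  have h1 := key z.1 y.1
  have h2 := key z.2 y.2
  rw [Prod.fst_sub, Prod.snd_sub]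
  have h3 : c * (‖z.1‖ ^ 2 / 2 - ‖y.1‖ ^ 2 + (‖z.2‖ ^ 2 / 2 - ‖y.2‖ ^ 2)) ≤
      c * (‖z.1 - y.1‖ ^ 2 + ‖z.2 - y.2‖ ^ 2) :=
    mul_le_mul_of_nonneg_left (add_le_add h1 h2) hc.le
  nlinarith [h3]

private theorem mixB_sum {c A : ℝ} (hc : 0 < c) (hA : 0 ≤ A) (w : ι → ℝ) (y : ι → ZZ d)
    (F : ZZ d → ℝ) (hF : ∀ z, |F z| ≤ A * Env c z) (z : ZZ d) :
    |∑ i, w i * F (z - y i)| ≤
      A * (∑ i, |w i| * Real.exp (c * (‖(y i).1‖ ^ 2 + ‖(y i).2‖ ^ 2))) * Env (c / 2) z := by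
  refine (Finset.abs_sum_le_sum_abs _ _).trans ?_
  rw [Finset.mul_sum, Finset.sum_mul]
  refine Finset.sum_le_sum fun i _ => ?_
  rw [abs_mul]
  calc |w i| * |F (z - y i)| ≤ |w i| * (A * Env c (z - y i)) :=
        mul_le_mul_of_nonneg_left (hF _) (abs_nonneg _)
    _ ≤ |w i| * (A * (Real.exp (c * (‖(y i).1‖ ^ 2 + ‖(y i).2‖ ^ 2)) * Env (c / 2) z)) :=
        mul_le_mul_of_nonneg_left (mul_le_mul_of_nonneg_left (mixB_shift hc z (y i)) hA)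
          (abs_nonneg _)
    _ = A * (|w i| * Real.exp (c * (‖(y i).1‖ ^ 2 + ‖(y i).2‖ ^ 2))) * Env (c / 2) z := by ring

/-- All the functions `uM, duM, dduM, suM` of a fixed mixture are below an envelope,
locally uniformly in `s`. -/
theorem mix_env {κ δ S : ℝ} (hκ : 0 < κ) (hδ : 0 < δ) (hS : δ ≤ S) (w : ι → ℝ)
    (y : ι → ZZ d) :
    ∃ c C : ℝ, 0 < c ∧ 0 < C ∧ ∀ s, δ ≤ s → s ≤ S → ∀ z : ZZ d,
      |uM κ w y s z| ≤ C * Env c z ∧ |suM κ w y s z| ≤ C * Env c z ∧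
      (∀ e : ZZ d, |duM κ w y s e z| ≤ C * (‖e.1‖ + ‖e.2‖) * Env c z) ∧
      (∀ e f : ZZ d, |dduM κ w y s e f z| ≤ C * (‖e.1‖ + ‖e.2‖) * (‖f.1‖ + ‖f.2‖) * Env c z) := by
  obtain ⟨c, C, hc, hC, h⟩ := deriv_env (d := d) hκ hδ hS
  obtain ⟨K, hK⟩ : ∃ K : ℝ, K = ∑ i, |w i| * Real.exp (c * (‖(y i).1‖ ^ 2 + ‖(y i).2‖ ^ 2)) :=
    ⟨_, rfl⟩
  have hK0 : 0 ≤ K := by
    rw [hK]
    exact Finset.sum_nonneg fun i _ => mul_nonneg (abs_nonneg _) (Real.exp_pos _).le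
  have hCK : C * K ≤ C * K + 1 := by linarith
  have gen : ∀ (s m : ℝ), 0 ≤ m → ∀ (F : ZZ d → ℝ), (∀ z, |F z| ≤ C * m * Env c z) →
      ∀ z, |∑ i, w i * F (z - y i)| ≤ (C * K + 1) * m * Env (c / 2) z := by
    intro s m hm F hF z
    have h1 := mixB_sum hc (mul_nonneg hC.le hm) w y F hF z
    rw [← hK] at h1
    refine h1.trans (mul_le_mul_of_nonneg_right ?_ (Env_pos _ _).le)
    have h2 : C * m * K = C * K * m := by ring
    rw [h2]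
    exact mul_le_mul_of_nonneg_right hCK hm
  refine ⟨c / 2, C * K + 1, by positivity, by positivity, ?_⟩
  intro s hs1 hs2 z
  have hs0 : 0 < s := hδ.trans_le hs1
  refine ⟨?_, ?_, ?_, ?_⟩
  · have h1 := gen s 1 zero_le_one (GG κ s) (by
      intro z
      rw [abs_of_pos (GG_pos hκ hs0 z), mul_one]
      exact (h s hs1 hs2 z).1) z
    rw [mul_one] at h1
    exact h1
  · have h1 := gen s 1 zero_le_one (sG κ s) (by
      intro z
      rw [mul_one]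
      exact (h s hs1 hs2 z).2.1) z
    rw [mul_one] at h1
    exact h1
  · intro e
    exact gen s (‖e.1‖ + ‖e.2‖) (by positivity) (dG κ s e)
      (fun z => (h s hs1 hs2 z).2.2.1 e) z
  · intro e f
    have h1 := gen s ((‖e.1‖ + ‖e.2‖) * (‖f.1‖ + ‖f.2‖)) (by positivity) (ddG κ s e f) (by
      intro z
      have := (h s hs1 hs2 z).2.2.2 e f
      rw [← mul_assoc]
      exact this) z
    rw [← mul_assoc] at h1
    exact h1

/-- The posterior mean is bounded by the bound of the marks. -/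
theorem aM_abs_le {κ s : ℝ} (hκ : 0 < κ) (hs : 0 < s) {w : ι → ℝ} (hw : ∀ i, 0 ≤ w i)
    (hw1 : ∑ i, w i = 1) {α : ι → ℝ} {L : ℝ} (hα : ∀ i, |α i| ≤ L) (y : ι → ZZ d) (z : ZZ d) :
    |aM κ w α y s z| ≤ L := by
  have hu := uM_pos hκ hs hw hw1 y z
  unfold aM
  rw [abs_div, abs_of_pos hu, div_le_iff₀ hu]
  unfold uM
  refine (Finset.abs_sum_le_sum_abs _ _).trans ?_
  rw [Finset.mul_sum]
  refine Finset.sum_le_sum fun i _ => ?_
  have hG := GG_pos hκ hs (z - y i)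
  rw [abs_mul, abs_mul, abs_of_nonneg (hw i), abs_of_pos hG]
  have h1 : w i * |α i| * GG κ s (z - y i) ≤ w i * L * GG κ s (z - y i) :=
    mul_le_mul_of_nonneg_right (mul_le_mul_of_nonneg_left (hα i) (hw i)) hG.le
  refine h1.trans (le_of_eq ?_)
  ring

theorem aM_continuous {κ s : ℝ} (hκ : 0 < κ) (hs : 0 < s) {w : ι → ℝ} (hw : ∀ i, 0 ≤ w i)
    (hw1 : ∑ i, w i = 1) (α : ι → ℝ) (y : ι → ZZ d) : Continuous (aM κ w α y s) :=
  (uM_continuous κ _ y s).div (uM_continuous κ w y s)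
    fun z => (uM_pos hκ hs hw hw1 y z).ne'

theorem daM_continuous {κ s : ℝ} (hκ : 0 < κ) (hs : 0 < s) {w : ι → ℝ} (hw : ∀ i, 0 ≤ w i)
    (hw1 : ∑ i, w i = 1) (α : ι → ℝ) (y : ι → ZZ d) (e : ZZ d) :
    Continuous (daM κ w α y s e) :=
  ((duM_continuous κ _ y s e).sub
    ((aM_continuous hκ hs hw hw1 α y).mul (duM_continuous κ w y s e))).div
    (uM_continuous κ w y s) fun z => (uM_pos hκ hs hw hw1 y z).ne'

theorem hasLineDerivAt_aM {κ s : ℝ} (hκ : 0 < κ) (hs : 0 < s) {w : ι → ℝ} (hw : ∀ i, 0 ≤ w i)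
    (hw1 : ∑ i, w i = 1) (α : ι → ℝ) (y : ι → ZZ d) (e z : ZZ d) :
    HasLineDerivAt ℝ (aM κ w α y s) (daM κ w α y s e z) z e := by
  have h1 := hasLineDerivAt_uM κ (fun i => w i * α i) y s e z
  have h2 := hasLineDerivAt_uM κ w y s e z
  have hu := uM_pos hκ hs hw hw1 y z
  unfold HasLineDerivAt at h1 h2 ⊢
  have hu' : uM κ w y s (z + (0 : ℝ) • e) ≠ 0 := by
    rw [zero_smul, add_zero]
    exact hu.ne'
  have h3 := h1.fun_div h2 hu'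
  refine h3.congr_deriv ?_
  rw [zero_smul, add_zero]
  unfold daM aM
  field_simp

end Pool.Agent.Lib.MP_eee7b5_an
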