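import Pool.Agent.Lib.MP_eee7b5_an.GDeriv
import Pool.Agent.Lib.MP_eee7b5_an.MixA
import Pool.Agent.Lib.MP_eee7b5_an.MixB

set_option autoImplicit false

/-!
Finite mixtures of Gaussians: elementary facts.
-/

namespace Pool.Agent.Lib.MP_eee7b5_an

open MeasureTheory Set Matrix
open scoped ENNReal

variable {d : ℕ} {ι : Type} [Fintype ι]

/-- The gradient of the logarithm of a mixture grows at most linearly
(for weights that may be signed in the numerator). -/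
theorem duM_le_growth {κ s : ℝ} (hκ : 0 < κ) (hs : 0 < s) {w : ι → ℝ} (hw : ∀ i, 0 ≤ w i)
    (hw1 : ∑ i, w i = 1) {α : ι → ℝ} {L : ℝ} (hα : ∀ i, |α i| ≤ L) (y : ι → ZZ d) :
    ∃ C : ℝ, 0 < C ∧ ∀ e z : ZZ d,
      |duM κ (fun i => w i * α i) y s e z| ≤
        C * (1 + ‖z.1‖ + ‖z.2‖) * (‖e.1‖ + ‖e.2‖) * uM κ w y s z := by
  obtain ⟨C0, hC0, hb⟩ := bG_abs_le (d := d) hκ hs (le_refl s)
  set Y : ℝ := ∑ i, (‖(y i).1‖ + ‖(y i).2‖) with hY
  have hY0 : 0 ≤ Y := Finset.sum_nonneg (fun i _ => by positivity)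
  have hYi : ∀ i, ‖(y i).1‖ + ‖(y i).2‖ ≤ Y := fun i =>
    Finset.single_le_sum (f := fun i => ‖(y i).1‖ + ‖(y i).2‖) (fun j _ => by positivity)
      (Finset.mem_univ i)
  refine ⟨(|L| + 1) * C0 * (1 + Y), by positivity, fun e z => ?_⟩
  have hterm : ∀ i, |w i * α i * dG κ s e (z - y i)| ≤
      (|L| + 1) * C0 * (1 + Y) * (1 + ‖z.1‖ + ‖z.2‖) * (‖e.1‖ + ‖e.2‖) *
        (w i * GG κ s (z - y i)) := by
    intro i
    have hG := GG_pos hκ hs (z - y i)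
    have h1 : |dG κ s e (z - y i)| ≤
        C0 * (‖(z - y i).1‖ + ‖(z - y i).2‖) * (‖e.1‖ + ‖e.2‖) * GG κ s (z - y i) := by
      unfold dG
      rw [abs_mul, abs_neg, abs_of_pos hG]
      exact mul_le_mul_of_nonneg_right (hb s le_rfl le_rfl _ _) hG.le
    have h2 : ‖(z - y i).1‖ + ‖(z - y i).2‖ ≤ (1 + Y) * (1 + ‖z.1‖ + ‖z.2‖) := by
      have a1 : ‖(z - y i).1‖ ≤ ‖z.1‖ + ‖(y i).1‖ := norm_sub_le _ _
      have a2 : ‖(z - y i).2‖ ≤ ‖z.2‖ + ‖(y i).2‖ := norm_sub_le _ _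
      have a3 := hYi i
      have a4 := norm_nonneg z.1
      have a5 := norm_nonneg z.2
      nlinarith [mul_nonneg hY0 a4, mul_nonneg hY0 a5]
    have h3 : |α i| ≤ |L| + 1 := by
      have := hα i
      have := le_abs_self L
      linarith
    have he : 0 ≤ ‖e.1‖ + ‖e.2‖ := by positivity
    calc |w i * α i * dG κ s e (z - y i)| = w i * |α i| * |dG κ s e (z - y i)| := by
          rw [abs_mul, abs_mul, abs_of_nonneg (hw i)]
      _ ≤ w i * (|L| + 1) * (C0 * (‖(z - y i).1‖ + ‖(z - y i).2‖) * (‖e.1‖ + ‖e.2‖) *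
            GG κ s (z - y i)) := by
          apply mul_le_mul (mul_le_mul_of_nonneg_left h3 (hw i)) h1 (abs_nonneg _)
          exact mul_nonneg (hw i) (by positivity)
      _ ≤ w i * (|L| + 1) * (C0 * ((1 + Y) * (1 + ‖z.1‖ + ‖z.2‖)) * (‖e.1‖ + ‖e.2‖) *
            GG κ s (z - y i)) := by
          apply mul_le_mul_of_nonneg_left _ (mul_nonneg (hw i) (by positivity))
          apply mul_le_mul_of_nonneg_right _ hG.le
          apply mul_le_mul_of_nonneg_right _ he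
          exact mul_le_mul_of_nonneg_left h2 hC0.le
      _ = _ := by ring
  unfold duM uM
  calc |∑ i, w i * α i * dG κ s e (z - y i)| ≤ ∑ i, |w i * α i * dG κ s e (z - y i)| :=
        Finset.abs_sum_le_sum_abs _ _
    _ ≤ ∑ i, (|L| + 1) * C0 * (1 + Y) * (1 + ‖z.1‖ + ‖z.2‖) * (‖e.1‖ + ‖e.2‖) *
        (w i * GG κ s (z - y i)) := Finset.sum_le_sum (fun i _ => hterm i)
    _ = _ := by rw [← Finset.mul_sum]

theorem daM_growth {κ s : ℝ} (hκ : 0 < κ) (hs : 0 < s) {w : ι → ℝ} (hw : ∀ i, 0 ≤ w i)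
    (hw1 : ∑ i, w i = 1) {α : ι → ℝ} {L : ℝ} (hα : ∀ i, |α i| ≤ L) (y : ι → ZZ d) :
    ∃ C : ℝ, 0 < C ∧ ∀ e z : ZZ d,
      |daM κ w α y s e z| ≤ C * (1 + ‖z.1‖ + ‖z.2‖) * (‖e.1‖ + ‖e.2‖) := by
  obtain ⟨C1, hC1, h1⟩ := duM_le_growth hκ hs hw hw1 hα y
  obtain ⟨C2, hC2, h2⟩ := duM_le_growth hκ hs hw hw1 (α := fun _ => (1 : ℝ)) (L := 1)
    (fun i => by simp) y
  refine ⟨C1 + |L| * C2, by positivity, fun e z => ?_⟩
  have hu := uM_pos hκ hs hw hw1 y z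
  have ha : |aM κ w α y s z| ≤ |L| := (aM_abs_le hκ hs hw hw1 hα y z).trans (le_abs_self L)
  have h1' := h1 e z
  have h2' := h2 e z
  simp only [mul_one] at h2'
  have he : 0 ≤ (1 + ‖z.1‖ + ‖z.2‖) * (‖e.1‖ + ‖e.2‖) := by positivity
  unfold daM
  rw [abs_div, abs_of_pos hu, div_le_iff₀ hu]
  calc |duM κ (fun i => w i * α i) y s e z - aM κ w α y s z * duM κ w y s e z|
      ≤ |duM κ (fun i => w i * α i) y s e z| + |aM κ w α y s z * duM κ w y s e z| :=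
        abs_sub _ _
    _ ≤ C1 * (1 + ‖z.1‖ + ‖z.2‖) * (‖e.1‖ + ‖e.2‖) * uM κ w y s z +
        |L| * (C2 * (1 + ‖z.1‖ + ‖z.2‖) * (‖e.1‖ + ‖e.2‖) * uM κ w y s z) := by
        rw [abs_mul]
        exact add_le_add h1' (mul_le_mul ha h2' (abs_nonneg _) (abs_nonneg _))
    _ = _ := by ring

end Pool.Agent.Lib.MP_eee7b5_an
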