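import Pool.Agent.Lib.MP_eee7b5_an.Chain

set_option autoImplicit false

/-!
The chain spends little time in sets of small measure.
-/

namespace Pool.Agent.Lib.MP_eee7b5_an

open MeasureTheory Set Matrix
open scoped ENNReal

variable {d : ℕ}

/-- Young's inequality for the pair `phi`, `exp`. -/
theorem young_phi {u χ K : ℝ} (hu : 0 ≤ u) (h0 : 0 ≤ χ) (h1 : χ ≤ 1) (hK : 0 < K) :
    u * χ ≤ phi u / K + Real.exp K / K * χ := by
  have ha : 0 < 1 + u := by linarith
  have h2 : (1 + u) * (K * χ - Real.log (1 + u) + 1) ≤ Real.exp (K * χ) := by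
    have h3 := Real.add_one_le_exp (K * χ - Real.log (1 + u))
    calc (1 + u) * (K * χ - Real.log (1 + u) + 1)
        ≤ (1 + u) * Real.exp (K * χ - Real.log (1 + u)) := mul_le_mul_of_nonneg_left h3 ha.le
      _ = Real.exp (K * χ) := by
          rw [Real.exp_sub, Real.exp_log ha]
          field_simp
  have h4 : Real.exp (K * χ) ≤ 1 + χ * (Real.exp K - 1) := by
    have h5 := convexOn_exp.2 (mem_univ (0 : ℝ)) (mem_univ K) (sub_nonneg.2 h1) h0 (by ring)
    simp only [smul_eq_mul, mul_zero, zero_add, Real.exp_zero, mul_one] at h5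
    rw [mul_comm K χ]
    linarith
  have h6 : u * χ * K ≤ phi u + Real.exp K * χ := by
    unfold phi
    nlinarith
  have h7 : u * χ ≤ (phi u + Real.exp K * χ) / K := by
    rw [le_div_iff₀ hK]; exact h6
  calc u * χ ≤ (phi u + Real.exp K * χ) / K := h7
    _ = phi u / K + Real.exp K / K * χ := by ring

theorem phi_nonneg {u : ℝ} (hu : 0 ≤ u) : 0 ≤ phi u := by
  have h := young_phi hu (le_refl (0 : ℝ)) zero_le_one one_pos
  simpa using h

private theorem phi_le_sq_OccA {u : ℝ} (hu : 0 ≤ u) : phi u ≤ u * u := by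
  have ha : 0 < 1 + u := by linarith
  have h := Real.log_le_sub_one_of_pos ha
  unfold phi
  nlinarith

theorem Phi_integrable {ι : Type} [Fintype ι] {κ s : ℝ} (hκ : 0 < κ) (hs : 0 < s) {w : ι → ℝ}
    (hw : ∀ i, 0 ≤ w i) (hw1 : ∑ i, w i = 1) (y : ι → ZZ d) :
    Integrable (fun z => phi (uM κ w y s z)) := by
  have hi := (integrable_uM hκ hs w y).const_mul (((2 * Real.pi * κ * s ^ 2) ^ d)⁻¹)
  refine hi.mono' ?_ ?_
  · have hm : Measurable phi := by
      unfold phi
      exact ((measurable_const.add measurable_id).mul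
        (Real.measurable_log.comp (measurable_const.add measurable_id))).sub measurable_id
    exact (hm.comp (uM_continuous κ w y s).measurable).aestronglyMeasurable
  · refine Filter.Eventually.of_forall (fun z => ?_)
    have hu := (uM_pos hκ hs hw hw1 y z).le
    rw [Real.norm_eq_abs, abs_of_nonneg (phi_nonneg hu)]
    exact (phi_le_sq_OccA hu).trans (mul_le_mul_of_nonneg_right (uM_le hκ hs hw hw1 y z) hu)

/-- Smoothing a uniformly continuous function. -/
theorem smooth_close {κ s ρ ε τ : ℝ} (hκ : 0 < κ) (hs : 0 < s) (χ : ZZ d → ℝ)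
    (hχ : Continuous χ) (h0 : ∀ z, 0 ≤ χ z) (h1 : ∀ z, χ z ≤ 1) (hρ : 0 < ρ) (hε : 0 ≤ ε)
    (hmod : ∀ z y : ZZ d, ‖z - y‖ < ρ → χ y ≤ χ z + ε)
    (htail : ∫ z in {z : ZZ d | ρ ≤ ‖z‖}, GG κ s z ≤ τ) (y : ZZ d) :
    χ y ≤ (∫ z : ZZ d, GG κ s (z - y) * χ z) + ε + τ := by
  have hl : (volume : Measure (ZZ d)).IsAddLeftInvariant :=
    inferInstanceAs ((volume : Measure (E d)).prod (volume : Measure (E d))).IsAddLeftInvariant
  have hr : (volume : Measure (ZZ d)).IsAddRightInvariant := inferInstance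
  set S : Set (ZZ d) := {z : ZZ d | ρ ≤ ‖z‖} with hS
  have hSm : MeasurableSet S := (isClosed_le continuous_const continuous_norm).measurableSet
  have hG : ∀ z : ZZ d, 0 < GG κ s z := fun z => GG_pos hκ hs z
  have hI : Integrable (GG κ s : ZZ d → ℝ) := integrable_GG hκ hs
  have hIy : Integrable (fun z : ZZ d => GG κ s (z - y)) := hI.comp_sub_right y
  have hIχ : Integrable (fun z : ZZ d => GG κ s (z - y) * χ z) := by
    refine hIy.mono' ?_ ?_
    · exact (((GG_continuous κ s).comp (continuous_id.sub continuous_const)).mul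
        hχ).aestronglyMeasurable
    · refine Filter.Eventually.of_forall (fun z => ?_)
      rw [Real.norm_eq_abs, abs_of_nonneg (mul_nonneg (hG _).le (h0 z))]
      exact mul_le_of_le_one_right (hG _).le (h1 z)
  have hIS : Integrable (S.indicator (GG κ s)) := hI.indicator hSm
  have hISy : Integrable (fun z : ZZ d => S.indicator (GG κ s) (z - y)) := hIS.comp_sub_right y
  have key : ∀ z : ZZ d, GG κ s (z - y) * χ y ≤
      GG κ s (z - y) * χ z + ε * GG κ s (z - y) + S.indicator (GG κ s) (z - y) := by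
    intro z
    by_cases hz : z - y ∈ S
    · rw [Set.indicator_of_mem hz]
      have h2 := hG (z - y)
      have h3 : GG κ s (z - y) * χ y ≤ GG κ s (z - y) := mul_le_of_le_one_right h2.le (h1 y)
      have h4 : 0 ≤ GG κ s (z - y) * χ z := mul_nonneg h2.le (h0 z)
      have h5 : 0 ≤ ε * GG κ s (z - y) := mul_nonneg hε h2.le
      linarith
    · rw [Set.indicator_of_notMem hz]
      have h2 : ‖z - y‖ < ρ := by
        exact not_le.1 hz
      have h3 := mul_le_mul_of_nonneg_left (hmod z y h2) (hG (z - y)).le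
      linarith
  have hI2 : Integrable (fun z : ZZ d => GG κ s (z - y) * χ z + ε * GG κ s (z - y)) :=
    hIχ.add (hIy.const_mul ε)
  have hint : ∫ z : ZZ d, GG κ s (z - y) * χ y ≤
      ∫ z : ZZ d, (GG κ s (z - y) * χ z + ε * GG κ s (z - y)) + S.indicator (GG κ s) (z - y) :=
    integral_mono (hIy.mul_const (χ y)) (hI2.add hISy) key
  rw [integral_mul_const, integral_add hI2 hISy,
    integral_add hIχ (hIy.const_mul ε), integral_const_mul,
    integral_sub_right_eq_self (fun z : ZZ d => GG κ s z) y,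
    integral_sub_right_eq_self (fun z : ZZ d => S.indicator (GG κ s) z) y,
    integral_GG hκ hs, integral_indicator hSm] at hint
  linarith

end Pool.Agent.Lib.MP_eee7b5_an
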