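import Pool.Agent.Lib.MP_eee7b5_an.Chain
import Pool.Agent.Lib.MP_eee7b5_an.OccA

set_option autoImplicit false

/-!
The chain spends little time in sets of small measure.
-/

namespace Pool.Agent.Lib.MP_eee7b5_an

open MeasureTheory Set Matrix
open scoped ENNReal

variable {d : ℕ}

theorem OccB_integrable {κ s : ℝ} (hκ : 0 < κ) (hs : 0 < s) (χ : ZZ d → ℝ)
    (hχ : Continuous χ) (h0 : ∀ z, 0 ≤ χ z) (h1 : ∀ z, χ z ≤ 1) (y : ZZ d) :
    Integrable (fun z : ZZ d => GG κ s (z - y) * χ z) := by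
  have : (volume : Measure (ZZ d)).IsAddHaarMeasure := by
    change (Measure.prod (volume : Measure (E d)) (volume : Measure (E d))).IsAddHaarMeasure
    infer_instance
  have hG : Integrable (fun z : ZZ d => GG κ s (z - y)) := (integrable_GG hκ hs).comp_sub_right y
  refine hG.mono' ?_ (Filter.Eventually.of_forall fun z => ?_)
  · exact (((GG_continuous κ s).comp (continuous_id.sub continuous_const)).mul
      hχ).aestronglyMeasurable
  · have hp := GG_pos hκ hs (z - y)
    rw [Real.norm_eq_abs, abs_mul, abs_of_pos hp, abs_of_nonneg (h0 z)]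
    calc GG κ s (z - y) * χ z ≤ GG κ s (z - y) * 1 := by
          exact mul_le_mul_of_nonneg_left (h1 z) hp.le
      _ = GG κ s (z - y) := mul_one _

/-- One time step of the occupation estimate. -/
theorem EX_le_entropy {κ s h ρ ε τ K : ℝ} (hd : 1 ≤ d) (hκ : 0 < κ) (hs : 0 < s)
    (B : ℕ → ZZ d → Matrix (Fin d) (Fin d) ℝ) (k : ℕ) (χ : ZZ d → ℝ)
    (hχ : Continuous χ) (hint : Integrable χ) (h0 : ∀ z, 0 ≤ χ z) (h1 : ∀ z, χ z ≤ 1)
    (hρ : 0 < ρ) (hε : 0 ≤ ε) (hmod : ∀ z y : ZZ d, ‖z - y‖ < ρ → χ y ≤ χ z + ε)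
    (htail : ∫ z in {z : ZZ d | ρ ≤ ‖z‖}, GG κ s z ≤ τ) (hK : 0 < K) :
    EX h B k χ ≤ aK κ h B k s / K + Real.exp K / K * (∫ z, χ z) + ε + τ := by
  obtain ⟨ι, hι, w, y, hw, hw1, hr⟩ := EX_rep hd h B k
  have hu : (fun z : ZZ d => EX h B k (fun y => GG κ s (z - y))) = uM κ w y s := by
    funext z
    rw [hr]
    rfl
  have hint2 : Integrable (fun z : ZZ d => uM κ w y s z * χ z) := by
    have : (fun z : ZZ d => uM κ w y s z * χ z) =
        fun z => ∑ i, w i * (GG κ s (z - y i) * χ z) := by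
      funext z
      unfold uM
      rw [Finset.sum_mul]
      exact Finset.sum_congr rfl fun i _ => by ring
    rw [this]
    exact integrable_finsetSum _ fun i _ =>
      (OccB_integrable hκ hs χ hχ h0 h1 (y i)).const_mul (w i)
  have hsum : ∑ i, w i * (∫ z : ZZ d, GG κ s (z - y i) * χ z) =
      ∫ z : ZZ d, uM κ w y s z * χ z := by
    have : (fun z : ZZ d => uM κ w y s z * χ z) =
        fun z => ∑ i, w i * (GG κ s (z - y i) * χ z) := by
      funext z
      unfold uM
      rw [Finset.sum_mul]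
      exact Finset.sum_congr rfl fun i _ => by ring
    rw [this, integral_finsetSum _ fun i _ =>
      (OccB_integrable hκ hs χ hχ h0 h1 (y i)).const_mul (w i)]
    exact Finset.sum_congr rfl fun i _ => (integral_const_mul _ _).symm
  have hle : ∑ i, w i * χ (y i) ≤
      ∑ i, w i * ((∫ z : ZZ d, GG κ s (z - y i) * χ z) + ε + τ) :=
    Finset.sum_le_sum fun i _ => mul_le_mul_of_nonneg_left
      (smooth_close hκ hs χ hχ h0 h1 hρ hε hmod htail (y i)) (hw i)
  have hle2 : ∑ i, w i * ((∫ z : ZZ d, GG κ s (z - y i) * χ z) + ε + τ) =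
      (∫ z : ZZ d, uM κ w y s z * χ z) + ε + τ := by
    rw [← hsum]
    have : ∀ i, w i * ((∫ z : ZZ d, GG κ s (z - y i) * χ z) + ε + τ) =
        w i * (∫ z : ZZ d, GG κ s (z - y i) * χ z) + w i * (ε + τ) := fun i => by ring
    simp_rw [this]
    rw [Finset.sum_add_distrib, ← Finset.sum_mul, hw1]
    ring
  have hPhi := Phi_integrable hκ hs hw hw1 y
  have hle3 : ∫ z : ZZ d, uM κ w y s z * χ z ≤
      ∫ z : ZZ d, (phi (uM κ w y s z) / K + Real.exp K / K * χ z) := by
    refine integral_mono hint2 ((hPhi.div_const K).add (hint.const_mul _)) fun z => ?_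
    exact young_phi (uM_pos hκ hs hw hw1 y z).le (h0 z) (h1 z) hK
  have hle4 : ∫ z : ZZ d, (phi (uM κ w y s z) / K + Real.exp K / K * χ z) =
      aK κ h B k s / K + Real.exp K / K * (∫ z, χ z) := by
    rw [integral_add (hPhi.div_const K) (hint.const_mul _), integral_div, integral_const_mul]
    unfold aK Phi
    rw [← hu]
  rw [hr]
  linarith

end Pool.Agent.Lib.MP_eee7b5_an
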