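import Pool.Agent.Lib.MP_eee7b5_an.Chain
import Pool.Agent.Lib.MP_eee7b5_an.OccA
import Pool.Agent.Lib.MP_eee7b5_an.OccB

set_option autoImplicit false

/-!
The chain spends little time in sets of small measure.
-/

namespace Pool.Agent.Lib.MP_eee7b5_an

open MeasureTheory Set Matrix
open scoped ENNReal

variable {d : ℕ}

/-- Left Riemann sums of a continuous function. -/
private theorem OccC_riemann {θ : ℝ} (hθ : 0 < θ) {I : ℝ → ℝ} (hI : ContinuousOn I (Icc 0 θ))
    {ε : ℝ} (hε : 0 < ε) :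
    ∃ n0 : ℕ, ∀ n : ℕ, n0 ≤ n → 0 < n →
      (1 / (n : ℝ)) * ∑ k ∈ Finset.range n, I (k * (θ / n)) ≤
        (1 / θ) * (∫ r in (0 : ℝ)..θ, I r) + ε := by
  have huc := isCompact_Icc.uniformContinuousOn_of_continuous hI
  rw [Metric.uniformContinuousOn_iff] at huc
  obtain ⟨ρ, hρ, hmod⟩ := huc ε hε
  obtain ⟨n0, hn0⟩ := exists_nat_gt (θ / ρ)
  refine ⟨n0, fun n hn hnpos => ?_⟩
  have hnp : (0 : ℝ) < n := by exact_mod_cast hnpos
  have hstep : θ / n < ρ := by
    rw [div_lt_iff₀ hnp]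
    rw [div_lt_iff₀ hρ] at hn0
    have : (n0 : ℝ) ≤ n := by exact_mod_cast hn
    nlinarith
  have hh : 0 < θ / n := by positivity
  have hpt : ∀ k : ℕ, k ≤ n → (k : ℝ) * (θ / n) ∈ Icc 0 θ := by
    intro k hk
    have hk' : (k : ℝ) ≤ n := by exact_mod_cast hk
    refine ⟨by positivity, ?_⟩
    calc (k : ℝ) * (θ / n) ≤ n * (θ / n) := mul_le_mul_of_nonneg_right hk' hh.le
      _ = θ := by field_simp
  have hint : ∀ k : ℕ, k < n → IntervalIntegrable I volume ((k : ℝ) * (θ / n))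
      (((k + 1 : ℕ) : ℝ) * (θ / n)) := by
    intro k hk
    refine ContinuousOn.intervalIntegrable (hI.mono ?_)
    rw [uIcc_of_le (mul_le_mul_of_nonneg_right (by push_cast; linarith) hh.le)]
    exact Icc_subset_Icc (hpt k hk.le).1 (hpt (k + 1) hk).2
  have hsum := intervalIntegral.sum_integral_adjacent_intervals (f := I) (μ := volume)
    (a := fun k : ℕ => (k : ℝ) * (θ / n)) (n := n) hint
  have hlast : ((n : ℕ) : ℝ) * (θ / n) = θ := by field_simp
  simp only [hlast, Nat.cast_zero, zero_mul] at hsum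
  have hterm : ∀ k ∈ Finset.range n, (θ / n) * I (k * (θ / n)) ≤
      (∫ r in ((k : ℝ) * (θ / n))..(((k + 1 : ℕ) : ℝ) * (θ / n)), I r) + ε * (θ / n) := by
    intro k hk
    have hk' := Finset.mem_range.1 hk
    have hle : (k : ℝ) * (θ / n) ≤ ((k + 1 : ℕ) : ℝ) * (θ / n) :=
      mul_le_mul_of_nonneg_right (by push_cast; linarith) hh.le
    have h1 : ∫ r in ((k : ℝ) * (θ / n))..(((k + 1 : ℕ) : ℝ) * (θ / n)),
        (I (k * (θ / n)) - ε) ≤
        ∫ r in ((k : ℝ) * (θ / n))..(((k + 1 : ℕ) : ℝ) * (θ / n)), I r := by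
      refine intervalIntegral.integral_mono_on hle intervalIntegrable_const (hint k hk') ?_
      intro r hr
      have hr' : r ∈ Icc 0 θ := ⟨(hpt k hk'.le).1.trans hr.1, hr.2.trans (hpt (k + 1) hk').2⟩
      have hd' : dist ((k : ℝ) * (θ / n)) r < ρ := by
        rw [Real.dist_eq, abs_sub_comm, abs_of_nonneg (by linarith [hr.1])]
        have := hr.2
        push_cast at this
        nlinarith
      have := hmod _ (hpt k hk'.le) r hr' hd'
      rw [Real.dist_eq, abs_lt] at this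
      linarith [this.2]
    rw [intervalIntegral.integral_const, smul_eq_mul] at h1
    push_cast at h1 ⊢
    nlinarith
  have h2 := Finset.sum_le_sum hterm
  rw [Finset.sum_add_distrib, hsum, ← Finset.mul_sum, Finset.sum_const, Finset.card_range,
    nsmul_eq_mul] at h2
  have h3 : (n : ℝ) * (ε * (θ / n)) = ε * θ := by field_simp
  rw [h3] at h2
  have h4 : (1 / (n : ℝ)) * ∑ k ∈ Finset.range n, I (k * (θ / n)) =
      (1 / θ) * (θ / n * ∑ k ∈ Finset.range n, I (k * (θ / n))) := by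
    generalize ∑ k ∈ Finset.range n, I (k * (θ / n)) = S
    field_simp
  rw [h4]
  calc (1 / θ) * (θ / n * ∑ k ∈ Finset.range n, I (k * (θ / n)))
      ≤ (1 / θ) * ((∫ r in (0 : ℝ)..θ, I r) + ε * θ) :=
        mul_le_mul_of_nonneg_left h2 (by positivity)
    _ = (1 / θ) * (∫ r in (0 : ℝ)..θ, I r) + ε := by field_simp

/-- **Occupation estimate.** For every `η > 0` there is `ε0 > 0` such that the chain spends a
fraction at most `η` of its time in (a smooth version of) a space-time set of measure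
at most `ε0`.  `χ r z` is the cutoff at process time `r ∈ [0, θ]`. -/
theorem occupation {lam Lam θ η : ℝ} (hd : 1 ≤ d) (hlam : 0 < lam) (hLam : lam ≤ Lam)
    (hθ : 0 < θ) (hθ1 : θ ≤ 1) (hη : 0 < η) :
    ∃ ε0 : ℝ, 0 < ε0 ∧ ∀ χ : ℝ → ZZ d → ℝ,
      ContinuousOn (fun p : ℝ × ZZ d => χ p.1 p.2) (Icc 0 θ ×ˢ univ) →
      (∃ R0 : ℝ, ∀ r ∈ Icc 0 θ, ∀ z : ZZ d, R0 ≤ ‖z‖ → χ r z = 0) →
      (∀ r z, 0 ≤ χ r z) → (∀ r z, χ r z ≤ 1) →
      ∫ r in (0 : ℝ)..θ, ∫ z : ZZ d, χ r z ≤ ε0 →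
      ∃ n0 : ℕ, ∀ n : ℕ, n0 ≤ n → 0 < n →
      ∀ (B : ℕ → ZZ d → Matrix (Fin d) (Fin d) ℝ), (∀ k y, EllB lam Lam (B k y)) →
        (1 / (n : ℝ)) * ∑ k ∈ Finset.range n, EX (θ / n) B k (χ (k * (θ / n))) ≤ η := by
  have hκ : (0 : ℝ) < 4 / lam := by positivity
  obtain ⟨C1, hC1, hent⟩ := chain_entropy (d := d) hd hlam hLam hθ hθ1
  -- the parameter `K`
  set K : ℝ := 4 * C1 / η with hKdef
  have hK : 0 < K := by positivity
  have hexp := Real.exp_pos K
  refine ⟨θ * η * K / (4 * Real.exp K), by positivity, ?_⟩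
  intro χ hcont hsupp h0 h1 hsmall
  obtain ⟨R0, hR0⟩ := hsupp
  -- continuity at fixed times
  have hχc : ∀ r ∈ Icc 0 θ, Continuous (χ r) := by
    intro r hr
    rw [← continuousOn_univ]
    exact hcont.comp (f := fun z : ZZ d => ((r, z) : ℝ × ZZ d))
      (continuous_const.prodMk continuous_id).continuousOn (fun z _ => ⟨hr, mem_univ _⟩)
  have hcs : ∀ r ∈ Icc 0 θ, HasCompactSupport (χ r) := by
    intro r hr
    refine HasCompactSupport.intro (isCompact_closedBall (0 : ZZ d) R0) (fun z hz => ?_)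
    refine hR0 r hr z ?_
    rw [mem_closedBall_zero_iff, not_le] at hz
    exact hz.le
  have hint : ∀ r ∈ Icc 0 θ, Integrable (χ r) := fun r hr =>
    (hχc r hr).integrable_of_hasCompactSupport (hcs r hr)
  -- continuity of the mass
  have hI : ContinuousOn (fun r => ∫ z : ZZ d, χ r z) (Icc 0 θ) := by
    refine continuousOn_of_dominated (bound := (Metric.closedBall (0 : ZZ d) R0).indicator 1)
      (fun r hr => (hχc r hr).aestronglyMeasurable) ?_ ?_ ?_
    · intro r hr
      refine Filter.Eventually.of_forall fun z => ?_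
      by_cases hz : z ∈ Metric.closedBall (0 : ZZ d) R0
      · rw [indicator_of_mem hz, Pi.one_apply, Real.norm_eq_abs, abs_of_nonneg (h0 r z)]
        exact h1 r z
      · rw [indicator_of_notMem hz]
        rw [mem_closedBall_zero_iff, not_le] at hz
        rw [hR0 r hr z hz.le, norm_zero]
    · exact (integrable_indicator_iff Metric.isClosed_closedBall.measurableSet).2
        (integrableOn_const (isCompact_closedBall (0 : ZZ d) R0).measure_lt_top.ne)
    · refine Filter.Eventually.of_forall fun z => ?_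
      exact hcont.comp (f := fun r : ℝ => ((r, z) : ℝ × ZZ d))
        (continuous_id.prodMk continuous_const).continuousOn (fun r hr => ⟨hr, mem_univ _⟩)
  -- the modulus of continuity
  have hmodu : ∃ ρ : ℝ, 0 < ρ ∧ ∀ r ∈ Icc 0 θ, ∀ z y : ZZ d, ‖z - y‖ < ρ →
      χ r y ≤ χ r z + η / 8 := by
    have hcomp : IsCompact (Icc 0 θ ×ˢ Metric.closedBall (0 : ZZ d) (|R0| + 1)) :=
      isCompact_Icc.prod (isCompact_closedBall _ _)
    have huc := hcomp.uniformContinuousOn_of_continuous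
      (hcont.mono (prod_mono_right (subset_univ _)))
    rw [Metric.uniformContinuousOn_iff] at huc
    obtain ⟨ρ, hρ, hmod⟩ := huc (η / 8) (by positivity)
    refine ⟨min ρ 1, by positivity, fun r hr z y hzy => ?_⟩
    have hzρ : ‖z - y‖ < ρ := hzy.trans_le (min_le_left _ _)
    have hz1 : ‖z - y‖ < 1 := hzy.trans_le (min_le_right _ _)
    by_cases hy : ‖y‖ ≤ |R0|
    · have hz : ‖z‖ ≤ |R0| + 1 := by
        have : ‖z‖ ≤ ‖z - y‖ + ‖y‖ := by
          simpa using norm_add_le (z - y) y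
        linarith
      have := hmod (r, y) ⟨hr, mem_closedBall_zero_iff.2 (by linarith)⟩ (r, z)
        ⟨hr, mem_closedBall_zero_iff.2 hz⟩ (by
          rw [Prod.dist_eq, dist_self, max_eq_right dist_nonneg, dist_comm, dist_eq_norm]
          exact hzρ)
      rw [Real.dist_eq, abs_lt] at this
      linarith [this.2]
    · rw [not_le] at hy
      rw [hR0 r hr y ((le_abs_self _).trans hy.le)]
      have := h0 r z
      positivity
  obtain ⟨ρ, hρ, hmod⟩ := hmodu
  obtain ⟨δ0, hδ0, htail⟩ := GG_tail (d := d) hκ ρ (η / 8) hρ (by positivity)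
  obtain ⟨n1, hn1⟩ := hent (min 1 (δ0 / 2)) (by positivity) (min_le_left _ _)
  obtain ⟨n2, hn2⟩ := OccC_riemann hθ hI (ε := η * K / (4 * Real.exp K)) (by positivity)
  refine ⟨max n1 n2, fun n hn hnpos B hB => ?_⟩
  have hnp : (0 : ℝ) < n := by exact_mod_cast hnpos
  obtain ⟨s, hs1, hs2, hsC⟩ := hn1 n ((le_max_left _ _).trans hn) hnpos B hB
  have hs : 0 < s := lt_of_lt_of_le (by positivity) hs1
  have hsδ : s ≤ δ0 := by
    have := min_le_right 1 (δ0 / 2)
    linarith
  have hriem := hn2 n ((le_max_right _ _).trans hn) hnpos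
  have hpt : ∀ k ∈ Finset.range n, (k : ℝ) * (θ / n) ∈ Icc 0 θ := by
    intro k hk
    have hk' : (k : ℝ) ≤ n := by exact_mod_cast (Finset.mem_range.1 hk).le
    refine ⟨by positivity, ?_⟩
    calc (k : ℝ) * (θ / n) ≤ n * (θ / n) := mul_le_mul_of_nonneg_right hk' (by positivity)
      _ = θ := by field_simp
  have hterm : ∀ k ∈ Finset.range n, EX (θ / n) B k (χ (k * (θ / n))) ≤
      (1 / K) * aK (4 / lam) (θ / n) B k s +
        (Real.exp K / K) * (∫ z, χ (k * (θ / n)) z) + η / 4 := by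
    intro k hk
    have h := EX_le_entropy (h := θ / n) (K := K) hd hκ hs B k (χ (k * (θ / n)))
      (hχc _ (hpt k hk)) (hint _ (hpt k hk)) (h0 _) (h1 _) hρ (by positivity)
      (hmod _ (hpt k hk)) (htail s hs hsδ) hK
    calc EX (θ / n) B k (χ (k * (θ / n))) ≤ _ := h
      _ = _ := by ring
  have hsum := Finset.sum_le_sum hterm
  rw [Finset.sum_add_distrib, Finset.sum_add_distrib, ← Finset.mul_sum, ← Finset.mul_sum,
    Finset.sum_const, Finset.card_range, nsmul_eq_mul] at hsum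
  have hb1 : (1 / K) * ((1 / (n : ℝ)) * ∑ k ∈ Finset.range n, aK (4 / lam) (θ / n) B k s) ≤
      η / 4 := by
    calc (1 / K) * ((1 / (n : ℝ)) * ∑ k ∈ Finset.range n, aK (4 / lam) (θ / n) B k s)
        ≤ (1 / K) * C1 := mul_le_mul_of_nonneg_left hsC (by positivity)
      _ = η / 4 := by
        rw [hKdef]
        field_simp
  have hb2 : (Real.exp K / K) * ((1 / (n : ℝ)) *
      ∑ k ∈ Finset.range n, (∫ z, χ (k * (θ / n)) z)) ≤ η / 2 := by
    calc (Real.exp K / K) * ((1 / (n : ℝ)) *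
        ∑ k ∈ Finset.range n, (∫ z, χ (k * (θ / n)) z))
        ≤ (Real.exp K / K) * ((1 / θ) * (∫ r in (0 : ℝ)..θ, ∫ z : ZZ d, χ r z) +
          η * K / (4 * Real.exp K)) := mul_le_mul_of_nonneg_left hriem (by positivity)
      _ ≤ (Real.exp K / K) * ((1 / θ) * (θ * η * K / (4 * Real.exp K)) +
          η * K / (4 * Real.exp K)) := by
        refine mul_le_mul_of_nonneg_left ?_ (by positivity)
        have := mul_le_mul_of_nonneg_left hsmall (show 0 ≤ 1 / θ by positivity)
        linarith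
      _ = η / 2 := by
        field_simp
        ring
  calc (1 / (n : ℝ)) * ∑ k ∈ Finset.range n, EX (θ / n) B k (χ (k * (θ / n)))
      ≤ (1 / (n : ℝ)) * ((1 / K) * ∑ k ∈ Finset.range n, aK (4 / lam) (θ / n) B k s +
        (Real.exp K / K) * ∑ k ∈ Finset.range n, (∫ z, χ (k * (θ / n)) z) + n * (η / 4)) :=
        mul_le_mul_of_nonneg_left hsum (by positivity)
    _ = (1 / K) * ((1 / (n : ℝ)) * ∑ k ∈ Finset.range n, aK (4 / lam) (θ / n) B k s) +
        (Real.exp K / K) * ((1 / (n : ℝ)) *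
          ∑ k ∈ Finset.range n, (∫ z, χ (k * (θ / n)) z)) + η / 4 := by
        field_simp
    _ ≤ η / 4 + η / 2 + η / 4 := by linarith
    _ = η := by ring

end Pool.Agent.Lib.MP_eee7b5_an
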