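import Pool.Agent.Lib.MP_eee7b5_an.Chain
import Pool.Agent.Lib.MP_eee7b5_an.OccA
import Pool.Agent.Lib.MP_eee7b5_an.OccB
import Pool.Agent.Lib.MP_eee7b5_an.OccC

set_option autoImplicit false

/-!
The chain spends little time in sets of small measure.
-/

namespace Pool.Agent.Lib.MP_eee7b5_an

open MeasureTheory Set Matrix
open scoped ENNReal

variable {d : ℕ}

/-- Supermartingale inequality. -/
theorem EX_super {h η : ℝ} (hd : 1 ≤ d) (B : ℕ → ZZ d → Matrix (Fin d) (Fin d) ℝ)
    (W : ℕ → ZZ d → ℝ) (n : ℕ)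
    (hW : ∀ k < n, ∀ y, stepAvg h (B k y) (W (k + 1)) y ≤ W k y + η) :
    ∀ k ≤ n, EX h B k (W k) ≤ W 0 0 + k * η := by
  intro k
  induction k with
  | zero =>
    intro _
    simp [EX]
  | succ k ih =>
    intro hk
    have h1 : EX h B (k + 1) (W (k + 1)) ≤ EX h B k (fun y => W k y + η) := by
      change EX h B k (fun y => stepAvg h (B k y) (W (k + 1)) y) ≤ _
      exact EX_mono hd h B k (fun y => hW k (by omega) y)
    rw [EX_add hd h B k (W k) (fun _ => η), EX_const hd] at h1
    have h2 := ih (by omega)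
    push_cast
    linarith

end Pool.Agent.Lib.MP_eee7b5_an
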