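import Pool.Agent.Lib.MP_eee7b5_an.Chain
import Pool.Agent.Lib.MP_eee7b5_an.OccA
import Pool.Agent.Lib.MP_eee7b5_an.OccB
import Pool.Agent.Lib.MP_eee7b5_an.OccC
import Pool.Agent.Lib.MP_eee7b5_an.OccD
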