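import Pool.Agent.Lib.MP_eee7b5_an.Mix

set_option autoImplicit false

/-!
Step (T1): the square function bound.  `J(s) = ∫ p_s² / u_s` decreases and
`-J'(s) ≥ (2/3) ∑_a ∫ u_s (∂_{v_a} a_s)²`.
-/

namespace Pool.Agent.Lib.MP_eee7b5_an

open MeasureTheory Set Matrix
open scoped ENNReal

variable {d : ℕ} {ι : Type} [Fintype ι]

theorem JM_nonneg {κ s : ℝ} (hκ : 0 < κ) (hs : 0 < s) {w : ι → ℝ} (hw : ∀ i, 0 ≤ w i)
    (hw1 : ∑ i, w i = 1) (α : ι → ℝ) (y : ι → ZZ d) : 0 ≤ JM κ w α y s := by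
  refine integral_nonneg (fun z => ?_)
  have := uM_pos hκ hs hw hw1 y z
  positivity

private theorem sq_div_eq {κ s : ℝ} (hκ : 0 < κ) (hs : 0 < s) {w : ι → ℝ} (hw : ∀ i, 0 ≤ w i)
    (hw1 : ∑ i, w i = 1) (α : ι → ℝ) (y : ι → ZZ d) (z : ZZ d) :
    (uM κ (fun i => w i * α i) y s z) ^ 2 / uM κ w y s z =
      (aM κ w α y s z) ^ 2 * uM κ w y s z := by
  have hu := uM_pos hκ hs hw hw1 y z
  rw [aM]
  field_simp

theorem JM_le {κ s : ℝ} (hκ : 0 < κ) (hs : 0 < s) {w : ι → ℝ} (hw : ∀ i, 0 ≤ w i)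
    (hw1 : ∑ i, w i = 1) {α : ι → ℝ} {L : ℝ} (hα : ∀ i, |α i| ≤ L) (y : ι → ZZ d) :
    JM κ w α y s ≤ L ^ 2 := by
  have h1 : JM κ w α y s ≤ ∫ z : ZZ d, L ^ 2 * uM κ w y s z := by
    refine integral_mono_of_nonneg (Filter.Eventually.of_forall (fun z => ?_))
      ((integrable_uM hκ hs w y).const_mul _) (Filter.Eventually.of_forall (fun z => ?_))
    · have := uM_pos hκ hs hw hw1 y z
      simp only [Pi.zero_apply]
      positivity
    · simp only
      rw [sq_div_eq hκ hs hw hw1]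
      refine mul_le_mul_of_nonneg_right ?_ (uM_pos hκ hs hw hw1 y z).le
      rw [← sq_abs]
      exact pow_le_pow_left₀ (abs_nonneg _) (aM_abs_le hκ hs hw hw1 hα y z) 2
  rw [integral_const_mul, integral_uM hκ hs, hw1, mul_one] at h1
  exact h1

/-- Differentiation under the integral sign. -/
theorem JM_hasDerivAt {κ s : ℝ} (hκ : 0 < κ) (hs : 0 < s) {w : ι → ℝ} (hw : ∀ i, 0 ≤ w i)
    (hw1 : ∑ i, w i = 1) {α : ι → ℝ} {L : ℝ} (hα : ∀ i, |α i| ≤ L) (y : ι → ZZ d) :
    HasDerivAt (fun s => JM κ w α y s)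
      (∫ z : ZZ d, (2 * aM κ w α y s z * suM κ (fun i => w i * α i) y s z
        - (aM κ w α y s z) ^ 2 * suM κ w y s z)) s := by
  have hL : 0 ≤ L := (abs_nonneg _).trans (aM_abs_le hκ hs hw hw1 hα y 0)
  obtain ⟨c1, C1, hc1, hC1, h1⟩ := mix_env (d := d) hκ (half_pos hs) (by linarith : s / 2 ≤ 2 * s)
    (fun i => w i * α i) y
  obtain ⟨c2, C2, hc2, hC2, h2⟩ := mix_env (d := d) hκ (half_pos hs) (by linarith : s / 2 ≤ 2 * s)
    w y
  have hJ : (fun s => JM κ w α y s) = fun s => ∫ z : ZZ d,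
      (uM κ (fun i => w i * α i) y s z) ^ 2 / uM κ w y s z := rfl
  rw [hJ]
  have hcontF : ∀ s' : ℝ, 0 < s' → Continuous (fun z : ZZ d =>
      (uM κ (fun i => w i * α i) y s' z) ^ 2 / uM κ w y s' z) := by
    intro s' hs'
    exact ((uM_continuous κ _ y s').pow 2).div (uM_continuous κ w y s')
      (fun z => (uM_pos hκ hs' hw hw1 y z).ne')
  have hcontF' : Continuous (fun z : ZZ d => 2 * aM κ w α y s z * suM κ (fun i => w i * α i) y s z
        - (aM κ w α y s z) ^ 2 * suM κ w y s z) := by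
    have ha := aM_continuous hκ hs hw hw1 α y
    exact ((continuous_const.mul ha).mul (suM_continuous κ _ y s)).sub
      ((ha.pow 2).mul (suM_continuous κ w y s))
  refine (hasDerivAt_integral_of_dominated_loc_of_deriv_le (μ := volume)
    (F := fun s z => (uM κ (fun i => w i * α i) y s z) ^ 2 / uM κ w y s z)
    (F' := fun s z => 2 * aM κ w α y s z * suM κ (fun i => w i * α i) y s z
        - (aM κ w α y s z) ^ 2 * suM κ w y s z)
    (bound := fun z => 2 * L * (C1 * Env c1 z) + L ^ 2 * (C2 * Env c2 z))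
    (s := Ioo (s / 2) (2 * s)) (Ioo_mem_nhds (by linarith) (by linarith)) ?_ ?_ ?_ ?_ ?_ ?_).2
  · filter_upwards [Ioi_mem_nhds hs] with s' hs'
    exact (hcontF s' hs').aestronglyMeasurable
  · -- integrable
    have hb : Integrable (fun z : ZZ d => L ^ 2 * uM κ w y s z) :=
      (integrable_uM hκ hs w y).const_mul _
    refine hb.mono' (hcontF s hs).aestronglyMeasurable (Filter.Eventually.of_forall (fun z => ?_))
    have hu := uM_pos hκ hs hw hw1 y z
    rw [Real.norm_eq_abs, sq_div_eq hκ hs hw hw1, abs_of_nonneg (by positivity)]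
    refine mul_le_mul_of_nonneg_right ?_ hu.le
    rw [← sq_abs]
    exact pow_le_pow_left₀ (abs_nonneg _) (aM_abs_le hκ hs hw hw1 hα y z) 2
  · exact hcontF'.aestronglyMeasurable
  · refine Filter.Eventually.of_forall (fun z s' hs' => ?_)
    have hs0 : 0 < s' := by linarith [hs'.1]
    have ha := aM_abs_le hκ hs0 hw hw1 hα y z
    have e1 := (h1 s' hs'.1.le hs'.2.le z).2.1
    have e2 := (h2 s' hs'.1.le hs'.2.le z).2.1
    rw [Real.norm_eq_abs]
    refine (abs_sub _ _).trans ?_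
    refine add_le_add ?_ ?_
    · rw [abs_mul, abs_mul, abs_of_pos (by norm_num : (0 : ℝ) < 2)]
      exact mul_le_mul (mul_le_mul_of_nonneg_left ha (by norm_num)) e1 (abs_nonneg _) (by positivity)
    · rw [abs_mul, abs_pow]
      exact mul_le_mul (pow_le_pow_left₀ (abs_nonneg _) ha 2) e2 (abs_nonneg _) (by positivity)
  · exact (((integrable_Env hc1).const_mul C1).const_mul (2 * L)).add
      (((integrable_Env hc2).const_mul C2).const_mul (L ^ 2))
  · refine Filter.Eventually.of_forall (fun z s' hs' => ?_)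
    have hs0 : 0 < s' := by linarith [hs'.1]
    have hu := uM_pos hκ hs0 hw hw1 y z
    have d1 := hasDerivAt_uM_s hκ hs0 (fun i => w i * α i) y z
    have d2 := hasDerivAt_uM_s hκ hs0 w y z
    refine ((d1.pow 2).div d2 hu.ne').congr_deriv ?_
    rw [aM]
    simp only [Pi.pow_apply]
    field_simp
    push_cast
    ring

end Pool.Agent.Lib.MP_eee7b5_an
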