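import Pool.Agent.Lib.MP_eee7b5_an.Mix
import Pool.Agent.Lib.MP_eee7b5_an.TOneA

set_option autoImplicit false

/-!
Step (T1): the square function bound.  `J(s) = ∫ p_s² / u_s` decreases and
`-J'(s) ≥ (2/3) ∑_a ∫ u_s (∂_{v_a} a_s)²`.
-/

namespace Pool.Agent.Lib.MP_eee7b5_an

open MeasureTheory Set Matrix
open scoped ENNReal

variable {d : ℕ} {ι : Type} [Fintype ι]

/-- A continuous function below a polynomial times an envelope is integrable. -/
theorem TOneB_integrable_of_env {f : ZZ d → ℝ} (hf : Continuous f) {c C : ℝ} (hc : 0 < c)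
    (n : ℕ) (hC : 0 ≤ C)
    (h : ∀ z, |f z| ≤ C * ((1 + ‖z.1‖ ^ 2 + ‖z.2‖ ^ 2) ^ n * Env c z)) : Integrable f := by
  obtain ⟨C', hC', hb⟩ := Env_poly (d := d) hc n
  refine Integrable.mono' ((integrable_Env (d := d) (half_pos hc)).const_mul (C * C'))
    hf.aestronglyMeasurable (Filter.Eventually.of_forall fun z => ?_)
  rw [Real.norm_eq_abs]
  refine (h z).trans ?_
  rw [mul_assoc]
  exact mul_le_mul_of_nonneg_left (hb z) hC

theorem TOneB_lin_le (a b : ℝ) : 1 + a + b ≤ 2 * (1 + a ^ 2 + b ^ 2) := by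
  nlinarith [sq_nonneg (a - 1), sq_nonneg (b - 1), sq_nonneg a, sq_nonneg b]

/-- One dimensional integration by parts against a bounded or linearly growing function. -/
theorem TOneB_ibp {f f' g g' : ZZ d → ℝ} {v : ZZ d}
    (hf'g : Integrable (fun z => f' z * g z)) (hfg' : Integrable (fun z => f z * g' z))
    (hfg : Integrable (fun z => f z * g z))
    (hf : ∀ z, HasLineDerivAt ℝ f (f' z) z v) (hg : ∀ z, HasLineDerivAt ℝ g (g' z) z v) :
    ∫ z, f z * g' z = - ∫ z, f' z * g z := by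
  have : (volume : Measure (ZZ d)).IsAddHaarMeasure := by
    change (Measure.prod (volume : Measure (E d)) (volume : Measure (E d))).IsAddHaarMeasure
    infer_instance
  have h := integral_bilinear_hasLineDerivAt_right_eq_neg_left_of_integrable
    (μ := (volume : Measure (ZZ d))) (f := f) (f' := f') (g := g) (g' := g') (v := v)
    (B := ContinuousLinearMap.mul ℝ ℝ) (by simpa using hf'g) (by simpa using hfg')
    (by simpa using hfg) (fun x _ => hf x) (fun x _ => hg x)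
  simpa using h

theorem TOneB_u_daM {κ s : ℝ} (hκ : 0 < κ) (hs : 0 < s) {w : ι → ℝ} (hw : ∀ i, 0 ≤ w i)
    (hw1 : ∑ i, w i = 1) (α : ι → ℝ) (y : ι → ZZ d) (e z : ZZ d) :
    uM κ w y s z * daM κ w α y s e z =
      duM κ (fun i => w i * α i) y s e z - aM κ w α y s z * duM κ w y s e z := by
  have := (uM_pos hκ hs hw hw1 y z).ne'
  unfold daM
  field_simp

theorem integrable_u_daM_daM {κ s : ℝ} (hκ : 0 < κ) (hs : 0 < s) {w : ι → ℝ}
    (hw : ∀ i, 0 ≤ w i) (hw1 : ∑ i, w i = 1) {α : ι → ℝ} {L : ℝ} (hα : ∀ i, |α i| ≤ L)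
    (y : ι → ZZ d) (e f : ZZ d) :
    Integrable (fun z : ZZ d => uM κ w y s z * (daM κ w α y s e z * daM κ w α y s f z)) := by
  obtain ⟨c, C, hc, hC, hb⟩ := mix_env hκ hs le_rfl w y
  obtain ⟨C1, hC1, hd⟩ := daM_growth hκ hs hw hw1 hα y
  refine TOneB_integrable_of_env (c := c)
    (C := C * (C1 * 2 * (‖e.1‖ + ‖e.2‖)) * (C1 * 2 * (‖f.1‖ + ‖f.2‖))) ?_ hc 2 (by positivity) ?_
  · exact (uM_continuous κ w y s).mul
      ((daM_continuous hκ hs hw hw1 α y e).mul (daM_continuous hκ hs hw hw1 α y f))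
  · intro z
    have h1 := (hb s le_rfl le_rfl z).1
    have h2 : ∀ g : ZZ d, |daM κ w α y s g z| ≤
        C1 * 2 * (‖g.1‖ + ‖g.2‖) * (1 + ‖z.1‖ ^ 2 + ‖z.2‖ ^ 2) := by
      intro g
      refine (hd g z).trans ?_
      have h3 := TOneB_lin_le ‖z.1‖ ‖z.2‖
      have h4 : C1 * (1 + ‖z.1‖ + ‖z.2‖) * (‖g.1‖ + ‖g.2‖) ≤
          C1 * (2 * (1 + ‖z.1‖ ^ 2 + ‖z.2‖ ^ 2)) * (‖g.1‖ + ‖g.2‖) := by gcongr
      linarith
    have h5 := Env_pos c z
    rw [abs_mul, abs_mul]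
    calc |uM κ w y s z| * (|daM κ w α y s e z| * |daM κ w α y s f z|)
        ≤ (C * Env c z) * ((C1 * 2 * (‖e.1‖ + ‖e.2‖) * (1 + ‖z.1‖ ^ 2 + ‖z.2‖ ^ 2)) *
          (C1 * 2 * (‖f.1‖ + ‖f.2‖) * (1 + ‖z.1‖ ^ 2 + ‖z.2‖ ^ 2))) := by
          gcongr
          · exact h2 e
          · exact h2 f
      _ = _ := by ring

theorem TOneB_int_a_ddp {κ s : ℝ} (hκ : 0 < κ) (hs : 0 < s) {w : ι → ℝ}
    (hw : ∀ i, 0 ≤ w i) (hw1 : ∑ i, w i = 1) {α : ι → ℝ} {L : ℝ} (hα : ∀ i, |α i| ≤ L)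
    (w' : ι → ℝ) (y : ι → ZZ d) (n : ℕ) (e f : ZZ d) :
    Integrable (fun z : ZZ d => (aM κ w α y s z) ^ n * dduM κ w' y s e f z) := by
  obtain ⟨c, C, hc, hC, hb⟩ := mix_env hκ hs le_rfl w' y
  have hL : 0 ≤ L := (abs_nonneg _).trans (aM_abs_le hκ hs hw hw1 hα y (0 : ZZ d))
  refine TOneB_integrable_of_env (c := c)
    (C := L ^ n * (C * (‖e.1‖ + ‖e.2‖) * (‖f.1‖ + ‖f.2‖))) ?_ hc 0 (by positivity) ?_
  · exact ((aM_continuous hκ hs hw hw1 α y).pow n).mul (dduM_continuous κ w' y s e f)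
  · intro z
    rw [abs_mul, abs_pow]
    have h1 := (hb s le_rfl le_rfl z).2.2.2 e f
    have h2 := aM_abs_le hκ hs hw hw1 hα y z
    calc |aM κ w α y s z| ^ n * |dduM κ w' y s e f z|
        ≤ L ^ n * (C * (‖e.1‖ + ‖e.2‖) * (‖f.1‖ + ‖f.2‖) * Env c z) := by gcongr
      _ = _ := by ring

theorem TOneB_int_a_du {κ s : ℝ} (hκ : 0 < κ) (hs : 0 < s) {w : ι → ℝ}
    (hw : ∀ i, 0 ≤ w i) (hw1 : ∑ i, w i = 1) {α : ι → ℝ} {L : ℝ} (hα : ∀ i, |α i| ≤ L)
    (w' : ι → ℝ) (y : ι → ZZ d) (n : ℕ) (e : ZZ d) :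
    Integrable (fun z : ZZ d => (aM κ w α y s z) ^ n * duM κ w' y s e z) := by
  obtain ⟨c, C, hc, hC, hb⟩ := mix_env hκ hs le_rfl w' y
  have hL : 0 ≤ L := (abs_nonneg _).trans (aM_abs_le hκ hs hw hw1 hα y (0 : ZZ d))
  refine TOneB_integrable_of_env (c := c)
    (C := L ^ n * (C * (‖e.1‖ + ‖e.2‖))) ?_ hc 0 (by positivity) ?_
  · exact ((aM_continuous hκ hs hw hw1 α y).pow n).mul (duM_continuous κ w' y s e)
  · intro z
    rw [abs_mul, abs_pow]
    have h1 := (hb s le_rfl le_rfl z).2.2.1 e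
    have h2 := aM_abs_le hκ hs hw hw1 hα y z
    calc |aM κ w α y s z| ^ n * |duM κ w' y s e z|
        ≤ L ^ n * (C * (‖e.1‖ + ‖e.2‖) * Env c z) := by gcongr
      _ = _ := by ring

theorem TOneB_int_da_a_du {κ s : ℝ} (hκ : 0 < κ) (hs : 0 < s) {w : ι → ℝ}
    (hw : ∀ i, 0 ≤ w i) (hw1 : ∑ i, w i = 1) {α : ι → ℝ} {L : ℝ} (hα : ∀ i, |α i| ≤ L)
    (w' : ι → ℝ) (y : ι → ZZ d) (n : ℕ) (e f : ZZ d) :
    Integrable (fun z : ZZ d => (aM κ w α y s z) ^ n * daM κ w α y s f z *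
      duM κ w' y s e z) := by
  obtain ⟨c, C, hc, hC, hb⟩ := mix_env hκ hs le_rfl w' y
  obtain ⟨C1, hC1, hd⟩ := daM_growth hκ hs hw hw1 hα y
  have hL : 0 ≤ L := (abs_nonneg _).trans (aM_abs_le hκ hs hw hw1 hα y (0 : ZZ d))
  refine TOneB_integrable_of_env (c := c)
    (C := L ^ n * (C1 * 2 * (‖f.1‖ + ‖f.2‖)) * (C * (‖e.1‖ + ‖e.2‖))) ?_ hc 1
      (by positivity) ?_
  · exact (((aM_continuous hκ hs hw hw1 α y).pow n).mul
      (daM_continuous hκ hs hw hw1 α y f)).mul (duM_continuous κ w' y s e)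
  · intro z
    rw [abs_mul, abs_mul, abs_pow]
    have h1 := (hb s le_rfl le_rfl z).2.2.1 e
    have h2 := aM_abs_le hκ hs hw hw1 hα y z
    have h3 := TOneB_lin_le ‖z.1‖ ‖z.2‖
    have h4 : |daM κ w α y s f z| ≤
        C1 * (2 * (1 + ‖z.1‖ ^ 2 + ‖z.2‖ ^ 2)) * (‖f.1‖ + ‖f.2‖) := by
      refine (hd f z).trans ?_
      gcongr
    calc |aM κ w α y s z| ^ n * |daM κ w α y s f z| * |duM κ w' y s e z|
        ≤ L ^ n * (C1 * (2 * (1 + ‖z.1‖ ^ 2 + ‖z.2‖ ^ 2)) * (‖f.1‖ + ‖f.2‖)) *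
          (C * (‖e.1‖ + ‖e.2‖) * Env c z) := by gcongr
      _ = _ := by ring

theorem integrable_a_dduM {κ s : ℝ} (hκ : 0 < κ) (hs : 0 < s) {w : ι → ℝ}
    (hw : ∀ i, 0 ≤ w i) (hw1 : ∑ i, w i = 1) {α : ι → ℝ} {L : ℝ} (hα : ∀ i, |α i| ≤ L)
    (y : ι → ZZ d) (e f : ZZ d) :
    Integrable (fun z : ZZ d => 2 * aM κ w α y s z * dduM κ (fun i => w i * α i) y s e f z
        - (aM κ w α y s z) ^ 2 * dduM κ w y s e f z) := by
  have h1 := (TOneB_int_a_ddp hκ hs hw hw1 hα (fun i => w i * α i) y 1 e f).const_mul 2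
  have h2 := TOneB_int_a_ddp hκ hs hw hw1 hα w y 2 e f
  refine (h1.sub h2).congr (Filter.Eventually.of_forall fun z => ?_)
  simp only [Pi.sub_apply, pow_one]
  ring

/-- Integration by parts: `∫ (2 a ∂_e∂_f p - a² ∂_e∂_f u) = - 2 ∫ u ∂_e a ∂_f a`. -/
theorem ibp_one {κ s : ℝ} (hκ : 0 < κ) (hs : 0 < s) {w : ι → ℝ} (hw : ∀ i, 0 ≤ w i)
    (hw1 : ∑ i, w i = 1) {α : ι → ℝ} {L : ℝ} (hα : ∀ i, |α i| ≤ L) (y : ι → ZZ d)
    (e f : ZZ d) :
    ∫ z : ZZ d, (2 * aM κ w α y s z * dduM κ (fun i => w i * α i) y s e f z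
        - (aM κ w α y s z) ^ 2 * dduM κ w y s e f z) =
      -2 * ∫ z : ZZ d, uM κ w y s z * (daM κ w α y s e z * daM κ w α y s f z) := by
  have i1 := TOneB_int_a_ddp hκ hs hw hw1 hα (fun i => w i * α i) y 1 e f
  have i2 := TOneB_int_a_ddp hκ hs hw hw1 hα w y 2 e f
  have i3 := TOneB_int_a_du hκ hs hw hw1 hα (fun i => w i * α i) y 1 e
  have i4 := TOneB_int_a_du hκ hs hw hw1 hα w y 2 e
  have i5 := TOneB_int_da_a_du hκ hs hw hw1 hα (fun i => w i * α i) y 0 e f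
  have i6 := TOneB_int_da_a_du hκ hs hw hw1 hα w y 1 e f
  simp only [pow_one, pow_zero, one_mul] at i1 i3 i5 i6
  have k1 : ∫ z : ZZ d, aM κ w α y s z * dduM κ (fun i => w i * α i) y s e f z =
      - ∫ z : ZZ d, daM κ w α y s f z * duM κ (fun i => w i * α i) y s e z :=
    TOneB_ibp (v := f) i5 i1 i3 (fun z => hasLineDerivAt_aM hκ hs hw hw1 α y f z)
      (fun z => hasLineDerivAt_duM κ _ y s e f z)
  have k2 : ∫ z : ZZ d, (aM κ w α y s z) ^ 2 * dduM κ w y s e f z =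
      - ∫ z : ZZ d, (2 * (aM κ w α y s z * daM κ w α y s f z)) * duM κ w y s e z := by
    refine TOneB_ibp (v := f) ?_ i2 i4 (fun z => ?_) (fun z => hasLineDerivAt_duM κ _ y s e f z)
    · refine (i6.const_mul 2).congr (Filter.Eventually.of_forall fun z => ?_)
      simp only
      ring
    · have h := hasLineDerivAt_aM hκ hs hw hw1 α y f z
      unfold HasLineDerivAt at h ⊢
      have h' := h.pow 2
      simp only [zero_smul, add_zero] at h'
      refine h'.congr_deriv ?_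
      simp
      ring
  have e1 : ∫ z : ZZ d, (2 * aM κ w α y s z * dduM κ (fun i => w i * α i) y s e f z
        - (aM κ w α y s z) ^ 2 * dduM κ w y s e f z) =
      2 * (∫ z : ZZ d, aM κ w α y s z * dduM κ (fun i => w i * α i) y s e f z) -
        ∫ z : ZZ d, (aM κ w α y s z) ^ 2 * dduM κ w y s e f z := by
    rw [← integral_const_mul, ← integral_sub (i1.const_mul 2) i2]
    refine integral_congr_ae (Filter.Eventually.of_forall fun z => ?_)
    simp only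
    ring
  have e2 : ∫ z : ZZ d, uM κ w y s z * (daM κ w α y s e z * daM κ w α y s f z) =
      (∫ z : ZZ d, daM κ w α y s f z * duM κ (fun i => w i * α i) y s e z) -
      ∫ z : ZZ d, aM κ w α y s z * daM κ w α y s f z * duM κ w y s e z := by
    rw [← integral_sub i5 i6]
    refine integral_congr_ae (Filter.Eventually.of_forall fun z => ?_)
    have := TOneB_u_daM hκ hs hw hw1 α y e z
    simp only
    linear_combination (daM κ w α y s f z) * this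
  have e3 : ∫ z : ZZ d, (2 * (aM κ w α y s z * daM κ w α y s f z)) * duM κ w y s e z =
      2 * ∫ z : ZZ d, aM κ w α y s z * daM κ w α y s f z * duM κ w y s e z := by
    rw [← integral_const_mul]
    refine integral_congr_ae (Filter.Eventually.of_forall fun z => ?_)
    simp only
    ring
  rw [e1, e2, k1, k2, e3]
  ring

end Pool.Agent.Lib.MP_eee7b5_an
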