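import Pool.Agent.Lib.MP_eee7b5_an.Mix
import Pool.Agent.Lib.MP_eee7b5_an.TOneA
import Pool.Agent.Lib.MP_eee7b5_an.TOneB

set_option autoImplicit false

/-!
Step (T1): the square function bound.  `J(s) = ∫ p_s² / u_s` decreases and
`-J'(s) ≥ (2/3) ∑_a ∫ u_s (∂_{v_a} a_s)²`.
-/

namespace Pool.Agent.Lib.MP_eee7b5_an

open MeasureTheory Set Matrix
open scoped ENNReal

variable {d : ℕ} {ι : Type} [Fintype ι]

private theorem tonec_int3 {F1 F2 F3 : ZZ d → ℝ} (h1 : Integrable F1) (h2 : Integrable F2)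
    (h3 : Integrable F3) (a b c : ℝ) :
    Integrable (fun z => a * F1 z + b * F2 z + c * F3 z) ∧
      ∫ z, (a * F1 z + b * F2 z + c * F3 z) =
        a * (∫ z, F1 z) + b * (∫ z, F2 z) + c * (∫ z, F3 z) := by
  have k1 : Integrable (fun z => a * F1 z) := h1.const_mul a
  have k2 : Integrable (fun z => b * F2 z) := h2.const_mul b
  have k3 : Integrable (fun z => c * F3 z) := h3.const_mul c
  have k12 : Integrable (fun z => a * F1 z + b * F2 z) := k1.add k2
  refine ⟨k12.add k3, ?_⟩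
  rw [integral_add k12 k3, integral_add k1 k2, integral_const_mul, integral_const_mul,
    integral_const_mul]

/-- (T1) -/
theorem JM_deriv {κ s : ℝ} (hκ : 0 < κ) (hs : 0 < s) {w : ι → ℝ} (hw : ∀ i, 0 ≤ w i)
    (hw1 : ∑ i, w i = 1) {α : ι → ℝ} {L : ℝ} (hα : ∀ i, |α i| ≤ L) (y : ι → ZZ d) :
    DifferentiableAt ℝ (fun s => JM κ w α y s) s ∧
      (2 / 3) * ∑ a : Fin d, eM κ w α y s (dv a) ≤ -(deriv (fun s => JM κ w α y s) s) := by
  have h := JM_hasDerivAt hκ hs hw hw1 hα y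
  refine ⟨h.differentiableAt, ?_⟩
  rw [h.deriv]
  set P : ZZ d → ZZ d → ZZ d → ℝ := fun e f z =>
    2 * aM κ w α y s z * dduM κ (fun i => w i * α i) y s e f z
        - (aM κ w α y s z) ^ 2 * dduM κ w y s e f z with hP
  set Q : ZZ d → ZZ d → ZZ d → ℝ := fun e f z =>
    uM κ w y s z * (daM κ w α y s e z * daM κ w α y s f z) with hQ
  have hI : ∀ e f, Integrable (P e f) := fun e f => integrable_a_dduM hκ hs hw hw1 hα y e f
  have hU : ∀ e f, Integrable (Q e f) := fun e f => integrable_u_daM_daM hκ hs hw hw1 hα y e f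
  have hib : ∀ e f, ∫ z, P e f z = -2 * ∫ z, Q e f z := fun e f =>
    ibp_one hκ hs hw hw1 hα y e f
  have e1 : ∀ z : ZZ d, (2 * aM κ w α y s z * suM κ (fun i => w i * α i) y s z
        - (aM κ w α y s z) ^ 2 * suM κ w y s z) =
      ∑ a : Fin d, (3 * κ ^ 2 * s ^ 2 / 2 * P (dx a) (dx a) z
        + 2 * κ * s * P (dx a) (dv a) z + 1 * P (dv a) (dv a) z) := by
    intro z
    rw [heatM hκ hs, heatM hκ hs, Finset.mul_sum, Finset.mul_sum, ← Finset.sum_sub_distrib]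
    exact Finset.sum_congr rfl fun a _ => by
      simp only [hP]
      ring
  have e0 : ∫ z : ZZ d, (2 * aM κ w α y s z * suM κ (fun i => w i * α i) y s z
        - (aM κ w α y s z) ^ 2 * suM κ w y s z) =
      ∑ a : Fin d, ∫ z : ZZ d, (3 * κ ^ 2 * s ^ 2 / 2 * P (dx a) (dx a) z
        + 2 * κ * s * P (dx a) (dv a) z + 1 * P (dv a) (dv a) z) := by
    rw [integral_congr_ae (Filter.Eventually.of_forall e1)]
    exact integral_finset_sum _ fun a _ =>
      (tonec_int3 (hI (dx a) (dx a)) (hI (dx a) (dv a)) (hI (dv a) (dv a)) _ _ _).1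
  rw [e0, ← Finset.sum_neg_distrib, Finset.mul_sum]
  refine Finset.sum_le_sum fun a _ => ?_
  rw [(tonec_int3 (hI (dx a) (dx a)) (hI (dx a) (dv a)) (hI (dv a) (dv a)) _ _ _).2, hib, hib, hib]
  have e2 : -(3 * κ ^ 2 * s ^ 2 / 2 * (-2 * ∫ z : ZZ d, Q (dx a) (dx a) z) +
        2 * κ * s * (-2 * ∫ z : ZZ d, Q (dx a) (dv a) z) +
        1 * (-2 * ∫ z : ZZ d, Q (dv a) (dv a) z)) =
      ∫ z : ZZ d, (3 * κ ^ 2 * s ^ 2 * Q (dx a) (dx a) z +
        4 * κ * s * Q (dx a) (dv a) z + 2 * Q (dv a) (dv a) z) := by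
    rw [(tonec_int3 (hU (dx a) (dx a)) (hU (dx a) (dv a)) (hU (dv a) (dv a)) _ _ _).2]
    ring
  rw [e2]
  unfold eM
  rw [← integral_const_mul]
  have hvv : Integrable (fun z : ZZ d => 2 / 3 * (uM κ w y s z * daM κ w α y s (dv a) z ^ 2)) := by
    have := (hU (dv a) (dv a)).const_mul (2 / 3)
    refine this.congr (Filter.Eventually.of_forall fun z => ?_)
    simp only [hQ, sq]
  refine integral_mono hvv
    (tonec_int3 (hU (dx a) (dx a)) (hU (dx a) (dv a)) (hU (dv a) (dv a)) _ _ _).1 fun z => ?_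
  have hu := uM_pos hκ hs hw hw1 y z
  simp only [hQ]
  have key : 0 ≤ uM κ w y s z * (3 * κ ^ 2 * s ^ 2 * daM κ w α y s (dx a) z ^ 2
      + 4 * κ * s * (daM κ w α y s (dx a) z * daM κ w α y s (dv a) z)
      + 4 / 3 * daM κ w α y s (dv a) z ^ 2) := by
    refine mul_nonneg hu.le ?_
    nlinarith [sq_nonneg (3 * κ * s * daM κ w α y s (dx a) z + 2 * daM κ w α y s (dv a) z)]
  nlinarith [key]

end Pool.Agent.Lib.MP_eee7b5_an
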