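import Pool.Agent.Lib.MP_eee7b5_an.TOne

set_option autoImplicit false

/-!
Step (T2), infinitesimal form: the entropy dissipation `DD` is at most
`(d / lam) ∑_{a,b} ∫ u (∂_{v_b} a^{ab})²`.
-/

namespace Pool.Agent.Lib.MP_eee7b5_an

open MeasureTheory Set Matrix
open scoped ENNReal

variable {d : ℕ} {ι : Type} [Fintype ι]

/-- The mark `(B Bᵀ)_{ab}`. -/
def mk {d : ℕ} {ι : Type} (B : ι → Matrix (Fin d) (Fin d) ℝ) (a b : Fin d) (i : ι) : ℝ :=
  (B i * (B i)ᵀ) a b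

private theorem mul_mulVec_dot (B : Matrix (Fin d) (Fin d) ℝ) (x y : Fin d → ℝ) :
    x ⬝ᵥ ((B * Bᵀ) *ᵥ y) = (Bᵀ *ᵥ x) ⬝ᵥ (Bᵀ *ᵥ y) := by
  rw [← Matrix.mulVec_mulVec, Matrix.dotProduct_mulVec, Matrix.mulVec_transpose B x]

private theorem entry_eq (B : Matrix (Fin d) (Fin d) ℝ) (a b : Fin d) :
    (B * Bᵀ) a b = (Bᵀ *ᵥ Pi.single a 1) ⬝ᵥ (Bᵀ *ᵥ Pi.single b 1) := by
  rw [← mul_mulVec_dot]
  simp

theorem EllB_entry_le {lam Lam : ℝ} (hlam : 0 ≤ lam) {B : Matrix (Fin d) (Fin d) ℝ}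
    (hB : EllB lam Lam B) (a b : Fin d) : |(B * Bᵀ) a b| ≤ Lam := by
  have hself : ∀ c : Fin d, (B * Bᵀ) c c ≤ Lam := by
    intro c
    have h := (hB (Pi.single c 1)).2
    simpa using h
  have hcs : 2 * |(B * Bᵀ) a b| ≤ (B * Bᵀ) a a + (B * Bᵀ) b b := by
    have h1 : 2 * |∑ k, B a k * B b k| ≤ ∑ k, B a k * B a k + ∑ k, B b k * B b k := by
      calc 2 * |∑ k, B a k * B b k| ≤ 2 * ∑ k, |B a k * B b k| :=
            mul_le_mul_of_nonneg_left (Finset.abs_sum_le_sum_abs _ _) (by norm_num)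
        _ = ∑ k, 2 * |B a k * B b k| := by rw [Finset.mul_sum]
        _ ≤ ∑ k, (B a k * B a k + B b k * B b k) := by
            refine Finset.sum_le_sum fun k _ => ?_
            rw [abs_mul]
            nlinarith [sq_nonneg (|B a k| - |B b k|), sq_abs (B a k), sq_abs (B b k)]
        _ = _ := Finset.sum_add_distrib
    simpa [Matrix.mul_apply] using h1
  have h1 := hself a
  have h2 := hself b
  linarith

theorem EllB_col_le {lam Lam : ℝ} {B : Matrix (Fin d) (Fin d) ℝ}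
    (hB : EllB lam Lam B) (j : Fin d) : ‖colB B j‖ ^ 2 ≤ d * Lam := by
  have hself : ∀ c : Fin d, (B * Bᵀ) c c ≤ Lam := by
    intro c
    have h := (hB (Pi.single c 1)).2
    simpa using h
  rw [EuclideanSpace.norm_sq_eq]
  calc ∑ i, ‖colB B j i‖ ^ 2 ≤ ∑ _i : Fin d, Lam := by
        refine Finset.sum_le_sum fun i _ => ?_
        refine le_trans ?_ (hself i)
        rw [Matrix.mul_apply]
        have : ‖colB B j i‖ ^ 2 = B i j * Bᵀ j i := by
          simp [colB, sq]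
        rw [this]
        exact Finset.single_le_sum (f := fun k => B i k * Bᵀ k i)
          (fun k _ => by simpa using mul_self_nonneg (B i k)) (Finset.mem_univ j)
    _ = d * Lam := by simp

end Pool.Agent.Lib.MP_eee7b5_an
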