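import Pool.Agent.Lib.MP_eee7b5_an.TOne
import Pool.Agent.Lib.MP_eee7b5_an.TTwoA

set_option autoImplicit false

/-!
Step (T2), infinitesimal form: the entropy dissipation `DD` is at most
`(d / lam) ∑_{a,b} ∫ u (∂_{v_b} a^{ab})²`.
-/

namespace Pool.Agent.Lib.MP_eee7b5_an

open MeasureTheory Set Matrix
open scoped ENNReal

variable {d : ℕ} {ι : Type} [Fintype ι]

/-- The infinitesimal entropy production: `d/dh Phi` at `h = 0` of the next smoothed law. -/
noncomputable def DD (κ c : ℝ) (w : ι → ℝ) (y : ι → ZZ d)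
    (B : ι → Matrix (Fin d) (Fin d) ℝ) (s : ℝ) : ℝ :=
  ∫ z : ZZ d, Real.log (1 + uM κ w y s z) *
    (-(c * suM κ w y s z)
      + ∑ a : Fin d, (κ * s ^ 2 * dduM κ w y s (dx a) (dx a) z
          + 2 * s * dduM κ w y s (dx a) (dv a) z)
      + ∑ a : Fin d, ∑ b : Fin d, dduM κ (fun i => w i * mk B a b i) y s (dv a) (dv b) z)

/-- integrability from an envelope -/
private theorem ttwob_int {F : ZZ d → ℝ} {c C : ℝ} (hc : 0 < c) (hF : Continuous F)
    (h : ∀ z, |F z| ≤ C * Env c z) : Integrable F := by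
  refine ((integrable_Env (d := d) hc).const_mul C).mono' hF.aestronglyMeasurable ?_
  exact Filter.Eventually.of_forall fun z => by
    rw [Real.norm_eq_abs]
    exact h z

private theorem ttwob_dduM_symm (κ : ℝ) (w : ι → ℝ) (y : ι → ZZ d) (s : ℝ) (e f z : ZZ d) :
    dduM κ w y s e f z = dduM κ w y s f e z := by
  unfold dduM
  exact Finset.sum_congr rfl fun i _ => by rw [ddG_symm]

/-- Integration by parts against `log (1 + u)`. -/
theorem ibp_log {κ s : ℝ} (hκ : 0 < κ) (hs : 0 < s) {w : ι → ℝ} (hw : ∀ i, 0 ≤ w i)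
    (hw1 : ∑ i, w i = 1) {α : ι → ℝ} {L : ℝ} (hα : ∀ i, |α i| ≤ L) (y : ι → ZZ d)
    (e f : ZZ d) :
    Integrable (fun z : ZZ d => Real.log (1 + uM κ w y s z) *
      dduM κ (fun i => w i * α i) y s e f z) ∧
    Integrable (fun z : ZZ d => duM κ w y s e z * duM κ (fun i => w i * α i) y s f z /
      (1 + uM κ w y s z)) ∧
    ∫ z : ZZ d, Real.log (1 + uM κ w y s z) * dduM κ (fun i => w i * α i) y s e f z =
      -∫ z : ZZ d, duM κ w y s e z * duM κ (fun i => w i * α i) y s f z /
        (1 + uM κ w y s z) := by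
  obtain ⟨c1, C1, hc1, hC1, h1⟩ := mix_env (d := d) hκ hs le_rfl w y
  obtain ⟨c2, C2, hc2, hC2, h2⟩ := mix_env (d := d) hκ hs le_rfl (fun i => w i * α i) y
  have hu : ∀ z, 0 < uM κ w y s z := fun z => uM_pos hκ hs hw hw1 y z
  have h1u : ∀ z, 0 < 1 + uM κ w y s z := fun z => by
    have := hu z
    linarith
  have hub : ∀ z, uM κ w y s z ≤ C1 := fun z => by
    have h3 := (h1 s le_rfl le_rfl z).1
    have h4 := Env_le_one (d := d) hc1.le z
    have h5 : C1 * Env c1 z ≤ C1 * 1 := mul_le_mul_of_nonneg_left h4 hC1.le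
    have h6 := le_abs_self (uM κ w y s z)
    linarith
  have hlog : ∀ z, |Real.log (1 + uM κ w y s z)| ≤ C1 := fun z => by
    have h3 : 0 ≤ Real.log (1 + uM κ w y s z) := Real.log_nonneg (by linarith [hu z])
    rw [abs_of_nonneg h3]
    have h4 := Real.log_le_sub_one_of_pos (h1u z)
    linarith [hub z]
  have hcu := uM_continuous κ w y s
  have hclog : Continuous fun z : ZZ d => Real.log (1 + uM κ w y s z) :=
    (continuous_const.add hcu).log fun z => (h1u z).ne'
  set Ke := C1 * (‖e.1‖ + ‖e.2‖) with hKe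
  have hKe0 : 0 ≤ Ke := by positivity
  have hdu : ∀ z, |duM κ w y s e z| ≤ Ke := fun z => by
    have h3 := (h1 s le_rfl le_rfl z).2.2.1 e
    have h4 := Env_le_one (d := d) hc1.le z
    have h5 : Ke * Env c1 z ≤ Ke * 1 := mul_le_mul_of_nonneg_left h4 hKe0
    linarith
  have I1 : Integrable (fun z : ZZ d => Real.log (1 + uM κ w y s z) *
      dduM κ (fun i => w i * α i) y s e f z) := by
    refine ttwob_int (C := C1 * (C2 * (‖e.1‖ + ‖e.2‖) * (‖f.1‖ + ‖f.2‖))) hc2
      (hclog.mul (dduM_continuous κ _ y s e f)) fun z => ?_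
    rw [abs_mul, mul_assoc]
    exact mul_le_mul (hlog z) ((h2 s le_rfl le_rfl z).2.2.2 e f) (abs_nonneg _) hC1.le
  have I2 : Integrable (fun z : ZZ d => duM κ w y s e z * duM κ (fun i => w i * α i) y s f z /
      (1 + uM κ w y s z)) := by
    refine ttwob_int (C := Ke * (C2 * (‖f.1‖ + ‖f.2‖))) hc2
      (((duM_continuous κ w y s e).mul (duM_continuous κ _ y s f)).div
        (continuous_const.add hcu) fun z => (h1u z).ne') fun z => ?_
    rw [abs_div, abs_mul, mul_assoc]
    have h3 : |duM κ w y s e z| * |duM κ (fun i => w i * α i) y s f z| ≤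
        Ke * (C2 * (‖f.1‖ + ‖f.2‖) * Env c2 z) :=
      mul_le_mul (hdu z) ((h2 s le_rfl le_rfl z).2.2.1 f) (abs_nonneg _) hKe0
    refine le_trans (div_le_self (by positivity) ?_) h3
    rw [abs_of_pos (h1u z)]
    linarith [hu z]
  have I3 : Integrable (fun z : ZZ d => Real.log (1 + uM κ w y s z) *
      duM κ (fun i => w i * α i) y s f z) := by
    refine ttwob_int (C := C1 * (C2 * (‖f.1‖ + ‖f.2‖))) hc2
      (hclog.mul (duM_continuous κ _ y s f)) fun z => ?_
    rw [abs_mul, mul_assoc]
    exact mul_le_mul (hlog z) ((h2 s le_rfl le_rfl z).2.2.1 f) (abs_nonneg _) hC1.le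
  refine ⟨I1, I2, ?_⟩
  have hf : ∀ z : ZZ d, HasLineDerivAt ℝ (fun z : ZZ d => Real.log (1 + uM κ w y s z))
      (duM κ w y s e z / (1 + uM κ w y s z)) z e := by
    intro z
    have h3 := hasLineDerivAt_uM κ w y s e z
    unfold HasLineDerivAt at h3 ⊢
    have h4 := (h3.const_add 1).log (by
      simp only [zero_smul, add_zero]
      exact (h1u z).ne')
    simpa only [zero_smul, add_zero] using h4
  have hg : ∀ z : ZZ d, HasLineDerivAt ℝ (duM κ (fun i => w i * α i) y s f)
      (dduM κ (fun i => w i * α i) y s e f z) z e := by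
    intro z
    rw [ttwob_dduM_symm]
    exact hasLineDerivAt_duM κ _ y s f e z
  have I2' : Integrable (fun z : ZZ d => (duM κ w y s e z / (1 + uM κ w y s z)) *
      duM κ (fun i => w i * α i) y s f z) := by
    refine I2.congr (Filter.Eventually.of_forall fun z => ?_)
    simp only
    ring
  haveI : (volume : Measure (ZZ d)).IsAddHaarMeasure :=
    inferInstanceAs ((volume : Measure (E d)).prod (volume : Measure (E d))).IsAddHaarMeasure
  have key := integral_bilinear_hasLineDerivAt_right_eq_neg_left_of_integrable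
    (μ := (volume : Measure (ZZ d))) (B := ContinuousLinearMap.mul ℝ ℝ)
    (f := fun z : ZZ d => Real.log (1 + uM κ w y s z))
    (f' := fun z : ZZ d => duM κ w y s e z / (1 + uM κ w y s z))
    (g := duM κ (fun i => w i * α i) y s f)
    (g' := fun z : ZZ d => dduM κ (fun i => w i * α i) y s e f z) (v := e)
    (by simpa only [ContinuousLinearMap.mul_apply'] using I2')
    (by simpa only [ContinuousLinearMap.mul_apply'] using I1)
    (by simpa only [ContinuousLinearMap.mul_apply'] using I3)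
    (fun z _ => hf z) (fun z _ => hg z)
  simp only [ContinuousLinearMap.mul_apply'] at key
  rw [key]
  congr 1
  refine integral_congr_ae (Filter.Eventually.of_forall fun z => ?_)
  simp only
  ring

end Pool.Agent.Lib.MP_eee7b5_an
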