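import Pool.Agent.Lib.MP_eee7b5_an.TOne
import Pool.Agent.Lib.MP_eee7b5_an.TTwoA
import Pool.Agent.Lib.MP_eee7b5_an.TTwoB

set_option autoImplicit false

/-!
Step (T2), infinitesimal form: the entropy dissipation `DD` is at most
`(d / lam) ∑_{a,b} ∫ u (∂_{v_b} a^{ab})²`.
-/

namespace Pool.Agent.Lib.MP_eee7b5_an

open MeasureTheory Set Matrix
open scoped ENNReal

variable {d : ℕ} {ι : Type} [Fintype ι]

/-- Pointwise: `∂_f p = a ∂_f u + u ∂_f a`. -/
theorem duM_eq {κ s : ℝ} (hκ : 0 < κ) (hs : 0 < s) {w : ι → ℝ} (hw : ∀ i, 0 ≤ w i)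
    (hw1 : ∑ i, w i = 1) (α : ι → ℝ) (y : ι → ZZ d) (e z : ZZ d) :
    duM κ (fun i => w i * α i) y s e z =
      aM κ w α y s z * duM κ w y s e z + uM κ w y s z * daM κ w α y s e z := by
  have hu := (uM_pos hκ hs hw hw1 y z).ne'
  unfold daM
  rw [mul_div_cancel₀ _ hu]
  ring

/-- The posterior matrix is elliptic. -/
theorem aM_elliptic {κ s lam Lam : ℝ} (hκ : 0 < κ) (hs : 0 < s) {w : ι → ℝ}
    (hw : ∀ i, 0 ≤ w i) (hw1 : ∑ i, w i = 1) (y : ι → ZZ d)
    {B : ι → Matrix (Fin d) (Fin d) ℝ} (hB : ∀ i, EllB lam Lam (B i)) (z : ZZ d)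
    (η : Fin d → ℝ) :
    lam * ∑ a, η a ^ 2 ≤ ∑ a, ∑ b, aM κ w (mk B a b) y s z * η a * η b := by
  have hu := uM_pos hκ hs hw hw1 y z
  have e1 : ∑ a, ∑ b, aM κ w (mk B a b) y s z * η a * η b =
      (∑ i, w i * GG κ s (z - y i) * (η ⬝ᵥ ((B i * (B i)ᵀ) *ᵥ η))) / uM κ w y s z := by
    have e2 : ∀ a b, aM κ w (mk B a b) y s z * η a * η b =
        (∑ i, w i * GG κ s (z - y i) * ((B i * (B i)ᵀ) a b * η a * η b)) / uM κ w y s z := by
      intro a b
      unfold aM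
      rw [div_mul_eq_mul_div, div_mul_eq_mul_div]
      congr 1
      rw [uM, Finset.sum_mul, Finset.sum_mul]
      refine Finset.sum_congr rfl fun i _ => ?_
      unfold mk
      ring
    simp only [e2]
    simp only [← Finset.sum_div]
    congr 1
    have e3 : ∀ i, w i * GG κ s (z - y i) * (η ⬝ᵥ ((B i * (B i)ᵀ) *ᵥ η)) =
        ∑ a, ∑ b, w i * GG κ s (z - y i) * ((B i * (B i)ᵀ) a b * η a * η b) := by
      intro i
      unfold dotProduct mulVec dotProduct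
      rw [Finset.mul_sum]
      refine Finset.sum_congr rfl fun a _ => ?_
      rw [Finset.mul_sum, Finset.mul_sum]
      refine Finset.sum_congr rfl fun b _ => ?_
      ring
    simp only [e3]
    have e5 : ∑ i, ∑ a, ∑ b, w i * GG κ s (z - y i) * ((B i * (B i)ᵀ) a b * η a * η b) =
        ∑ a, ∑ i, ∑ b, w i * GG κ s (z - y i) * ((B i * (B i)ᵀ) a b * η a * η b) :=
      Finset.sum_comm
    rw [e5]
    exact Finset.sum_congr rfl fun a _ => Finset.sum_comm
  rw [e1, le_div_iff₀ hu]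
  have e4 : ∑ a, η a ^ 2 = η ⬝ᵥ η := by
    unfold dotProduct
    exact Finset.sum_congr rfl fun a _ => by ring
  rw [e4, uM, Finset.mul_sum]
  refine Finset.sum_le_sum fun i _ => ?_
  have h1 := (hB i η).1
  have h2 : 0 ≤ w i * GG κ s (z - y i) := mul_nonneg (hw i) (GG_pos hκ hs _).le
  have h3 := mul_le_mul_of_nonneg_left h1 h2
  linarith

end Pool.Agent.Lib.MP_eee7b5_an
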