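import Pool.Agent.Lib.MP_eee7b5_an.TOne
import Pool.Agent.Lib.MP_eee7b5_an.TTwoA
import Pool.Agent.Lib.MP_eee7b5_an.TTwoB
import Pool.Agent.Lib.MP_eee7b5_an.TTwoC

set_option autoImplicit false

/-!
Step (T2), infinitesimal form: the entropy dissipation `DD` is at most
`(d / lam) ∑_{a,b} ∫ u (∂_{v_b} a^{ab})²`.
-/

namespace Pool.Agent.Lib.MP_eee7b5_an

open MeasureTheory Set Matrix
open scoped ENNReal

variable {d : ℕ} {ι : Type} [Fintype ι]

private lemma quad_one {lam s u x e y : ℝ} (hlam : 0 < lam) :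
    0 ≤ (17 / 5) / lam * s ^ 2 * x ^ 2 + (9 / 5) * s * (x * e) + (39 / 40) * lam * e ^ 2 +
      u * (e * y) + u ^ 2 / lam * y ^ 2 := by
  have h1 : (17 / 5) / lam * s ^ 2 * x ^ 2 + (9 / 5) * s * (x * e) + (39 / 40) * lam * e ^ 2 +
      u * (e * y) + u ^ 2 / lam * y ^ 2 =
      ((17 / 5) * (s * x) ^ 2 + (9 / 5) * (s * x) * (lam * e) + (39 / 40) * (lam * e) ^ 2 +
        (u * y) * (lam * e) + (u * y) ^ 2) / lam := by
    field_simp
  rw [h1]
  apply div_nonneg _ hlam.le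
  nlinarith [sq_nonneg ((17 / 5) * (s * x) + (9 / 10) * (lam * e)),
    sq_nonneg (lam * e + 2 * (u * y)), sq_nonneg (lam * e), sq_nonneg (s * x), sq_nonneg (u * y)]

/-- Pointwise quadratic inequality (algebra). Here `ξ = ∇_x u`, `η = ∇_v u`,
`X a b = a^{ab}`, `Y a b = ∂_{v_b} a^{ab}`, `κ = 4/lam`, `c = lam/40`. -/
theorem quad_ineq {lam s u : ℝ} (hlam : 0 < lam) (hs : 0 < s) (hu : 0 < u)
    (ξ η : Fin d → ℝ) (X Y : Fin d → Fin d → ℝ)
    (hX : lam * ∑ a, η a ^ 2 ≤ ∑ a, ∑ b, X a b * η a * η b) :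
    -((4 / lam) * s ^ 2 * ∑ a, ξ a ^ 2 + 2 * s * ∑ a, ξ a * η a
        + ∑ a, ∑ b, η a * (X a b * η b + u * Y a b)
        - (lam / 40) * ∑ a, (3 * (4 / lam) ^ 2 * s ^ 2 / 2 * ξ a ^ 2
            + 2 * (4 / lam) * s * (ξ a * η a) + η a ^ 2)) / (1 + u)
      ≤ (d / lam) * ∑ a, ∑ b, u * Y a b ^ 2 := by
  have hlam0 : lam ≠ 0 := hlam.ne'
  have h1u : 0 < 1 + u := by linarith
  -- rewrite the pieces
  have e1 : ∑ a, ∑ b, η a * (X a b * η b + u * Y a b) =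
      ∑ a, ∑ b, X a b * η a * η b + u * ∑ a, η a * ∑ b, Y a b := by
    rw [Finset.mul_sum, ← Finset.sum_add_distrib]
    apply Finset.sum_congr rfl
    intro a _
    rw [Finset.mul_sum, Finset.mul_sum, ← Finset.sum_add_distrib]
    apply Finset.sum_congr rfl
    intro b _
    ring
  have e2 : ∑ a, (3 * (4 / lam) ^ 2 * s ^ 2 / 2 * ξ a ^ 2
            + 2 * (4 / lam) * s * (ξ a * η a) + η a ^ 2) =
      3 * (4 / lam) ^ 2 * s ^ 2 / 2 * ∑ a, ξ a ^ 2 + 2 * (4 / lam) * s * ∑ a, ξ a * η a +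
        ∑ a, η a ^ 2 := by
    rw [Finset.sum_add_distrib, Finset.sum_add_distrib, ← Finset.mul_sum, ← Finset.mul_sum]
  have e3 : ∑ a, ∑ b, u * Y a b ^ 2 = u * ∑ a, ∑ b, Y a b ^ 2 := by
    rw [Finset.mul_sum]
    apply Finset.sum_congr rfl
    intro a _
    rw [Finset.mul_sum]
  -- the sum of the one-variable inequalities
  have h2 : 0 ≤ (17 / 5) / lam * s ^ 2 * ∑ a, ξ a ^ 2 + (9 / 5) * s * ∑ a, ξ a * η a +
      (39 / 40) * lam * ∑ a, η a ^ 2 + u * ∑ a, η a * ∑ b, Y a b +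
      u ^ 2 / lam * ∑ a, (∑ b, Y a b) ^ 2 := by
    have h3 := Finset.sum_nonneg (s := (Finset.univ : Finset (Fin d)))
      (fun a _ => quad_one (s := s) (u := u) (x := ξ a) (e := η a) (y := ∑ b, Y a b) hlam)
    rw [Finset.sum_add_distrib, Finset.sum_add_distrib, Finset.sum_add_distrib,
      Finset.sum_add_distrib, ← Finset.mul_sum, ← Finset.mul_sum, ← Finset.mul_sum,
      ← Finset.mul_sum, ← Finset.mul_sum] at h3
    exact h3
  have h3 : ∑ a, (∑ b, Y a b) ^ 2 ≤ d * ∑ a, ∑ b, Y a b ^ 2 := by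
    rw [Finset.mul_sum]
    apply Finset.sum_le_sum
    intro a _
    have h4 := sq_sum_le_card_mul_sum_sq (s := (Finset.univ : Finset (Fin d))) (f := fun b => Y a b)
    rw [Finset.card_univ, Fintype.card_fin] at h4
    exact h4
  set S := ∑ a, ∑ b, Y a b ^ 2 with hS
  set A := ∑ a, ξ a ^ 2 with hA
  set B := ∑ a, ξ a * η a with hB
  set C := ∑ a, η a ^ 2 with hC
  set XX := ∑ a, ∑ b, X a b * η a * η b with hXX
  set Z := ∑ a, η a * ∑ b, Y a b with hZ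
  have hS0 : 0 ≤ S := Finset.sum_nonneg fun a _ => Finset.sum_nonneg fun b _ => sq_nonneg _
  rw [e1, e2, e3]
  have h4 : u ^ 2 / lam * ∑ a, (∑ b, Y a b) ^ 2 ≤ u ^ 2 / lam * (d * S) :=
    mul_le_mul_of_nonneg_left h3 (by positivity)
  have h5 : (4 / lam) * s ^ 2 * A + 2 * s * B + (XX + u * Z)
        - (lam / 40) * (3 * (4 / lam) ^ 2 * s ^ 2 / 2 * A + 2 * (4 / lam) * s * B + C) =
      (17 / 5) / lam * s ^ 2 * A + (9 / 5) * s * B + XX - lam / 40 * C + u * Z := by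
    field_simp
    ring
  rw [h5, div_le_iff₀ h1u]
  have h6 : -((17 / 5) / lam * s ^ 2 * A + (9 / 5) * s * B + XX - lam / 40 * C + u * Z) ≤
      u ^ 2 / lam * (d * S) := by linarith
  refine h6.trans ?_
  have h7 : (d : ℝ) / lam * (u * S) * (1 + u) = u ^ 2 / lam * (d * S) + (d : ℝ) / lam * (u * S) := by
    ring
  rw [h7]
  have h8 : 0 ≤ (d : ℝ) / lam * (u * S) := by positivity
  linarith

end Pool.Agent.Lib.MP_eee7b5_an
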