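import Pool.Agent.Lib.MP_eee7b5_an.TOne
import Pool.Agent.Lib.MP_eee7b5_an.TTwoA
import Pool.Agent.Lib.MP_eee7b5_an.TTwoB
import Pool.Agent.Lib.MP_eee7b5_an.TTwoC
import Pool.Agent.Lib.MP_eee7b5_an.TTwoD

set_option autoImplicit false

/-!
Step (T2), infinitesimal form: the entropy dissipation `DD` is at most
`(d / lam) ∑_{a,b} ∫ u (∂_{v_b} a^{ab})²`.
-/

namespace Pool.Agent.Lib.MP_eee7b5_an

open MeasureTheory Set Matrix
open scoped ENNReal

variable {d : ℕ} {ι : Type} [Fintype ι]

private def Rel (F G : ZZ d → ℝ) : Prop :=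
  Integrable F ∧ Integrable G ∧ ∫ z, F z = -∫ z, G z

private theorem Rel.add {F G F' G' : ZZ d → ℝ} (h : Rel F G) (h' : Rel F' G') :
    Rel (fun z => F z + F' z) (fun z => G z + G' z) := by
  refine ⟨h.1.add h'.1, h.2.1.add h'.2.1, ?_⟩
  rw [integral_add h.1 h'.1, integral_add h.2.1 h'.2.1, h.2.2, h'.2.2]
  ring

private theorem Rel.smul {F G : ZZ d → ℝ} (h : Rel F G) (k : ℝ) :
    Rel (fun z => k * F z) (fun z => k * G z) := by
  refine ⟨h.1.const_mul k, h.2.1.const_mul k, ?_⟩
  rw [integral_const_mul, integral_const_mul, h.2.2]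
  ring

private theorem Rel.sum {β : Type} (S : Finset β) {F G : β → ZZ d → ℝ}
    (h : ∀ b ∈ S, Rel (F b) (G b)) :
    Rel (fun z => ∑ b ∈ S, F b z) (fun z => ∑ b ∈ S, G b z) := by
  refine ⟨integrable_finsetSum _ fun b hb => (h b hb).1,
    integrable_finsetSum _ fun b hb => (h b hb).2.1, ?_⟩
  rw [integral_finsetSum _ fun b hb => (h b hb).1,
    integral_finsetSum _ fun b hb => (h b hb).2.1, ← Finset.sum_neg_distrib]
  exact Finset.sum_congr rfl fun b hb => (h b hb).2.2

/-- (T2), infinitesimal form. -/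
theorem DD_le {s lam Lam : ℝ} (hlam : 0 < lam) (hs : 0 < s) {w : ι → ℝ}
    (hw : ∀ i, 0 ≤ w i) (hw1 : ∑ i, w i = 1) (y : ι → ZZ d)
    {B : ι → Matrix (Fin d) (Fin d) ℝ} (hB : ∀ i, EllB lam Lam (B i)) :
    DD (4 / lam) (lam / 40) w y B s ≤
      (d / lam) * ∑ a : Fin d, ∑ b : Fin d, eM (4 / lam) w (mk B a b) y s (dv b) := by
  have hκ : 0 < 4 / lam := by positivity
  have hα : ∀ a b, ∀ i, |mk B a b i| ≤ Lam := fun a b i => EllB_entry_le hlam.le (hB i) a b
  have hL : ∀ e f : ZZ d, Rel
      (fun z => Real.log (1 + uM (4 / lam) w y s z) * dduM (4 / lam) w y s e f z)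
      (fun z => duM (4 / lam) w y s e z * duM (4 / lam) w y s f z /
        (1 + uM (4 / lam) w y s z)) := by
    intro e f
    have h := ibp_log hκ hs hw hw1 (α := fun _ => (1 : ℝ)) (L := 1) (fun i => by simp) y e f
    simp only [mul_one] at h
    exact h
  have hM : ∀ a b : Fin d, Rel
      (fun z => Real.log (1 + uM (4 / lam) w y s z) *
        dduM (4 / lam) (fun i => w i * mk B a b i) y s (dv a) (dv b) z)
      (fun z => duM (4 / lam) w y s (dv a) z *
        duM (4 / lam) (fun i => w i * mk B a b i) y s (dv b) z /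
        (1 + uM (4 / lam) w y s z)) := fun a b => ibp_log hκ hs hw hw1 (hα a b) y (dv a) (dv b)
  have htot := (Rel.sum Finset.univ fun (a : Fin d) _ =>
      (((hL (dx a) (dx a)).smul
          ((4 / lam) * s ^ 2 - (lam / 40) * (3 * (4 / lam) ^ 2 * s ^ 2 / 2))).add
        (((hL (dx a) (dv a)).smul (2 * s - (lam / 40) * (2 * (4 / lam) * s))).add
          ((hL (dv a) (dv a)).smul (-(lam / 40)))))).add
    (Rel.sum Finset.univ fun (a : Fin d) _ => Rel.sum Finset.univ fun (b : Fin d) _ => hM a b)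
  have hU : ∀ a b : Fin d, Integrable (fun z : ZZ d => uM (4 / lam) w y s z *
      (daM (4 / lam) w (mk B a b) y s (dv b) z) ^ 2) := by
    intro a b
    refine (integrable_u_daM_daM hκ hs hw hw1 (hα a b) y (dv b) (dv b)).congr
      (Filter.Eventually.of_forall fun z => ?_)
    simp only [sq]
  have e1 : DD (4 / lam) (lam / 40) w y B s = ∫ z : ZZ d, ((∑ a : Fin d,
      (((4 / lam) * s ^ 2 - (lam / 40) * (3 * (4 / lam) ^ 2 * s ^ 2 / 2)) *
          (Real.log (1 + uM (4 / lam) w y s z) * dduM (4 / lam) w y s (dx a) (dx a) z) +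
        ((2 * s - (lam / 40) * (2 * (4 / lam) * s)) *
          (Real.log (1 + uM (4 / lam) w y s z) * dduM (4 / lam) w y s (dx a) (dv a) z) +
        (-(lam / 40)) *
          (Real.log (1 + uM (4 / lam) w y s z) * dduM (4 / lam) w y s (dv a) (dv a) z)))) +
      ∑ a : Fin d, ∑ b : Fin d, Real.log (1 + uM (4 / lam) w y s z) *
        dduM (4 / lam) (fun i => w i * mk B a b i) y s (dv a) (dv b) z) := by
    unfold DD
    congr 1
    ext z
    rw [heatM hκ hs]
    generalize Real.log (1 + uM (4 / lam) w y s z) = l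
    rw [mul_add]
    congr 1
    · rw [Finset.mul_sum, ← Finset.sum_neg_distrib, ← Finset.sum_add_distrib, Finset.mul_sum]
      apply Finset.sum_congr rfl
      intro a _
      ring
    · rw [Finset.mul_sum]
      apply Finset.sum_congr rfl
      intro a _
      rw [Finset.mul_sum]
  rw [e1, htot.2.2, ← integral_neg]
  have e2 : (d / lam) * ∑ a : Fin d, ∑ b : Fin d, eM (4 / lam) w (mk B a b) y s (dv b) =
      ∫ z : ZZ d, (d / lam) * ∑ a : Fin d, ∑ b : Fin d, uM (4 / lam) w y s z *
        (daM (4 / lam) w (mk B a b) y s (dv b) z) ^ 2 := by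
    rw [integral_const_mul, integral_finsetSum _ fun a _ =>
      integrable_finsetSum _ fun b _ => hU a b]
    congr 1
    apply Finset.sum_congr rfl
    intro a _
    rw [integral_finsetSum _ fun b _ => hU a b]
    rfl
  rw [e2]
  refine integral_mono htot.2.1.neg ((integrable_finsetSum _ fun a _ =>
      integrable_finsetSum _ fun b _ => hU a b).const_mul _) fun z => ?_
  have hq := quad_ineq (lam := lam) (s := s) (u := uM (4 / lam) w y s z) hlam hs
    (uM_pos hκ hs hw hw1 y z) (fun a => duM (4 / lam) w y s (dx a) z)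
    (fun a => duM (4 / lam) w y s (dv a) z) (fun a b => aM (4 / lam) w (mk B a b) y s z)
    (fun a b => daM (4 / lam) w (mk B a b) y s (dv b) z)
    (aM_elliptic hκ hs hw hw1 y hB z _)
  refine le_trans (le_of_eq ?_) hq
  simp only [duM_eq hκ hs hw hw1]
  generalize uM (4 / lam) w y s z = u
  generalize (1 + u) = q
  rw [neg_div]
  congr 1
  simp only [Finset.sum_add_distrib, ← Finset.mul_sum, ← Finset.sum_div, sub_div, add_div]
  simp only [← sq]
  ring

end Pool.Agent.Lib.MP_eee7b5_an
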