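import Pool.Agent.Lib.MP_eee7b5_an.TOne
import Pool.Agent.Lib.MP_eee7b5_an.TTwoA
import Pool.Agent.Lib.MP_eee7b5_an.TTwoB
import Pool.Agent.Lib.MP_eee7b5_an.TTwoC
import Pool.Agent.Lib.MP_eee7b5_an.TTwoD
import Pool.Agent.Lib.MP_eee7b5_an.TTwoE

set_option autoImplicit false

/-!
Step (T2), infinitesimal form: the entropy dissipation `DD` is at most
`(d / lam) ∑_{a,b} ∫ u (∂_{v_b} a^{ab})²`.
-/

namespace Pool.Agent.Lib.MP_eee7b5_an

open MeasureTheory Set Matrix
open scoped ENNReal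

variable {d : ℕ} {ι : Type} [Fintype ι]

/-- (T2) in terms of `-J'`. -/
theorem DD_le_deriv {s lam Lam : ℝ} (hlam : 0 < lam) (hs : 0 < s) {w : ι → ℝ}
    (hw : ∀ i, 0 ≤ w i) (hw1 : ∑ i, w i = 1) (y : ι → ZZ d)
    {B : ι → Matrix (Fin d) (Fin d) ℝ} (hB : ∀ i, EllB lam Lam (B i)) :
    DD (4 / lam) (lam / 40) w y B s ≤
      (3 * d / (2 * lam)) * ∑ a : Fin d, ∑ b : Fin d,
        -(deriv (fun s => JM (4 / lam) w (mk B a b) y s) s) := by
  have hκ : (0 : ℝ) < 4 / lam := by positivity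
  refine (DD_le hlam hs hw hw1 y hB).trans ?_
  rw [Finset.mul_sum, Finset.mul_sum]
  refine Finset.sum_le_sum fun a _ => ?_
  rw [Finset.mul_sum, Finset.mul_sum]
  refine Finset.sum_le_sum fun b _ => ?_
  have h := (JM_deriv hκ hs hw hw1 (fun i => EllB_entry_le hlam.le (hB i) a b) y).2
  have h1 : eM (4 / lam) w (mk B a b) y s (dv b) ≤
      ∑ a' : Fin d, eM (4 / lam) w (mk B a b) y s (dv a') := by
    refine Finset.single_le_sum (f := fun a' => eM (4 / lam) w (mk B a b) y s (dv a'))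
      (fun a' _ => ?_) (Finset.mem_univ b)
    exact integral_nonneg fun z => mul_nonneg (uM_pos hκ hs hw hw1 y z).le (sq_nonneg _)
  have h2 : (2 / 3) * eM (4 / lam) w (mk B a b) y s (dv b) ≤
      -(deriv (fun s => JM (4 / lam) w (mk B a b) y s) s) := by
    have h3 : (fun s => JM (4 / lam) w (mk B a b) y s) =
        (fun s => JM (4 / lam) w (fun i => (B i * (B i)ᵀ) a b) y s) := rfl
    rw [h3]
    exact le_trans (mul_le_mul_of_nonneg_left h1 (by norm_num)) h
  have h4 : (0 : ℝ) ≤ d / lam := by positivity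
  have h5 := mul_le_mul_of_nonneg_left h2 (show (0 : ℝ) ≤ 3 * d / (2 * lam) by positivity)
  refine le_trans (le_of_eq ?_) h5
  field_simp

end Pool.Agent.Lib.MP_eee7b5_an
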