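import Pool.Agent.Lib.MP_eee7b5_an.TOne
import Pool.Agent.Lib.MP_eee7b5_an.TTwoA
import Pool.Agent.Lib.MP_eee7b5_an.TTwoB
import Pool.Agent.Lib.MP_eee7b5_an.TTwoC
import Pool.Agent.Lib.MP_eee7b5_an.TTwoD
import Pool.Agent.Lib.MP_eee7b5_an.TTwoE
import Pool.Agent.Lib.MP_eee7b5_an.TTwoF
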