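import Pool.Agent.Lib.MP_eee7b5_an.Kern

set_option autoImplicit false

/-!
Step (T2), finite form: one step of the chain.
-/

namespace Pool.Agent.Lib.MP_eee7b5_an

open MeasureTheory Set Matrix
open scoped ENNReal

variable {d : ℕ} {ι : Type} [Fintype ι]

/-- Smoothed law after one step of the chain. -/
noncomputable def nextU (κ h : ℝ) (w : ι → ℝ) (y : ι → ZZ d)
    (B : ι → Matrix (Fin d) (Fin d) ℝ) (s : ℝ) (z : ZZ d) : ℝ :=
  ∑ i, w i * stepAvg h (B i) (fun y' => GG κ s (z - y')) (y i)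

/-- The interpolation: `uE ε` with `ε = √h`. -/
noncomputable def uE (κ c : ℝ) (w : ι → ℝ) (y : ι → ZZ d)
    (B : ι → Matrix (Fin d) (Fin d) ℝ) (s ε : ℝ) (z : ZZ d) : ℝ :=
  ∑ i, w i * ((2 * (d : ℝ))⁻¹ * ∑ j : Fin d,
    (KK κ c s (Real.sqrt (2 * d) • colB (B i) j) ε (z - y i)
      + KK κ c s (-(Real.sqrt (2 * d) • colB (B i) j)) ε (z - y i)))

theorem taylorA_pt (h r : ℝ) (z y : ZZ d) (b : E d) :
    ((z.1 - h • z.2, z.2) : ZZ d) - (y.1 - h • y.2, y.2 + b) =
      ((z - y).1 - h • (z - y).2, (z - y).2 - b) := by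
  refine Prod.ext ?_ ?_
  · simp only [Prod.fst_sub, Prod.snd_sub, smul_sub]
    abel
  · simp only [Prod.snd_sub, sub_sub]

/-- The interpolation at `ε = √h` is the sheared next law. -/
theorem nextU_shear {κ c h s : ℝ} (hh : 0 ≤ h) (w : ι → ℝ) (y : ι → ZZ d)
    (B : ι → Matrix (Fin d) (Fin d) ℝ) (z : ZZ d) :
    nextU κ h w y B s (z.1 - h • z.2, z.2) = uE κ c w y B (s + c * h) (Real.sqrt h) z := by
  have hsq : Real.sqrt h ^ 2 = h := Real.sq_sqrt hh
  have hr : Real.sqrt (2 * h * d) = Real.sqrt h * Real.sqrt (2 * d) := by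
    rw [← Real.sqrt_mul hh]
    congr 1
    ring
  have hs : s + c * h - c * Real.sqrt h ^ 2 = s := by rw [hsq]; ring
  have key : ∀ (i : ι) (b : E d), GG κ s (((z.1 - h • z.2, z.2) : ZZ d) -
      ((y i).1 - h • (y i).2, (y i).2 + Real.sqrt (2 * h * d) • b)) =
      KK κ c (s + c * h) (Real.sqrt (2 * d) • b) (Real.sqrt h) (z - y i) := by
    intro i b
    rw [taylorA_pt h 0, KK, hs, hsq, hr, mul_smul]
  unfold nextU uE
  refine Finset.sum_congr rfl fun i _ => ?_
  unfold stepAvg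
  have key2 : ∀ j : Fin d, (GG κ s (((z.1 - h • z.2, z.2) : ZZ d) -
        ((y i).1 - h • (y i).2, (y i).2 + Real.sqrt (2 * h * d) • colB (B i) j)) +
      GG κ s (((z.1 - h • z.2, z.2) : ZZ d) -
        ((y i).1 - h • (y i).2, (y i).2 - Real.sqrt (2 * h * d) • colB (B i) j))) =
      (KK κ c (s + c * h) (Real.sqrt (2 * d) • colB (B i) j) (Real.sqrt h) (z - y i)
      + KK κ c (s + c * h) (-(Real.sqrt (2 * d) • colB (B i) j)) (Real.sqrt h) (z - y i)) := by
    intro j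
    have e1 : (y i).2 - Real.sqrt (2 * h * d) • colB (B i) j =
        (y i).2 + Real.sqrt (2 * h * d) • (-colB (B i) j) := by
      rw [smul_neg, sub_eq_add_neg]
    have e2 : -(Real.sqrt (2 * d) • colB (B i) j) = Real.sqrt (2 * d) • (-colB (B i) j) := by
      rw [smul_neg]
    rw [e1, e2, key, key]
  rw [Finset.sum_congr rfl fun j _ => key2 j]

theorem uE_zero {κ c s : ℝ} (hd : 1 ≤ d) (w : ι → ℝ) (y : ι → ZZ d)
    (B : ι → Matrix (Fin d) (Fin d) ℝ) (z : ZZ d) :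
    uE κ c w y B s 0 z = uM κ w y s z := by
  have hK : ∀ (b : E d) (z : ZZ d), KK κ c s b 0 z = GG κ s z := by
    intro b z
    have e1 : s - c * (0 : ℝ) ^ 2 = s := by ring
    have e2 : ((z.1 - (0 : ℝ) ^ 2 • z.2, z.2 - (0 : ℝ) • b) : ZZ d) = z := by
      refine Prod.ext ?_ ?_
      · simp
      · simp
    unfold KK
    rw [e1, e2]
  have hd0 : (d : ℝ) ≠ 0 := by
    have : (0 : ℝ) < d := by exact_mod_cast hd
    exact this.ne'
  unfold uE uM
  refine Finset.sum_congr rfl fun i _ => ?_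
  simp only [hK, Finset.sum_const, Finset.card_univ, Fintype.card_fin, nsmul_eq_mul]
  have : (2 * (d : ℝ))⁻¹ * ((d : ℝ) * (GG κ s (z - y i) + GG κ s (z - y i))) =
      GG κ s (z - y i) := by
    field_simp
    ring
  rw [this]

end Pool.Agent.Lib.MP_eee7b5_an
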