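import Pool.Agent.Lib.MP_eee7b5_an.Kern
import Pool.Agent.Lib.MP_eee7b5_an.TaylorA

set_option autoImplicit false

/-!
Step (T2), finite form: one step of the chain.
-/

namespace Pool.Agent.Lib.MP_eee7b5_an

open MeasureTheory Set Matrix
open scoped ENNReal

variable {d : ℕ} {ι : Type} [Fintype ι]

theorem taylorB_bG_neg (κ s : ℝ) (z e : ZZ d) : bG κ s z (-e) = -bG κ s z e := by
  have h := bG_smul κ s (-1) e z
  rw [bG_symm κ s z (-e), bG_symm κ s z e]
  have e1 : (-1 : ℝ) • e = -e := by simp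
  rw [e1] at h
  rw [h]
  ring

theorem taylorB_neg_pair (b : E d) : ((0, -b) : ZZ d) = -((0, b) : ZZ d) := by
  simp

theorem taylorB_dG_neg (κ s : ℝ) (b : E d) (z : ZZ d) :
    dG κ s (0, -b) z = -dG κ s (0, b) z := by
  unfold dG
  rw [taylorB_neg_pair, taylorB_bG_neg]
  ring

theorem taylorB_ddG_neg (κ s : ℝ) (b : E d) (z : ZZ d) :
    ddG κ s (0, -b) (0, -b) z = ddG κ s (0, b) (0, b) z := by
  unfold ddG
  rw [taylorB_neg_pair, taylorB_bG_neg, taylorB_bG_neg, bG_symm κ s (-((0, b) : ZZ d)),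
    taylorB_bG_neg]
  ring

/-- the second derivative in the direction `√(2d) B e_j`, summed over `j` -/
theorem taylorB_sum_ddG (κ s : ℝ) (M : Matrix (Fin d) (Fin d) ℝ) (z : ZZ d) :
    ∑ j : Fin d, ddG κ s (0, Real.sqrt (2 * d) • colB M j) (0, Real.sqrt (2 * d) • colB M j) z =
      (2 * (d : ℝ)) * ∑ a : Fin d, ∑ b : Fin d,
        (M * Mᵀ) a b * ddG κ s (dv a) (dv b) z := by
  have hsq : Real.sqrt (2 * d) * Real.sqrt (2 * d) = 2 * d := Real.mul_self_sqrt (by positivity)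
  have h1 : ∀ j, ddG κ s (0, Real.sqrt (2 * d) • colB M j) (0, Real.sqrt (2 * d) • colB M j) z =
      ∑ a : Fin d, ∑ a' : Fin d, (2 * (d : ℝ)) * ((M a j * M a' j) *
        ddG κ s (dv a) (dv a') z) := by
    intro j
    rw [ddG_vel]
    refine Finset.sum_congr rfl fun a _ => Finset.sum_congr rfl fun a' _ => ?_
    have e1 : (Real.sqrt (2 * d) • colB M j) a = Real.sqrt (2 * d) * M a j := rfl
    have e2 : (Real.sqrt (2 * d) • colB M j) a' = Real.sqrt (2 * d) * M a' j := rfl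
    rw [e1, e2]
    calc _ = (Real.sqrt (2 * d) * Real.sqrt (2 * d)) * ((M a j * M a' j) *
          ddG κ s (dv a) (dv a') z) := by ring
      _ = _ := by rw [hsq]
  simp_rw [h1]
  rw [Finset.sum_comm, Finset.mul_sum]
  refine Finset.sum_congr rfl fun a _ => ?_
  rw [Finset.sum_comm, Finset.mul_sum]
  refine Finset.sum_congr rfl fun a' _ => ?_
  rw [← Finset.mul_sum, ← Finset.sum_mul]
  congr 2

/-- `uE` has three bounded derivatives, its first derivative at `0` vanishes and the second is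
twice the infinitesimal change. -/
theorem uE_bounds {lam Lam κ c δ S : ℝ} (hd : 1 ≤ d) (hlam : 0 < lam) (hLam : lam ≤ Lam)
    (hκ : 0 < κ) (hc : 0 < c) (hδ : 0 < δ) (hS : δ ≤ S) :
    ∃ ε0 c' C : ℝ, 0 < ε0 ∧ ε0 ≤ 1 ∧ 0 < c' ∧ 0 < C ∧
      ∀ (ι : Type) [Fintype ι] (w : ι → ℝ) (y : ι → ZZ d) (B : ι → Matrix (Fin d) (Fin d) ℝ),
      (∀ i, 0 ≤ w i) → ∑ i, w i = 1 → (∀ i, EllB lam Lam (B i)) →
      ∀ s, δ ≤ s → s ≤ S → ∀ z : ZZ d,
      ∃ f1 f2 f3 : ℝ → ℝ,
        (∀ ε ∈ Icc (0 : ℝ) ε0, HasDerivAt (fun ε => uE κ c w y B s ε z) (f1 ε) ε) ∧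
        (∀ ε ∈ Icc (0 : ℝ) ε0, HasDerivAt f1 (f2 ε) ε) ∧
        (∀ ε ∈ Icc (0 : ℝ) ε0, HasDerivAt f2 (f3 ε) ε) ∧
        (∀ ε ∈ Icc (0 : ℝ) ε0, 0 ≤ uE κ c w y B s ε z ∧
          uE κ c w y B s ε z ≤ C * ∑ i, w i * Env c' (z - y i) ∧
          |f1 ε| ≤ C * ∑ i, w i * Env c' (z - y i) ∧
          |f2 ε| ≤ C * ∑ i, w i * Env c' (z - y i) ∧
          |f3 ε| ≤ C * ∑ i, w i * Env c' (z - y i)) ∧
        f1 0 = 0 ∧
        f2 0 = 2 * (-(c * suM κ w y s z)
          + ∑ a : Fin d, (κ * s ^ 2 * dduM κ w y s (dx a) (dx a) z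
              + 2 * s * dduM κ w y s (dx a) (dv a) z)
          + ∑ a : Fin d, ∑ b : Fin d,
              dduM κ (fun i => w i * mk B a b i) y s (dv a) (dv b) z) := by
  have hd0 : (0 : ℝ) < d := by exact_mod_cast hd
  obtain ⟨ε0, c', C, hε0, hε1, hc', hC, hcε, hK⟩ :=
    KK_bounds (d := d) hκ hc hδ hS (bmax := Real.sqrt (2 * d) * Real.sqrt (d * Lam)) (by positivity)
  refine ⟨ε0, c', C, hε0, hε1, hc', hC, ?_⟩
  intro ι _ w y B hw hw1 hB s hs1 hs2 z
  have hs : 0 < s := lt_of_lt_of_le hδ hs1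
  -- the jumps
  have hb : ∀ i j, ‖Real.sqrt (2 * d) • colB (B i) j‖ ≤
      Real.sqrt (2 * d) * Real.sqrt (d * Lam) := by
    intro i j
    rw [norm_smul, Real.norm_of_nonneg (Real.sqrt_nonneg _)]
    refine mul_le_mul_of_nonneg_left ?_ (Real.sqrt_nonneg _)
    rw [← Real.sqrt_sq (norm_nonneg (colB (B i) j))]
    exact Real.sqrt_le_sqrt (EllB_col_le (hB i) j)
  have hb' : ∀ i j, ‖-(Real.sqrt (2 * d) • colB (B i) j)‖ ≤
      Real.sqrt (2 * d) * Real.sqrt (d * Lam) := by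
    intro i j
    rw [norm_neg]
    exact hb i j
  have hp := fun i j => hK s hs1 hs2 _ (hb i j) (z - y i)
  have hm := fun i j => hK s hs1 hs2 _ (hb' i j) (z - y i)
  unfold B3 at hp hm
  choose p1 p2 p3 hp1 hp2 hp3 hpb using hp
  choose m1 m2 m3 hm1 hm2 hm3 hmb using hm
  -- the sums
  let Sm : (ι → Fin d → ℝ → ℝ) → (ι → Fin d → ℝ → ℝ) → ℝ → ℝ := fun p m ε =>
    ∑ i, w i * ((2 * (d : ℝ))⁻¹ * ∑ j : Fin d, (p i j ε + m i j ε))
  have hder : ∀ (p p' m m' : ι → Fin d → ℝ → ℝ) (ε : ℝ),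
      (∀ i j, HasDerivAt (p i j) (p' i j ε) ε) → (∀ i j, HasDerivAt (m i j) (m' i j ε) ε) →
      HasDerivAt (Sm p m) (Sm p' m' ε) ε := by
    intro p p' m m' ε h1 h2
    refine HasDerivAt.fun_sum fun i _ => ?_
    refine HasDerivAt.const_mul _ (HasDerivAt.const_mul _ ?_)
    exact HasDerivAt.fun_sum fun j _ => (h1 i j).add (h2 i j)
  have hbd : ∀ (p m : ι → Fin d → ℝ → ℝ) (ε : ℝ),
      (∀ i j, |p i j ε| ≤ C * Env c' (z - y i)) → (∀ i j, |m i j ε| ≤ C * Env c' (z - y i)) →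
      |Sm p m ε| ≤ C * ∑ i, w i * Env c' (z - y i) := by
    intro p m ε h1 h2
    rw [Finset.mul_sum]
    refine (Finset.abs_sum_le_sum_abs _ _).trans (Finset.sum_le_sum fun i _ => ?_)
    rw [abs_mul, abs_of_nonneg (hw i), abs_mul, abs_of_nonneg (by positivity : 0 ≤ (2 * (d : ℝ))⁻¹)]
    have h3 : |∑ j : Fin d, (p i j ε + m i j ε)| ≤ 2 * (d : ℝ) * (C * Env c' (z - y i)) := by
      refine (Finset.abs_sum_le_sum_abs _ _).trans ?_
      calc ∑ j : Fin d, |p i j ε + m i j ε| ≤ ∑ _j : Fin d, 2 * (C * Env c' (z - y i)) := by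
            refine Finset.sum_le_sum fun j _ => ?_
            have := abs_add_le (p i j ε) (m i j ε)
            have := h1 i j
            have := h2 i j
            linarith
        _ = 2 * (d : ℝ) * (C * Env c' (z - y i)) := by
            rw [Finset.sum_const, Finset.card_univ, Fintype.card_fin, nsmul_eq_mul]
            ring
    calc w i * ((2 * (d : ℝ))⁻¹ * |∑ j : Fin d, (p i j ε + m i j ε)|)
        ≤ w i * ((2 * (d : ℝ))⁻¹ * (2 * (d : ℝ) * (C * Env c' (z - y i)))) :=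
          mul_le_mul_of_nonneg_left (mul_le_mul_of_nonneg_left h3 (by positivity)) (hw i)
      _ = C * (w i * Env c' (z - y i)) := by
          field_simp
  refine ⟨Sm p1 m1, Sm p2 m2, Sm p3 m3, ?_, ?_, ?_, ?_, ?_, ?_⟩
  · intro ε hε
    exact hder (fun i j ε => KK κ c s (Real.sqrt (2 * d) • colB (B i) j) ε (z - y i)) p1
      (fun i j ε => KK κ c s (-(Real.sqrt (2 * d) • colB (B i) j)) ε (z - y i)) m1 ε
      (fun i j => hp1 i j ε hε) (fun i j => hm1 i j ε hε)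
  · intro ε hε
    exact hder p1 p2 m1 m2 ε (fun i j => hp2 i j ε hε) (fun i j => hm2 i j ε hε)
  · intro ε hε
    exact hder p2 p3 m2 m3 ε (fun i j => hp3 i j ε hε) (fun i j => hm3 i j ε hε)
  · intro ε hε
    have hsε : 0 < s - c * ε ^ 2 := by
      have h1 : ε ^ 2 ≤ ε0 ^ 2 := pow_le_pow_left₀ hε.1 hε.2 2
      have h2 : c * ε ^ 2 ≤ c * ε0 ^ 2 := mul_le_mul_of_nonneg_left h1 hc.le
      linarith
    have hKpos : ∀ (b : E d) (z : ZZ d), 0 ≤ KK κ c s b ε z := fun b z =>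
      (GG_pos hκ hsε _).le
    refine ⟨?_, ?_, hbd p1 m1 ε (fun i j => (hpb i j ε hε).2.1) (fun i j => (hmb i j ε hε).2.1),
      hbd p2 m2 ε (fun i j => (hpb i j ε hε).2.2.1) (fun i j => (hmb i j ε hε).2.2.1),
      hbd p3 m3 ε (fun i j => (hpb i j ε hε).2.2.2) (fun i j => (hmb i j ε hε).2.2.2)⟩
    · unfold uE
      refine Finset.sum_nonneg fun i _ => mul_nonneg (hw i) (mul_nonneg (by positivity)
        (Finset.sum_nonneg fun j _ => add_nonneg (hKpos _ _) (hKpos _ _)))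
    · exact (le_abs_self _).trans (hbd
        (fun i j ε => KK κ c s (Real.sqrt (2 * d) • colB (B i) j) ε (z - y i))
        (fun i j ε => KK κ c s (-(Real.sqrt (2 * d) • colB (B i) j)) ε (z - y i)) ε
        (fun i j => (hpb i j ε hε).1) (fun i j => (hmb i j ε hε).1))
  · -- first derivatives cancel
    have h0 : (0 : ℝ) ∈ Icc (0 : ℝ) ε0 := ⟨le_refl _, hε0.le⟩
    change ∑ i, w i * ((2 * (d : ℝ))⁻¹ * ∑ j : Fin d, (p1 i j 0 + m1 i j 0)) = 0
    refine Finset.sum_eq_zero fun i _ => ?_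
    have : ∑ j : Fin d, (p1 i j 0 + m1 i j 0) = 0 := by
      refine Finset.sum_eq_zero fun j _ => ?_
      rw [(KK_at_zero hκ hc hs _ _ _ _ ε0 hε0 (hp1 i j) (hp2 i j)).1,
        (KK_at_zero hκ hc hs _ _ _ _ ε0 hε0 (hm1 i j) (hm2 i j)).1, taylorB_dG_neg]
      ring
    rw [this]
    ring
  · change ∑ i, w i * ((2 * (d : ℝ))⁻¹ * ∑ j : Fin d, (p2 i j 0 + m2 i j 0)) = _
    have hi : ∀ i, (2 * (d : ℝ))⁻¹ * ∑ j : Fin d, (p2 i j 0 + m2 i j 0) =
        2 * (-(c * sG κ s (z - y i)) + (∑ a : Fin d, (κ * s ^ 2 * ddG κ s (dx a) (dx a) (z - y i)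
            + 2 * s * ddG κ s (dx a) (dv a) (z - y i)))
          + ∑ a : Fin d, ∑ b : Fin d, mk B a b i * ddG κ s (dv a) (dv b) (z - y i)) := by
      intro i
      have h1 : ∀ j, p2 i j 0 + m2 i j 0 =
          2 * (-(2 * c * sG κ s (z - y i)) +
            2 * (bG κ s (z - y i) ((z - y i).2, 0) * GG κ s (z - y i))) +
          2 * ddG κ s (0, Real.sqrt (2 * d) • colB (B i) j)
            (0, Real.sqrt (2 * d) • colB (B i) j) (z - y i) := by
        intro j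
        rw [(KK_at_zero hκ hc hs _ _ _ _ ε0 hε0 (hp1 i j) (hp2 i j)).2,
          (KK_at_zero hκ hc hs _ _ _ _ ε0 hε0 (hm1 i j) (hm2 i j)).2, taylorB_ddG_neg]
        ring
      simp_rw [h1]
      rw [Finset.sum_add_distrib, Finset.sum_const, Finset.card_univ, Fintype.card_fin,
        nsmul_eq_mul, ← Finset.mul_sum, taylorB_sum_ddG, transport hκ hs]
      unfold mk
      field_simp
    simp_rw [hi]
    have e1 : suM κ w y s z = ∑ i, w i * sG κ s (z - y i) := rfl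
    have e2 : ∑ a : Fin d, (κ * s ^ 2 * dduM κ w y s (dx a) (dx a) z
              + 2 * s * dduM κ w y s (dx a) (dv a) z) =
        ∑ i, w i * ∑ a : Fin d, (κ * s ^ 2 * ddG κ s (dx a) (dx a) (z - y i)
            + 2 * s * ddG κ s (dx a) (dv a) (z - y i)) := by
      unfold dduM
      simp_rw [Finset.mul_sum]
      rw [Finset.sum_comm]
      refine Finset.sum_congr rfl fun a _ => ?_
      rw [← Finset.sum_add_distrib]
      exact Finset.sum_congr rfl fun i _ => by ring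
    have e3 : ∑ a : Fin d, ∑ b : Fin d,
              dduM κ (fun i => w i * mk B a b i) y s (dv a) (dv b) z =
        ∑ i, w i * ∑ a : Fin d, ∑ b : Fin d, mk B a b i * ddG κ s (dv a) (dv b) (z - y i) := by
      unfold dduM
      simp_rw [Finset.mul_sum]
      conv_rhs => rw [Finset.sum_comm]
      refine Finset.sum_congr rfl fun a _ => ?_
      conv_rhs => rw [Finset.sum_comm]
      exact Finset.sum_congr rfl fun b _ => Finset.sum_congr rfl fun i _ => by ring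
    rw [e1, e2, e3, Finset.mul_sum, ← Finset.sum_neg_distrib, ← Finset.sum_add_distrib,
      ← Finset.sum_add_distrib, Finset.mul_sum]
    exact Finset.sum_congr rfl fun i _ => by ring

end Pool.Agent.Lib.MP_eee7b5_an
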