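import Pool.Agent.Lib.MP_eee7b5_an.Kern
import Pool.Agent.Lib.MP_eee7b5_an.TaylorA
import Pool.Agent.Lib.MP_eee7b5_an.TaylorB

set_option autoImplicit false

/-!
Step (T2), finite form: one step of the chain.
-/

namespace Pool.Agent.Lib.MP_eee7b5_an

open MeasureTheory Set Matrix
open scoped ENNReal

variable {d : ℕ} {ι : Type} [Fintype ι]

/-- A function with nonpositive derivative on an interval is at most its value at `0`. -/
theorem taylorC_mono {ε0 : ℝ} {g g' : ℝ → ℝ}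
    (h : ∀ ε ∈ Icc (0 : ℝ) ε0, HasDerivAt g (g' ε) ε)
    (hn : ∀ ε ∈ Icc (0 : ℝ) ε0, g' ε ≤ 0) :
    ∀ ε ∈ Icc (0 : ℝ) ε0, g ε ≤ g 0 := by
  have hanti : AntitoneOn g (Icc (0 : ℝ) ε0) := by
    apply antitoneOn_of_deriv_nonpos (convex_Icc 0 ε0)
    · intro x hx
      exact (h x hx).continuousAt.continuousWithinAt
    · intro x hx
      rw [interior_Icc] at hx
      exact (h x (Ioo_subset_Icc_self hx)).differentiableAt.differentiableWithinAt
    · intro x hx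
      rw [interior_Icc] at hx
      rw [(h x (Ioo_subset_Icc_self hx)).deriv]
      exact hn x (Ioo_subset_Icc_self hx)
  intro ε hε
  exact hanti ⟨le_refl 0, le_trans hε.1 hε.2⟩ hε hε.1

/-- One-dimensional Taylor inequality. -/
theorem taylor3 {ε0 M : ℝ} (hε0 : 0 < ε0) {f f1 f2 f3 : ℝ → ℝ}
    (h1 : ∀ ε ∈ Icc (0 : ℝ) ε0, HasDerivAt f (f1 ε) ε)
    (h2 : ∀ ε ∈ Icc (0 : ℝ) ε0, HasDerivAt f1 (f2 ε) ε)
    (h3 : ∀ ε ∈ Icc (0 : ℝ) ε0, HasDerivAt f2 (f3 ε) ε)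
    (h10 : f1 0 = 0) (hM : ∀ ε ∈ Icc (0 : ℝ) ε0, f3 ε ≤ M) :
    ∀ ε ∈ Icc (0 : ℝ) ε0, f ε ≤ f 0 + ε ^ 2 / 2 * f2 0 + M * ε ^ 3 / 6 := by
  have k2 : ∀ ε ∈ Icc (0 : ℝ) ε0, f2 ε ≤ f2 0 + M * ε := by
    intro ε hε
    have := taylorC_mono (g := fun x => f2 x - M * x) (g' := fun x => f3 x - M * 1)
      (fun x hx => (h3 x hx).sub ((hasDerivAt_id x).const_mul M))
      (fun x hx => by have := hM x hx; linarith) ε hε
    linarith
  have k1 : ∀ ε ∈ Icc (0 : ℝ) ε0, f1 ε ≤ f2 0 * ε + M * ε ^ 2 / 2 := by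
    intro ε hε
    have := taylorC_mono (g := fun x => f1 x - f2 0 * x - M / 2 * x ^ 2)
      (g' := fun x => f2 x - f2 0 * 1 - M / 2 * (((2 : ℕ) : ℝ) * x ^ (2 - 1)))
      (fun x hx => ((h2 x hx).sub ((hasDerivAt_id x).const_mul (f2 0))).sub
        ((hasDerivAt_pow 2 x).const_mul (M / 2)))
      (fun x hx => by
        have := k2 x hx
        simp only [Nat.add_one_sub_one, pow_one, Nat.cast_ofNat]
        linarith) ε hε
    simp only [h10] at this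
    nlinarith
  intro ε hε
  have := taylorC_mono (g := fun x => f x - f2 0 / 2 * x ^ 2 - M / 6 * x ^ 3)
    (g' := fun x => f1 x - f2 0 / 2 * (((2 : ℕ) : ℝ) * x ^ (2 - 1))
      - M / 6 * (((3 : ℕ) : ℝ) * x ^ (3 - 1)))
    (fun x hx => ((h1 x hx).sub ((hasDerivAt_pow 2 x).const_mul (f2 0 / 2))).sub
      ((hasDerivAt_pow 3 x).const_mul (M / 6)))
    (fun x hx => by
      have := k1 x hx
      simp only [Nat.add_one_sub_one, pow_one, Nat.cast_ofNat]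
      linarith) ε hε
  nlinarith

/-- Taylor for the composition with `phi`. -/
theorem taylor_phi {ε0 W C : ℝ} (hε0 : 0 < ε0) (hW : 0 ≤ W) (hWC : W ≤ C) (hC : 1 ≤ C)
    {u f1 f2 f3 : ℝ → ℝ}
    (h1 : ∀ ε ∈ Icc (0 : ℝ) ε0, HasDerivAt u (f1 ε) ε)
    (h2 : ∀ ε ∈ Icc (0 : ℝ) ε0, HasDerivAt f1 (f2 ε) ε)
    (h3 : ∀ ε ∈ Icc (0 : ℝ) ε0, HasDerivAt f2 (f3 ε) ε)
    (h10 : f1 0 = 0)
    (hb : ∀ ε ∈ Icc (0 : ℝ) ε0, 0 ≤ u ε ∧ u ε ≤ W ∧ |f1 ε| ≤ W ∧ |f2 ε| ≤ W ∧ |f3 ε| ≤ W) :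
    ∀ ε ∈ Icc (0 : ℝ) ε0,
      phi (u ε) ≤ phi (u 0) + ε ^ 2 / 2 * (Real.log (1 + u 0) * f2 0)
        + 5 * C ^ 2 * W * ε ^ 3 := by
  -- derivative of the logarithm
  have hlog : ∀ ε ∈ Icc (0 : ℝ) ε0,
      HasDerivAt (fun x => Real.log (1 + u x)) (f1 ε / (1 + u ε)) ε := by
    intro ε hε
    have hp : (1 + u ε) ≠ 0 := by have := (hb ε hε).1; positivity
    exact ((h1 ε hε).const_add 1).log hp
  have g1 : ∀ ε ∈ Icc (0 : ℝ) ε0,
      HasDerivAt (fun x => phi (u x)) (Real.log (1 + u ε) * f1 ε) ε := by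
    intro ε hε
    have hp : (1 + u ε) ≠ 0 := by have := (hb ε hε).1; positivity
    have h := (((h1 ε hε).const_add 1).mul (hlog ε hε)).sub (h1 ε hε)
    have e : f1 ε * Real.log (1 + u ε) + (1 + u ε) * (f1 ε / (1 + u ε)) - f1 ε
        = Real.log (1 + u ε) * f1 ε := by
      field_simp
      ring
    rw [← e]
    exact h
  have g2 : ∀ ε ∈ Icc (0 : ℝ) ε0,
      HasDerivAt (fun x => Real.log (1 + u x) * f1 x)
        (f1 ε / (1 + u ε) * f1 ε + Real.log (1 + u ε) * f2 ε) ε := by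
    intro ε hε
    exact (hlog ε hε).mul (h2 ε hε)
  have g3 : ∀ ε ∈ Icc (0 : ℝ) ε0,
      HasDerivAt (fun x => f1 x / (1 + u x) * f1 x + Real.log (1 + u x) * f2 x)
        ((f2 ε * (1 + u ε) - f1 ε * f1 ε) / (1 + u ε) ^ 2 * f1 ε + f1 ε / (1 + u ε) * f2 ε
          + (f1 ε / (1 + u ε) * f2 ε + Real.log (1 + u ε) * f3 ε)) ε := by
    intro ε hε
    have hp : (1 + u ε) ≠ 0 := by have := (hb ε hε).1; positivity
    exact (((h2 ε hε).div ((h1 ε hε).const_add 1) hp).mul (h2 ε hε)).add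
      ((hlog ε hε).mul (h3 ε hε))
  have key := taylor3 (M := 5 * C ^ 2 * W) hε0 g1 g2 g3 (by simp [h10]) (by
    intro ε hε
    obtain ⟨hu0, huW, b1, b2, b3⟩ := hb ε hε
    have hp : 0 < 1 + u ε := by linarith
    set q : ℝ := 1 / (1 + u ε) with hq
    have hq0 : 0 ≤ q := by positivity
    have hq1 : q ≤ 1 := by
      rw [hq, div_le_one hp]; linarith
    have hl0 : 0 ≤ Real.log (1 + u ε) := Real.log_nonneg (by linarith)
    have hl1 : Real.log (1 + u ε) ≤ W := by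
      have := Real.log_le_sub_one_of_pos hp
      linarith
    have hl1' : |Real.log (1 + u ε)| ≤ W := by rw [abs_of_nonneg hl0]; exact hl1
    have e : (f2 ε * (1 + u ε) - f1 ε * f1 ε) / (1 + u ε) ^ 2 * f1 ε + f1 ε / (1 + u ε) * f2 ε
          + (f1 ε / (1 + u ε) * f2 ε + Real.log (1 + u ε) * f3 ε)
        = Real.log (1 + u ε) * f3 ε + 3 * (f1 ε * f2 ε * q) - f1 ε ^ 3 * q ^ 2 := by
      rw [hq]
      field_simp
      ring
    rw [e]
    have a1 : |Real.log (1 + u ε) * f3 ε| ≤ W * W := by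
      rw [abs_mul]
      exact mul_le_mul hl1' b3 (abs_nonneg _) hW
    have a2 : |f1 ε * f2 ε * q| ≤ W * W := by
      rw [abs_mul, abs_mul, abs_of_nonneg hq0]
      have : |f1 ε| * |f2 ε| ≤ W * W := mul_le_mul b1 b2 (abs_nonneg _) hW
      calc |f1 ε| * |f2 ε| * q ≤ |f1 ε| * |f2 ε| * 1 :=
            mul_le_mul_of_nonneg_left hq1 (by positivity)
        _ ≤ W * W := by linarith
    have a3 : |f1 ε ^ 3 * q ^ 2| ≤ W ^ 3 := by
      rw [abs_mul, abs_pow, abs_of_nonneg (by positivity : (0 : ℝ) ≤ q ^ 2)]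
      have h1' : |f1 ε| ^ 3 ≤ W ^ 3 := pow_le_pow_left₀ (abs_nonneg _) b1 3
      have h2' : q ^ 2 ≤ 1 := pow_le_one₀ hq0 hq1
      calc |f1 ε| ^ 3 * q ^ 2 ≤ |f1 ε| ^ 3 * 1 := mul_le_mul_of_nonneg_left h2' (by positivity)
        _ ≤ W ^ 3 := by linarith
    have c1 := (abs_le.mp a1).2
    have c2 := (abs_le.mp a2).2
    have c3 := (abs_le.mp a3).1
    have hC0 : 0 ≤ C := by linarith
    have d1 : W * W ≤ C ^ 2 * W := by
      have : W ≤ C ^ 2 := by nlinarith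
      exact mul_le_mul_of_nonneg_right this hW
    have d2 : W ^ 3 ≤ C ^ 2 * W := by
      have : W ^ 2 ≤ C ^ 2 := pow_le_pow_left₀ hW hWC 2
      calc W ^ 3 = W ^ 2 * W := by ring
        _ ≤ C ^ 2 * W := mul_le_mul_of_nonneg_right this hW
    linarith)
  intro ε hε
  have := key ε hε
  simp only [h10] at this
  have hpos : 0 ≤ C ^ 2 * W * ε ^ 3 := by
    have := hε.1
    positivity
  have e0 : (0 : ℝ) / (1 + u 0) * 0 + Real.log (1 + u 0) * f2 0 = Real.log (1 + u 0) * f2 0 := by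
    ring
  rw [e0] at this
  linarith

end Pool.Agent.Lib.MP_eee7b5_an
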