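import Pool.Agent.Lib.MP_eee7b5_an.Kern
import Pool.Agent.Lib.MP_eee7b5_an.TaylorA
import Pool.Agent.Lib.MP_eee7b5_an.TaylorB
import Pool.Agent.Lib.MP_eee7b5_an.TaylorC

set_option autoImplicit false

/-!
Step (T2), finite form: one step of the chain.
-/

namespace Pool.Agent.Lib.MP_eee7b5_an

open MeasureTheory Set Matrix
open scoped ENNReal

variable {d : ℕ} {ι : Type} [Fintype ι]

theorem tyd_phi_nonneg {u : ℝ} (hu : 0 ≤ u) : 0 ≤ phi u := by
  unfold phi
  have h1 : 0 < 1 + u := by linarith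
  have h2 := Real.one_sub_inv_le_log_of_pos h1
  have h3 := mul_le_mul_of_nonneg_left h2 h1.le
  have h4 : (1 + u) * (1 - (1 + u)⁻¹) = u := by field_simp; ring
  linarith

theorem tyd_phi_le {u : ℝ} (hu : 0 ≤ u) : phi u ≤ u ^ 2 := by
  unfold phi
  have h1 : 0 < 1 + u := by linarith
  have h2 := Real.log_le_sub_one_of_pos h1
  have h3 := mul_le_mul_of_nonneg_left h2 h1.le
  nlinarith

theorem tyd_phi_continuousOn : ContinuousOn phi (Ici 0) := by
  intro u hu
  have h1 : (1 + u : ℝ) ≠ 0 := by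
    have : (0 : ℝ) ≤ u := hu
    linarith
  have h2 : ContinuousAt phi u := by
    unfold phi
    exact ((continuousAt_const.add continuousAt_id).mul
      ((continuousAt_const.add continuousAt_id).log h1)).sub continuousAt_id
  exact h2.continuousWithinAt

/-- continuous functions below an envelope are integrable -/
theorem tyd_integrable {f : ZZ d → ℝ} {c C : ℝ} (hc : 0 < c) (hf : Continuous f)
    (hb : ∀ z, |f z| ≤ C * Env c z) : Integrable f :=
  Integrable.mono' ((integrable_Env hc).const_mul C) hf.aestronglyMeasurable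
    (Filter.Eventually.of_forall fun z => by rw [Real.norm_eq_abs]; exact hb z)

theorem tyd_integrable_uM_phi {κ s : ℝ} (hκ : 0 < κ) (hs : 0 < s) {w : ι → ℝ}
    (hw : ∀ i, 0 ≤ w i) (hw1 : ∑ i, w i = 1) (y : ι → ZZ d) :
    Integrable (fun z => phi (uM κ w y s z)) := by
  have hpos := fun z => uM_pos (d := d) hκ hs hw hw1 y z
  have hcont : Continuous fun z => phi (uM κ w y s z) :=
    tyd_phi_continuousOn.comp_continuous (uM_continuous κ w y s) fun z => (hpos z).le
  refine Integrable.mono' ((integrable_uM hκ hs w y).const_mul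
    (((2 * Real.pi * κ * s ^ 2) ^ d)⁻¹)) hcont.aestronglyMeasurable
    (Filter.Eventually.of_forall fun z => ?_)
  rw [Real.norm_eq_abs, abs_of_nonneg (tyd_phi_nonneg (hpos z).le)]
  refine (tyd_phi_le (hpos z).le).trans ?_
  rw [sq]
  exact mul_le_mul_of_nonneg_right (uM_le hκ hs hw hw1 y z) (hpos z).le

/-- `log (1 + u)` times a function below an envelope is integrable -/
theorem tyd_integrable_log {κ s : ℝ} (hκ : 0 < κ) (hs : 0 < s) {w : ι → ℝ}
    (hw : ∀ i, 0 ≤ w i) (hw1 : ∑ i, w i = 1) (y : ι → ZZ d) {f : ZZ d → ℝ} {c C : ℝ} (hc : 0 < c)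
    (hf : Continuous f) (hb : ∀ z, |f z| ≤ C * Env c z) :
    Integrable (fun z => Real.log (1 + uM κ w y s z) * f z) := by
  have hpos := fun z => uM_pos (d := d) hκ hs hw hw1 y z
  have h1 : ∀ z : ZZ d, 1 + uM κ w y s z ≠ 0 := fun z => by have := hpos z; linarith
  have hcont : Continuous fun z => Real.log (1 + uM κ w y s z) * f z :=
    ((continuous_const.add (uM_continuous κ w y s)).log h1).mul hf
  set K : ℝ := ((2 * Real.pi * κ * s ^ 2) ^ d)⁻¹ with hK
  refine tyd_integrable (C := K * C) hc hcont fun z => ?_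
  rw [abs_mul]
  have h2 : |Real.log (1 + uM κ w y s z)| ≤ K := by
    have h3 : 0 ≤ Real.log (1 + uM κ w y s z) := Real.log_nonneg (by have := hpos z; linarith)
    rw [abs_of_nonneg h3]
    have h4 := Real.log_le_sub_one_of_pos (show 0 < 1 + uM κ w y s z by
      have := hpos z; linarith)
    have h5 := uM_le hκ hs hw hw1 y z
    linarith
  rw [mul_assoc]
  exact mul_le_mul h2 (hb z) (abs_nonneg _) ((abs_nonneg _).trans h2)

/-- the density of the entropy production -/
theorem tyd_integrable_DD {κ c s : ℝ} (hκ : 0 < κ) (hs : 0 < s) {w : ι → ℝ}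
    (hw : ∀ i, 0 ≤ w i) (hw1 : ∑ i, w i = 1) (y : ι → ZZ d)
    {B : ι → Matrix (Fin d) (Fin d) ℝ} :
    Integrable (fun z : ZZ d => Real.log (1 + uM κ w y s z) *
    (-(c * suM κ w y s z)
      + ∑ a : Fin d, (κ * s ^ 2 * dduM κ w y s (dx a) (dx a) z
          + 2 * s * dduM κ w y s (dx a) (dv a) z)
      + ∑ a : Fin d, ∑ b : Fin d,
        dduM κ (fun i => w i * mk B a b i) y s (dv a) (dv b) z)) := by
  have hlog : ∀ (w' : ι → ℝ) (e f : ZZ d), Integrable (fun z : ZZ d =>
      Real.log (1 + uM κ w y s z) * dduM κ w' y s e f z) := by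
    intro w' e f
    obtain ⟨c1, C1, hc1, hC1, h1⟩ := mix_env (d := d) hκ hs le_rfl w' y
    refine tyd_integrable_log hκ hs hw hw1 y (C := C1 * (‖e.1‖ + ‖e.2‖) * (‖f.1‖ + ‖f.2‖)) hc1
      (dduM_continuous κ w' y s e f) fun z => (h1 s le_rfl le_rfl z).2.2.2 e f
  have hlogs : Integrable (fun z : ZZ d =>
      Real.log (1 + uM κ w y s z) * suM κ w y s z) := by
    obtain ⟨c1, C1, hc1, hC1, h1⟩ := mix_env (d := d) hκ hs le_rfl w y
    exact tyd_integrable_log hκ hs hw hw1 y (C := C1) hc1 (suM_continuous κ w y s)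
      fun z => (h1 s le_rfl le_rfl z).2.1
  have h1 : Integrable (fun z : ZZ d =>
      -(c * (Real.log (1 + uM κ w y s z) * suM κ w y s z))
      + ∑ a : Fin d, (κ * s ^ 2 * (Real.log (1 + uM κ w y s z) *
            dduM κ w y s (dx a) (dx a) z)
          + 2 * s * (Real.log (1 + uM κ w y s z) * dduM κ w y s (dx a) (dv a) z))
      + ∑ a : Fin d, ∑ b : Fin d, Real.log (1 + uM κ w y s z) *
        dduM κ (fun i => w i * mk B a b i) y s (dv a) (dv b) z) := by
    refine ((hlogs.const_mul c).neg.add ?_).add ?_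
    · exact integrable_finsetSum _ fun a _ =>
        ((hlog w _ _).const_mul _).add ((hlog w _ _).const_mul _)
    · exact integrable_finsetSum _ fun a _ => integrable_finsetSum _ fun b _ => hlog _ _ _
  refine h1.congr (Filter.Eventually.of_forall fun z => ?_)
  simp only [mul_add, Finset.mul_sum]
  congr 1
  congr 1
  · ring
  · refine Finset.sum_congr rfl fun a _ => ?_
    ring

theorem tyd_rightInvariant : (volume : Measure (ZZ d)).IsAddRightInvariant :=
  inferInstanceAs (((volume : Measure (E d)).prod (volume : Measure (E d))).IsAddRightInvariant)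

/-- (T2), finite form. -/
theorem Phi_next_le {lam Lam κ c δ S : ℝ} (hd : 1 ≤ d) (hlam : 0 < lam) (hLam : lam ≤ Lam)
    (hκ : 0 < κ) (hc : 0 < c) (hδ : 0 < δ) (hS : δ ≤ S) :
    ∃ h0 C : ℝ, 0 < h0 ∧ 0 < C ∧
      ∀ (ι : Type) [Fintype ι] (w : ι → ℝ) (y : ι → ZZ d) (B : ι → Matrix (Fin d) (Fin d) ℝ),
      (∀ i, 0 ≤ w i) → ∑ i, w i = 1 → (∀ i, EllB lam Lam (B i)) →
      ∀ s h, δ ≤ s → s ≤ S → 0 < h → h ≤ h0 →
      Phi (nextU κ h w y B s) ≤ Phi (uM κ w y (s + c * h)) + h * DD κ c w y B (s + c * h)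
        + C * (h * Real.sqrt h) := by
  obtain ⟨ε0, c', C0, hε0, hε1, hc', hC0, H⟩ :=
    uE_bounds (d := d) hd hlam hLam hκ hc hδ (show δ ≤ S + c by linarith)
  have := tyd_rightInvariant (d := d)
  set I : ℝ := ∫ z : ZZ d, Env c' z with hI
  have hI0 : 0 ≤ I := integral_nonneg fun z => (Env_pos c' z).le
  set Cm : ℝ := max C0 1 with hCm
  have hCm1 : 1 ≤ Cm := le_max_right _ _
  refine ⟨min 1 (ε0 ^ 2), 5 * Cm ^ 2 * C0 * I + 1, lt_min one_pos (by positivity), by positivity,
    ?_⟩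
  intro ι _ w y B hw hw1 hB s h hsδ hsS hh hh0
  have hh1 : h ≤ 1 := hh0.trans (min_le_left _ _)
  have hh2 : h ≤ ε0 ^ 2 := hh0.trans (min_le_right _ _)
  have hsq : Real.sqrt h ≤ ε0 := by
    rw [Real.sqrt_le_left hε0.le]; exact hh2
  have hsq0 : 0 ≤ Real.sqrt h := Real.sqrt_nonneg h
  have hsqm : Real.sqrt h ^ 2 = h := Real.sq_sqrt hh.le
  set σ : ℝ := s + c * h with hσ
  have hch : 0 < c * h := by positivity
  have hσδ : δ ≤ σ := by rw [hσ]; linarith
  have hσS : σ ≤ S + c := by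
    have : c * h ≤ c * 1 := mul_le_mul_of_nonneg_left hh1 hc.le
    rw [hσ]; linarith
  have hσ0 : 0 < σ := hδ.trans_le hσδ
  have hpos := fun z => uM_pos (d := d) hκ hσ0 hw hw1 y z
  -- the majorant
  set W : ZZ d → ℝ := fun z => C0 * ∑ i, w i * Env c' (z - y i) with hW
  have hW0 : ∀ z, 0 ≤ W z := fun z => mul_nonneg hC0.le
    (Finset.sum_nonneg fun i _ => mul_nonneg (hw i) (Env_pos _ _).le)
  have hWC : ∀ z, W z ≤ Cm := fun z => by
    have h1 : ∑ i, w i * Env c' (z - y i) ≤ ∑ i, w i * 1 :=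
      Finset.sum_le_sum fun i _ => mul_le_mul_of_nonneg_left (Env_le_one hc'.le _) (hw i)
    rw [← Finset.sum_mul, hw1, one_mul] at h1
    calc W z ≤ C0 * 1 := mul_le_mul_of_nonneg_left h1 hC0.le
      _ = C0 := mul_one _
      _ ≤ Cm := le_max_left _ _
  have hWi : Integrable W := by
    refine Integrable.const_mul (integrable_finsetSum _ fun i _ => Integrable.const_mul ?_ _) _
    exact (integrable_Env hc').comp_sub_right (y i)
  have hWint : ∫ z, W z = C0 * I := by
    have h1 : ∫ z, W z = C0 * ∫ z, ∑ i, w i * Env c' (z - y i) := integral_const_mul _ _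
    rw [h1, integral_finsetSum _ fun i _ =>
      Integrable.const_mul ((integrable_Env hc').comp_sub_right (y i)) _]
    have h2 : ∀ i ∈ (Finset.univ : Finset ι), ∫ z : ZZ d, w i * Env c' (z - y i) = w i * I := by
      intro i _
      rw [integral_const_mul, integral_sub_right_eq_self (fun z : ZZ d => Env c' z) (y i)]
    rw [Finset.sum_congr rfl h2, ← Finset.sum_mul, hw1, one_mul]
  -- pointwise
  have hpt : ∀ z : ZZ d, 0 ≤ uE κ c w y B σ (Real.sqrt h) z ∧
      phi (uE κ c w y B σ (Real.sqrt h) z) ≤ phi (uM κ w y σ z) +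
      h * (Real.log (1 + uM κ w y σ z) *
        (-(c * suM κ w y σ z)
          + ∑ a : Fin d, (κ * σ ^ 2 * dduM κ w y σ (dx a) (dx a) z
              + 2 * σ * dduM κ w y σ (dx a) (dv a) z)
          + ∑ a : Fin d, ∑ b : Fin d,
              dduM κ (fun i => w i * mk B a b i) y σ (dv a) (dv b) z)) +
      5 * Cm ^ 2 * (h * Real.sqrt h) * W z := by
    intro z
    obtain ⟨f1, f2, f3, g1, g2, g3, g4, g5, g6⟩ := H ι w y B hw hw1 hB σ hσδ hσS z
    have hmem : Real.sqrt h ∈ Icc (0 : ℝ) ε0 := ⟨hsq0, hsq⟩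
    refine ⟨(g4 _ hmem).1, ?_⟩
    have h1 := taylor_phi hε0 (hW0 z) (hWC z) hCm1 g1 g2 g3 g5 g4 _ hmem
    rw [uE_zero hd, g6, hsqm] at h1
    refine h1.trans (le_of_eq ?_)
    have h2 : Real.sqrt h ^ 3 = h * Real.sqrt h := by
      rw [pow_succ, hsqm]
    rw [h2]
    ring
  -- integrate
  have hPhi : Phi (nextU κ h w y B s) = ∫ z : ZZ d, phi (uE κ c w y B σ (Real.sqrt h) z) := by
    unfold Phi
    rw [← integral_shear h fun z => phi (nextU κ h w y B s z)]
    refine integral_congr_ae (Filter.Eventually.of_forall fun z => ?_)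
    show phi (nextU κ h w y B s (z.1 - h • z.2, z.2)) = _
    rw [nextU_shear (c := c) hh.le]
  have i1 := tyd_integrable_uM_phi hκ hσ0 hw hw1 y
  have i2 := tyd_integrable_DD (c := c) hκ hσ0 hw hw1 y (B := B)
  have i3 := hWi.const_mul (5 * Cm ^ 2 * (h * Real.sqrt h))
  rw [hPhi]
  have hmono := integral_mono_of_nonneg
    (Filter.Eventually.of_forall fun z => tyd_phi_nonneg (hpt z).1)
    ((i1.add (i2.const_mul h)).add i3)
    (Filter.Eventually.of_forall fun z => (hpt z).2)
  refine hmono.trans ?_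
  have e1 : ∫ z : ZZ d, (((fun z : ZZ d => phi (uM κ w y σ z)) +
      (fun z : ZZ d => h * (Real.log (1 + uM κ w y σ z) *
        (-(c * suM κ w y σ z)
          + ∑ a : Fin d, (κ * σ ^ 2 * dduM κ w y σ (dx a) (dx a) z
              + 2 * σ * dduM κ w y σ (dx a) (dv a) z)
          + ∑ a : Fin d, ∑ b : Fin d,
              dduM κ (fun i => w i * mk B a b i) y σ (dv a) (dv b) z))) +
      (fun z : ZZ d => 5 * Cm ^ 2 * (h * Real.sqrt h) * W z) : ZZ d → ℝ) z) =
      Phi (uM κ w y σ) + h * DD κ c w y B σ + 5 * Cm ^ 2 * (h * Real.sqrt h) * (C0 * I) := by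
    rw [integral_add' (i1.add (i2.const_mul h)) i3, integral_add' i1 (i2.const_mul h),
      integral_const_mul, integral_const_mul, hWint]
    rfl
  rw [e1]
  have h5 : 0 ≤ h * Real.sqrt h := by positivity
  nlinarith

end Pool.Agent.Lib.MP_eee7b5_an
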