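import Pool.Agent.Lib.MP_eee7b5_an.Kern
import Pool.Agent.Lib.MP_eee7b5_an.TaylorA
import Pool.Agent.Lib.MP_eee7b5_an.TaylorB
import Pool.Agent.Lib.MP_eee7b5_an.TaylorC
import Pool.Agent.Lib.MP_eee7b5_an.TaylorD
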